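import Pool.Agent.Lib.MP_60829e_nt.FM.Form

/-! # The universal relation at the data of a point -/

open MvPolynomial

namespace MP60829e.FM

open MP60829e.ST (Qa Lsp Lt)
open MP60829e.SB
open MP60829e.HD (PR)
open Finset (range Ico)
open MP60829e.SL (smul_eq)

/-- The positions of the coefficients of the linear forms. -/
def TF (al : ℕ) (Q Q' : Finset ℕ) : Finset (ℕ × ℕ) :=
  (Q ×ˢ ((range al ∪ Q') \ Q)).filter fun p => p.2 < p.1

/-- The positions of the coefficients of the quadratic form. -/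
def SF (al : ℕ) (Q Q' : Finset ℕ) : Finset (ℕ × ℕ) :=
  ((range al ∪ Q') \ Q) ×ˢ ((range al ∪ Q') \ Q)

theorem sum_TF {al : ℕ} {Q Q' W : Finset ℕ} (hW : W = range al ∪ Q') (f : ℕ → ℕ → ℂ) {c : ℕ}
    (hc : c ∈ Q) : ∑ p ∈ TF al Q Q', (if p.1 = c then f p.1 p.2 else 0) =
      ∑ b ∈ W \ Q, if b < c then f c b else 0 := by
  unfold TF
  rw [Finset.sum_filter, Finset.sum_product, Finset.sum_eq_single c, ← hW]
  · refine Finset.sum_congr rfl fun b _ => ?_
    rw [if_pos rfl]
  · intro c' _ hc'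
    refine Finset.sum_eq_zero fun b _ => ?_
    rw [if_neg hc', ite_self]
  · intro h
    exact absurd hc h

theorem sum_SF {al : ℕ} {Q Q' W : Finset ℕ} (hW : W = range al ∪ Q') (f : ℕ → ℕ → ℂ) :
    ∑ p ∈ SF al Q Q', f p.1 p.2 = ∑ a ∈ W \ Q, ∑ b ∈ W \ Q, f a b := by
  unfold SF
  rw [Finset.sum_product, ← hW]

/-- The parameters of the data. -/
def zF {al : ℕ} {Q Q' : Finset ℕ} (A s τ : ℕ → ℕ → Qa) (γ : Option {c // c ∈ Q} → Qa) :
    ZF (PR al Q') (TF al Q Q') (SF al Q Q') Q → Qa :=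
  Sum.elim (Sum.elim (fun p => τ p.1.2 p.1.1) fun p => A p.1.1 p.1.2)
    (Sum.elim (fun p => s p.1.1 p.1.2) γ)

theorem conv {al be : ℕ} {x : ℕ → ℂ} {L : Submodule Qa ℂ} {Q Q' : Finset ℕ}
    {A s τ : ℕ → ℕ → Qa} {m : ℕ → ℂ} {m' : ℂ} {y : ℕ → ℂ} (d : Dat al be x L Q Q' A s τ m m' y)
    (γ : Option {c // c ∈ Q} → Qa) (w : Option {c // c ∈ Q} → ℂ)
    (hm : ∀ c : {c // c ∈ Q}, m c.1 = (γ (some c) : ℂ) + w (some c))
    (hm' : m' = (γ none : ℂ) + w none) :
    eval (pv (zF A s τ γ) (Sum.elim (fun i : Fin (be + 1) => x i.1) w))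
      (GF (PR al Q') (TF al Q Q') (SF al Q Q') Q (be + 1)) = 0 ∧
    (LinearIndependent Qa fun o : {i : Fin (be + 1) // i.1 ∈ Q'} ⊕ Option {c // c ∈ Q} =>
      eval (pv (zF A s τ γ) (Sum.elim (fun i : Fin (be + 1) => x i.1) w))
        (pderiv (Sum.inr (Sum.map Subtype.val id o))
          (GF (PR al Q') (TF al Q Q') (SF al Q Q') Q (be + 1)))) ∧
    ∀ c : {c // c ∈ Q}, eval (pv (zF A s τ γ) (Sum.elim (fun i : Fin (be + 1) => x i.1) w))
      (pderiv (Sum.inr (Sum.inr (some c)))
        (GF (PR al Q') (TF al Q Q') (SF al Q Q') Q (be + 1))) =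
        ∑ b ∈ range al ∪ Q', (A c.1 b : ℂ) * y b := by
  classical
  obtain ⟨z, hz⟩ : ∃ z : ZF (PR al Q') (TF al Q Q') (SF al Q Q') Q → Qa, z = zF A s τ γ :=
    ⟨_, rfl⟩
  obtain ⟨X, hX⟩ : ∃ X : Fin (be + 1) ⊕ Option {c // c ∈ Q} → ℂ,
      X = Sum.elim (fun i : Fin (be + 1) => x i.1) w := ⟨_, rfl⟩
  obtain ⟨W, hW⟩ : ∃ W : Finset ℕ, W = range al ∪ Q' := ⟨_, rfl⟩
  rw [← hz, ← hX, ← hW]
  have hz1 : ∀ p : {p // p ∈ PR al Q'}, z (Sum.inl (Sum.inl p)) = τ p.1.2 p.1.1 := fun p => by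
    rw [hz]; rfl
  have hz2 : ∀ p : {p // p ∈ TF al Q Q'}, z (Sum.inl (Sum.inr p)) = A p.1.1 p.1.2 := fun p => by
    rw [hz]; rfl
  have hz3 : ∀ p : {p // p ∈ SF al Q Q'}, z (Sum.inr (Sum.inl p)) = s p.1.1 p.1.2 := fun p => by
    rw [hz]; rfl
  have hz4 : ∀ k, z (Sum.inr (Sum.inr k)) = γ k := fun p => by
    rw [hz]; rfl
  have hX1 : (HD.ext fun i => X (Sum.inl i)) = fun i => if i < be + 1 then x i else 0 := by
    funext i
    unfold HD.ext
    rw [hX]
    by_cases h : i < be + 1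
    · rw [dif_pos h, if_pos h]
      rfl
    · rw [dif_neg h, if_neg h]
  have hX2 : ∀ k, X (Sum.inr k) = w k := fun k => by rw [hX]; rfl
  have hWlt : ∀ i ∈ W, i < be + 1 := by
    intro i hi
    rw [hW, Finset.mem_union, Finset.mem_range] at hi
    rcases hi with h | h
    · have := Finset.mem_Ico.1 (d.sub' d.mem')
      omega
    · exact (Finset.mem_Ico.1 (d.sub' h)).2
  have hQW : Q ⊆ W := by rw [hW]; exact d.sub
  -- the new coordinates
  have hyv : ∀ i ∈ W, yv z X i = y i := by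
    intro i hi
    unfold yv yf
    rw [hX1, d.hy]
    dsimp only
    have h1 : i ∉ Ico al (be + 1) \ Q' := by
      rw [hW, Finset.mem_union, Finset.mem_range] at hi
      rw [Finset.mem_sdiff, Finset.mem_Ico]
      rintro ⟨h2, h3⟩
      rcases hi with h | h
      · omega
      · exact h3 h
    rw [if_pos (hWlt i hi), if_neg h1, sub_zero]
    congr 1
    simp only [hz1]
    rw [Finset.sum_coe_sort (PR al Q') (fun p : (Σ _ : ℕ, ℕ) =>
      if p.1 = i then (τ p.2 p.1 : ℂ) * (if p.2 < be + 1 then x p.2 else 0) else 0)]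
    unfold HD.PR
    rw [Finset.sum_sigma]
    dsimp only
    by_cases h2 : i ∈ Q'
    · rw [if_pos h2, Finset.sum_eq_single i]
      · refine Finset.sum_congr rfl fun b hb => ?_
        have h3 := Finset.mem_Ico.1 (Finset.mem_sdiff.1 hb).1
        have h4 := hWlt i hi
        rw [if_pos rfl, if_pos (by omega)]
      · intro c _ hc
        exact Finset.sum_eq_zero fun b _ => by rw [if_neg hc]
      · intro h3
        exact absurd h2 h3
    · rw [if_neg h2]
      refine Finset.sum_eq_zero fun c hc => Finset.sum_eq_zero fun b _ => ?_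
      rw [if_neg]
      rintro rfl
      exact h2 hc
  -- the linear forms
  have hev : ∀ c ∈ Q, ev z X c = ∑ b ∈ W, (A c b : ℂ) * y b := by
    intro c hc
    unfold ev ef
    rw [hyv c (hQW hc), ← Finset.add_sum_erase _ _ (hQW hc), d.A1 c hc]
    have h0 : ((1 : Qa) : ℂ) * y c = y c := one_mul _
    rw [h0]
    congr 1
    simp only [hz2]
    rw [Finset.sum_coe_sort (TF al Q Q') (fun p : ℕ × ℕ =>
      if p.1 = c then (A p.1 p.2 : ℂ) * yv z X p.2 else 0),
      sum_TF hW (fun a b => (A a b : ℂ) * yv z X b) hc]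
    have h1 : ∀ b ∈ W \ Q, (if b < c then (A c b : ℂ) * yv z X b else 0) =
        (A c b : ℂ) * y b := by
      intro b hb
      rw [Finset.mem_sdiff] at hb
      rw [hyv b hb.1]
      by_cases h2 : b < c
      · rw [if_pos h2]
      · rw [if_neg h2, d.A0 c hc b (fun h => hb.2 (h ▸ hc)) (Or.inr (by
          have : b ≠ c := fun h => hb.2 (h ▸ hc)
          omega))]
        exact (zero_mul _).symm
    rw [Finset.sum_congr rfl h1]
    apply Finset.sum_subset
    · intro b hb
      rw [Finset.mem_sdiff] at hb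
      exact Finset.mem_erase.2 ⟨fun h => hb.2 (h ▸ hc), hb.1⟩
    · intro b hb hb'
      rw [Finset.mem_erase] at hb
      rw [Finset.mem_sdiff, not_and, not_not] at hb'
      rw [d.A0 c hc b hb.1 (Or.inl (hb' hb.2))]
      exact zero_mul _
  -- the derivatives
  have hder : ∀ i : {i : Fin (be + 1) // i.1 ∈ Q'}, eval (pv z X)
      (pderiv (Sum.inr (Sum.inl i.1)) (GF (PR al Q') (TF al Q Q') (SF al Q Q') Q (be + 1))) =
      ∑ c ∈ Q, (A c i.1.1 : ℂ) * m c + 2 * ∑ a ∈ W, (s a i.1.1 : ℂ) * y a := by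
    rintro ⟨i, hi⟩
    have hiW : i.1 ∈ W := by rw [hW]; exact Finset.mem_union_right _ hi
    rw [eval_d_GF z X i (by
      intro p hp h
      have h1 := (Finset.mem_sdiff.1 (Finset.mem_sigma.1 hp).2).2
      rw [h] at h1
      exact h1 hi)]
    simp only [hz2, hz3, hz4, hX2]
    congr 1
    · rw [← Finset.sum_coe_sort Q]
      refine Finset.sum_congr rfl fun c _ => ?_
      rw [← hm c, mul_comm]
      congr 1
      rw [Finset.sum_coe_sort (TF al Q Q') (fun p : ℕ × ℕ =>
        if p.1 = c.1 then (if p.2 = i.1 then (A p.1 p.2 : ℂ) else 0) else 0)]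
      by_cases h1 : c.1 = i.1
      · rw [if_pos h1, ← h1, d.A1 c.1 c.2, Finset.sum_eq_zero, add_zero]
        · rfl
        · intro p hp
          unfold TF at hp
          rw [Finset.mem_filter] at hp
          by_cases h2 : p.1 = c.1
          · rw [if_pos h2, if_neg (by omega)]
          · rw [if_neg h2]
      · rw [if_neg h1, zero_add]
        by_cases h2 : (c.1, i.1) ∈ TF al Q Q'
        · rw [Finset.sum_eq_single_of_mem _ h2]
          · rw [if_pos rfl, if_pos rfl]
          · intro p _ hp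
            by_cases h3 : p.1 = c.1
            · by_cases h4 : p.2 = i.1
              · exact absurd (Prod.ext h3 h4) hp
              · rw [if_pos h3, if_neg h4]
            · rw [if_neg h3]
        · rw [Finset.sum_eq_zero]
          · rw [d.A0 c.1 c.2 i.1 (fun h => h1 h.symm)]
            · rfl
            · by_contra hcon
              rw [not_or] at hcon
              apply h2
              unfold TF
              rw [Finset.mem_filter, Finset.mem_product, Finset.mem_sdiff, ← hW]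
              exact ⟨⟨c.2, hiW, hcon.1⟩, by
                dsimp only
                omega⟩
          · intro p hp
            by_cases h3 : p.1 = c.1
            · by_cases h4 : p.2 = i.1
              · have h5 : p = (c.1, i.1) := Prod.ext h3 h4
                exact absurd (h5 ▸ hp) h2
              · rw [if_pos h3, if_neg h4]
            · rw [if_neg h3]
    · rw [Finset.sum_coe_sort (SF al Q Q') (fun p : ℕ × ℕ => (s p.1 p.2 : ℂ) *
        (yv z X p.1 * (if p.2 = i.1 then 1 else 0) + (if p.1 = i.1 then 1 else 0) *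
          yv z X p.2)), sum_SF hW (fun a b => (s a b : ℂ) * (yv z X a *
            (if b = i.1 then 1 else 0) + (if a = i.1 then 1 else 0) * yv z X b))]
      simp only [mul_add, Finset.sum_add_distrib]
      have h0 : ∀ a ∈ W, a ∉ W \ Q → (s a i.1 : ℂ) * y a = 0 := by
        intro a ha ha'
        rw [Finset.mem_sdiff, not_and, not_not] at ha'
        rw [d.s0 a (ha' ha)]
        exact zero_mul _
      by_cases h1 : i.1 ∈ Q
      · have h2 : ∀ a, (s a i.1 : ℂ) = 0 := fun a => by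
          rw [d.symm, d.s0 _ h1]; rfl
        have h3 : ∑ a ∈ W, (s a i.1 : ℂ) * y a = 0 :=
          Finset.sum_eq_zero fun a _ => by rw [h2, zero_mul]
        rw [h3, mul_zero]
        have h4 : ∀ b ∈ W \ Q, ¬ b = i.1 := by
          intro b hb h5
          exact (Finset.mem_sdiff.1 hb).2 (h5 ▸ h1)
        have h5 : ∑ a ∈ W \ Q, ∑ b ∈ W \ Q, (s a b : ℂ) * (yv z X a *
            (if b = i.1 then 1 else 0)) = 0 := by
          refine Finset.sum_eq_zero fun a _ => Finset.sum_eq_zero fun b hb => ?_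
          rw [if_neg (h4 b hb), mul_zero, mul_zero]
        have h6 : ∑ a ∈ W \ Q, ∑ b ∈ W \ Q, (s a b : ℂ) * ((if a = i.1 then 1 else 0) *
            yv z X b) = 0 := by
          refine Finset.sum_eq_zero fun a ha => Finset.sum_eq_zero fun b _ => ?_
          rw [if_neg (h4 a ha), zero_mul, mul_zero]
        rw [h5, h6, add_zero]
      · have hiS : i.1 ∈ W \ Q := Finset.mem_sdiff.2 ⟨hiW, h1⟩
        have h5 : ∑ a ∈ W \ Q, ∑ b ∈ W \ Q, (s a b : ℂ) * (yv z X a *
            (if b = i.1 then 1 else 0)) = ∑ a ∈ W, (s a i.1 : ℂ) * y a := by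
          rw [← Finset.sum_subset Finset.sdiff_subset h0]
          refine Finset.sum_congr rfl fun a ha => ?_
          rw [Finset.sum_eq_single_of_mem _ hiS]
          · rw [if_pos rfl, mul_one, hyv a (Finset.mem_sdiff.1 ha).1]
          · intro b _ hb
            rw [if_neg hb, mul_zero, mul_zero]
        have h6 : ∑ a ∈ W \ Q, ∑ b ∈ W \ Q, (s a b : ℂ) * ((if a = i.1 then 1 else 0) *
            yv z X b) = ∑ a ∈ W, (s a i.1 : ℂ) * y a := by
          rw [← Finset.sum_subset Finset.sdiff_subset h0, Finset.sum_eq_single_of_mem _ hiS]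
          · refine Finset.sum_congr rfl fun b hb => ?_
            rw [if_pos rfl, one_mul, hyv b (Finset.mem_sdiff.1 hb).1, d.symm]
          · intro a _ ha
            refine Finset.sum_eq_zero fun b _ => ?_
            rw [if_neg ha, zero_mul, mul_zero]
        rw [h5, h6, two_mul]
  have hder' : ∀ k : Option {c // c ∈ Q}, eval (pv z X)
      (pderiv (Sum.inr (Sum.inr k)) (GF (PR al Q') (TF al Q Q') (SF al Q Q') Q (be + 1))) =
      k.elim 1 fun c => ∑ b ∈ W, (A c.1 b : ℂ) * y b := by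
    intro k
    rw [eval_d_GF']
    rcases k with _ | c
    · rfl
    · exact hev c.1 c.2
  refine ⟨?_, ?_, ?_⟩
  · rw [eval_GF, ← d.val]
    unfold vf
    simp only [hz3, hz4, hX2, ← hm']
    congr 2
    · rw [← Finset.sum_coe_sort Q]
      refine Finset.sum_congr rfl fun c _ => ?_
      rw [← hm c, hev c.1 c.2, hW]
    · rw [Finset.sum_coe_sort (SF al Q Q') (fun p : ℕ × ℕ => (s p.1 p.2 : ℂ) *
        (yv z X p.1 * yv z X p.2)), sum_SF hW (fun a b => (s a b : ℂ) *
          (yv z X a * yv z X b)), ← hW]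
      have h0 : ∀ a ∈ W, a ∉ W \ Q → ∑ b ∈ W, (s a b : ℂ) * y a * y b = 0 := by
        intro a ha ha'
        rw [Finset.mem_sdiff, not_and, not_not] at ha'
        refine Finset.sum_eq_zero fun b _ => ?_
        rw [d.s0 a (ha' ha)]
        have h1 : ((0 : Qa) : ℂ) = 0 := rfl
        rw [h1, zero_mul, zero_mul]
      rw [← Finset.sum_subset Finset.sdiff_subset h0]
      refine Finset.sum_congr rfl fun a ha => ?_
      have h1 : ∀ b ∈ W, b ∉ W \ Q → (s a b : ℂ) * y a * y b = 0 := by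
        intro b hb hb'
        rw [Finset.mem_sdiff, not_and, not_not] at hb'
        rw [d.symm, d.s0 b (hb' hb)]
        have h1 : ((0 : Qa) : ℂ) = 0 := rfl
        rw [h1, zero_mul, zero_mul]
      rw [← Finset.sum_subset Finset.sdiff_subset h1]
      refine Finset.sum_congr rfl fun b hb => ?_
      rw [hyv a (Finset.mem_sdiff.1 ha).1, hyv b (Finset.mem_sdiff.1 hb).1]
      ring
  · rw [Fintype.linearIndependent_iff]
    intro c hc
    rw [Fintype.sum_sum_type, Fintype.sum_option] at hc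
    simp only [Sum.map_inl, Sum.map_inr, id, hder, hder', Option.elim_none, Option.elim_some,
      smul_eq, mul_one] at hc
    -- extend the coefficients
    obtain ⟨k, hk⟩ : ∃ k : ℕ → Qa, k = fun i => if h : i ∈ Q then c (Sum.inr (some ⟨i, h⟩))
      else 0 := ⟨_, rfl⟩
    have hk1 : ∀ i : {c // c ∈ Q}, k i.1 = c (Sum.inr (some i)) := fun i => by
      rw [hk]
      exact dif_pos i.2
    obtain ⟨k', hk'⟩ : ∃ k' : ℕ → Qa, k' = fun i => if h : i ∈ Q' then
      c (Sum.inl ⟨⟨i, (Finset.mem_Ico.1 (d.sub' h)).2⟩, h⟩) else 0 := ⟨_, rfl⟩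
    have hk1' : ∀ i : {i : Fin (be + 1) // i.1 ∈ Q'}, k' i.1.1 = c (Sum.inl i) := fun i => by
      rw [hk']
      exact dif_pos i.2
    have h1 := d.ind (c (Sum.inr none)) k k' (by
      rw [← hW]
      have e1 : ∑ c' ∈ Q, (k c' : ℂ) * ∑ b ∈ W, (A c' b : ℂ) * y b =
          ∑ i : {c // c ∈ Q}, (c (Sum.inr (some i)) : ℂ) * ∑ b ∈ W, (A i.1 b : ℂ) * y b := by
        rw [← Finset.sum_coe_sort Q]
        exact Finset.sum_congr rfl fun i _ => by rw [hk1]
      have e2 : ∑ b ∈ Q', (k' b : ℂ) * (∑ c ∈ Q, (A c b : ℂ) * m c +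
          2 * ∑ a ∈ W, (s a b : ℂ) * y a) =
          ∑ i : {i : Fin (be + 1) // i.1 ∈ Q'}, (c (Sum.inl i) : ℂ) *
            (∑ c ∈ Q, (A c i.1.1 : ℂ) * m c + 2 * ∑ a ∈ W, (s a i.1.1 : ℂ) * y a) := by
        refine Finset.sum_bij' (fun b hb => (⟨⟨b, (Finset.mem_Ico.1 (d.sub' hb)).2⟩, hb⟩ :
          {i : Fin (be + 1) // i.1 ∈ Q'})) (fun i _ => i.1.1) (fun _ _ => Finset.mem_univ _)
          (fun i _ => i.2) (fun _ _ => rfl) (fun _ _ => rfl) ?_
        intro b hb
        rw [← hk1' ⟨⟨b, (Finset.mem_Ico.1 (d.sub' hb)).2⟩, hb⟩]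
      rw [e1, e2]
      linear_combination hc)
    rintro (i | o)
    · rw [← hk1']
      exact h1.2.2 _ i.2
    · rcases o with _ | i
      · exact h1.1
      · rw [← hk1]
        exact h1.2.1 _ i.2
  · intro c
    rw [hder']
    rfl

end MP60829e.FM
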