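import Pool.Agent.Lib.MP_60829e_nt.FM.Rk
import Pool.Agent.Lib.MP_60829e_nt.HD.Core

/-! # The count of the derivations -/

open MvPolynomial Module

namespace MP60829e.FM

open MP60829e.ST (Qa Lsp Lt)
open MP60829e.PS
open MP60829e.SB
open MP60829e.HD (val Win)

/-- The count: a generic family of points with a relation with the additional coordinates `w`. -/
theorem countF {lam : ℕ → ℂ} (j : ℕ → ℕ) (V0 : ℕ × ℕ → Qa) {al n : ℕ} {I : Type}
    (U : Ultrafilter I) (A : I → {p // p ∈ Win j al n} → Qa)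
    (hA : ∀ P : MvPolynomial {p // p ∈ Win j al n} Qa, P ≠ 0 →
      ∀ᶠ a in (U : Filter I), eval (A a) P ≠ 0)
    (V : I → ℕ × ℕ → Qa) (hV : ∀ a, ∀ p : {p // p ∈ Win j al n}, V a (p.1.1, p.1.2) = A a p)
    (hV0 : ∀ a p, p.1 < al → V a p = V0 p) {ζ κ : Type} [Fintype ζ] [Fintype κ] [DecidableEq κ]
    {r : ℕ} (mu : Fin r → ℂ) (hmu : LinearIndependent Qa mu) (hlog : ∀ l, mu l ∈ Lsp)
    (hml : ∀ b < n, ∀ l < j b, ∃ h : l < r, mu ⟨l, h⟩ = lam l) (w : I → κ × Fin r → Qa)
    (G : MvPolynomial (ζ ⊕ (Fin n ⊕ κ)) ℂ) (z : I → ζ → Qa)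
    (h : ∀ᶠ a in (U : Filter I), eval (pv (z a) (Sum.elim (fun i : Fin n => val lam j (V a) i.1)
      (pt mu (w a)))) G = 0)
    (B : Finset ℕ) (hB : B ⊆ Finset.Ico al n)
    (hli : ∀ᶠ a in (U : Filter I), LinearIndependent Qa fun o : {i : Fin n // i.1 ∈ B} ⊕ κ =>
      eval (pv (z a) (Sum.elim (fun i : Fin n => val lam j (V a) i.1) (pt mu (w a))))
        (pderiv (Sum.inr (Sum.map Subtype.val id o)) G))
    (P : Finset (κ × κ)) (hP : ∀ p ∈ P, (p.2, p.1) ∉ P ∧ p.1 ≠ p.2)
    (hPs : ∀ᶠ a in (U : Filter I), ∀ p ∈ P,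
      eval (pv (z a) (Sum.elim (fun i : Fin n => val lam j (V a) i.1) (pt mu (w a))))
        (pderiv (Sum.inr (Sum.inr p.1)) G) ∈ Submodule.span Qa (Set.range mu) ∧
      eval (pv (z a) (Sum.elim (fun i : Fin n => val lam j (V a) i.1) (pt mu (w a))))
        (pderiv (Sum.inr (Sum.inr p.2)) G) ∈ Submodule.span Qa (Set.range mu)) :
    ∑ b ∈ B, j b + P.card ≤ Fintype.card ζ +
      (B.card + Fintype.card κ) * (B.card + Fintype.card κ - 1) := by
  classical
  obtain ⟨M, hM⟩ : ∃ M : I → (Fin n ⊕ κ) × Fin r → Qa, M = fun a p =>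
      Sum.elim (fun i : Fin n => if p.2.1 < j i.1 then V a (i.1, p.2.1) else 0)
        (fun k => w a (k, p.2)) p.1 := ⟨_, rfl⟩
  have hM1 : ∀ a i l, M a (Sum.inl i, l) = if l.1 < j i.1 then V a (i.1, l.1) else 0 :=
    fun a i l => by rw [hM]; rfl
  have hM2 : ∀ a k l, M a (Sum.inr k, l) = w a (k, l) := fun a k l => by rw [hM]; rfl
  have hpt : ∀ a, Sum.elim (fun i : Fin n => val lam j (V a) i.1) (pt mu (w a)) =
      pt mu (M a) := by
    intro a
    funext o
    rcases o with i | k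
    · rw [Sum.elim_inl]
      unfold val pt
      simp only [hM1]
      have h1 : ∀ l ∈ Finset.range (j i.1), V a (i.1, l) • lam l =
          if h : l < r then (if l < j i.1 then V a (i.1, l) else 0) • mu ⟨l, h⟩ else 0 := by
        intro l hl
        obtain ⟨h2, h3⟩ := hml i.1 i.2 l (Finset.mem_range.1 hl)
        rw [dif_pos h2, if_pos (Finset.mem_range.1 hl), h3]
      rw [Finset.sum_congr rfl h1]
      have h4 : ∑ l : Fin r, (if l.1 < j i.1 then V a (i.1, l.1) else 0) • mu l =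
          ∑ l ∈ Finset.range r,
            if h : l < r then (if l < j i.1 then V a (i.1, l) else 0) • mu ⟨l, h⟩ else 0 := by
        rw [← Fin.sum_univ_eq_sum_range (fun l => if h : l < r then
          (if l < j i.1 then V a (i.1, l) else 0) • mu ⟨l, h⟩ else 0) r]
        refine Finset.sum_congr rfl fun l _ => ?_
        rw [dif_pos l.2]
      rw [h4]
      apply Finset.sum_subset_zero_on_sdiff
      · intro l hl
        obtain ⟨h2, -⟩ := hml i.1 i.2 l (Finset.mem_range.1 hl)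
        exact Finset.mem_range.2 h2
      · intro l hl
        rw [Finset.mem_sdiff, Finset.mem_range, Finset.mem_range] at hl
        rw [dif_pos hl.1, if_neg hl.2, zero_smul]
      · intro l _
        rfl
    · rw [Sum.elim_inr]
      unfold pt
      simp only [hM2]
  obtain ⟨B', hB'⟩ : ∃ B' : Finset (Fin n), B' = Finset.univ.filter fun i => i.1 ∈ B := ⟨_, rfl⟩
  have hmemB' : ∀ i, i ∈ B' ↔ i.1 ∈ B := fun i => by
    rw [hB', Finset.mem_filter]
    exact ⟨fun h1 => h1.2, fun h1 => ⟨Finset.mem_univ _, h1⟩⟩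
  have hcardB : B'.card = B.card := by
    have h1 : B'.map Fin.valEmbedding = B := by
      ext b
      rw [Finset.mem_map]
      constructor
      · rintro ⟨i, hi, rfl⟩
        exact (hmemB' i).1 hi
      · intro hb
        exact ⟨⟨b, (Finset.mem_Ico.1 (hB hb)).2⟩, (hmemB' _).2 hb, rfl⟩
    rw [← h1, Finset.card_map]
  -- derivations
  have hind : AlgebraicIndependent Qa fun s : {p // p ∈ Win j al n} => UP.mk U fun a => A a s := by
    rw [algebraicIndependent_iff]
    intro p hp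
    by_contra hne
    have h2 : UP.mk U (fun i => eval (A i) p) = 0 := by
      rw [← hp]
      exact (FC.up_aeval U A p).symm
    have h3 := UP.mk_eq_zero.1 h2
    obtain ⟨i, hi1, hi2⟩ := (h3.and (hA p hne)).exists
    exact hi2 hi1
  have hex : ∀ s : {p // p ∈ Win j al n}, ∃ D : Derivation Qa (UP U Qa) (UP U Qa),
      ∀ s' : {p // p ∈ Win j al n}, D (UP.mk U fun a => A a s') = if s' = s then 1 else 0 :=
    fun s => exists_derivation_of_algebraicIndependent hind _
  choose D hD using hex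
  have hm1 : (Win j al n).card ≤
      rk (⊤ : Submodule (UP U Qa) (Derivation Qa (UP U Qa) (UP U Qa))) (cls U A) := by
    have h2 := le_rk_of_delta (Finset.univ : Finset {p // p ∈ Win j al n}) (cls U A)
      (fun s => D s.1) (by
        intro s t
        have h3 : cls U A t.1 = UP.mk U fun a => A a t.1 := rfl
        rw [h3, hD]
        simp only [Subtype.ext_iff])
    rwa [Finset.card_univ, Fintype.card_coe] at h2
  -- kill the parameters
  have hm2 := rk_split (⊤ : Submodule (UP U Qa) (Derivation Qa (UP U Qa) (UP U Qa))) (cls U A)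
    (cls U z)
  have hm3 := rk_le_card (⊤ : Submodule (UP U Qa) (Derivation Qa (UP U Qa) (UP U Qa))) (cls U z)
  obtain ⟨Δ1, hΔ1⟩ : ∃ Δ1 : Submodule (UP U Qa) (Derivation Qa (UP U Qa) (UP U Qa)),
      Δ1 = ⊤ ⊓ LinearMap.ker (evl (cls U z)) := ⟨_, rfl⟩
  rw [← hΔ1] at hm2
  -- kill the rows outside B
  obtain ⟨W', hW'⟩ : ∃ W' : Finset (Σ _ : ℕ, ℕ), W' = (Win j al n).filter fun p => p.1 ∉ B :=
    ⟨_, rfl⟩
  have hsub' : ∀ p ∈ W', p ∈ Win j al n := fun p h1 => by
    rw [hW', Finset.mem_filter] at h1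
    exact h1.1
  have hsub : ∀ p : {p // p ∈ W'}, p.1 ∈ Win j al n := fun p => hsub' p.1 p.2
  obtain ⟨A', hA'⟩ : ∃ A' : I → {p // p ∈ W'} → Qa, A' = fun a p => A a ⟨p.1, hsub p⟩ := ⟨_, rfl⟩
  have hm4 := rk_split Δ1 (cls U A) (cls U A')
  have hm5 := rk_le_card Δ1 (cls U A')
  obtain ⟨Δ2, hΔ2⟩ : ∃ Δ2 : Submodule (UP U Qa) (Derivation Qa (UP U Qa) (UP U Qa)),
      Δ2 = Δ1 ⊓ LinearMap.ker (evl (cls U A')) := ⟨_, rfl⟩
  rw [← hΔ2] at hm4
  have hmem2 : ∀ D ∈ Δ2, (∀ t, D (cls U z t) = 0) ∧ ∀ p, D (cls U A' p) = 0 := by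
    intro D hD
    rw [hΔ2, hΔ1] at hD
    obtain ⟨hD1, hD2⟩ := Submodule.mem_inf.1 hD
    exact ⟨fun t => congrFun (LinearMap.mem_ker.1 (Submodule.mem_inf.1 hD1).2) t,
      fun p => congrFun (LinearMap.mem_ker.1 hD2) p⟩
  -- the class of M
  have hMcls : ∀ (i : Fin n) (l : Fin r), (∃ hw : (⟨i.1, l.1⟩ : Σ _ : ℕ, ℕ) ∈ Win j al n,
      cls U M (Sum.inl i, l) = cls U A ⟨_, hw⟩) ∨ (l.1 < j i.1 ∧ i.1 < al) ∨
        cls U M (Sum.inl i, l) = 0 := by
    intro i l
    by_cases h1 : l.1 < j i.1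
    · by_cases h2 : i.1 < al
      · exact Or.inr (Or.inl ⟨h1, h2⟩)
      · refine Or.inl ⟨?_, ?_⟩
        · exact Finset.mem_sigma.2 ⟨Finset.mem_Ico.2 ⟨not_lt.1 h2, i.2⟩, Finset.mem_range.2 h1⟩
        · unfold cls
          congr 1
          funext a
          rw [hM1, if_pos h1]
          exact hV a ⟨⟨i.1, l.1⟩, Finset.mem_sigma.2 ⟨Finset.mem_Ico.2 ⟨not_lt.1 h2, i.2⟩,
            Finset.mem_range.2 h1⟩⟩
    · refine Or.inr (Or.inr ?_)
      unfold cls
      refine UP.mk_eq_zero.2 (Filter.Eventually.of_forall fun a => ?_)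
      rw [hM1]
      exact if_neg h1
  have hMB : ∀ D ∈ Δ2, ∀ i ∉ B', ∀ l, D (cls U M (Sum.inl i, l)) = 0 := by
    intro D hD i hi l
    rcases hMcls i l with ⟨hw, h1⟩ | ⟨h1, h2⟩ | h1
    · rw [h1]
      have h2 : (⟨i.1, l.1⟩ : Σ _ : ℕ, ℕ) ∈ W' := by
        rw [hW', Finset.mem_filter]
        exact ⟨hw, fun h3 => hi ((hmemB' i).2 h3)⟩
      have h3 := (hmem2 D hD).2 ⟨_, h2⟩
      rw [hA'] at h3
      exact h3
    · have h3 : cls U M (Sum.inl i, l) = algebraMap Qa (UP U Qa) (V0 (i.1, l.1)) := by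
        unfold cls
        rw [UP.algebraMap_self]
        congr 1
        funext a
        rw [hM1, if_pos h1]
        exact hV0 a _ h2
      rw [h3, Derivation.map_algebraMap]
    · rw [h1, map_zero]
  -- the rows in B
  obtain ⟨b, hb⟩ : ∃ b : I → {i // i ∈ B'} × Fin r → Qa,
      b = fun a p => M a (Sum.inl p.1.1, p.2) := ⟨_, rfl⟩
  have hm6 : rk Δ2 (cls U A) ≤ rk Δ2 (cls U b) := by
    apply rk_le_of_forall
    intro D hD hDb s
    by_cases hs : s.1.1 ∈ B
    · have h1 := Finset.mem_sigma.1 s.2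
      have h2 : s.1.1 < n := (Finset.mem_Ico.1 h1.1).2
      have h3 : s.1.2 < j s.1.1 := Finset.mem_range.1 h1.2
      obtain ⟨h4, -⟩ := hml _ h2 _ h3
      have h5 := hDb (⟨⟨s.1.1, h2⟩, (hmemB' _).2 hs⟩, ⟨s.1.2, h4⟩)
      have h6 : cls U b (⟨⟨s.1.1, h2⟩, (hmemB' _).2 hs⟩, ⟨s.1.2, h4⟩) = cls U A s := by
        unfold cls
        congr 1
        funext a
        rw [hb]
        dsimp only
        rw [hM1, if_pos h3]
        exact hV a s
      rw [h6] at h5
      exact h5
    · have h1 : s.1 ∈ W' := by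
        rw [hW', Finset.mem_filter]
        exact ⟨s.2, hs⟩
      have h2 := (hmem2 D hD).2 ⟨_, h1⟩
      rw [hA'] at h2
      exact h2
  have hm7 : rk Δ2 (cls U b) + P.card ≤
      (B'.card + Fintype.card κ) * (B'.card + Fintype.card κ - 1) := by
    refine rk_F mu hmu hlog U G z M ?_ B' ?_ P hP ?_ b (fun a i l => by rw [hb]) Δ2
      (fun D hD => (hmem2 D hD).1) hMB
    · exact h.mono fun a ha => by rw [← hpt]; exact ha
    · refine hli.mono fun a ha => ?_
      have h1 : (fun o : {i // i ∈ B'} ⊕ κ =>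
          eval (pv (z a) (pt mu (M a))) (pderiv (Sum.inr (Sum.map Subtype.val id o)) G)) =
          (fun o : {i : Fin n // i.1 ∈ B} ⊕ κ =>
          eval (pv (z a) (Sum.elim (fun i : Fin n => val lam j (V a) i.1) (pt mu (w a))))
            (pderiv (Sum.inr (Sum.map Subtype.val id o)) G)) ∘
            Sum.map (fun i : {i // i ∈ B'} => (⟨i.1, (hmemB' i.1).1 i.2⟩ :
              {i : Fin n // i.1 ∈ B})) id := by
        funext o
        rw [← hpt]
        rcases o with o | o <;> rfl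
      rw [h1]
      refine ha.comp _ ?_
      refine Function.Injective.sumMap ?_ Function.injective_id
      intro i i' hii
      have h2 := congrArg Subtype.val hii
      exact Subtype.ext h2
    · exact hPs.mono fun a ha => by rw [← hpt]; exact ha
  -- the cardinalities
  have hc1 : (Win j al n).card = ∑ b ∈ Finset.Ico al n, j b := by
    unfold Win
    rw [Finset.card_sigma]
    exact Finset.sum_congr rfl fun b _ => Finset.card_range _
  have hc2 : W'.card = ∑ b ∈ Finset.Ico al n \ B, j b := by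
    have h1 : W' = (Finset.Ico al n \ B).sigma fun b => Finset.range (j b) := by
      rw [hW']
      unfold Win
      ext p
      simp only [Finset.mem_filter, Finset.mem_sigma, Finset.mem_sdiff]
      tauto
    rw [h1, Finset.card_sigma]
    exact Finset.sum_congr rfl fun b _ => Finset.card_range _
  have hc3 := Finset.sum_sdiff (f := j) hB
  rw [Fintype.card_coe] at hm5
  rw [hcardB] at hm7
  omega

end MP60829e.FM
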