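import Pool.Agent.Lib.MP_60829e_nt.SY.Fin

/-! # Bases of the logarithms of the coefficients -/

open MvPolynomial Module

namespace MP60829e.FM

open MP60829e.ST (Qa Lsp Lt)

/-- A family of independent logarithms can be extended to a family which spans a finite set. -/
theorem ext_mu {J : ℕ} (lam : Fin J → ℂ) (hlam : LinearIndependent Qa lam)
    (hlog : ∀ l, lam l ∈ Lsp) (S : Finset ℂ) : (∀ v ∈ S, v ∈ Lsp) →
    ∃ (r : ℕ) (h : J ≤ r) (mu : Fin r → ℂ), LinearIndependent Qa mu ∧ (∀ l, mu l ∈ Lsp) ∧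
      (∀ l : Fin J, mu (Fin.castLE h l) = lam l) ∧
        ∀ v ∈ S, v ∈ Submodule.span Qa (Set.range mu) := by
  classical
  induction S using Finset.induction_on with
  | empty =>
    intro _
    exact ⟨J, le_rfl, lam, hlam, hlog, fun l => rfl, fun v hv => absurd hv (Finset.notMem_empty _)⟩
  | insert v S _ ih =>
    intro hS
    obtain ⟨r, h, mu, h1, h2, h3, h4⟩ := ih fun v' hv' => hS v' (Finset.mem_insert_of_mem hv')
    by_cases hv : v ∈ Submodule.span Qa (Set.range mu)
    · refine ⟨r, h, mu, h1, h2, h3, fun v' hv' => ?_⟩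
      rcases Finset.mem_insert.1 hv' with rfl | h5
      · exact hv
      · exact h4 v' h5
    · have hsub : Submodule.span Qa (Set.range mu) ≤
          Submodule.span Qa (Set.range (Fin.snoc mu v : Fin (r + 1) → ℂ)) := by
        refine Submodule.span_mono ?_
        rintro _ ⟨l, rfl⟩
        exact ⟨Fin.castSucc l, Fin.snoc_castSucc ..⟩
      refine ⟨r + 1, by omega, Fin.snoc mu v, linearIndependent_finSnoc.2 ⟨h1, hv⟩, ?_, ?_, ?_⟩
      · intro l
        refine Fin.lastCases ?_ (fun l => ?_) l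
        · rw [Fin.snoc_last]
          exact hS v (Finset.mem_insert_self _ _)
        · rw [Fin.snoc_castSucc]
          exact h2 l
      · intro l
        rw [← h3 l]
        have h5 : Fin.castLE (by omega : J ≤ r + 1) l = Fin.castSucc (Fin.castLE h l) := rfl
        rw [h5, Fin.snoc_castSucc]
      · intro v' hv'
        rcases Finset.mem_insert.1 hv' with rfl | h5
        · refine Submodule.subset_span ⟨Fin.last r, Fin.snoc_last ..⟩
        · exact hsub (h4 v' h5)

/-- A basis of the logarithms of a finite-dimensional space of linear forms in logarithms. -/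
theorem exists_mu {J : ℕ} (lam : Fin J → ℂ) (hlam : LinearIndependent Qa lam)
    (hlog : ∀ l, lam l ∈ Lsp) (L0 : Submodule Qa ℂ) (hfd : FiniteDimensional Qa L0)
    (hL0 : L0 ≤ Lt) :
    ∃ (r : ℕ) (h : J ≤ r) (mu : Fin r → ℂ), LinearIndependent Qa mu ∧ (∀ l, mu l ∈ Lsp) ∧
      (∀ l : Fin J, mu (Fin.castLE h l) = lam l) ∧
        L0 ≤ Submodule.span Qa {(1 : ℂ)} ⊔ Submodule.span Qa (Set.range mu) := by
  classical
  obtain ⟨S, hS⟩ := Module.Finite.iff_fg.1 hfd
  have h1 : ∀ v : ℂ, ∃ w : ℂ, v ∈ S → w ∈ Lsp ∧ v - w ∈ Submodule.span Qa {(1 : ℂ)} := by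
    intro v
    by_cases hv : v ∈ S
    · obtain ⟨β, l, hl, h2⟩ := SY.mem_Lt' (hL0 (hS ▸ Submodule.subset_span hv))
      refine ⟨l, fun _ => ⟨hl, ?_⟩⟩
      rw [h2, add_sub_cancel_right]
      exact Submodule.mem_span_singleton.2 ⟨β, by
        rw [Algebra.smul_def, mul_one]
        rfl⟩
    · exact ⟨0, fun h => absurd h hv⟩
  choose w hw using h1
  obtain ⟨r, h, mu, h2, h3, h4, h5⟩ := ext_mu lam hlam hlog (S.image w) (by
    intro v hv
    obtain ⟨v', hv', rfl⟩ := Finset.mem_image.1 hv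
    exact (hw v' hv').1)
  refine ⟨r, h, mu, h2, h3, h4, ?_⟩
  rw [← hS, Submodule.span_le]
  intro v hv
  have h6 : v = (v - w v) + w v := by ring
  rw [h6]
  exact Submodule.add_mem_sup (hw v hv).2 (h5 _ (Finset.mem_image_of_mem _ hv))

/-- The coordinates of an element. -/
theorem exists_coord {r : ℕ} {mu : Fin r → ℂ} {v : ℂ}
    (h : v ∈ Submodule.span Qa {(1 : ℂ)} ⊔ Submodule.span Qa (Set.range mu)) :
    ∃ (γ : Qa) (e : Fin r → Qa), v = (γ : ℂ) + ∑ l, e l • mu l := by
  obtain ⟨a, ha, b, hb, rfl⟩ := Submodule.mem_sup.1 h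
  obtain ⟨γ, rfl⟩ := Submodule.mem_span_singleton.1 ha
  obtain ⟨e, rfl⟩ := (Submodule.mem_span_range_iff_exists_fun Qa).1 hb
  refine ⟨γ, e, ?_⟩
  rw [Algebra.smul_def, mul_one]
  rfl

end MP60829e.FM
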