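import Pool.Agent.Lib.MP_60829e_nt.FM.Conv
import Pool.Agent.Lib.MP_60829e_nt.FM.Count
import Pool.Agent.Lib.MP_60829e_nt.FM.Mu

/-! # The inductive step for relations with logarithms as coefficients -/

open MvPolynomial Module

namespace MP60829e.FM

open MP60829e.ST (Qa Lsp Lt)
open MP60829e.PS
open MP60829e.SB
open MP60829e.HD (val Win PR Free GenFree)
open MP60829e.SL (smul_eq)

/-- Off a hypersurface in the variables of the rows `al, …, be - 1`, the numbers
`val lam j V b`, `b < be`, satisfy `GoodF`, if the rows `< al` of `V` are those of `V0`. -/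
def GenF (lam : ℕ → ℂ) (j : ℕ → ℕ) (V0 : ℕ × ℕ → Qa) (al be : ℕ) : Prop :=
  ∃ H : MvPolynomial (ℕ × ℕ) Qa, H ≠ 0 ∧ (∀ p ∈ H.vars, al ≤ p.1 ∧ p.1 < be ∧ p.2 < j p.1) ∧
    ∀ V : ℕ × ℕ → Qa, (∀ p, p.1 < al → V p = V0 p) → eval V H ≠ 0 → GoodF be (val lam j V)

/-- The linear independence of `1, x_0, …, x_(n-1)`. -/
theorem free_lin {M : Set (ℕ →₀ ℕ)} (hM : ∀ a : ℕ →₀ ℕ, a.degree ≤ 1 → a ∈ M) {n : ℕ}
    {x : ℕ → ℂ} (h : Free M n x) (c0 : Qa) (c : ℕ → Qa)
    (hsum : (c0 : ℂ) + ∑ b ∈ Finset.range n, (c b : ℂ) * x b = 0) :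
    c0 = 0 ∧ ∀ b < n, c b = 0 := by
  classical
  obtain ⟨P, hP⟩ : ∃ P : MvPolynomial ℕ Qa, P = C c0 + ∑ b ∈ Finset.range n, C (c b) * X b :=
    ⟨_, rfl⟩
  have hco : ∀ a, coeff a P = (if 0 = a then c0 else 0) +
      ∑ b ∈ Finset.range n, if Finsupp.single b 1 = a then c b else 0 := by
    intro a
    rw [hP, coeff_add, coeff_sum, coeff_C]
    congr 1
    refine Finset.sum_congr rfl fun b _ => ?_
    rw [coeff_C_mul, coeff_X', mul_ite, mul_one, mul_zero]
  have h0 : P = 0 := by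
    refine h P ?_ ?_
    · intro a ha
      rw [MvPolynomial.mem_support_iff, hco] at ha
      by_cases h1 : 0 = a
      · rw [← h1]
        exact ⟨hM 0 (by simp), fun b hb => absurd hb (by simp)⟩
      · rw [if_neg h1, zero_add] at ha
        obtain ⟨b, hb, hb'⟩ := Finset.exists_ne_zero_of_sum_ne_zero ha
        have h2 : Finsupp.single b 1 = a := by
          by_contra h3
          exact hb' (if_neg h3)
        rw [← h2]
        refine ⟨hM _ (by simp), fun b' hb'' => ?_⟩
        have h3 := Finsupp.support_single_subset hb''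
        rw [Finset.mem_singleton] at h3
        rw [h3]
        exact Finset.mem_range.1 hb
    · rw [hP, map_add, map_sum, algHom_C, ← hsum]
      congr 1
      refine Finset.sum_congr rfl fun b _ => ?_
      rw [map_mul, algHom_C, aeval_X]
      rfl
  constructor
  · have h1 := hco 0
    rw [h0, coeff_zero, if_pos rfl, Finset.sum_eq_zero, add_zero] at h1
    · exact h1.symm
    · intro b _
      rw [if_neg]
      intro h2
      have h3 := DFunLike.congr_fun h2 b
      simp at h3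
  · intro b hb
    have h1 := hco (Finsupp.single b 1)
    rw [h0, coeff_zero, if_neg, zero_add, Finset.sum_eq_single b] at h1
    · rw [if_pos rfl] at h1
      exact h1.symm
    · intro b' _ hb'
      rw [if_neg]
      intro h2
      exact hb' (Finsupp.single_left_injective one_ne_zero h2)
    · intro h2
      exact absurd (Finset.mem_range.2 hb) h2
    · intro h2
      have h3 := DFunLike.congr_fun h2 b
      simp at h3

/-- The coefficients of all relations between the numbers lie in a fixed space. -/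
theorem exists_L (lam : ℕ → ℂ) (hlog : ∀ i, lam i ∈ Lsp) (j : ℕ → ℕ) (n : ℕ) :
    ∃ L : Submodule Qa ℂ, FiniteDimensional Qa L ∧ L ≤ Lt ∧ (1 : ℂ) ∈ L ∧
      (∀ (V : ℕ × ℕ → Qa), ∀ b < n, val lam j V b ∈ L) ∧
      ∀ (V : ℕ × ℕ → Qa), (∀ (c0 : Qa) (c : ℕ → Qa),
        (c0 : ℂ) + ∑ b ∈ Finset.range n, (c b : ℂ) * val lam j V b = 0 →
          c0 = 0 ∧ ∀ b < n, c b = 0) → ∀ l : ℕ → ℂ, (∀ b, l b ∈ Lt) →
          ∑ b ∈ Finset.range n, l b * val lam j V b ∈ Lt →
          (∀ b < n, l b ∈ L) ∧ ∑ b ∈ Finset.range n, l b * val lam j V b ∈ L := by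
  classical
  obtain ⟨r, hr⟩ : ∃ r, ∀ b < n, j b ≤ r + 1 :=
    ⟨(Finset.range n).sup j, fun b hb => (Finset.le_sup (Finset.mem_range.2 hb)).trans
      (Nat.le_succ _)⟩
  obtain ⟨lam', hlam'⟩ : ∃ lam' : Fin (r + 1) → ℂ, lam' = fun i => lam i.1 := ⟨_, rfl⟩
  obtain ⟨L0, hf, hle, hL0⟩ := SY.exists_L0 (n := n) (s := n + 1) (N := 0) lam'
    (Fin.snoc (fun i : Fin n => X (Sum.inr i)) 1)
  have hval : ∀ V : ℕ × ℕ → Qa, ∀ i : Fin n, TV.pt lam' (fun p : Fin n × Fin (r + 1) =>
      if p.2.1 < j p.1.1 then V (p.1.1, p.2.1) else 0) i = val lam j V i.1 := by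
    intro V i
    unfold TV.pt val
    rw [hlam']
    dsimp only
    rw [Fin.sum_univ_eq_sum_range (fun l => (if l < j i.1 then V (i.1, l) else 0) • lam l) (r + 1)]
    rw [← Finset.sum_subset (Finset.range_subset_range.2 (hr i.1 i.2))]
    · refine Finset.sum_congr rfl fun l hl => ?_
      rw [if_pos (Finset.mem_range.1 hl)]
    · intro l _ hl
      rw [if_neg (fun h1 => hl (Finset.mem_range.2 h1)), zero_smul]
  have hmem : ∀ (V : ℕ × ℕ → Qa), ∀ b < n, val lam j V b ∈
      Submodule.span Qa (Set.range lam') := by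
    intro V b hb
    rw [← hval V ⟨b, hb⟩]
    unfold TV.pt
    exact Submodule.sum_mem _ fun l _ => Submodule.smul_mem _ _ (Submodule.subset_span ⟨l, rfl⟩)
  have hfd1 : FiniteDimensional Qa (Submodule.span Qa {(1 : ℂ)}) :=
    FiniteDimensional.span_of_finite Qa (Set.finite_singleton _)
  have hfd2 : FiniteDimensional Qa (Submodule.span Qa (Set.range lam')) :=
    FiniteDimensional.span_of_finite Qa (Set.finite_range _)
  refine ⟨L0 ⊔ (Submodule.span Qa {(1 : ℂ)} ⊔ Submodule.span Qa (Set.range lam')), inferInstance,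
    ?_, ?_, ?_, ?_⟩
  · refine sup_le hle (sup_le ?_ ?_)
    · rw [Submodule.span_le]
      intro v hv
      rw [Set.mem_singleton_iff.1 hv]
      exact SY.one_mem_Lt
    · rw [Submodule.span_le]
      rintro _ ⟨l, rfl⟩
      rw [hlam']
      exact SY.Lsp_le_Lt (hlog _)
  · exact Submodule.mem_sup_right (Submodule.mem_sup_left (Submodule.mem_span_singleton_self _))
  · intro V b hb
    exact Submodule.mem_sup_right (Submodule.mem_sup_right (hmem V b hb))
  · intro V hfree l hl hsum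
    obtain ⟨q, hq⟩ : ∃ q : Fin (n + 1) → ℂ, q = Fin.snoc (fun i : Fin n => val lam j V i.1) 1 :=
      ⟨_, rfl⟩
    have hev : ∀ t, eval (Sum.elim (fun l : Fin 0 => (((0 : Fin 0 → Qa) l : Qa) : ℂ))
        (TV.pt lam' fun p : Fin n × Fin (r + 1) =>
          if p.2.1 < j p.1.1 then V (p.1.1, p.2.1) else 0))
        ((Fin.snoc (fun i : Fin n => X (Sum.inr i)) 1 :
          Fin (n + 1) → MvPolynomial (Fin 0 ⊕ Fin n) ℂ) t) = q t := by
      intro t
      rw [hq]
      refine Fin.lastCases ?_ (fun i => ?_) t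
      · rw [Fin.snoc_last, Fin.snoc_last, map_one]
      · rw [Fin.snoc_castSucc, Fin.snoc_castSucc, eval_X, Sum.elim_inr, hval]
    have h1 := hL0 0 (fun p : Fin n × Fin (r + 1) =>
        if p.2.1 < j p.1.1 then V (p.1.1, p.2.1) else 0)
      (Fin.snoc (fun i : Fin n => l i.1) (-∑ b ∈ Finset.range n, l b * val lam j V b)) (by
        intro t
        refine Fin.lastCases ?_ (fun i => ?_) t
        · rw [Fin.snoc_last]
          exact Lt.neg_mem hsum
        · rw [Fin.snoc_castSucc]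
          exact hl _) (by
      rw [Fintype.linearIndependent_iff]
      intro c hc
      simp only [hev] at hc
      rw [Fin.sum_univ_castSucc, hq] at hc
      simp only [Fin.snoc_castSucc, Fin.snoc_last] at hc
      obtain ⟨h2, h3⟩ := hfree (c (Fin.last n)) (fun b => if h : b < n then
        c (Fin.castSucc ⟨b, h⟩) else 0) (by
        rw [← hc, add_comm, smul_eq, mul_one]
        congr 1
        rw [← Fin.sum_univ_eq_sum_range (fun b => ((if h : b < n then
          c (Fin.castSucc ⟨b, h⟩) else 0 : Qa) : ℂ) * val lam j V b) n]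
        refine Finset.sum_congr rfl fun i _ => ?_
        rw [dif_pos i.2]
        rfl)
      intro t
      refine Fin.lastCases h2 (fun i => ?_) t
      have h4 := h3 i.1 i.2
      rw [dif_pos i.2] at h4
      exact h4) (by
      simp only [hev]
      rw [Fin.sum_univ_castSucc, hq]
      simp only [Fin.snoc_castSucc, Fin.snoc_last, mul_one]
      rw [Fin.sum_univ_eq_sum_range (fun b => l b * val lam j V b) n]
      exact add_neg_cancel _)
    constructor
    · intro b hb
      have h2 := h1 (Fin.castSucc ⟨b, hb⟩)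
      rw [Fin.snoc_castSucc] at h2
      exact Submodule.mem_sup_left h2
    · have h2 := h1 (Fin.last n)
      rw [Fin.snoc_last] at h2
      have h3 := L0.neg_mem h2
      rw [neg_neg] at h3
      exact Submodule.mem_sup_left h3

/-- The pairs. -/
theorem exists_pairs (Q : Finset ℕ) : ∃ P : Finset (Option {c // c ∈ Q} × Option {c // c ∈ Q}),
    P.card = Q.card * (Q.card - 1) / 2 ∧ (∀ p ∈ P, (p.2, p.1) ∉ P ∧ p.1 ≠ p.2) ∧
      ∀ p ∈ P, ∃ c c', p = (some c, some c') := by
  classical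
  let f := (Fintype.equivFin {c // c ∈ Q}).symm
  let g : (Σ _ : Fin (Fintype.card {c // c ∈ Q}), Fin (Fintype.card {c // c ∈ Q})) →
      Option {c // c ∈ Q} × Option {c // c ∈ Q} := fun p => (some (f p.2), some (f p.1))
  have hg : Function.Injective g := by
    rintro ⟨a, b⟩ ⟨a', b'⟩ h
    have h1 := Option.some.inj (congrArg Prod.fst h)
    have h2 := Option.some.inj (congrArg Prod.snd h)
    have h3 : b = b' := f.injective h1
    have h4 : a = a' := f.injective h2
    rw [h3, h4]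
  refine ⟨((Finset.univ : Finset (Fin (Fintype.card {c // c ∈ Q}))).sigma fun i =>
    Finset.Iio i).map ⟨g, hg⟩, ?_, ?_, ?_⟩
  · rw [Finset.card_map, Finset.card_sigma]
    simp only [Fin.card_Iio]
    rw [Fin.sum_univ_eq_sum_range (fun i => i), Finset.sum_range_id, Fintype.card_coe]
  · intro p hp
    obtain ⟨⟨a, b⟩, h1, rfl⟩ := Finset.mem_map.1 hp
    have h2 : b < a := Finset.mem_Iio.1 (Finset.mem_sigma.1 h1).2
    constructor
    · intro h3
      obtain ⟨⟨a', b'⟩, h4, h5⟩ := Finset.mem_map.1 h3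
      have h6 : b' < a' := Finset.mem_Iio.1 (Finset.mem_sigma.1 h4).2
      have h7 : b' = a := f.injective (Option.some.inj (congrArg Prod.fst h5))
      have h8 : a' = b := f.injective (Option.some.inj (congrArg Prod.snd h5))
      rw [h7, h8] at h6
      exact lt_asymm h2 h6
    · intro h3
      have h4 : b = a := f.injective (Option.some.inj h3)
      exact h2.ne h4
  · intro p hp
    obtain ⟨⟨a, b⟩, h1, rfl⟩ := Finset.mem_map.1 hp
    exact ⟨_, _, rfl⟩

theorem coreF {lam : ℕ → ℂ} (hlam : LinearIndependent Qa lam) (hlog : ∀ i, lam i ∈ Lsp)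
    {M : Set (ℕ →₀ ℕ)} (hM : ∀ a : ℕ →₀ ℕ, a.degree ≤ 1 → a ∈ M) (j : ℕ → ℕ)
    (V0 : ℕ × ℕ → Qa) {al be : ℕ} (hab : al ≤ be) (h1 : GenFree M lam j V0 al (be + 1))
    (hprev : GenF lam j V0 al be)
    (hcount : ∀ Q' ⊆ Finset.Ico al (be + 1), be ∈ Q' → ∀ Q ⊆ Finset.range al ∪ Q', Q.Nonempty →
      ∃ B ⊆ Q', (PR al Q').card + (TF al Q Q').card + (SF al Q Q').card + (Q.card + 1) +
        (B.card + (Q.card + 1)) * (B.card + Q.card) < ∑ b ∈ B, j b +
          Q.card * (Q.card - 1) / 2) :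
    GenF lam j V0 al (be + 1) := by
  classical
  by_contra hcon
  obtain ⟨H0, hH0, hH1, hH2⟩ := hprev
  obtain ⟨H0', hH0', hH1', hH2'⟩ := h1
  obtain ⟨U, hU1, hU2, hU3⟩ := HD.exists_U j V0 al (be + 1)
    (fun V => ¬ GoodF (be + 1) (val lam j V)) (by
    intro H hH hvars
    by_contra hne
    refine hcon ⟨H, hH, hvars, fun V hV1 hV2 => ?_⟩
    by_contra hV3
    exact hne ⟨V, hV1, hV2, hV3⟩)
  have hgood : ∀ᶠ V in (U : Filter {V : ℕ × ℕ → Qa // ∀ p, p.1 < al → V p = V0 p}),
      GoodF be (val lam j V.1) := by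
    refine (hU3 H0 hH0 fun p hp => ?_).mono fun V hV => hH2 V.1 V.2 hV
    obtain ⟨h1, h2, h3⟩ := hH1 p hp
    exact ⟨h1, by omega, h3⟩
  have hfree : ∀ᶠ V in (U : Filter {V : ℕ × ℕ → Qa // ∀ p, p.1 < al → V p = V0 p}),
      Free M (be + 1) (val lam j V.1) :=
    (hU3 H0' hH0' hH1').mono fun V hV => hH2' V.1 V.2 hV
  -- the spaces
  obtain ⟨L, hLf, hLt, h1L, hxL, hL⟩ := exists_L lam hlog j (be + 1)
  obtain ⟨J, hJ⟩ : ∃ J, ∀ b < be + 1, j b ≤ J :=
    ⟨(Finset.range (be + 1)).sup j, fun b hb => Finset.le_sup (Finset.mem_range.2 hb)⟩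
  obtain ⟨r, hJr, mu, hmu, hmulog, hmul, hmuL⟩ := exists_mu (fun i : Fin J => lam i.1)
    (hlam.comp _ Fin.val_injective) (fun i => hlog _) L hLf hLt
  have hml : ∀ b < be + 1, ∀ l < j b, ∃ h : l < r, mu ⟨l, h⟩ = lam l := by
    intro b hb l hl
    have h2 : l < J := lt_of_lt_of_le hl (hJ b hb)
    exact ⟨by omega, hmul ⟨l, h2⟩⟩
  have hvmu : ∀ (V : ℕ × ℕ → Qa), ∀ b < be + 1, val lam j V b ∈
      Submodule.span Qa (Set.range mu) := by
    intro V b hb
    unfold HD.val
    refine Submodule.sum_mem _ fun l hl => Submodule.smul_mem _ _ (Submodule.subset_span ?_)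
    obtain ⟨h2, h3⟩ := hml b hb l (Finset.mem_range.1 hl)
    exact ⟨_, h3⟩
  -- the data
  have h2 : ∀ᶠ V in (U : Filter {V : ℕ × ℕ → Qa // ∀ p, p.1 < al → V p = V0 p}),
      ∃ p : {Q' // Q' ∈ (Finset.Ico al (be + 1)).powerset} ×
        {Q // Q ∈ (Finset.range (be + 1)).powerset},
      be ∈ p.1.1 ∧ p.2.1 ⊆ Finset.range al ∪ p.1.1 ∧ p.2.1.Nonempty ∧
      ∃ ze : (ZF (PR al p.1.1) (TF al p.2.1 p.1.1) (SF al p.2.1 p.1.1) p.2.1 → Qa) ×
          (Option {c // c ∈ p.2.1} × Fin r → Qa),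
        eval (pv ze.1 (Sum.elim (fun i : Fin (be + 1) => val lam j V.1 i.1) (pt mu ze.2)))
          (GF (PR al p.1.1) (TF al p.2.1 p.1.1) (SF al p.2.1 p.1.1) p.2.1 (be + 1)) = 0 ∧
        (LinearIndependent Qa fun o : {i : Fin (be + 1) // i.1 ∈ p.1.1} ⊕
            Option {c // c ∈ p.2.1} =>
          eval (pv ze.1 (Sum.elim (fun i : Fin (be + 1) => val lam j V.1 i.1) (pt mu ze.2)))
            (pderiv (Sum.inr (Sum.map Subtype.val id o))
              (GF (PR al p.1.1) (TF al p.2.1 p.1.1) (SF al p.2.1 p.1.1) p.2.1 (be + 1)))) ∧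
        ∀ c : {c // c ∈ p.2.1}, eval (pv ze.1 (Sum.elim (fun i : Fin (be + 1) =>
          val lam j V.1 i.1) (pt mu ze.2))) (pderiv (Sum.inr (Sum.inr (some c)))
            (GF (PR al p.1.1) (TF al p.2.1 p.1.1) (SF al p.2.1 p.1.1) p.2.1 (be + 1))) ∈
              Submodule.span Qa (Set.range mu) := by
    filter_upwards [hU1, hgood, hfree] with V hV1 hV2 hV3
    have hfr := free_lin hM hV3
    unfold GoodF at hV1
    push Not at hV1
    obtain ⟨l, hl1, hl2, b0, hb0, hl3⟩ := hV1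
    obtain ⟨h3, h4⟩ := hL V.1 hfr l hl1 hl2
    obtain ⟨l', hl'⟩ : ∃ l' : ℕ → ℂ, l' = fun b => if b < be + 1 then l b else 0 := ⟨_, rfl⟩
    have hll : ∀ b < be + 1, l' b = l b := fun b hb => by rw [hl']; exact if_pos hb
    have hsum : ∑ b ∈ Finset.range (be + 1), l' b * val lam j V.1 b =
        ∑ b ∈ Finset.range (be + 1), l b * val lam j V.1 b :=
      Finset.sum_congr rfl fun b hb => by rw [hll b (Finset.mem_range.1 hb)]
    obtain ⟨Q, Q', A, s, τ, m, m', y, d⟩ := struct hab (val lam j V.1) hfr L hLt h1L (hxL V.1) l'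
      (by
        intro b
        rw [hl']
        dsimp only
        by_cases hb : b < be + 1
        · rw [if_pos hb]
          exact h3 b hb
        · rw [if_neg hb]
          exact L.zero_mem) (by rw [hsum]; exact h4)
      ⟨b0, hb0, by rw [hll b0 hb0]; exact hl3⟩ hV2
    have hWlt : ∀ i ∈ Finset.range al ∪ Q', i < be + 1 := by
      intro i hi
      rw [Finset.mem_union, Finset.mem_range] at hi
      rcases hi with h | h
      · omega
      · exact (Finset.mem_Ico.1 (d.sub' h)).2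
    refine ⟨(⟨Q', Finset.mem_powerset.2 d.sub'⟩, ⟨Q, Finset.mem_powerset.2 fun i hi =>
      Finset.mem_range.2 (hWlt i (d.sub hi))⟩), d.mem', d.sub, d.ne, ?_⟩
    -- coordinates
    have h5 : ∀ k : Option {c // c ∈ Q}, ∃ (γ : Qa) (e : Fin r → Qa),
        k.elim m' (fun c => m c.1) = (γ : ℂ) + ∑ l, e l • mu l := by
      intro k
      rcases k with _ | c
      · exact exists_coord (hmuL d.mL')
      · exact exists_coord (hmuL (d.mL c.1))
    choose γ e he using h5
    obtain ⟨h6, h7, h8⟩ := conv d γ (pt mu fun q => e q.1 q.2) (fun c => he (some c)) (he none)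
    refine ⟨(zF A s τ γ, fun q => e q.1 q.2), h6, h7, fun c => ?_⟩
    rw [h8 c]
    refine Submodule.sum_mem _ fun b hb => ?_
    have h9 : ∀ i ∈ Finset.range al ∪ Q', y i ∈ Submodule.span Qa (Set.range mu) := by
      intro i hi
      rw [d.hy]
      refine Submodule.add_mem _ (Submodule.sub_mem _ (hvmu V.1 i (hWlt i hi)) ?_) ?_
      · split_ifs
        · exact hvmu V.1 i (hWlt i hi)
        · exact Submodule.zero_mem _
      · split_ifs
        · refine Submodule.sum_mem _ fun b hb => cmul_mem _ (hvmu V.1 b ?_)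
          have h10 := Finset.mem_Ico.1 (Finset.mem_sdiff.1 hb).1
          have := hWlt i hi
          omega
        · exact Submodule.zero_mem _
    exact cmul_mem _ (h9 b hb)
  obtain ⟨⟨⟨Q', hQ'⟩, ⟨Q, hQ⟩⟩, hp⟩ := FS.pickE U _ h2
  dsimp only at hp
  have hQ'1 := Finset.mem_powerset.1 hQ'
  obtain ⟨hQ2, hQ3, hQ4, -⟩ := hp.exists.choose_spec
  obtain ⟨ze, hze⟩ := (hp.mono fun V hV => hV.2.2.2).choice
  obtain ⟨B, hBQ, hB⟩ := hcount Q' hQ'1 hQ2 Q hQ3 hQ4
  obtain ⟨P, hP1, hP2, hP3⟩ := exists_pairs Q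
  have h3 := countF (lam := lam) j V0 U (fun V s => V.1 (s.1.1, s.1.2)) hU2 (fun V => V.1)
    (fun V p => rfl) (fun V p hp => V.2 p hp) mu hmu hmulog hml (fun V => (ze V).2)
    (GF (PR al Q') (TF al Q Q') (SF al Q Q') Q (be + 1)) (fun V => (ze V).1)
    (hze.mono fun V hV => hV.1) B (hBQ.trans hQ'1) (by
      refine hze.mono fun V hV => ?_
      have h4 := hV.2.1.comp (Sum.map (fun i : {i : Fin (be + 1) // i.1 ∈ B} =>
        (⟨i.1, hBQ i.2⟩ : {i : Fin (be + 1) // i.1 ∈ Q'})) id) (by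
        refine Function.Injective.sumMap ?_ Function.injective_id
        intro i i' hii
        have h3 := congrArg Subtype.val hii
        exact Subtype.ext h3)
      have h5 : (fun o : {i : Fin (be + 1) // i.1 ∈ B} ⊕ Option {c // c ∈ Q} =>
          eval (pv (ze V).1 (Sum.elim (fun i : Fin (be + 1) => val lam j V.1 i.1)
            (pt mu (ze V).2))) (pderiv (Sum.inr (Sum.map Subtype.val id o))
              (GF (PR al Q') (TF al Q Q') (SF al Q Q') Q (be + 1)))) =
          (fun o : {i : Fin (be + 1) // i.1 ∈ Q'} ⊕ Option {c // c ∈ Q} =>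
          eval (pv (ze V).1 (Sum.elim (fun i : Fin (be + 1) => val lam j V.1 i.1)
            (pt mu (ze V).2))) (pderiv (Sum.inr (Sum.map Subtype.val id o))
              (GF (PR al Q') (TF al Q Q') (SF al Q Q') Q (be + 1)))) ∘
            Sum.map (fun i : {i : Fin (be + 1) // i.1 ∈ B} =>
              (⟨i.1, hBQ i.2⟩ : {i : Fin (be + 1) // i.1 ∈ Q'})) id := by
        funext o
        rcases o with o | o <;> rfl
      rw [h5]
      exact h4) P hP2 (by
      refine hze.mono fun V hV p hp => ?_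
      obtain ⟨c, c', rfl⟩ := hP3 p hp
      exact ⟨hV.2.2 c, hV.2.2 c'⟩)
  rw [hP1, Fintype.card_sum, Fintype.card_sum, Fintype.card_sum, Fintype.card_coe,
    Fintype.card_coe, Fintype.card_coe, Fintype.card_option, Fintype.card_coe] at h3
  have h4 : (B.card + (Q.card + 1)) * (B.card + (Q.card + 1) - 1) =
      (B.card + (Q.card + 1)) * (B.card + Q.card) := by
    congr 1
  rw [h4] at h3
  omega

end MP60829e.FM
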