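import Mathlib
import Pool.Agent.Lib.MP_60829e_nt.ST.StrField

/-! # Echelon bases in a vector space -/

open MvPolynomial

namespace MP60829e.FM

open MP60829e.ST (Qa Lsp Lt)

/-- The echelon basis from above. -/
theorem echelon {V : Type} [AddCommGroup V] [Module Qa V] (g : ℕ → V) (n : ℕ) : ∀ d al : ℕ, al + d = n → ∃ Q ⊆ Finset.Ico al n,
    LinearIndepOn Qa g (Q : Set ℕ) ∧
      (∀ b ∈ Finset.Ico al n, b ∉ Q → ∃ ρ : ℕ → Qa, ∑ c ∈ Q.filter (b < ·), ρ c • g c = g b) ∧
      ∀ b, b + 1 = n → al ≤ b → g b ≠ 0 → b ∈ Q := by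
  classical
  intro d
  induction d with
  | zero =>
    intro al h
    refine ⟨∅, Finset.empty_subset _, ?_, fun b hb => ?_, fun b hb hb' => ?_⟩
    · rw [Finset.coe_empty]
      exact linearIndepOn_empty _ _
    · rw [Finset.mem_Ico] at hb
      omega
    · omega
  | succ d ih =>
    intro al h
    obtain ⟨Q, hQ1, hQ2, hQ3, hQ4⟩ := ih (al + 1) (by omega)
    have hgt : ∀ c ∈ Q, al < c := fun c hc => by
      have := Finset.mem_Ico.1 (hQ1 hc)
      omega
    have hsub : Finset.Ico (al + 1) n ⊆ Finset.Ico al n := Finset.Ico_subset_Ico (by omega) le_rfl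
    by_cases hs : g al ∈ Submodule.span Qa (g '' (Q : Set ℕ))
    · refine ⟨Q, hQ1.trans hsub, hQ2, fun b hb hbQ => ?_, fun b hb hb' hg => ?_⟩
      · rcases Nat.lt_or_eq_of_le (Finset.mem_Ico.1 hb).1 with h1 | h1
        · exact hQ3 b (Finset.mem_Ico.2 ⟨h1, (Finset.mem_Ico.1 hb).2⟩) hbQ
        · subst h1
          obtain ⟨ρ, hρ⟩ := (Submodule.mem_span_image_finset_iff_exists_fun' Qa).1 hs
          refine ⟨ρ, ?_⟩
          rw [Finset.filter_true_of_mem hgt, hρ]
      · rcases Nat.lt_or_eq_of_le hb' with h1 | h1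
        · exact hQ4 b hb h1 hg
        · subst h1
          exfalso
          have h2 : Q = ∅ := by
            refine Finset.subset_empty.1 (hQ1.trans ?_)
            rw [hb, Finset.Ico_self]
          rw [h2, Finset.coe_empty, Set.image_empty, Submodule.span_empty,
            Submodule.mem_bot] at hs
          exact hg hs
    · have hal : al ∉ Q := fun h1 => absurd (hgt al h1) (lt_irrefl _)
      refine ⟨insert al Q, ?_, ?_, fun b hb hbQ => ?_, fun b hb hb' hg => ?_⟩
      · refine Finset.insert_subset (Finset.mem_Ico.2 ⟨le_rfl, by omega⟩) (hQ1.trans hsub)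
      · rw [Finset.coe_insert]
        exact hQ2.insert hs
      · rw [Finset.mem_insert, not_or] at hbQ
        have h1 : al + 1 ≤ b := by
          have := (Finset.mem_Ico.1 hb).1
          omega
        obtain ⟨ρ, hρ⟩ := hQ3 b (Finset.mem_Ico.2 ⟨h1, (Finset.mem_Ico.1 hb).2⟩) hbQ.2
        refine ⟨ρ, ?_⟩
        rw [Finset.filter_insert, if_neg (by omega), hρ]
      · rcases Nat.lt_or_eq_of_le hb' with h1 | h1
        · exact Finset.mem_insert_of_mem (hQ4 b hb h1 hg)
        · subst h1
          exact Finset.mem_insert_self _ _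

end MP60829e.FM
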