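import Pool.Agent.Lib.MP_60829e_nt.FM.Conv
import Pool.Agent.Lib.MP_60829e_nt.HD.CountL

/-! # The count for the relations with logarithms as coefficients -/

open Finset

namespace MP60829e.FM

open MP60829e.HD (PR)

private theorem arith {al e x q T S be : ℤ} (hx : 1 ≤ x) (he : e = 2 * x ∨ e = 2 * x - 1)
    (hT : T = al + e) (hq0 : 0 ≤ q) (hq : q ≤ T) (hal : 0 ≤ al) (hS0 : 0 ≤ S)
    (hS : be - al - e + 1 ≤ S) (hthr : al = 0 ∨ (al + 1) * (al + 1) ≤ be) :
    2 * (T - q) * T + 2 * q + 2 + 2 * (x + q + 1) * (x + q) + 4 * S <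
      10 * x * (T - x) + 5 * x * (x - 1) + 10 * S + 20 * x + q * (q - 1) := by
  have h1 : q * q + q * (4 * x + 5 - 2 * T) ≤ q * (4 * x + 5 - T) := by nlinarith
  rcases le_total 0 (4 * x + 5 - T) with h2 | h2
  · have h3 : q * (4 * x + 5 - T) ≤ T * (4 * x + 5 - T) := mul_le_mul_of_nonneg_right hq h2
    have h4 : T * T + 5 * T + 2 + 7 * (x * x) < 6 * x * T + 13 * x + 6 * S := by
      rcases hthr with h5 | h5
      · subst h5
        rcases he with h6 | h6 <;> subst h6 <;> subst hT <;> nlinarith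
      · rcases he with h6 | h6
        · subst h6
          subst hT
          rcases eq_or_lt_of_le hal with h7 | h7
          · rw [← h7] at hS ⊢
            nlinarith
          · have h8 : -12 ≤ x * x + (2 * al - 9) * x := by nlinarith [sq_nonneg (2 * x - 7)]
            nlinarith
        · subst h6
          subst hT
          rcases eq_or_lt_of_le hal with h7 | h7
          · rw [← h7] at hS ⊢
            nlinarith
          · have h8 : -12 ≤ x * x + (2 * al - 9) * x := by nlinarith [sq_nonneg (2 * x - 7)]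
            nlinarith
    nlinarith
  · have h3 : q * (4 * x + 5 - T) ≤ 0 := mul_nonpos_of_nonneg_of_nonpos hq0 h2
    have h4 : 2 * (T * T) + 2 + 7 * (x * x) < 10 * x * T + 13 * x + 6 * S := by
      rcases hthr with h5 | h5
      · subst h5
        rcases he with h6 | h6 <;> subst h6 <;> subst hT <;> nlinarith
      · rcases he with h6 | h6
        · subst h6
          subst hT
          rcases eq_or_lt_of_le hal with h7 | h7
          · rw [← h7] at hS ⊢
            nlinarith
          · have h8 : -4 ≤ 5 * (x * x) + (2 * al - 9) * x := by nlinarith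
            nlinarith
        · subst h6
          subst hT
          rcases eq_or_lt_of_le hal with h7 | h7
          · rw [← h7] at hS ⊢
            nlinarith
          · have h8 : -4 ≤ 5 * (x * x) + (2 * al - 9) * x := by nlinarith
            nlinarith
    nlinarith

theorem rateF {al be : ℕ} (hthr : al = 0 ∨ (al + 1) * (al + 1) ≤ be) {Q' : Finset ℕ}
    (hQ' : Q' ⊆ Ico al (be + 1)) (hbe : be ∈ Q') {Q : Finset ℕ} (hQ : Q ⊆ range al ∪ Q') :
    ∃ B ⊆ Q', (PR al Q').card + (TF al Q Q').card + (SF al Q Q').card + (Q.card + 1) +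
        (B.card + (Q.card + 1)) * (B.card + Q.card) < ∑ b ∈ B, (5 * b + 10) +
          Q.card * (Q.card - 1) / 2 := by
  classical
  have hQ1 : ∀ b ∈ Q', al ≤ b := fun b hb => (mem_Ico.1 (hQ' hb)).1
  have hcard : 1 ≤ Q'.card := card_pos.2 ⟨be, hbe⟩
  obtain ⟨x, hx⟩ : ∃ x, x = (Q'.card + 1) / 2 := ⟨_, rfl⟩
  obtain ⟨B, hB, hBc, ht⟩ := HD.exists_top Q' x (by omega)
  refine ⟨B, hB, ?_⟩
  -- the top sum
  have hsum := HD.sum_top hQ1 hB ht
  rw [hBc] at hsum
  obtain ⟨S, hS⟩ : ∃ S, S = ∑ b ∈ B, (Ico al b \ Q').card := ⟨_, rfl⟩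
  rw [← hS] at hsum
  have hPR : (PR al Q').card ≤ 2 * S := by
    rw [HD.card_PR, hS]
    exact HD.sum_le_two hB ht (by omega)
  have hbeB : be ∈ B := by
    by_contra hcon
    have h1 : B.Nonempty := by
      rw [← card_pos]
      omega
    obtain ⟨b, hb⟩ := h1
    have h2 := ht b hb be (mem_sdiff.2 ⟨hbe, hcon⟩)
    have h3 := (mem_Ico.1 (hQ' (hB hb))).2
    omega
  have hSge : (Ico al be \ Q').card ≤ S := by
    rw [hS]
    exact single_le_sum (f := fun c => (Ico al c \ Q').card) (fun _ _ => Nat.zero_le _) hbeB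
  have hpos := HD.pos_eq hQ1 hbe
  have hlt := HD.card_filter_lt hbe
  -- the sum of the lengths
  have h5 : ∑ b ∈ B, (5 * b + 10) = 5 * ∑ b ∈ B, b + 10 * x := by
    rw [sum_add_distrib, sum_const, smul_eq_mul, hBc, ← mul_sum, mul_comm 10]
  have h6 : ∑ b ∈ B, (2 * b + 4) = 2 * ∑ b ∈ B, b + 4 * x := by
    rw [sum_add_distrib, sum_const, smul_eq_mul, hBc, ← mul_sum, mul_comm 4]
  rw [h6] at hsum
  rw [h5, hBc]
  -- the cardinalities
  have hT := HD.card_range_union hQ'
  have hqT : Q.card ≤ al + Q'.card := by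
    rw [← hT]
    exact card_le_card hQ
  have hw : ((range al ∪ Q') \ Q).card = al + Q'.card - Q.card := by
    rw [card_sdiff_of_subset hQ, hT]
  have hTF : (TF al Q Q').card ≤ Q.card * (al + Q'.card - Q.card) := by
    unfold TF
    refine (card_filter_le _ _).trans ?_
    rw [card_product, hw]
  have hSF : (SF al Q Q').card = (al + Q'.card - Q.card) * (al + Q'.card - Q.card) := by
    unfold SF
    rw [card_product, hw]
  obtain ⟨e, he⟩ : ∃ e, e = Q'.card := ⟨_, rfl⟩
  obtain ⟨q, hq⟩ : ∃ q, q = Q.card := ⟨_, rfl⟩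
  obtain ⟨s, hs⟩ : ∃ s, s = ∑ b ∈ B, b := ⟨_, rfl⟩
  rw [← he] at hcard hx hsum hlt hqT hTF hSF
  rw [← hq] at hqT hTF hSF ⊢
  rw [← hs] at hsum ⊢
  obtain ⟨w, hw'⟩ := Nat.exists_eq_add_of_le hqT
  have hw'' : al + e - q = w := by omega
  rw [hw''] at hTF hSF
  have hx1 : 1 ≤ x := by omega
  have hxe : x ≤ e := by omega
  -- the quotient by two
  have hdiv : 2 * (q * (q - 1) / 2) = q * (q - 1) :=
    Nat.mul_div_cancel' (Nat.even_mul_pred_self q).two_dvd
  have key := arith (al := al) (e := e) (x := x) (q := q) (T := al + e) (S := S) (be := be)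
    (by exact_mod_cast hx1) (by omega) rfl (by positivity) (by exact_mod_cast hqT)
    (by positivity) (by positivity) (by omega) (by
      rcases hthr with h | h
      · left; exact_mod_cast h
      · right; exact_mod_cast h)
  have hsum' : 2 * (s : ℤ) + 4 * x = 2 * x * (al + (e - x) + 2) + x * (x - 1) + 2 * S := by
    have h7 := congrArg (fun t : ℕ => (t : ℤ)) hsum
    push_cast [Nat.cast_sub hxe, Nat.cast_sub hx1] at h7
    exact h7
  have hqq : ((q * (q - 1) : ℕ) : ℤ) = q * (q - 1) := by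
    rcases Nat.eq_zero_or_pos q with h8 | h8
    · rw [h8]; simp
    · push_cast [Nat.cast_sub h8]
      ring
  have hTF' : (((TF al Q Q').card : ℕ) : ℤ) ≤ q * w := by exact_mod_cast hTF
  have hSF' : (((SF al Q Q').card : ℕ) : ℤ) = w * w := by exact_mod_cast hSF
  have hPR' : (((PR al Q').card : ℕ) : ℤ) ≤ 2 * S := by exact_mod_cast hPR
  obtain ⟨D, hD⟩ : ∃ D : ℕ, D = q * (q - 1) / 2 := ⟨_, rfl⟩
  rw [← hD] at hdiv ⊢
  have hdiv' : 2 * (D : ℤ) = q * (q - 1) := by
    rw [← hqq, ← hdiv]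
    push_cast
    ring
  have hw3 : (al : ℤ) + e = q + w := by exact_mod_cast hw'
  zify
  rw [hw3] at key
  have hgoal : 2 * ((((PR al Q').card : ℕ) : ℤ) + (((TF al Q Q').card : ℕ) : ℤ) +
      (((SF al Q Q').card : ℕ) : ℤ) + (q + 1) + (x + (q + 1)) * (x + q)) <
      2 * (5 * s + 10 * x + D) := by
    nlinarith
  linarith

end MP60829e.FM
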