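import Pool.Agent.Lib.MP_60829e_nt.FM.Core
import Pool.Agent.Lib.MP_60829e_nt.FM.Rate
import Pool.Agent.Lib.MP_60829e_nt.HD.FinL

/-! # Generic combinations of logarithms: products with all the logarithms -/

open MvPolynomial Module

namespace MP60829e.FM

open MP60829e.ST (Qa Lsp Lt)
open MP60829e.HD (val Free FreeL GenFree GenFreeL Gq seq)
open MP60829e.SL (smul_eq)

/-- One more row. -/
theorem stepF {lam : ℕ → ℂ} (hlam : LinearIndependent Qa lam) (hlog : ∀ i, lam i ∈ Lsp)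
    (j : ℕ → ℕ) (hj : ∀ b, 5 * b + 10 ≤ j b) (α β : ℕ) (V : ℕ × ℕ → Qa) (hαβ : α ≤ β)
    (h : α = 0 ∨ (α + 1) * (α + 1) ≤ β)
    (hprev : Gq j (fun n V => Free {a | a.degree ≤ 1} n (val lam j V) ∧
      FreeL {a | a.degree = 2} n (val lam j V) ∧ GoodF n (val lam j V)) V α β) :
    Gq j (fun n V => Free {a | a.degree ≤ 1} n (val lam j V) ∧
      FreeL {a | a.degree = 2} n (val lam j V) ∧ GoodF n (val lam j V)) V α (β + 1) := by
  have h1 : GenFree {a | a.degree ≤ 1} lam j V α (β + 1) :=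
    HD.core hlam hlog HD.isLowerSet_one (HD.finite_degree 1) j V hαβ
      (hprev.mono (Good' := fun n V => Free {a | a.degree ≤ 1} n (val lam j V))
        fun V' hV' => hV'.1)
      fun Q hQ hb => ⟨Q, Finset.Subset.refl _,
        HD.countM1 (fun b => le_trans (by omega) (hj b)) Q hQ hb⟩
  have h2 : GenFreeL {a | a.degree = 2} lam j V α (β + 1) := by
    refine HD.coreL hlam hlog (fun _ ha => le_of_eq (Eq.symm ha))
      (fun a ha c hca hc => le_antisymm ((Finsupp.degree_mono hca).trans (le_of_eq ha)) hc)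
      (fun n => (HD.finite_degree 2 n).subset fun a ha => ⟨le_of_eq ha.1, ha.2⟩) j V hαβ h1
      (hprev.mono (Good' := fun n V => FreeL {a | a.degree = 2} n (val lam j V))
        fun V' hV' => hV'.2.1) fun Q hQ hbe => ?_
    obtain ⟨B, hB, hB2⟩ := HD.countQL (h.imp id fun h => by nlinarith) Q hQ hbe
    exact ⟨B, hB, hB2.trans (Finset.sum_le_sum fun b _ => le_trans (by omega) (hj b))⟩
  have h3 : GenF lam j V α (β + 1) := by
    refine coreF hlam hlog (fun a ha => ha) j V hαβ h1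
      (hprev.mono (Good' := fun n V => GoodF n (val lam j V)) fun V' hV' => hV'.2.2) ?_
    intro Q' hQ' hbe Q hQ _
    obtain ⟨B, hB, hB2⟩ := rateF h hQ' hbe hQ
    exact ⟨B, hB, lt_of_lt_of_le hB2
      (Nat.add_le_add_right (Finset.sum_le_sum fun b _ => hj b) _)⟩
  exact Gq.and h1 (Gq.and h2 h3)

/-- The theorem, rows over the algebraic numbers. -/
theorem hF {lam : ℕ → ℂ} (hlam : LinearIndependent Qa lam) (hlog : ∀ i, lam i ∈ Lsp)
    (j : ℕ → ℕ) (hj : ∀ b, 5 * b + 10 ≤ j b) :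
    ∃ H : (b : ℕ) → (Fin b × ℕ → Qa) → MvPolynomial (Fin (j b)) Qa, (∀ b y, H b y ≠ 0) ∧
      ∀ V : ℕ × ℕ → Qa,
        (∀ b, eval (fun t : Fin (j b) => V (b, t)) (H b fun p => V (p.1, p.2)) ≠ 0) →
        ∀ n, Free {a | a.degree ≤ 1} n (val lam j V) ∧
          FreeL {a | a.degree = 2} n (val lam j V) ∧ GoodF n (val lam j V) := by
  have : Infinite Qa := Infinite.of_injective (Nat.cast : ℕ → Qa) Nat.cast_injective
  exact seq (k := Qa) (j := j)
    (Good := fun n V => Free {a | a.degree ≤ 1} n (val lam j V) ∧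
      FreeL {a | a.degree = 2} n (val lam j V) ∧ GoodF n (val lam j V))
    (fun V => ⟨HD.free_zero _ _, HD.freeL_zero (fun _ ha => le_of_eq (Eq.symm ha)) _,
      fun _ _ _ b hb => absurd hb (Nat.not_lt_zero _)⟩) (fun al => (al + 1) * (al + 1))
    fun α β V hαβ h hprev => stepF hlam hlog j hj α β V hαβ h hprev

/-- The theorem, rational rows. -/
theorem hF_rat {lam : ℕ → ℂ} (halg : ∀ i, IsAlgebraic ℚ (Complex.exp (lam i)))
    (hli : LinearIndependent ℚ lam) (j : ℕ → ℕ) (hj : ∀ b, 5 * b + 10 ≤ j b) :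
    ∃ H : (b : ℕ) → (Fin b → ℕ → ℚ) → MvPolynomial (Fin (j b)) ℚ, (∀ b y, H b y ≠ 0) ∧
      ∀ x : ℕ → ℕ → ℚ,
        (∀ b, eval (fun t : Fin (j b) => x b t) (H b fun i => x i) ≠ 0) →
        ∀ n, Free {a | a.degree ≤ 1} n (fun b => ∑ t : Fin (j b), (x b t : ℂ) * lam t) ∧
          FreeL {a | a.degree = 2} n (fun b => ∑ t : Fin (j b), (x b t : ℂ) * lam t) ∧
            GoodF n (fun b => ∑ t : Fin (j b), (x b t : ℂ) * lam t) := by
  have hlam := FC.baker lam halg hli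
  have hlog : ∀ i, lam i ∈ Lsp := fun i => Submodule.subset_span (halg i)
  obtain ⟨H, hH0, hH⟩ := hF hlam hlog j hj
  choose g hg0 hg using fun (b : ℕ) (y : Fin b → ℕ → ℚ) =>
    FG.exists_rat (H b fun p => ((y p.1 p.2 : ℚ) : Qa)) (hH0 b _)
  refine ⟨g, hg0, fun x hx n => ?_⟩
  have h1 := hH (fun p => ((x p.1 p.2 : ℚ) : Qa)) fun b => hg b _ _ (hx b)
  have h2 : val lam j (fun p => ((x p.1 p.2 : ℚ) : Qa)) =
      fun b => ∑ t : Fin (j b), (x b t : ℂ) * lam t := by
    funext b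
    unfold HD.val
    rw [Finset.sum_range]
    refine Finset.sum_congr rfl fun t _ => ?_
    rw [Algebra.smul_def, map_ratCast]
  rw [h2] at h1
  exact h1 n

end MP60829e.FM
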