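import Pool.Agent.Lib.MP_60829e_nt.FM.Li

/-! # The final statements: products of monomials with all the logarithms -/

open MvPolynomial Module

namespace MP60829e.FM

open MP60829e.ST (Qa Lsp Lt)
open MP60829e.HD (val Free FreeL SW mem_SW mon)
open MP60829e.SL (smul_eq)

theorem mon_zero (u : ℕ → ℂ) : mon (0 : ℕ →₀ ℕ) u = 1 := by
  unfold HD.mon
  rw [Finsupp.support_zero, Finset.prod_empty]

theorem mon_single (u : ℕ → ℂ) (b : ℕ) : mon (Finsupp.single b 1) u = u b := by
  unfold HD.mon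
  rw [Finsupp.support_single _ one_ne_zero, Finset.prod_singleton, Finsupp.single_eq_same,
    pow_one]

theorem mon_two (u : ℕ → ℂ) (a b : ℕ) :
    mon (Finsupp.single a 1 + Finsupp.single b 1) u = u a * u b := by
  have h := mon_sh (n := b + 1) u (Finsupp.single a 1) (some ⟨b, Nat.lt_succ_self b⟩)
  rw [mon_single] at h
  exact h

theorem le_of_single_add {p q p' q' : ℕ} (h' : p' ≤ q')
    (he : (Finsupp.single p 1 + Finsupp.single q 1 : ℕ →₀ ℕ) =
      Finsupp.single p' 1 + Finsupp.single q' 1) : p' ≤ p := by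
  have e1 := DFunLike.congr_fun he p
  rw [Finsupp.add_apply, Finsupp.add_apply, Finsupp.single_eq_same] at e1
  by_contra hlt
  have h1 : p ≠ p' := by omega
  have h2 : p ≠ q' := by omega
  rw [Finsupp.single_eq_of_ne h1, Finsupp.single_eq_of_ne h2] at e1
  omega

theorem single_add_inj {p q p' q' : ℕ} (h : p ≤ q) (h' : p' ≤ q')
    (he : (Finsupp.single p 1 + Finsupp.single q 1 : ℕ →₀ ℕ) =
      Finsupp.single p' 1 + Finsupp.single q' 1) : p = p' ∧ q = q' := by
  have h1 := le_of_single_add h' he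
  have h2 := le_of_single_add h he.symm
  have h3 : p = p' := le_antisymm h2 h1
  subst h3
  exact ⟨rfl, Finsupp.single_left_injective one_ne_zero (add_left_cancel he)⟩

/-- The numbers are independent and so are the products. -/
theorem fam {u : ℕ → ℂ} (hu : ∀ b, IsAlgebraic ℚ (Complex.exp (u b)))
    {M : Set (ℕ →₀ ℕ)} (h0 : (0 : ℕ →₀ ℕ) ∈ M) (h : ∀ n, Free (MX M) n u ∧ GoodM M n u) :
    LinearIndependent ℚ u ∧
      ∀ (κ : Type) (v : κ → ℂ), (∀ c, IsAlgebraic ℚ (Complex.exp (v c))) →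
        LinearIndependent ℚ (Sum.elim u v) →
        LinearIndependent Qa (Sum.elim
          (fun a : {a : ℕ →₀ ℕ // a ∈ M ∨ ∃ m ∈ M, ∃ b, a = m + Finsupp.single b 1} =>
            a.1.prod fun i e => u i ^ e)
          (fun p : κ × M => v p.1 * p.2.1.prod fun i e => u i ^ e)) := by
  constructor
  · have h1 := (li_of_free fun n => (h n).1).comp
      (fun b : ℕ => (⟨Finsupp.single b 1, Or.inr ⟨0, h0, b, (zero_add _).symm⟩⟩ : MX M)) (by
        intro b b' hb
        exact Finsupp.single_left_injective one_ne_zero (congrArg Subtype.val hb))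
    have h2 : LinearIndependent Qa u := by
      have h3 : ((fun a : MX M => mon a.1 u) ∘ fun b : ℕ =>
          (⟨Finsupp.single b 1, Or.inr ⟨0, h0, b, (zero_add _).symm⟩⟩ : MX M)) = u := by
        funext b
        exact mon_single u b
      rwa [h3] at h1
    refine h2.restrict_scalars ?_
    intro r r' hr
    dsimp only at hr
    rw [Algebra.smul_def, Algebra.smul_def, mul_one, mul_one] at hr
    exact (algebraMap ℚ Qa).injective hr
  · intro κ v hv hli
    exact li_of_good hu h v hv hli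

/-- The explicit form for the monomials of degree at most one. -/
theorem fam_one {u : ℕ → ℂ} {κ : Type} {v : κ → ℂ}
    (h : LinearIndependent Qa (Sum.elim
      (fun a : {a : ℕ →₀ ℕ // a ∈ {a : ℕ →₀ ℕ | a.degree ≤ 1} ∨
        ∃ m ∈ {a : ℕ →₀ ℕ | a.degree ≤ 1}, ∃ b, a = m + Finsupp.single b 1} =>
          a.1.prod fun i e => u i ^ e)
      (fun p : κ × {a : ℕ →₀ ℕ | a.degree ≤ 1} => v p.1 * p.2.1.prod fun i e => u i ^ e))) :
    LinearIndependent Qa (Sum.elim (Sum.elim (fun _ : Unit => (1 : ℂ)) (Sum.elim u v))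
      (Sum.elim (fun p : {p : ℕ × ℕ // p.1 ≤ p.2} => u p.1.1 * u p.1.2)
        (fun p : ℕ × κ => u p.1 * v p.2))) := by
  classical
  have hd0 : (0 : ℕ →₀ ℕ) ∈ {a : ℕ →₀ ℕ | a.degree ≤ 1} := by
    show (0 : ℕ →₀ ℕ).degree ≤ 1
    rw [map_zero]
    exact Nat.zero_le _
  have hd1 : ∀ b, (Finsupp.single b 1 : ℕ →₀ ℕ) ∈ {a : ℕ →₀ ℕ | a.degree ≤ 1} := by
    intro b
    show (Finsupp.single b 1 : ℕ →₀ ℕ).degree ≤ 1
    rw [Finsupp.degree_single]
  obtain ⟨f, hf⟩ : ∃ f : (Unit ⊕ (ℕ ⊕ κ)) ⊕ ({p : ℕ × ℕ // p.1 ≤ p.2} ⊕ (ℕ × κ)) →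
      {a : ℕ →₀ ℕ // a ∈ {a : ℕ →₀ ℕ | a.degree ≤ 1} ∨
        ∃ m ∈ {a : ℕ →₀ ℕ | a.degree ≤ 1}, ∃ b, a = m + Finsupp.single b 1} ⊕
        (κ × {a : ℕ →₀ ℕ | a.degree ≤ 1}),
      f = Sum.elim (Sum.elim (fun _ => Sum.inl ⟨0, Or.inl hd0⟩)
        (Sum.elim (fun b => Sum.inl ⟨Finsupp.single b 1, Or.inl (hd1 b)⟩)
          (fun c => Sum.inr (c, ⟨0, hd0⟩))))
        (Sum.elim (fun p => Sum.inl ⟨Finsupp.single p.1.1 1 + Finsupp.single p.1.2 1,
          Or.inr ⟨_, hd1 p.1.1, p.1.2, rfl⟩⟩)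
          (fun p => Sum.inr (p.2, ⟨Finsupp.single p.1 1, hd1 p.1⟩))) := ⟨_, rfl⟩
  have hdeg0 : (0 : ℕ →₀ ℕ).degree = 0 := map_zero _
  have hinj : Function.Injective f := by
    rw [hf]
    rintro ((i | (b | c)) | (⟨⟨p, q⟩, hpq⟩ | ⟨p, c⟩)) ((i' | (b' | c')) | (⟨⟨p', q'⟩, hpq'⟩ | ⟨p', c'⟩)) h1
    · rfl
    · have h2 : (0 : ℕ →₀ ℕ) = Finsupp.single b' 1 := congrArg Subtype.val (Sum.inl.inj h1)
      have h3 := congrArg Finsupp.degree h2
      rw [hdeg0, Finsupp.degree_single] at h3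
      omega
    · exact absurd h1 Sum.inl_ne_inr
    · have h2 : (0 : ℕ →₀ ℕ) = Finsupp.single p' 1 + Finsupp.single q' 1 :=
        congrArg Subtype.val (Sum.inl.inj h1)
      have h3 := congrArg Finsupp.degree h2
      rw [hdeg0, map_add, Finsupp.degree_single, Finsupp.degree_single] at h3
      omega
    · exact absurd h1 Sum.inl_ne_inr
    · have h2 : Finsupp.single b 1 = (0 : ℕ →₀ ℕ) := congrArg Subtype.val (Sum.inl.inj h1)
      have h3 := congrArg Finsupp.degree h2
      rw [hdeg0, Finsupp.degree_single] at h3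
      omega
    · have h2 : (Finsupp.single b 1 : ℕ →₀ ℕ) = Finsupp.single b' 1 :=
        congrArg Subtype.val (Sum.inl.inj h1)
      rw [Finsupp.single_left_injective one_ne_zero h2]
    · exact absurd h1 Sum.inl_ne_inr
    · have h2 : (Finsupp.single b 1 : ℕ →₀ ℕ) = Finsupp.single p' 1 + Finsupp.single q' 1 :=
        congrArg Subtype.val (Sum.inl.inj h1)
      have h3 := congrArg Finsupp.degree h2
      rw [map_add, Finsupp.degree_single, Finsupp.degree_single, Finsupp.degree_single] at h3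
      omega
    · exact absurd h1 Sum.inl_ne_inr
    · exact absurd h1 Sum.inr_ne_inl
    · exact absurd h1 Sum.inr_ne_inl
    · have h2 : c = c' := congrArg Prod.fst (Sum.inr.inj h1)
      rw [h2]
    · exact absurd h1 Sum.inr_ne_inl
    · have h2 : (0 : ℕ →₀ ℕ) = Finsupp.single p' 1 :=
        congrArg (fun z => z.2.1) (Sum.inr.inj h1)
      have h3 := congrArg Finsupp.degree h2
      rw [hdeg0, Finsupp.degree_single] at h3
      omega
    · have h2 : Finsupp.single p 1 + Finsupp.single q 1 = (0 : ℕ →₀ ℕ) :=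
        congrArg Subtype.val (Sum.inl.inj h1)
      have h3 := congrArg Finsupp.degree h2
      rw [hdeg0, map_add, Finsupp.degree_single, Finsupp.degree_single] at h3
      omega
    · have h2 : Finsupp.single p 1 + Finsupp.single q 1 = (Finsupp.single b' 1 : ℕ →₀ ℕ) :=
        congrArg Subtype.val (Sum.inl.inj h1)
      have h3 := congrArg Finsupp.degree h2
      rw [map_add, Finsupp.degree_single, Finsupp.degree_single, Finsupp.degree_single] at h3
      omega
    · exact absurd h1 Sum.inl_ne_inr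
    · have h2 : (Finsupp.single p 1 + Finsupp.single q 1 : ℕ →₀ ℕ) =
          Finsupp.single p' 1 + Finsupp.single q' 1 := congrArg Subtype.val (Sum.inl.inj h1)
      have h3 := single_add_inj hpq hpq' h2
      obtain ⟨rfl, rfl⟩ := h3
      rfl
    · exact absurd h1 Sum.inl_ne_inr
    · exact absurd h1 Sum.inr_ne_inl
    · exact absurd h1 Sum.inr_ne_inl
    · have h2 : Finsupp.single p 1 = (0 : ℕ →₀ ℕ) :=
        congrArg (fun z => z.2.1) (Sum.inr.inj h1)
      have h3 := congrArg Finsupp.degree h2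
      rw [hdeg0, Finsupp.degree_single] at h3
      omega
    · exact absurd h1 Sum.inr_ne_inl
    · have h2 : c = c' := congrArg Prod.fst (Sum.inr.inj h1)
      have h3 : (Finsupp.single p 1 : ℕ →₀ ℕ) = Finsupp.single p' 1 :=
        congrArg (fun z => z.2.1) (Sum.inr.inj h1)
      rw [h2, Finsupp.single_left_injective one_ne_zero h3]
  have h1 := h.comp f hinj
  refine (linearIndependent_equiv' (Equiv.refl _) ?_).1 h1
  funext i
  rw [hf]
  rcases i with (i | (b | c)) | (⟨⟨p, q⟩, hpq⟩ | ⟨p, c⟩)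
  · exact (mon_zero u).symm
  · exact (mon_single u b).symm
  · show v c = v c * mon 0 u
    rw [mon_zero, mul_one]
  · exact (mon_two u p q).symm
  · show u p * v c = v c * mon (Finsupp.single p 1) u
    rw [mon_single, mul_comm]

end MP60829e.FM
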