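import Pool.Agent.Lib.MP_60829e_nt.FM.RowM
import Pool.Agent.Lib.MP_60829e_nt.FM.FinF

/-! # Generic combinations of logarithms: products of monomials with all the logarithms -/

open MvPolynomial Module

namespace MP60829e.FM

open MP60829e.ST (Qa Lsp Lt)
open MP60829e.HD (val Free FreeL GenFree Gq SW mem_SW mon NM)
open MP60829e.SL (smul_eq)

/-- The recursion, one row after the other. -/
theorem seq1 {k : Type*} [Field k] [Infinite k] {j : ℕ → ℕ} {Good : ℕ → (ℕ × ℕ → k) → Prop}
    (h0 : ∀ V, Good 0 V)
    (hcongr : ∀ n V W, (∀ p : ℕ × ℕ, p.1 < n → W p = V p) → Good n V → Good n W)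
    (hstep : ∀ b V, Good b V → Gq j Good V b (b + 1)) :
    ∃ H : (b : ℕ) → (Fin b × ℕ → k) → MvPolynomial (Fin (j b)) k, (∀ b y, H b y ≠ 0) ∧
      ∀ V : ℕ × ℕ → k,
        (∀ b, eval (fun t : Fin (j b) => V (b, t)) (H b fun p => V (p.1, p.2)) ≠ 0) →
        ∀ β, Good β V := by
  classical
  choose g hg0 hg using fun (b : ℕ) (V : ℕ × ℕ → k) (h : Good b V) => (hstep b V h).row
  let e : (b : ℕ) → (Fin b × ℕ → k) → ℕ × ℕ → k := fun b y p =>
    if h : p.1 < b then y (⟨p.1, h⟩, p.2) else 0
  let H : (b : ℕ) → (Fin b × ℕ → k) → MvPolynomial (Fin (j b)) k := fun b y =>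
    if h : Good b (e b y) then g b (e b y) h else 1
  have he : ∀ (V : ℕ × ℕ → k) b, ∀ p : ℕ × ℕ, p.1 < b →
      e b (fun q => V (q.1, q.2)) p = V p := by
    intro V b p hp
    show (if h : p.1 < b then V (p.1, p.2) else 0) = V p
    rw [dif_pos hp]
  refine ⟨H, fun b y => ?_, fun V hV => ?_⟩
  · show (if h : Good b (e b y) then g b (e b y) h else 1) ≠ 0
    split_ifs with h
    · exact hg0 b _ h
    · exact one_ne_zero
  · intro b
    induction b with
    | zero => exact h0 V
    | succ b ih =>
      have h1 : Good b (e b fun q => V (q.1, q.2)) := hcongr b V _ (he V b) ih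
      have h2 := hV b
      have h3 : H b (fun q => V (q.1, q.2)) = g b (e b fun q => V (q.1, q.2)) h1 := dif_pos h1
      rw [h3] at h2
      exact (hg b _ h1 V (fun p hp => (he V b p hp).symm) h2).good

theorem goodM_zero (M : Set (ℕ →₀ ℕ)) (x : ℕ → ℂ) : GoodM M 0 x := by
  intro P h1 _ h3 a
  have h4 : P = C (coeff 0 P) := by
    refine MvPolynomial.ext _ _ fun a => ?_
    rw [coeff_C]
    split_ifs with h
    · rw [h]
    · by_contra hne
      obtain ⟨-, h2⟩ := h1 a (MvPolynomial.mem_support_iff.2 hne)
      apply h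
      symm
      rw [← Finsupp.support_eq_empty]
      exact Finset.eq_empty_of_forall_notMem fun b hb => absurd (h2 b hb) (Nat.not_lt_zero _)
  rw [h4, eval_C] at h3
  rw [h4, h3, map_zero, coeff_zero]
  exact Submodule.zero_mem _

theorem NM_MX {M : Set (ℕ →₀ ℕ)}
    (hfin : ∀ n, {a : ℕ →₀ ℕ | a ∈ M ∧ ∀ b ∈ a.support, b < n}.Finite) (n : ℕ) :
    NM (MX M) (Finset.range n) ≤ (n + 1) * (SW M (Finset.range n)).card := by
  classical
  obtain ⟨W, hW⟩ : ∃ W, W = SW M (Finset.range n) := ⟨_, rfl⟩
  rw [← hW]
  have hsub : {a : ℕ →₀ ℕ | a ∈ MX M ∧ a.support ⊆ Finset.range n} ⊆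
      ((W ∪ (W ×ˢ Finset.range n).image fun p : (ℕ →₀ ℕ) × ℕ => p.1 + Finsupp.single p.2 1 :
        Finset (ℕ →₀ ℕ)) : Set (ℕ →₀ ℕ)) := by
    rintro a ⟨ha | ⟨m, hm, b, rfl⟩, han⟩
    · rw [Finset.mem_coe, Finset.mem_union]
      left
      rw [hW, mem_SW hfin]
      exact ⟨ha, han⟩
    · rw [Finset.mem_coe, Finset.mem_union]
      right
      rw [Finset.mem_image]
      refine ⟨(m, b), ?_, rfl⟩
      rw [Finset.mem_product, hW, mem_SW hfin]
      refine ⟨⟨hm, fun i hi => han ?_⟩, han ?_⟩
      · dsimp only at hi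
        rw [Finsupp.mem_support_iff] at hi ⊢
        rw [Finsupp.add_apply]
        omega
      · rw [Finsupp.mem_support_iff, Finsupp.add_apply, Finsupp.single_eq_same]
        omega
  unfold HD.NM
  refine (Set.ncard_le_ncard hsub (Finset.finite_toSet _)).trans ?_
  rw [Set.ncard_coe_finset]
  refine (Finset.card_union_le _ _).trans ?_
  refine (Nat.add_le_add_left Finset.card_image_le _).trans ?_
  rw [Finset.card_product, Finset.card_range]
  nlinarith

/-- One more row. -/
theorem stepM {lam : ℕ → ℂ} (hlam : LinearIndependent Qa lam) (hlog : ∀ i, lam i ∈ Lsp)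
    {M : Set (ℕ →₀ ℕ)} (hM : IsLowerSet M)
    (hfin : ∀ n, {a : ℕ →₀ ℕ | a ∈ M ∧ ∀ b ∈ a.support, b < n}.Finite) (j : ℕ → ℕ)
    (hj : ∀ b, ((SW M (Finset.range (b + 1))).card + 1) *
      ((SW M (Finset.range (b + 1))).card + 1) +
        (b + 2) * (SW M (Finset.range (b + 1))).card ≤ j b) (b : ℕ) (V : ℕ × ℕ → Qa)
    (hg : Free (MX M) b (val lam j V) ∧ GoodM M b (val lam j V)) :
    Gq j (fun n V => Free (MX M) n (val lam j V) ∧ GoodM M n (val lam j V)) V b (b + 1) := by
  classical
  have hval : ∀ n (V W : ℕ × ℕ → Qa), (∀ p : ℕ × ℕ, p.1 < n → W p = V p) →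
      ∀ b < n, val lam j V b = val lam j W b := by
    intro n V W h b hb
    unfold HD.val
    exact Finset.sum_congr rfl fun l _ => by rw [h (b, l) hb]
  have h1 : GenFree (MX M) lam j V b (b + 1) := by
    refine HD.core hlam hlog (isLowerSet_MX hM) (finite_MX hM hfin) j V le_rfl
      ⟨1, one_ne_zero, fun p hp => ?_, fun V' hV' _ =>
        free_congr hg.1 (hval b V V' hV')⟩ ?_
    · rw [← C_1, vars_C] at hp
      exact absurd hp (Finset.notMem_empty _)
    · intro Q hQ hb
      have h2 : Q = {b} := by
        refine Finset.eq_singleton_iff_unique_mem.2 ⟨hb, fun c hc => ?_⟩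
        have h3 := Finset.mem_Ico.1 (hQ hc)
        omega
      refine ⟨Q, Finset.Subset.refl _, ?_⟩
      have h3 : Finset.range b ∪ Q = Finset.range (b + 1) := by
        rw [h2]
        ext i
        rw [Finset.mem_union, Finset.mem_range, Finset.mem_range, Finset.mem_singleton]
        omega
      rw [h3, h2, Finset.sum_singleton, Finset.sum_singleton, Finset.card_singleton, Nat.sub_self,
        mul_zero, add_zero, Finset.Ico_self, Finset.empty_sdiff, Finset.card_empty, zero_add]
      have h4 := NM_MX hfin (b + 1)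
      have h5 := hj b
      have h6 : (b + 1 + 1) * (SW M (Finset.range (b + 1))).card =
          (b + 2) * (SW M (Finset.range (b + 1))).card := rfl
      omega
  exact Gq.and h1 (coreM hlam hlog hM hfin j V h1 hg.2 (hj b))

/-- The theorem for general sets of monomials, rows over the algebraic numbers. -/
theorem hM {lam : ℕ → ℂ} (hlam : LinearIndependent Qa lam) (hlog : ∀ i, lam i ∈ Lsp)
    {M : Set (ℕ →₀ ℕ)} (hM : IsLowerSet M)
    (hfin : ∀ n, {a : ℕ →₀ ℕ | a ∈ M ∧ ∀ b ∈ a.support, b < n}.Finite) (j : ℕ → ℕ)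
    (hj : ∀ b, ((SW M (Finset.range (b + 1))).card + 1) *
      ((SW M (Finset.range (b + 1))).card + 1) +
        (b + 2) * (SW M (Finset.range (b + 1))).card ≤ j b) :
    ∃ H : (b : ℕ) → (Fin b × ℕ → Qa) → MvPolynomial (Fin (j b)) Qa, (∀ b y, H b y ≠ 0) ∧
      ∀ V : ℕ × ℕ → Qa,
        (∀ b, eval (fun t : Fin (j b) => V (b, t)) (H b fun p => V (p.1, p.2)) ≠ 0) →
        ∀ n, Free (MX M) n (val lam j V) ∧ GoodM M n (val lam j V) := by
  classical
  have : Infinite Qa := Infinite.of_injective (Nat.cast : ℕ → Qa) Nat.cast_injective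
  have hval : ∀ n (V W : ℕ × ℕ → Qa), (∀ p : ℕ × ℕ, p.1 < n → W p = V p) →
      ∀ b < n, val lam j V b = val lam j W b := by
    intro n V W h b hb
    unfold HD.val
    exact Finset.sum_congr rfl fun l _ => by rw [h (b, l) hb]
  exact seq1 (k := Qa) (j := j)
    (Good := fun n V => Free (MX M) n (val lam j V) ∧ GoodM M n (val lam j V))
    (fun V => ⟨HD.free_zero _ _, goodM_zero _ _⟩)
    (fun n V W h hg => ⟨free_congr hg.1 (hval n V W h), hg.2.congr (hval n V W h)⟩)
    fun b V hg => stepM hlam hlog hM hfin j hj b V hg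

/-- The theorem for general sets of monomials, rational rows. -/
theorem hM_rat {lam : ℕ → ℂ} (halg : ∀ i, IsAlgebraic ℚ (Complex.exp (lam i)))
    (hli : LinearIndependent ℚ lam) {M : Set (ℕ →₀ ℕ)} (hMl : IsLowerSet M)
    (hfin : ∀ n, {a : ℕ →₀ ℕ | a ∈ M ∧ ∀ b ∈ a.support, b < n}.Finite) (j : ℕ → ℕ)
    (hj : ∀ b, ((SW M (Finset.range (b + 1))).card + 1) *
      ((SW M (Finset.range (b + 1))).card + 1) +
        (b + 2) * (SW M (Finset.range (b + 1))).card ≤ j b) :
    ∃ H : (b : ℕ) → (Fin b → ℕ → ℚ) → MvPolynomial (Fin (j b)) ℚ, (∀ b y, H b y ≠ 0) ∧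
      ∀ x : ℕ → ℕ → ℚ,
        (∀ b, eval (fun t : Fin (j b) => x b t) (H b fun i => x i) ≠ 0) →
        ∀ n, Free (MX M) n (fun b => ∑ t : Fin (j b), (x b t : ℂ) * lam t) ∧
          GoodM M n (fun b => ∑ t : Fin (j b), (x b t : ℂ) * lam t) := by
  have hlam := FC.baker lam halg hli
  have hlog : ∀ i, lam i ∈ Lsp := fun i => Submodule.subset_span (halg i)
  obtain ⟨H, hH0, hH⟩ := hM hlam hlog hMl hfin j hj
  choose g hg0 hg using fun (b : ℕ) (y : Fin b → ℕ → ℚ) =>
    FG.exists_rat (H b fun p => ((y p.1 p.2 : ℚ) : Qa)) (hH0 b _)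
  refine ⟨g, hg0, fun x hx n => ?_⟩
  have h1 := hH (fun p => ((x p.1 p.2 : ℚ) : Qa)) fun b => hg b _ _ (hx b)
  have h2 : val lam j (fun p => ((x p.1 p.2 : ℚ) : Qa)) =
      fun b => ∑ t : Fin (j b), (x b t : ℂ) * lam t := by
    funext b
    unfold HD.val
    rw [Finset.sum_range]
    refine Finset.sum_congr rfl fun t _ => ?_
    rw [Algebra.smul_def, map_ratCast]
  rw [h2] at h1
  exact h1 n

/-- The products with one factor in the space: from the three statements to the general one. -/
theorem good_of_F' {u : ℕ → ℂ} (hu : ∀ b, u b ∈ Lsp) {n : ℕ}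
    (h1 : Free {a | a.degree ≤ 1} n u) (h2 : FreeL {a | a.degree = 2} n u)
    (h3 : GoodF n u) :
    Free (MX {a | a.degree ≤ 1}) n u ∧ GoodM {a | a.degree ≤ 1} n u := by
  classical
  have huT : ∀ b, u b ∈ Lt := fun b => SL.Lsp_le_Lt (hu b)
  -- the monomials of degree at most one
  have hdeg1 : ∀ a : ℕ →₀ ℕ, a.degree ≤ 1 → a = 0 ∨ ∃ b, a = Finsupp.single b 1 := by
    intro a ha
    by_cases h : a = 0
    · exact Or.inl h
    · right
      obtain ⟨b, hb⟩ := Finsupp.support_nonempty_iff.2 h
      have hb1 : 1 ≤ a b := Nat.one_le_iff_ne_zero.2 (Finsupp.mem_support_iff.1 hb)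
      have h4 : a - Finsupp.single b 1 + Finsupp.single b 1 = a :=
        tsub_add_cancel_of_le (Finsupp.single_le_iff.2 hb1)
      have h5 : (a - Finsupp.single b 1).degree = 0 := by
        have h6 := congrArg Finsupp.degree h4
        rw [map_add, Finsupp.degree_single] at h6
        omega
      rw [Finsupp.degree_eq_zero_iff] at h5
      rw [h5, zero_add] at h4
      exact ⟨b, h4.symm⟩
  -- quadratic polynomials with values in Lt
  have key : ∀ P : MvPolynomial ℕ Qa, (∀ a ∈ P.support, a.degree ≤ 2 ∧ ∀ b ∈ a.support, b < n) →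
      aeval u P ∈ Lt → ∀ a, a.degree = 2 → coeff a P = 0 := by
    intro P hP hv a ha
    obtain ⟨Q, hQ⟩ : ∃ Q : MvPolynomial ℕ Qa, Q = ∑ a ∈ P.support.filter (fun a => a.degree = 2),
        monomial a (coeff a P) := ⟨_, rfl⟩
    have hco : ∀ a, coeff a Q = if a.degree = 2 then coeff a P else 0 := by
      intro a
      rw [hQ, coeff_sum]
      simp only [coeff_monomial]
      rw [Finset.sum_ite_eq' _ a fun a => coeff a P]
      by_cases h4 : a.degree = 2
      · rw [if_pos h4]
        by_cases h5 : a ∈ P.support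
        · rw [if_pos (Finset.mem_filter.2 ⟨h5, h4⟩)]
        · rw [if_neg (fun h6 => h5 (Finset.mem_filter.1 h6).1),
            MvPolynomial.notMem_support_iff.1 h5]
      · have h5 : a ∉ P.support.filter (fun a => a.degree = 2) :=
          fun h6 => h4 (Finset.mem_filter.1 h6).2
        rw [if_neg h4, if_neg h5]
    have hdiff : aeval u (P - Q) ∈ Lt := by
      have h5 : ∀ a ∈ (P - Q).support, a.degree ≤ 1 := by
        intro a ha
        rw [MvPolynomial.mem_support_iff, coeff_sub, hco] at ha
        by_cases h4 : a.degree = 2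
        · rw [if_pos h4, sub_self] at ha
          exact absurd rfl ha
        · rw [if_neg h4, sub_zero] at ha
          have := (hP a (MvPolynomial.mem_support_iff.2 ha)).1
          omega
      rw [HD.aeval_mon]
      refine Lt.sum_mem fun a ha => cmul_mem _ ?_
      rcases hdeg1 a (h5 a ha) with rfl | ⟨b, rfl⟩
      · have h6 : mon (0 : ℕ →₀ ℕ) u = 1 := by
          unfold HD.mon
          rw [Finsupp.support_zero, Finset.prod_empty]
        rw [h6]
        exact SL.one_mem_Lt
      · have h6 : mon (Finsupp.single b 1) u = u b := by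
          unfold HD.mon
          rw [Finsupp.support_single _ one_ne_zero, Finset.prod_singleton,
            Finsupp.single_eq_same, pow_one]
        rw [h6]
        exact huT b
    have hQv : aeval u Q ∈ Lt := by
      have h5 : aeval u Q = aeval u P - aeval u (P - Q) := by
        rw [map_sub]
        ring
      rw [h5]
      exact Lt.sub_mem hv hdiff
    have hQ0 : Q = 0 := by
      refine h2 Q (fun a ha => ?_) hQv
      rw [MvPolynomial.mem_support_iff, hco] at ha
      by_cases h4 : a.degree = 2
      · rw [if_pos h4] at ha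
        exact ⟨h4, (hP a (MvPolynomial.mem_support_iff.2 ha)).2⟩
      · exact absurd (if_neg h4) ha
    have h5 := hco a
    rw [hQ0, coeff_zero, if_pos ha] at h5
    exact h5.symm
  have hMXdeg : ∀ a ∈ MX {a : ℕ →₀ ℕ | a.degree ≤ 1}, a.degree ≤ 2 := by
    rintro a (ha | ⟨m, hm, b, rfl⟩)
    · have h4 : a.degree ≤ 1 := ha
      omega
    · have h4 : m.degree ≤ 1 := hm
      rw [map_add, Finsupp.degree_single]
      omega
  constructor
  · intro P hP hv
    have h4 := key P (fun a ha => ⟨hMXdeg a (hP a ha).1, (hP a ha).2⟩)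
      (by rw [hv]; exact Lt.zero_mem)
    refine h1 P (fun a ha => ⟨?_, (hP a ha).2⟩) hv
    have h5 := hMXdeg a (hP a ha).1
    have h6 : a.degree ≠ 2 := fun h7 => (MvPolynomial.mem_support_iff.1 ha) (h4 a h7)
    show a.degree ≤ 1
    omega
  · intro P hP hL hv
    -- the relation
    have hPeq : eval u P = coeff 0 P + ∑ b ∈ Finset.range n, coeff (Finsupp.single b 1) P * u b := by
      have h4 : eval u P = ∑ a ∈ insert 0 ((Finset.range n).image fun b =>
          (Finsupp.single b 1 : ℕ →₀ ℕ)), coeff a P * mon a u := by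
        rw [eval_eq]
        apply Finset.sum_subset
        · intro a ha
          obtain ⟨h5, h6⟩ := hP a ha
          rcases hdeg1 a h5 with rfl | ⟨b, rfl⟩
          · exact Finset.mem_insert_self _ _
          · refine Finset.mem_insert_of_mem (Finset.mem_image.2 ⟨b, ?_, rfl⟩)
            refine Finset.mem_range.2 (h6 b ?_)
            rw [Finsupp.mem_support_iff, Finsupp.single_eq_same]
            exact one_ne_zero
        · intro a _ ha
          rw [MvPolynomial.notMem_support_iff.1 ha, zero_mul]
      rw [h4, Finset.sum_insert, Finset.sum_image]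
      · congr 1
        · have h6 : mon (0 : ℕ →₀ ℕ) u = 1 := by
            unfold HD.mon
            rw [Finsupp.support_zero, Finset.prod_empty]
          rw [h6, mul_one]
        · refine Finset.sum_congr rfl fun b _ => ?_
          have h6 : mon (Finsupp.single b 1) u = u b := by
            unfold HD.mon
            rw [Finsupp.support_single _ one_ne_zero, Finset.prod_singleton,
              Finsupp.single_eq_same, pow_one]
          rw [h6]
      · intro b _ b' _ h5
        exact Finsupp.single_left_injective one_ne_zero h5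
      · intro h5
        obtain ⟨b, -, h6⟩ := Finset.mem_image.1 h5
        have h7 := DFunLike.congr_fun h6 b
        simp at h7
    rw [hPeq] at hv
    have h4 := h3 (fun b => coeff (Finsupp.single b 1) P) (fun b => hL _) (by
      have h5 : ∑ b ∈ Finset.range n, coeff (Finsupp.single b 1) P * u b = -coeff 0 P := by
        linear_combination hv
      rw [h5]
      exact Lt.neg_mem (hL _))
    -- the constant coefficient
    have h5 : ∀ b, ∃ (t0 : Qa) (t : ℕ → Qa), b < n → coeff (Finsupp.single b 1) P =
        (t0 : ℂ) + ∑ a ∈ Finset.range n, (t a : ℂ) * u a := by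
      intro b
      by_cases hb : b < n
      · obtain ⟨t0, t, ht⟩ := mem_Tn.1 (h4 b hb)
        exact ⟨t0, t, fun _ => ht⟩
      · exact ⟨0, 0, fun h => absurd h hb⟩
    choose t0 t ht using h5
    obtain ⟨R, hR⟩ : ∃ R : MvPolynomial ℕ Qa, R = ∑ b ∈ Finset.range n, (monomial
        (Finsupp.single b 1) (t0 b) + ∑ a ∈ Finset.range n,
          monomial (Finsupp.single a 1 + Finsupp.single b 1) (t b a)) := ⟨_, rfl⟩
    have hmon1 : ∀ b c, aeval u (monomial (Finsupp.single b 1) c : MvPolynomial ℕ Qa) =
        (c : ℂ) * u b := by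
      intro b c
      rw [aeval_monomial, Finsupp.prod_single_index]
      · rw [pow_one]
        rfl
      · exact pow_zero _
    have hmon2 : ∀ a b c, aeval u (monomial (Finsupp.single a 1 + Finsupp.single b 1) c :
        MvPolynomial ℕ Qa) = (c : ℂ) * u a * u b := by
      intro a b c
      have h6 : (monomial (Finsupp.single a 1 + Finsupp.single b 1) c : MvPolynomial ℕ Qa) =
          monomial (Finsupp.single a 1) c * monomial (Finsupp.single b 1) 1 := by
        rw [monomial_mul, mul_one]
      rw [h6, map_mul, hmon1, hmon1]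
      have h7 : ((1 : Qa) : ℂ) = 1 := rfl
      rw [h7, one_mul]
    have hRv : aeval u R = ∑ b ∈ Finset.range n, coeff (Finsupp.single b 1) P * u b := by
      rw [hR, map_sum]
      refine Finset.sum_congr rfl fun b hb => ?_
      rw [map_add, map_sum, hmon1, ht b (Finset.mem_range.1 hb), add_mul, Finset.sum_mul]
      congr 1
      exact Finset.sum_congr rfl fun a _ => hmon2 a b _
    have hRsupp : ∀ a ∈ R.support, a.degree ≤ 2 ∧ (∀ b ∈ a.support, b < n) ∧ a ≠ 0 := by
      intro a ha
      rw [MvPolynomial.mem_support_iff, hR, coeff_sum] at ha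
      obtain ⟨b, hb, hb'⟩ := Finset.exists_ne_zero_of_sum_ne_zero ha
      rw [coeff_add, coeff_monomial, coeff_sum] at hb'
      by_cases h6 : Finsupp.single b 1 = a
      · rw [← h6]
        refine ⟨by rw [Finsupp.degree_single]; omega, fun c hc => ?_, ?_⟩
        · have h7 := Finsupp.support_single_subset hc
          rw [Finset.mem_singleton] at h7
          rw [h7]
          exact Finset.mem_range.1 hb
        · intro h7
          have h8 := DFunLike.congr_fun h7 b
          simp at h8
      · rw [if_neg h6, zero_add] at hb'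
        obtain ⟨c, hc, hc'⟩ := Finset.exists_ne_zero_of_sum_ne_zero hb'
        rw [coeff_monomial] at hc'
        have h7 : Finsupp.single c 1 + Finsupp.single b 1 = a := by
          by_contra h8
          exact hc' (if_neg h8)
        rw [← h7]
        refine ⟨by rw [map_add, Finsupp.degree_single, Finsupp.degree_single], fun d hd => ?_, ?_⟩
        · have h8 := Finsupp.support_add hd
          rcases Finset.mem_union.1 h8 with h9 | h9
          · have h10 := Finsupp.support_single_subset h9
            rw [Finset.mem_singleton] at h10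
            rw [h10]
            exact Finset.mem_range.1 hc
          · have h10 := Finsupp.support_single_subset h9
            rw [Finset.mem_singleton] at h10
            rw [h10]
            exact Finset.mem_range.1 hb
        · intro h8
          have h9 := DFunLike.congr_fun h8 b
          rw [Finsupp.add_apply, Finsupp.single_eq_same] at h9
          simp at h9
    have h6 := key R (fun a ha => ⟨(hRsupp a ha).1, (hRsupp a ha).2.1⟩) (by
      rw [hRv]
      have h7 : ∑ b ∈ Finset.range n, coeff (Finsupp.single b 1) P * u b = -coeff 0 P := by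
        linear_combination hv
      rw [h7]
      exact Lt.neg_mem (hL _))
    have h7 : coeff 0 P = -aeval u R := by
      rw [hRv]
      linear_combination hv
    intro a
    by_cases ha : a ∈ P.support
    · obtain ⟨h8, h9⟩ := hP a ha
      rcases hdeg1 a h8 with rfl | ⟨b, rfl⟩
      · rw [h7, HD.aeval_mon]
        refine Submodule.neg_mem _ (Submodule.sum_mem _ fun a' ha' => cmul_mem _ ?_)
        obtain ⟨h10, h11, h12⟩ := hRsupp a' ha'
        have h13 : a'.degree ≠ 2 := fun h14 =>
          (MvPolynomial.mem_support_iff.1 ha') (h6 a' h14)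
        rcases hdeg1 a' (by omega) with h14 | ⟨b, rfl⟩
        · exact absurd h14 h12
        · have h14 : mon (Finsupp.single b 1) u = u b := by
            unfold HD.mon
            rw [Finsupp.support_single _ one_ne_zero, Finset.prod_singleton,
              Finsupp.single_eq_same, pow_one]
          rw [h14]
          refine x_mem_Tn u (h11 b ?_)
          rw [Finsupp.mem_support_iff, Finsupp.single_eq_same]
          exact one_ne_zero
      · refine h4 b (h9 b ?_)
        rw [Finsupp.mem_support_iff, Finsupp.single_eq_same]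
        exact one_ne_zero
    · rw [MvPolynomial.notMem_support_iff.1 ha]
      exact Submodule.zero_mem _

theorem good_of_F {u : ℕ → ℂ} (hu : ∀ b, u b ∈ Lsp)
    (h1 : ∀ n, Free {a | a.degree ≤ 1} n u) (h2 : ∀ n, FreeL {a | a.degree = 2} n u)
    (h3 : ∀ n, GoodF n u) (n : ℕ) :
    Free (MX {a | a.degree ≤ 1}) n u ∧ GoodM {a | a.degree ≤ 1} n u :=
  good_of_F' hu (h1 n) (h2 n) (h3 n)

end MP60829e.FM
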