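import Pool.Agent.Lib.MP_60829e_nt.FM.One
import Pool.Agent.Lib.MP_60829e_nt.FM.FinG

/-! # Products with all the logarithms: rows with small entries -/

open MvPolynomial Module

namespace MP60829e.FM

open MP60829e.ST (Qa Lsp Lt)
open MP60829e.HD (val Free FreeL SW mem_SW mon Gq GqD seqE)
open MP60829e.SL (smul_eq)

/-- The recursion, one row after the other, with bounds for the degrees. -/
theorem seq1D {k : Type} [Field k] [Infinite k] {j : ℕ → ℕ} {Good : ℕ → (ℕ × ℕ → k) → Prop}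
    (D : ℕ → ℕ) (h0 : ∀ V, Good 0 V)
    (hcongr : ∀ n V W, (∀ p : ℕ × ℕ, p.1 < n → W p = V p) → Good n V → Good n W)
    (hstep : ∀ b V, Good b V → GqD j Good V b (b + 1) (D b)) :
    ∃ H : (b : ℕ) → (Fin b × ℕ → k) → MvPolynomial (Fin (j b)) k, (∀ b y, H b y ≠ 0) ∧
      (∀ b y, (H b y).totalDegree ≤ D b) ∧
      ∀ V : ℕ × ℕ → k,
        (∀ b, eval (fun t : Fin (j b) => V (b, t)) (H b fun p => V (p.1, p.2)) ≠ 0) →
        ∀ β, Good β V := by
  classical
  choose g hg0 hg1 hg using fun (b : ℕ) (V : ℕ × ℕ → k) (h : Good b V) => (hstep b V h).row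
  let e : (b : ℕ) → (Fin b × ℕ → k) → ℕ × ℕ → k := fun b y p =>
    if h : p.1 < b then y (⟨p.1, h⟩, p.2) else 0
  let H : (b : ℕ) → (Fin b × ℕ → k) → MvPolynomial (Fin (j b)) k := fun b y =>
    if h : Good b (e b y) then g b (e b y) h else 1
  have he : ∀ (V : ℕ × ℕ → k) b, ∀ p : ℕ × ℕ, p.1 < b →
      e b (fun q => V (q.1, q.2)) p = V p := by
    intro V b p hp
    show (if h : p.1 < b then V (p.1, p.2) else 0) = V p
    rw [dif_pos hp]
  refine ⟨H, fun b y => ?_, fun b y => ?_, fun V hV => ?_⟩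
  · show (if h : Good b (e b y) then g b (e b y) h else 1) ≠ 0
    split_ifs with h
    · exact hg0 b _ h
    · exact one_ne_zero
  · show (if h : Good b (e b y) then g b (e b y) h else 1).totalDegree ≤ _
    split_ifs with h
    · exact hg1 b _ h
    · rw [totalDegree_one]
      exact Nat.zero_le _
  · intro b
    induction b with
    | zero => exact h0 V
    | succ b ih =>
      have h1 : Good b (e b fun q => V (q.1, q.2)) := hcongr b V _ (he V b) ih
      have h2 := hV b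
      have h3 : H b (fun q => V (q.1, q.2)) = g b (e b fun q => V (q.1, q.2)) h1 := dif_pos h1
      rw [h3] at h2
      exact (hg b _ h1 V (fun p hp => (he V b p hp).symm) h2).good

theorem sum_one_le (n b : ℕ) :
    ∑ a ∈ SW {a : ℕ →₀ ℕ | a.degree ≤ 1} (Finset.range n), a b ≤ 1 := by
  classical
  have hsub : (SW {a : ℕ →₀ ℕ | a.degree ≤ 1} (Finset.range n)).filter (fun a => a b ≠ 0) ⊆
      {Finsupp.single b 1} := by
    intro a ha
    rw [Finset.mem_filter, mem_SW (HD.finite_degree 1)] at ha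
    obtain ⟨⟨h1, -⟩, h2⟩ := ha
    rcases deg_one_or (a := a) h1 with rfl | ⟨b', rfl⟩
    · exact absurd rfl h2
    · by_cases h3 : b' = b
      · rw [h3]
        exact Finset.mem_singleton_self _
      · rw [Finsupp.single_eq_of_ne (Ne.symm h3)] at h2
        exact absurd rfl h2
  rw [← Finset.sum_filter_ne_zero]
  refine (Finset.sum_le_sum_of_subset hsub).trans ?_
  rw [Finset.sum_singleton, Finsupp.single_eq_same]

theorem val_congr_lt (lam : ℕ → ℂ) (j : ℕ → ℕ) (n : ℕ) {V W : ℕ × ℕ → Qa}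
    (h : ∀ p : ℕ × ℕ, p.1 < n → W p = V p) : ∀ b < n, val lam j V b = val lam j W b := by
  intro b hb
  unfold HD.val
  exact Finset.sum_congr rfl fun l _ => by rw [h (b, l) hb]

theorem gx_congr {M : Set (ℕ →₀ ℕ)} {lam : ℕ → ℂ} {j : ℕ → ℕ} {n : ℕ} {V W : ℕ × ℕ → Qa}
    (h : ∀ p : ℕ × ℕ, p.1 < n → W p = V p) (hg : GX M lam j n V) : GX M lam j n W :=
  ⟨free_congr hg.1 (val_congr_lt lam j n h), hg.2.congr (val_congr_lt lam j n h)⟩

theorem val_mem_Lsp {lam : ℕ → ℂ} (hlog : ∀ i, lam i ∈ Lsp) (j : ℕ → ℕ) (V : ℕ × ℕ → Qa)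
    (b : ℕ) : val lam j V b ∈ Lsp := by
  unfold HD.val
  exact Submodule.sum_mem _ fun l _ => Submodule.smul_mem _ _ (hlog l)

theorem one_mem_deg : (0 : ℕ →₀ ℕ) ∈ {a : ℕ →₀ ℕ | a.degree ≤ 1} := by
  show (0 : ℕ →₀ ℕ).degree ≤ 1
  rw [map_zero]
  exact Nat.zero_le _

/-- The bound for the degree. -/
theorem dgF_le (b : ℕ) : dgX {a : ℕ →₀ ℕ | a.degree ≤ 1}
    (5 * max (b + 1) ((b + 1 + 1) * (b + 1 + 1)) + 5) 1 b
      (max (b + 1) ((b + 1 + 1) * (b + 1 + 1))) ≤ (5 * (b + 2) ^ 2 + 7) ^ 3 := by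
  have hT : max (b + 1) ((b + 1 + 1) * (b + 1 + 1)) = (b + 2) ^ 2 := by
    rw [max_eq_right (by nlinarith)]
    ring
  rw [hT]
  unfold dgX
  have h1 := sum_one_le ((b + 2) ^ 2) b
  have h2 : ∑ a ∈ SW HD.M1 (Finset.range ((b + 2) ^ 2)), a b ≤ 1 := h1
  obtain ⟨s, hs⟩ : ∃ s, s = 5 * (b + 2) ^ 2 + 6 := ⟨_, rfl⟩
  have h3 : 5 * (b + 2) ^ 2 + 5 + 1 = s := by omega
  have h4 : 5 * (b + 2) ^ 2 + 7 = s + 1 := by omega
  rw [h3, h4, pow_one]
  have h5 : (s ^ 3 + s) * ∑ a ∈ SW {a : ℕ →₀ ℕ | a.degree ≤ 1} (Finset.range ((b + 2) ^ 2)), a b ≤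
      (s ^ 3 + s) * 1 := Nat.mul_le_mul_left _ h1
  have h6 : (s + 1) ^ 3 = s ^ 3 + 3 * s ^ 2 + 3 * s + 1 := by ring
  have h7 : 0 ≤ s ^ 2 := Nat.zero_le _
  omega

/-- Degree at most one, rows over the algebraic numbers. -/
theorem hFX {lam : ℕ → ℂ} (hlam : LinearIndependent Qa lam) (hlog : ∀ i, lam i ∈ Lsp) :
    ∃ H : (b : ℕ) → (Fin b × ℕ → Qa) → MvPolynomial (Fin (5 * b + 10)) Qa,
      (∀ b y, H b y ≠ 0) ∧ (∀ b y, (H b y).totalDegree ≤ (5 * (b + 2) ^ 2 + 7) ^ 3) ∧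
      ∀ V : ℕ × ℕ → Qa,
        (∀ b, eval (fun t : Fin (5 * b + 10) => V (b, t)) (H b fun p => V (p.1, p.2)) ≠ 0) →
        ∀ n, GX {a | a.degree ≤ 1} lam (fun b => 5 * b + 10) n V := by
  have : Infinite Qa := Infinite.of_injective (Nat.cast : ℕ → Qa) Nat.cast_injective
  obtain ⟨H, h0, h1, h2⟩ := seqE (k := Qa) (j := fun b => 5 * b + 10)
    (Good := GX {a | a.degree ≤ 1} lam (fun b => 5 * b + 10))
    (fun V => ⟨HD.free_zero _ _, goodM_zero _ _⟩) (fun al => (al + 1) * (al + 1))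
    (fun α β => dgX {a : ℕ →₀ ℕ | a.degree ≤ 1} (5 * β + 5) 1 α β)
    (fun β γ V hβγ h => gx_down hβγ h.1 h.2)
    (fun β V W hVW h => gx_congr (fun p hp => (hVW p hp).symm) h)
    (fun α β V hαβ h hprev => by
      have h3 := stepF hlam hlog (fun b => 5 * b + 10) (fun b => le_rfl) α β V hαβ h
        (hprev.mono fun V' hV' => f_of_gx (fun b => val_mem_Lsp hlog _ V' b) hV'.1 hV'.2)
      exact h3.mono fun V' hV' => good_of_F' (fun b => val_mem_Lsp hlog _ V' b)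
        hV'.1 hV'.2.1 hV'.2.2)
    (fun α β V h => gx_minor (one_mem_deg) HD.isLowerSet_one (HD.finite_degree 1) hlog _ α β
      (5 * β + 5) 1 (fun b hb => by omega) (fun a ha _ => ha) V h)
  exact ⟨H, h0, fun b y => (h1 b y).trans (dgF_le b), h2⟩

/-- Divisors of each degree. -/
theorem exists_div : ∀ (d : ℕ) (a : ℕ →₀ ℕ), a.degree = d → ∀ k ≤ d, ∃ c ≤ a, c.degree = k := by
  intro d
  induction d with
  | zero =>
    intro a ha k hk
    exact ⟨a, le_rfl, by omega⟩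
  | succ d ih =>
    intro a ha k hk
    rcases Nat.lt_or_ge k (d + 1) with h | h
    · have hne : a ≠ 0 := by
        rintro rfl
        rw [map_zero] at ha
        omega
      obtain ⟨b, hb⟩ := Finsupp.support_nonempty_iff.2 hne
      have hb1 : 1 ≤ a b := Nat.one_le_iff_ne_zero.2 (Finsupp.mem_support_iff.1 hb)
      have h4 : a - Finsupp.single b 1 + Finsupp.single b 1 = a :=
        tsub_add_cancel_of_le (Finsupp.single_le_iff.2 hb1)
      have h6 := congrArg Finsupp.degree h4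
      rw [map_add, Finsupp.degree_single] at h6
      obtain ⟨c, hc, hck⟩ := ih (a - Finsupp.single b 1) (by omega) k (by omega)
      exact ⟨c, hc.trans tsub_le_self, hck⟩
    · exact ⟨a, le_rfl, by omega⟩

theorem degree_lt_card {M : Set (ℕ →₀ ℕ)} (hM : IsLowerSet M)
    (hfin : ∀ n, {a : ℕ →₀ ℕ | a ∈ M ∧ ∀ b ∈ a.support, b < n}.Finite) {n : ℕ} {a : ℕ →₀ ℕ}
    (ha : a ∈ M) (han : ∀ b ∈ a.support, b < n) : a.degree + 1 ≤ (SW M (Finset.range n)).card := by
  classical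
  choose! c hc1 hc2 using fun k (hk : k ≤ a.degree) => exists_div a.degree a rfl k hk
  rw [← Finset.card_range (a.degree + 1)]
  refine Finset.card_le_card_of_injOn c (fun k hk => ?_) fun k hk k' hk' h => ?_
  · have hk1 : k ≤ a.degree := Nat.lt_succ_iff.1 (Finset.mem_range.1 hk)
    rw [Finset.mem_coe, mem_SW hfin]
    refine ⟨hM (hc1 k hk1) ha, fun i hi => Finset.mem_range.2 (han i ?_)⟩
    rw [Finsupp.mem_support_iff] at hi ⊢
    have := hc1 k hk1 i
    omega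
  · have hk1 : k ≤ a.degree := Nat.lt_succ_iff.1 (Finset.mem_range.1 hk)
    have hk2 : k' ≤ a.degree := Nat.lt_succ_iff.1 (Finset.mem_range.1 hk')
    rw [← hc2 k hk1, ← hc2 k' hk2, h]

theorem card_SW_mono {M : Set (ℕ →₀ ℕ)}
    (hfin : ∀ n, {a : ℕ →₀ ℕ | a ∈ M ∧ ∀ b ∈ a.support, b < n}.Finite) {n n' : ℕ} (h : n ≤ n') :
    (SW M (Finset.range n)).card ≤ (SW M (Finset.range n')).card := by
  refine Finset.card_le_card fun a ha => ?_
  rw [mem_SW hfin] at ha ⊢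
  exact ⟨ha.1, ha.2.trans (Finset.range_subset_range.2 h)⟩

/-- The bound for the degree, general sets of monomials. -/
theorem dgM_le {M : Set (ℕ →₀ ℕ)} (h0M : (0 : ℕ →₀ ℕ) ∈ M) (hM : IsLowerSet M)
    (hfin : ∀ n, {a : ℕ →₀ ℕ | a ∈ M ∧ ∀ b ∈ a.support, b < n}.Finite) (b N : ℕ)
    (hN : (SW M (Finset.range (b + 1))).card = N) :
    dgX M ((N + 1) * (N + 1) + (b + 2) * N) (N - 1) b (b + 1) ≤ (N + b + 2) ^ (6 * N) := by
  classical
  have hN1 : 1 ≤ N := by
    have h1 := degree_lt_card hM hfin h0M (n := b + 1) (fun i hi => by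
      rw [Finsupp.support_zero] at hi
      exact absurd hi (Finset.notMem_empty _))
    omega
  obtain ⟨N', rfl⟩ : ∃ N', N = N' + 1 := ⟨N - 1, by omega⟩
  unfold dgX
  rw [Nat.add_sub_cancel]
  have h1 : ∑ a ∈ SW M (Finset.range (b + 1)), a b ≤ (N' + 1) * N' := by
    have h2 : ∑ a ∈ SW M (Finset.range (b + 1)), a b ≤
        (SW M (Finset.range (b + 1))).card • N' := by
      refine Finset.sum_le_card_nsmul _ _ _ fun a ha => ?_
      obtain ⟨h3, h4⟩ := (mem_SW hfin _ a).1 ha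
      have h5 := degree_lt_card hM hfin h3 (n := b + 1) fun i hi => Finset.mem_range.1 (h4 hi)
      have h6 : a b ≤ a.degree := Finsupp.le_degree b a
      omega
    rw [hN, smul_eq_mul] at h2
    exact h2
  have h2 : ∑ a ∈ SW HD.M1 (Finset.range (b + 1)), a b ≤ 1 := sum_one_le (b + 1) b
  obtain ⟨s, hs⟩ : ∃ s, s = N' + 1 + b + 2 := ⟨_, rfl⟩
  rw [← hs]
  have hJ : (N' + 1 + 1) * (N' + 1 + 1) + (b + 2) * (N' + 1) + 1 ≤ s ^ 2 := by
    rw [hs]
    nlinarith
  have h3 : (((N' + 1 + 1) * (N' + 1 + 1) + (b + 2) * (N' + 1) + 1) ^ N') ^ 3 ≤ s ^ (6 * N') := by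
    have h4 : s ^ (6 * N') = ((s ^ 2) ^ N') ^ 3 := by
      rw [← pow_mul, ← pow_mul]
      congr 1
      ring
    rw [h4]
    exact Nat.pow_le_pow_left (Nat.pow_le_pow_left hJ _) _
  obtain ⟨A, hA⟩ : ∃ A, A = s ^ (6 * N') := ⟨_, rfl⟩
  have hs2 : 3 ≤ s := by omega
  have hA1 : 1 ≤ A := by
    rw [hA]
    exact Nat.one_le_pow _ _ (by omega)
  have h4 : s ^ (6 * (N' + 1)) = A * s ^ 6 := by
    rw [hA, ← pow_add]
    congr 1
  rw [h4]
  have h5 : (N' + 1) * N' ≤ s ^ 2 := by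
    rw [hs]
    nlinarith
  calc _ ≤ (A + s ^ 2) * s ^ 2 + 1 := by
        refine Nat.add_le_add (Nat.mul_le_mul (Nat.add_le_add (h3.trans hA.ge) hJ)
          (h1.trans h5)) h2
    _ ≤ A * (s ^ 2 + s ^ 4 + 1) := by
        have h6 : s ^ 2 * s ^ 2 ≤ A * s ^ 4 := by
          have : s ^ 2 * s ^ 2 = s ^ 4 := by ring
          rw [this]
          exact Nat.le_mul_of_pos_left _ hA1
        nlinarith
    _ ≤ A * s ^ 6 := by
        refine Nat.mul_le_mul_left _ ?_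
        have h7 : 3 * 3 ≤ s * s := Nat.mul_le_mul hs2 hs2
        have h8 : s ^ 2 = s * s := sq s
        have h9 : s ^ 4 = s ^ 2 * s ^ 2 := by ring
        have h10 : s ^ 6 = s ^ 2 * s ^ 4 := by ring
        rw [h10, h9]
        nlinarith

/-- General sets of monomials, rows over the algebraic numbers. -/
theorem hMX {lam : ℕ → ℂ} (hlam : LinearIndependent Qa lam) (hlog : ∀ i, lam i ∈ Lsp)
    {M : Set (ℕ →₀ ℕ)} (h0M : (0 : ℕ →₀ ℕ) ∈ M) (hM : IsLowerSet M)
    (hfin : ∀ n, {a : ℕ →₀ ℕ | a ∈ M ∧ ∀ b ∈ a.support, b < n}.Finite) (N : ℕ → ℕ)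
    (hN : ∀ b, (SW M (Finset.range (b + 1))).card = N b) :
    ∃ H : (b : ℕ) → (Fin b × ℕ → Qa) →
        MvPolynomial (Fin ((N b + 1) * (N b + 1) + (b + 2) * N b)) Qa,
      (∀ b y, H b y ≠ 0) ∧ (∀ b y, (H b y).totalDegree ≤ (N b + b + 2) ^ (6 * N b)) ∧
      ∀ V : ℕ × ℕ → Qa,
        (∀ b, eval (fun t : Fin ((N b + 1) * (N b + 1) + (b + 2) * N b) => V (b, t))
          (H b fun p => V (p.1, p.2)) ≠ 0) →
        ∀ n, GX M lam (fun b => (N b + 1) * (N b + 1) + (b + 2) * N b) n V := by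
  have : Infinite Qa := Infinite.of_injective (Nat.cast : ℕ → Qa) Nat.cast_injective
  obtain ⟨H, h0, h1, h2⟩ := seq1D (k := Qa)
    (j := fun b => (N b + 1) * (N b + 1) + (b + 2) * N b)
    (Good := GX M lam (fun b => (N b + 1) * (N b + 1) + (b + 2) * N b))
    (fun b => dgX M ((N b + 1) * (N b + 1) + (b + 2) * N b) (N b - 1) b (b + 1))
    (fun V => ⟨HD.free_zero _ _, goodM_zero _ _⟩)
    (fun n V W h hg => gx_congr h hg)
    (fun b V hg => by
      refine gx_minor h0M hM hfin hlog _ b (b + 1) _ _ (fun i hi => ?_) (fun a ha han => ?_) V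
        (stepM hlam hlog hM hfin _ (fun b => ?_) b V hg)
      · have h3 : N i ≤ N b := by
          rw [← hN i, ← hN b]
          exact card_SW_mono hfin (by omega)
        exact Nat.add_le_add (Nat.mul_le_mul (by omega) (by omega))
          (Nat.mul_le_mul (by omega) h3)
      · have h3 := degree_lt_card hM hfin ha han
        rw [hN] at h3
        omega
      · rw [hN])
  exact ⟨H, h0, fun b y => (h1 b y).trans (dgM_le h0M hM hfin b (N b) (hN b)), h2⟩

end MP60829e.FM
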