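import Pool.Agent.Lib.MP_60829e_nt.FM.FinX

/-! # Products with all the logarithms: rational rows, natural numbers, primes -/

open MvPolynomial Module

namespace MP60829e.FM

open MP60829e.ST (Qa Lsp Lt)
open MP60829e.HD (val Free FreeL SW mem_SW mon)
open MP60829e.SL (smul_eq)

/-- The value of rational rows. -/
theorem val_rat (lam : ℕ → ℂ) (j : ℕ → ℕ) (x : ℕ → ℕ → ℚ) :
    val lam j (fun p => ((x p.1 p.2 : ℚ) : Qa)) =
      fun b => ∑ t : Fin (j b), (x b t : ℂ) * lam t := by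
  funext b
  unfold HD.val
  rw [Finset.sum_range]
  refine Finset.sum_congr rfl fun t _ => ?_
  rw [Algebra.smul_def]
  congr 1

/-- The value of natural rows. -/
theorem val_nat (lam : ℕ → ℂ) (j : ℕ → ℕ) (x : ℕ → ℕ → ℕ) :
    val lam j (fun p => ((x p.1 p.2 : ℕ) : Qa)) =
      fun b => ∑ t : Fin (j b), ((x b t : ℕ) : ℂ) * lam t := by
  funext b
  unfold HD.val
  rw [Finset.sum_range]
  refine Finset.sum_congr rfl fun t _ => ?_
  rw [Algebra.smul_def]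
  congr 1

/-- From the algebraic to the rational numbers. -/
theorem to_rat {lam : ℕ → ℂ} {j d : ℕ → ℕ} {G : (ℕ → ℂ) → Prop}
    (h : ∃ H : (b : ℕ) → (Fin b × ℕ → Qa) → MvPolynomial (Fin (j b)) Qa,
      (∀ b y, H b y ≠ 0) ∧ (∀ b y, (H b y).totalDegree ≤ d b) ∧
      ∀ V : ℕ × ℕ → Qa,
        (∀ b, eval (fun t : Fin (j b) => V (b, t)) (H b fun p => V (p.1, p.2)) ≠ 0) →
        G (val lam j V)) :
    ∃ H : (b : ℕ) → (Fin b → ℕ → ℚ) → MvPolynomial (Fin (j b)) ℚ,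
      (∀ b y, H b y ≠ 0 ∧ (H b y).totalDegree ≤ d b) ∧
      ∀ x : ℕ → ℕ → ℚ, (∀ b, eval (fun t : Fin (j b) => x b t) (H b fun i => x i) ≠ 0) →
        G (fun b => ∑ t : Fin (j b), (x b t : ℂ) * lam t) := by
  obtain ⟨H, hH0, hHd, hH⟩ := h
  choose g hg0 hgd hg using fun (b : ℕ) (y : Fin b → ℕ → ℚ) =>
    HD.exists_ratD (H b fun p => ((y p.1 p.2 : ℚ) : Qa)) (hH0 b _)
  refine ⟨g, fun b y => ⟨hg0 b y, (hgd b y).trans (hHd b _)⟩, fun x hx => ?_⟩
  have h1 : ∀ b, eval (fun t : Fin (j b) => ((x b t : ℚ) : Qa))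
      (H b fun p => ((x p.1 p.2 : ℚ) : Qa)) ≠ 0 := fun b => hg b (fun i => x i) _ (hx b)
  have h2 := hH (fun p => ((x p.1 p.2 : ℚ) : Qa)) h1
  have h3 := val_rat lam j x
  exact h3 ▸ h2

/-- Natural numbers of bounded size. -/
theorem to_nat {lam : ℕ → ℂ} {j d : ℕ → ℕ} {G : (ℕ → ℂ) → Prop}
    (h : ∃ H : (b : ℕ) → (Fin b × ℕ → Qa) → MvPolynomial (Fin (j b)) Qa,
      (∀ b y, H b y ≠ 0) ∧ (∀ b y, (H b y).totalDegree ≤ d b) ∧
      ∀ V : ℕ × ℕ → Qa,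
        (∀ b, eval (fun t : Fin (j b) => V (b, t)) (H b fun p => V (p.1, p.2)) ≠ 0) →
        G (val lam j V)) :
    ∃ x : ℕ → ℕ → ℕ, (∀ b t, x b t ≤ d b) ∧ G (fun b => ∑ t : Fin (j b), (x b t : ℂ) * lam t) := by
  obtain ⟨H, hH0, hHd, hH⟩ := h
  obtain ⟨x, hx0, hx⟩ := HD.exists_nat_seq H hH0 hHd
  refine ⟨x, hx0, ?_⟩
  have h1 := hH (fun p => ((x p.1 p.2 : ℕ) : Qa)) hx
  rw [val_nat] at h1
  exact h1

/-- Rational combinations of logarithms are logarithms. -/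
theorem exp_alg {lam : ℕ → ℂ} (halg : ∀ i, IsAlgebraic ℚ (Complex.exp (lam i))) {j : ℕ}
    (x : ℕ → ℚ) : IsAlgebraic ℚ (Complex.exp (∑ t : Fin j, (x t : ℂ) * lam t)) := by
  have h : ∑ t : Fin j, (x t : ℂ) * lam t ∈ MP60829e.SE.Lg := by
    refine Submodule.sum_mem _ fun t _ => ?_
    have h3 : (x t : ℂ) * lam t = x t • lam t := (Rat.smul_def _ _).symm
    rw [h3]
    exact Submodule.smul_mem _ _ (halg t)
  exact h

/-- The conclusion for degree at most one. -/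
theorem simple {u : ℕ → ℂ} (hu : ∀ b, IsAlgebraic ℚ (Complex.exp (u b)))
    (h : ∀ n, Free (MX {a | a.degree ≤ 1}) n u ∧ GoodM {a | a.degree ≤ 1} n u) :
    LinearIndependent ℚ u ∧
      ∀ (κ : Type) (v : κ → ℂ), (∀ c, IsAlgebraic ℚ (Complex.exp (v c))) →
        LinearIndependent ℚ (Sum.elim u v) →
        LinearIndependent Qa (Sum.elim (Sum.elim (fun _ : Unit => (1 : ℂ)) (Sum.elim u v))
          (Sum.elim (fun p : {p : ℕ × ℕ // p.1 ≤ p.2} => u p.1.1 * u p.1.2)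
            (fun p : ℕ × κ => u p.1 * v p.2))) := by
  obtain ⟨h1, h2⟩ := fam hu one_mem_deg h
  exact ⟨h1, fun κ v hv hli => fam_one (h2 κ v hv hli)⟩

/-- Natural coefficients of bounded size. -/
theorem simple_nat {lam : ℕ → ℂ} (halg : ∀ i, IsAlgebraic ℚ (Complex.exp (lam i)))
    (hli : LinearIndependent ℚ lam) :
    ∃ x : ℕ → ℕ → ℕ, (∀ b t, x b t ≤ (5 * (b + 2) ^ 2 + 7) ^ 3) ∧ ∀ u : ℕ → ℂ,
      (∀ b, u b = ∑ t ∈ Finset.range (5 * b + 10), (x b t : ℂ) * lam t) →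
      LinearIndependent ℚ u ∧
      ∀ (κ : Type) (v : κ → ℂ), (∀ c, IsAlgebraic ℚ (Complex.exp (v c))) →
        LinearIndependent ℚ (Sum.elim u v) →
        LinearIndependent Qa (Sum.elim (Sum.elim (fun _ : Unit => (1 : ℂ)) (Sum.elim u v))
          (Sum.elim (fun p : {p : ℕ × ℕ // p.1 ≤ p.2} => u p.1.1 * u p.1.2)
            (fun p : ℕ × κ => u p.1 * v p.2))) := by
  have hlam := FC.baker lam halg hli
  have hlog : ∀ i, lam i ∈ Lsp := fun i => Submodule.subset_span (halg i)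
  obtain ⟨x, hx0, hx⟩ := to_nat (G := fun u => ∀ n, Free (MX {a | a.degree ≤ 1}) n u ∧
    GoodM {a | a.degree ≤ 1} n u) (hFX hlam hlog)
  refine ⟨x, hx0, fun u hu => ?_⟩
  have h1 : (fun b => ∑ t : Fin (5 * b + 10), ((x b t : ℕ) : ℂ) * lam t) = u := by
    funext b
    rw [hu b, Finset.sum_range]
  have h2 : ∀ b, IsAlgebraic ℚ (Complex.exp (u b)) := by
    intro b
    rw [← h1]
    have h3 := exp_alg halg (j := 5 * b + 10) fun t => ((x b t : ℕ) : ℚ)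
    simp only [Rat.cast_natCast] at h3
    exact h3
  rw [h1] at hx
  exact simple h2 hx

/-- Products of powers of primes. -/
theorem simple_primes : ∃ a : ℕ → ℕ, (∀ b, ∃ x : ℕ → ℕ,
    (∀ t, x t ≤ (5 * (b + 2) ^ 2 + 7) ^ 3) ∧
      a b = ∏ t ∈ Finset.range (5 * b + 10), Nat.nth Nat.Prime t ^ x t) ∧
    LinearIndependent ℚ (fun b => Complex.log (a b)) ∧
      ∀ (κ : Type) (v : κ → ℂ), (∀ c, IsAlgebraic ℚ (Complex.exp (v c))) →
        LinearIndependent ℚ (Sum.elim (fun b => Complex.log (a b)) v) →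
        LinearIndependent Qa (Sum.elim (Sum.elim (fun _ : Unit => (1 : ℂ))
          (Sum.elim (fun b => Complex.log (a b)) v))
          (Sum.elim (fun p : {p : ℕ × ℕ // p.1 ≤ p.2} =>
            Complex.log (a p.1.1) * Complex.log (a p.1.2))
            (fun p : ℕ × κ => Complex.log (a p.1) * v p.2))) := by
  obtain ⟨x, hx0, hx⟩ := simple_nat HD.halgP HD.hliP
  refine ⟨fun b => ∏ t ∈ Finset.range (5 * b + 10), Nat.nth Nat.Prime t ^ x b t,
    fun b => ⟨x b, hx0 b, rfl⟩, hx _ fun b => ?_⟩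
  rw [← Complex.natCast_log, HD.log_prod, Finset.sum_range]

end MP60829e.FM
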