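import Pool.Agent.Lib.MP_60829e_nt.FM.Struct
import Pool.Agent.Lib.MP_60829e_nt.HD.Str

/-! # The universal relation -/

open MvPolynomial

namespace MP60829e.FM

open MP60829e.ST (Qa Lsp Lt)
open MP60829e.SB
open MP60829e.HD (ext PR)

section fn

variable {R R' : Type} [CommRing R] [CommRing R'] {P : Finset (Σ _ : ℕ, ℕ)}
  {T S : Finset (ℕ × ℕ)} {Q : Finset ℕ}

/-- The new coordinates. -/
def yf (zp : {p // p ∈ P} → R) (X : ℕ → R) (i : ℕ) : R :=
  X i + ∑ p : {p // p ∈ P}, if p.1.1 = i then zp p * X p.1.2 else 0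

/-- The linear forms. -/
def ef (zr : {p // p ∈ T} → R) (Y : ℕ → R) (c : ℕ) : R :=
  Y c + ∑ p : {p // p ∈ T}, if p.1.1 = c then zr p * Y p.1.2 else 0

/-- The value. -/
def vf (zs : {p // p ∈ S} → R) (Y E : ℕ → R) (mm : Option {c // c ∈ Q} → R) : R :=
  ∑ c : {c // c ∈ Q}, mm (some c) * E c.1 + ∑ p : {p // p ∈ S}, zs p * (Y p.1.1 * Y p.1.2) +
    mm none

theorem map_yf (φ : R →+* R') (zp : {p // p ∈ P} → R) (X : ℕ → R) (i : ℕ) :
    φ (yf zp X i) = yf (fun p => φ (zp p)) (fun i => φ (X i)) i := by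
  unfold yf
  rw [map_add, map_sum]
  congr 1
  refine Finset.sum_congr rfl fun p _ => ?_
  by_cases h : p.1.1 = i
  · rw [if_pos h, if_pos h, map_mul]
  · rw [if_neg h, if_neg h, map_zero]

theorem map_ef (φ : R →+* R') (zr : {p // p ∈ T} → R) (Y : ℕ → R) (c : ℕ) :
    φ (ef zr Y c) = ef (fun p => φ (zr p)) (fun i => φ (Y i)) c := by
  unfold ef
  rw [map_add, map_sum]
  congr 1
  refine Finset.sum_congr rfl fun p _ => ?_
  by_cases h : p.1.1 = c
  · rw [if_pos h, if_pos h, map_mul]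
  · rw [if_neg h, if_neg h, map_zero]

theorem map_vf (φ : R →+* R') (zs : {p // p ∈ S} → R) (Y E : ℕ → R)
    (mm : Option {c // c ∈ Q} → R) : φ (vf zs Y E mm) =
      vf (fun p => φ (zs p)) (fun i => φ (Y i)) (fun c => φ (E c)) (fun k => φ (mm k)) := by
  unfold vf
  simp only [map_add, map_sum, map_mul]

variable {k : Type} [CommRing k] [Algebra k R] (D : Derivation k R R)

theorem d_yf (zp : {p // p ∈ P} → R) (hz : ∀ p, D (zp p) = 0) (X : ℕ → R) (i : ℕ) :
    D (yf zp X i) = yf zp (fun i => D (X i)) i := by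
  unfold yf
  rw [map_add, map_sum]
  congr 1
  refine Finset.sum_congr rfl fun p _ => ?_
  by_cases h : p.1.1 = i
  · rw [if_pos h, if_pos h, Derivation.leibniz, hz, smul_zero, add_zero, smul_eq_mul]
  · rw [if_neg h, if_neg h, map_zero]

theorem d_ef (zr : {p // p ∈ T} → R) (hz : ∀ p, D (zr p) = 0) (Y : ℕ → R) (c : ℕ) :
    D (ef zr Y c) = ef zr (fun i => D (Y i)) c := by
  unfold ef
  rw [map_add, map_sum]
  congr 1
  refine Finset.sum_congr rfl fun p _ => ?_
  by_cases h : p.1.1 = c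
  · rw [if_pos h, if_pos h, Derivation.leibniz, hz, smul_zero, add_zero, smul_eq_mul]
  · rw [if_neg h, if_neg h, map_zero]

theorem d_vf (zs : {p // p ∈ S} → R) (hz : ∀ p, D (zs p) = 0) (Y E : ℕ → R)
    (mm : Option {c // c ∈ Q} → R) : D (vf zs Y E mm) =
      ∑ c : {c // c ∈ Q}, (mm (some c) * D (E c.1) + D (mm (some c)) * E c.1) +
        ∑ p : {p // p ∈ S}, zs p * (Y p.1.1 * D (Y p.1.2) + D (Y p.1.1) * Y p.1.2) +
          D (mm none) := by
  unfold vf
  rw [map_add, map_add, map_sum, map_sum]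
  congr 2
  · refine Finset.sum_congr rfl fun c _ => ?_
    rw [Derivation.leibniz, smul_eq_mul, smul_eq_mul, mul_comm (E c.1)]
  · refine Finset.sum_congr rfl fun p _ => ?_
    rw [Derivation.leibniz, Derivation.leibniz, hz, smul_zero, add_zero]
    simp only [smul_eq_mul]
    rw [mul_comm (Y p.1.2)]

end fn

/-- The parameters. -/
abbrev ZF (P : Finset (Σ _ : ℕ, ℕ)) (T S : Finset (ℕ × ℕ)) (Q : Finset ℕ) : Type :=
  ({p // p ∈ P} ⊕ {p // p ∈ T}) ⊕ ({p // p ∈ S} ⊕ Option {c // c ∈ Q})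

variable {P : Finset (Σ _ : ℕ, ℕ)} {T S : Finset (ℕ × ℕ)} {Q : Finset ℕ} {n : ℕ}

/-- The variables. -/
noncomputable def XF (P : Finset (Σ _ : ℕ, ℕ)) (T S : Finset (ℕ × ℕ)) (Q : Finset ℕ) (n i : ℕ) :
    MvPolynomial (ZF P T S Q ⊕ (Fin n ⊕ Option {c // c ∈ Q})) ℂ :=
  if h : i < n then X (Sum.inr (Sum.inl ⟨i, h⟩)) else 0

/-- The new variables. -/
noncomputable def YF (P : Finset (Σ _ : ℕ, ℕ)) (T S : Finset (ℕ × ℕ)) (Q : Finset ℕ) (n i : ℕ) :
    MvPolynomial (ZF P T S Q ⊕ (Fin n ⊕ Option {c // c ∈ Q})) ℂ :=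
  yf (fun p : {p // p ∈ P} => X (Sum.inl (Sum.inl (Sum.inl p)))) (XF P T S Q n) i

/-- The linear forms in the new variables. -/
noncomputable def EF (P : Finset (Σ _ : ℕ, ℕ)) (T S : Finset (ℕ × ℕ)) (Q : Finset ℕ) (n c : ℕ) :
    MvPolynomial (ZF P T S Q ⊕ (Fin n ⊕ Option {c // c ∈ Q})) ℂ :=
  ef (fun p : {p // p ∈ T} => X (Sum.inl (Sum.inl (Sum.inr p)))) (YF P T S Q n) c

/-- The universal relation. -/
noncomputable def GF (P : Finset (Σ _ : ℕ, ℕ)) (T S : Finset (ℕ × ℕ)) (Q : Finset ℕ) (n : ℕ) :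
    MvPolynomial (ZF P T S Q ⊕ (Fin n ⊕ Option {c // c ∈ Q})) ℂ :=
  vf (fun p : {p // p ∈ S} => X (Sum.inl (Sum.inr (Sum.inl p)))) (YF P T S Q n) (EF P T S Q n)
    fun k => X (Sum.inl (Sum.inr (Sum.inr k))) + X (Sum.inr (Sum.inr k))

/-- The values of the new coordinates. -/
noncomputable def yv (z : ZF P T S Q → Qa) (x : Fin n ⊕ Option {c // c ∈ Q} → ℂ) (i : ℕ) : ℂ :=
  yf (fun p : {p // p ∈ P} => (z (Sum.inl (Sum.inl p)) : ℂ)) (ext fun i => x (Sum.inl i)) i

/-- The values of the linear forms. -/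
noncomputable def ev (z : ZF P T S Q → Qa) (x : Fin n ⊕ Option {c // c ∈ Q} → ℂ) (c : ℕ) : ℂ :=
  ef (fun p : {p // p ∈ T} => (z (Sum.inl (Sum.inr p)) : ℂ)) (yv z x) c

theorem eval_XF (z : ZF P T S Q → Qa) (x : Fin n ⊕ Option {c // c ∈ Q} → ℂ) (i : ℕ) :
    eval (pv z x) (XF P T S Q n i) = ext (fun i => x (Sum.inl i)) i := by
  unfold XF HD.ext
  by_cases h : i < n
  · rw [dif_pos h, dif_pos h, eval_X]
    rfl
  · rw [dif_neg h, dif_neg h, map_zero]

theorem eval_YF (z : ZF P T S Q → Qa) (x : Fin n ⊕ Option {c // c ∈ Q} → ℂ) (i : ℕ) :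
    eval (pv z x) (YF P T S Q n i) = yv z x i := by
  unfold YF yv
  rw [map_yf]
  congr 1
  · funext p
    rw [eval_X]
    rfl
  · funext i
    exact eval_XF z x i

theorem eval_EF (z : ZF P T S Q → Qa) (x : Fin n ⊕ Option {c // c ∈ Q} → ℂ) (c : ℕ) :
    eval (pv z x) (EF P T S Q n c) = ev z x c := by
  unfold EF ev
  rw [map_ef]
  congr 1
  · funext p
    rw [eval_X]
    rfl
  · funext i
    exact eval_YF z x i

theorem eval_GF (z : ZF P T S Q → Qa) (x : Fin n ⊕ Option {c // c ∈ Q} → ℂ) :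
    eval (pv z x) (GF P T S Q n) = vf (fun p : {p // p ∈ S} =>
      (z (Sum.inr (Sum.inl p)) : ℂ)) (yv z x) (ev z x)
        (fun k => (z (Sum.inr (Sum.inr k)) : ℂ) + x (Sum.inr k)) := by
  unfold GF
  rw [map_vf]
  congr 1
  · funext p
    rw [eval_X]
    rfl
  · funext i
    exact eval_YF z x i
  · funext c
    exact eval_EF z x c
  · funext k
    rw [map_add, eval_X, eval_X]
    rfl

theorem pderiv_X' {σ : Type} (i s : σ) [Decidable (s = i)] :
    pderiv i (X s : MvPolynomial σ ℂ) = if s = i then 1 else 0 := by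
  classical
  by_cases h : s = i
  · rw [if_pos h, h, pderiv_X_self]
  · rw [if_neg h, pderiv_X_of_ne h]

theorem d_XF (b : Fin n) (i : ℕ) :
    pderiv (Sum.inr (Sum.inl b)) (XF P T S Q n i) = if i = b.1 then 1 else 0 := by
  classical
  unfold XF
  by_cases h : i < n
  · rw [dif_pos h, pderiv_X']
    by_cases h1 : i = b.1
    · rw [if_pos h1, if_pos]
      congr 2
      exact Fin.ext h1
    · rw [if_neg h1, if_neg]
      intro h2
      exact h1 (congrArg Fin.val (Sum.inl.inj (Sum.inr.inj h2)))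
  · rw [dif_neg h, map_zero, if_neg]
    intro h1
    exact h (h1 ▸ b.2)

theorem d_XF' (k : Option {c // c ∈ Q}) (i : ℕ) :
    pderiv (Sum.inr (Sum.inr k)) (XF P T S Q n i) = 0 := by
  unfold XF
  by_cases h : i < n
  · rw [dif_pos h, pderiv_X_of_ne]
    intro h2
    cases h2
  · rw [dif_neg h, map_zero]

private theorem dz (i : Fin n ⊕ Option {c // c ∈ Q}) (t : ZF P T S Q) :
    pderiv (Sum.inr i) (X (Sum.inl t) :
      MvPolynomial (ZF P T S Q ⊕ (Fin n ⊕ Option {c // c ∈ Q})) ℂ) = 0 := by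
  refine pderiv_X_of_ne ?_
  intro h
  cases h

theorem d_YF (b : Fin n) (hb : ∀ p ∈ P, p.2 ≠ b.1) (i : ℕ) :
    pderiv (Sum.inr (Sum.inl b)) (YF P T S Q n i) = if i = b.1 then 1 else 0 := by
  unfold YF
  rw [d_yf _ _ (fun p => dz _ _)]
  unfold yf
  beta_reduce
  rw [d_XF, Finset.sum_eq_zero, add_zero]
  intro p _
  rw [d_XF, if_neg (hb p.1 p.2), mul_zero, ite_self]

theorem d_YF' (k : Option {c // c ∈ Q}) (i : ℕ) :
    pderiv (Sum.inr (Sum.inr k)) (YF P T S Q n i) = 0 := by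
  unfold YF
  rw [d_yf _ _ (fun p => dz _ _)]
  unfold yf
  simp only [d_XF', mul_zero, ite_self, Finset.sum_const_zero, add_zero]

theorem d_EF (b : Fin n) (hb : ∀ p ∈ P, p.2 ≠ b.1) (c : ℕ) :
    pderiv (Sum.inr (Sum.inl b)) (EF P T S Q n c) = (if c = b.1 then 1 else 0) +
      ∑ p : {p // p ∈ T}, if p.1.1 = c then (if p.1.2 = b.1 then
        X (Sum.inl (Sum.inl (Sum.inr p))) else 0) else 0 := by
  unfold EF
  rw [d_ef _ _ (fun p => dz _ _)]
  unfold ef
  beta_reduce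
  rw [d_YF b hb]
  congr 1
  refine Finset.sum_congr rfl fun p _ => ?_
  rw [d_YF b hb]
  by_cases h : p.1.2 = b.1
  · rw [if_pos h, if_pos h, mul_one]
  · rw [if_neg h, if_neg h, mul_zero]

theorem d_EF' (k : Option {c // c ∈ Q}) (c : ℕ) :
    pderiv (Sum.inr (Sum.inr k)) (EF P T S Q n c) = 0 := by
  unfold EF
  rw [d_ef _ _ (fun p => dz _ _)]
  unfold ef
  simp only [d_YF', mul_zero, ite_self, Finset.sum_const_zero, add_zero]

theorem eval_d_GF (z : ZF P T S Q → Qa) (x : Fin n ⊕ Option {c // c ∈ Q} → ℂ) (b : Fin n)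
    (hb : ∀ p ∈ P, p.2 ≠ b.1) :
    eval (pv z x) (pderiv (Sum.inr (Sum.inl b)) (GF P T S Q n)) =
      ∑ c : {c // c ∈ Q}, ((z (Sum.inr (Sum.inr (some c))) : ℂ) + x (Sum.inr (some c))) *
        ((if c.1 = b.1 then 1 else 0) + ∑ p : {p // p ∈ T}, if p.1.1 = c.1 then
          (if p.1.2 = b.1 then (z (Sum.inl (Sum.inr p)) : ℂ) else 0) else 0) +
      ∑ p : {p // p ∈ S}, (z (Sum.inr (Sum.inl p)) : ℂ) *
        (yv z x p.1.1 * (if p.1.2 = b.1 then 1 else 0) +
          (if p.1.1 = b.1 then 1 else 0) * yv z x p.1.2) := by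
  unfold GF
  rw [d_vf _ _ (fun p => dz _ _)]
  have h0 : ∀ k : Option {c // c ∈ Q}, pderiv (Sum.inr (Sum.inl b))
      (X (Sum.inl (Sum.inr (Sum.inr k))) + X (Sum.inr (Sum.inr k)) :
        MvPolynomial (ZF P T S Q ⊕ (Fin n ⊕ Option {c // c ∈ Q})) ℂ) = 0 := by
    intro k
    rw [map_add, dz, zero_add]
    refine pderiv_X_of_ne ?_
    intro h
    cases h
  simp only [h0, zero_mul, add_zero, d_EF b hb, d_YF b hb]
  rw [map_add, map_sum, map_sum]
  congr 1
  · refine Finset.sum_congr rfl fun c _ => ?_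
    rw [map_mul, map_add, map_add, map_sum, eval_X, eval_X]
    have h1 : eval (pv z x) (if c.1 = b.1 then 1 else 0 :
        MvPolynomial (ZF P T S Q ⊕ (Fin n ⊕ Option {c // c ∈ Q})) ℂ) =
        if c.1 = b.1 then 1 else 0 := by
      by_cases h : c.1 = b.1
      · rw [if_pos h, if_pos h, map_one]
      · rw [if_neg h, if_neg h, map_zero]
    rw [h1]
    congr 2
    refine Finset.sum_congr rfl fun p _ => ?_
    by_cases h : p.1.1 = c.1
    · by_cases h' : p.1.2 = b.1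
      · rw [if_pos h, if_pos h, if_pos h', if_pos h', eval_X]
        rfl
      · rw [if_pos h, if_pos h, if_neg h', if_neg h', map_zero]
    · rw [if_neg h, if_neg h, map_zero]
  · refine Finset.sum_congr rfl fun p _ => ?_
    have h1 : ∀ i : ℕ, eval (pv z x) (if i = b.1 then 1 else 0 :
        MvPolynomial (ZF P T S Q ⊕ (Fin n ⊕ Option {c // c ∈ Q})) ℂ) =
        if i = b.1 then 1 else 0 := by
      intro i
      by_cases h : i = b.1
      · rw [if_pos h, if_pos h, map_one]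
      · rw [if_neg h, if_neg h, map_zero]
    rw [map_mul, eval_X, map_add, map_mul, map_mul, h1, h1, eval_YF, eval_YF]
    rfl

theorem eval_d_GF' (z : ZF P T S Q → Qa) (x : Fin n ⊕ Option {c // c ∈ Q} → ℂ)
    (k : Option {c // c ∈ Q}) :
    eval (pv z x) (pderiv (Sum.inr (Sum.inr k)) (GF P T S Q n)) =
      k.elim 1 fun c => ev z x c.1 := by
  classical
  unfold GF
  rw [d_vf _ _ (fun p => dz _ _)]
  have h0 : ∀ k' : Option {c // c ∈ Q}, pderiv (Sum.inr (Sum.inr k))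
      (X (Sum.inl (Sum.inr (Sum.inr k'))) + X (Sum.inr (Sum.inr k')) :
        MvPolynomial (ZF P T S Q ⊕ (Fin n ⊕ Option {c // c ∈ Q})) ℂ) =
        if k' = k then 1 else 0 := by
    intro k'
    rw [map_add, dz, zero_add, pderiv_X']
    by_cases h : k' = k
    · rw [if_pos h, if_pos (by rw [h])]
    · rw [if_neg h, if_neg (fun h1 => h (Sum.inr.inj (Sum.inr.inj h1)))]
  simp only [h0, d_EF', d_YF', mul_zero, zero_mul, zero_add, add_zero, Finset.sum_const_zero]
  rw [map_add, map_sum]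
  rcases k with _ | c
  · rw [if_pos rfl, map_one, Finset.sum_eq_zero, zero_add]
    · rfl
    · intro c _
      rw [if_neg (by simp), zero_mul, map_zero]
  · rw [if_neg (by simp), map_zero, add_zero, Finset.sum_eq_single c]
    · rw [if_pos rfl, one_mul, eval_EF]
      rfl
    · intro c' _ hc'
      rw [if_neg (fun h => hc' (Option.some.inj h)), zero_mul, map_zero]
    · intro h
      exact absurd (Finset.mem_univ _) h

end MP60829e.FM
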