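import Pool.Agent.Lib.MP_60829e_nt.FM.RowM
import Pool.Agent.Lib.MP_60829e_nt.HS.Main

/-! # The space of all coefficients of relations, with a bound for its dimension -/

open MvPolynomial Module

namespace MP60829e.FM

open MP60829e.ST (Qa Lsp Lt)
open MP60829e.HD (val Free SW mem_SW mon)
open MP60829e.SL (smul_eq)

/-- The kernel of a vector of independent numbers on vectors of linear forms in `1` and
logarithms. -/
theorem ker_bound {s : ℕ} (w : Fin s → ℂ) (hw : LinearIndependent Qa w)
    (K : Submodule Qa (Fin s → ℂ)) (hK : ∀ y ∈ K, ∀ i, y i ∈ Lt)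
    (hK0 : ∀ y ∈ K, ∑ i, w i * y i = 0) :
    FiniteDimensional Qa K ∧ finrank Qa K ≤ s * s := by
  classical
  obtain ⟨Φ, hΦ⟩ : ∃ Φ : (Fin s → ℂ) →ₗ[Qa] (Fin s → ℂ ⧸ Lsp),
      Φ = LinearMap.pi fun i => Lsp.mkQ.comp (LinearMap.proj i) := ⟨_, rfl⟩
  have hΦi : ∀ y i, Φ y i = Lsp.mkQ (y i) := fun y i => by rw [hΦ]; rfl
  obtain ⟨Θ, hΘ⟩ : ∃ Θ : (Fin s → Qa) →ₗ[Qa] (Fin s → ℂ ⧸ Lsp),
      Θ = LinearMap.pi fun i => (LinearMap.toSpanSingleton Qa (ℂ ⧸ Lsp) (Lsp.mkQ 1)).comp
        (LinearMap.proj i) := ⟨_, rfl⟩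
  have hΘi : ∀ c i, Θ c i = c i • Lsp.mkQ 1 := fun c i => by rw [hΘ]; rfl
  -- the image
  have hmap : K.map Φ ≤ LinearMap.range Θ := by
    rintro _ ⟨y, hy, rfl⟩
    have h1 : ∀ i, ∃ c : Qa, Lsp.mkQ (y i) = c • Lsp.mkQ 1 := by
      intro i
      have h2 := hK y hy i
      unfold ST.Lt at h2
      rw [Submodule.span_union, Submodule.mem_sup] at h2
      obtain ⟨a, ha, b, hb, hab⟩ := h2
      obtain ⟨c, rfl⟩ := Submodule.mem_span_singleton.1 ha
      refine ⟨c, ?_⟩
      rw [← hab, map_add, map_smul]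
      have h3 : Lsp.mkQ b = 0 := by
        rw [Submodule.mkQ_apply, Submodule.Quotient.mk_eq_zero]
        exact hb
      rw [h3, add_zero]
    choose c hc using h1
    refine ⟨c, ?_⟩
    funext i
    rw [hΘi, hΦi, hc i]
  have hfinr : finrank Qa (LinearMap.range Θ) ≤ s := by
    refine (LinearMap.finrank_range_le Θ).trans ?_
    rw [finrank_fintype_fun_eq_card, Fintype.card_fin]
  -- the kernel
  obtain ⟨hk1, hk2⟩ := HS.hps w hw (K ⊓ LinearMap.ker Φ) (fun y hy i => by
    have h1 := congrFun (LinearMap.mem_ker.1 hy.2) i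
    rw [hΦi] at h1
    exact (Submodule.Quotient.mk_eq_zero _).1 h1) (fun y hy => hK0 y hy.1)
  have hfg : K.FG := by
    refine Submodule.fg_of_fg_map_of_fg_inf_ker Φ ?_ ?_
    · exact Module.Finite.iff_fg.1 (Submodule.finiteDimensional_of_le hmap)
    · exact Module.Finite.iff_fg.1 hk1
  have hfd : FiniteDimensional Qa K := Module.Finite.iff_fg.2 hfg
  refine ⟨hfd, ?_⟩
  have h1 := LinearMap.finrank_range_add_finrank_ker (Φ.domRestrict K)
  have h2 : finrank Qa (LinearMap.range (Φ.domRestrict K)) ≤ s := by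
    rw [LinearMap.range_domRestrict]
    exact (Submodule.finrank_mono hmap).trans hfinr
  have h3 : finrank Qa (LinearMap.ker (Φ.domRestrict K)) ≤ s * (s - 1) := by
    refine le_trans ?_ hk2
    have h4 := Submodule.finrank_map_subtype_eq K (LinearMap.ker (Φ.domRestrict K))
    rw [← h4]
    refine Submodule.finrank_mono ?_
    rintro _ ⟨y, hy, rfl⟩
    exact ⟨y.2, hy⟩
  have h4 : s * (s - 1) + s = s * s := by
    rcases s with _ | s
    · rfl
    · rw [Nat.add_sub_cancel, ← Nat.mul_succ]
  omega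

private theorem finrank_mul (A B : Submodule Qa ℂ) [FiniteDimensional Qa A]
    [FiniteDimensional Qa B] : FiniteDimensional Qa (A * B : Submodule Qa ℂ) ∧
      finrank Qa (A * B : Submodule Qa ℂ) ≤ finrank Qa A * finrank Qa B := by
  have h1 := Submodule.mulMap_range A B
  constructor
  · rw [← h1]; infer_instance
  · rw [← h1, ← finrank_tensorProduct]
    exact LinearMap.finrank_range_le _

private theorem finrank_pow' (A : Submodule Qa ℂ) [FiniteDimensional Qa A] (d : ℕ) :
    FiniteDimensional Qa (A ^ d : Submodule Qa ℂ) ∧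
      finrank Qa (A ^ d : Submodule Qa ℂ) ≤ finrank Qa A ^ d := by
  induction d with
  | zero =>
    rw [pow_zero, pow_zero, Submodule.one_eq_span]
    refine ⟨FiniteDimensional.span_of_finite Qa (Set.finite_singleton _), ?_⟩
    exact (finrank_span_singleton (K := Qa) (one_ne_zero : (1 : ℂ) ≠ 0)).le
  | succ d ih =>
    obtain ⟨h1, h2⟩ := ih
    obtain ⟨h3, h4⟩ := finrank_mul (A ^ d) A
    rw [pow_succ, pow_succ]
    exact ⟨h3, h4.trans (Nat.mul_le_mul_right _ h2)⟩

/-- The span of `1` and the first `J` logarithms. -/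
noncomputable def Sp (lam : ℕ → ℂ) (J : ℕ) : Submodule Qa ℂ :=
  Submodule.span Qa ({1} ∪ lam '' (Finset.range J : Finset ℕ))

theorem sp_fin (lam : ℕ → ℂ) (J : ℕ) :
    FiniteDimensional Qa (Sp lam J) ∧ finrank Qa (Sp lam J) ≤ J + 1 := by
  classical
  have h1 : ({1} ∪ lam '' (Finset.range J : Finset ℕ) : Set ℂ) =
      ((insert 1 ((Finset.range J).image lam) : Finset ℂ) : Set ℂ) := by
    rw [Finset.coe_insert, Finset.coe_image, Set.insert_eq]
  unfold Sp
  rw [h1]
  refine ⟨FiniteDimensional.span_finset Qa _, ?_⟩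
  refine (finrank_span_finset_le_card _).trans ?_
  refine (Finset.card_insert_le _ _).trans ?_
  have := Finset.card_image_le (s := Finset.range J) (f := lam)
  rw [Finset.card_range] at this
  omega

theorem one_mem_Sp (lam : ℕ → ℂ) (J : ℕ) : (1 : ℂ) ∈ Sp lam J :=
  Submodule.subset_span (Or.inl rfl)

theorem val_mem_Sp (lam : ℕ → ℂ) {j : ℕ → ℕ} {J b : ℕ} (h : j b ≤ J) (V : ℕ × ℕ → Qa) :
    val lam j V b ∈ Sp lam J := by
  unfold HD.val
  refine Submodule.sum_mem _ fun l hl => Submodule.smul_mem _ _ (Submodule.subset_span (Or.inr ?_))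
  refine ⟨l, Finset.mem_coe.2 (Finset.mem_range.2 ?_), rfl⟩
  have := Finset.mem_range.1 hl
  omega

theorem pow_le_Sp (lam : ℕ → ℂ) (J : ℕ) {d D : ℕ} (h : d ≤ D) :
    (Sp lam J) ^ d ≤ (Sp lam J) ^ D := by
  refine pow_le_pow_right' ?_ h
  rw [Submodule.one_le]
  exact one_mem_Sp lam J

theorem mon_mem_pow (lam : ℕ → ℂ) {j : ℕ → ℕ} {J n D : ℕ} (hJ : ∀ b < n, j b ≤ J)
    (V : ℕ × ℕ → Qa) {a : ℕ →₀ ℕ} (ha : ∀ b ∈ a.support, b < n) (hD : a.degree ≤ D) :
    mon a (val lam j V) ∈ (Sp lam J) ^ D := by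
  classical
  refine pow_le_Sp lam J hD ?_
  unfold HD.mon
  rw [Finsupp.degree_apply, ← Finset.prod_pow_eq_pow_sum]
  have key : ∀ s : Finset ℕ, (∀ b ∈ s, b < n) →
      ∏ i ∈ s, val lam j V i ^ a i ∈ ∏ i ∈ s, (Sp lam J) ^ a i := by
    intro s
    induction s using Finset.induction_on with
    | empty =>
      intro _
      rw [Finset.prod_empty, Finset.prod_empty]
      exact Submodule.one_le.1 le_rfl
    | insert i s hi ih =>
      intro hs
      rw [Finset.prod_insert hi, Finset.prod_insert hi]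
      refine Submodule.mul_mem_mul ?_ (ih fun b hb => hs b (Finset.mem_insert_of_mem hb))
      exact Submodule.pow_mem_pow _ (val_mem_Sp lam (hJ i (hs i (Finset.mem_insert_self _ _))) V) _
  exact key _ ha

/-- The coefficients of all relations lie in a fixed space of bounded dimension. -/
theorem exists_LX (lam : ℕ → ℂ) (hlog : ∀ i, lam i ∈ Lsp) {M : Set (ℕ →₀ ℕ)}
    (hfin : ∀ n, {a : ℕ →₀ ℕ | a ∈ M ∧ ∀ b ∈ a.support, b < n}.Finite) (j : ℕ → ℕ) (n J D : ℕ)
    (hJ : ∀ b < n, j b ≤ J) (hD : ∀ a ∈ M, (∀ b ∈ a.support, b < n) → a.degree ≤ D) :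
    ∃ L : Submodule Qa ℂ, FiniteDimensional Qa L ∧
      finrank Qa L ≤ ((J + 1) ^ D) ^ 3 + (J + 1) ∧ L ≤ Lt ∧ (1 : ℂ) ∈ L ∧
      (∀ (V : ℕ × ℕ → Qa), ∀ b < n, val lam j V b ∈ L) ∧
      ∀ (V : ℕ × ℕ → Qa), Free M n (val lam j V) →
        ∀ P : MvPolynomial ℕ ℂ, (∀ a ∈ P.support, a ∈ M ∧ ∀ b ∈ a.support, b < n) →
          (∀ a, coeff a P ∈ Lt) → eval (val lam j V) P = 0 → ∀ a, coeff a P ∈ L := by
  classical
  obtain ⟨hsp1, hsp2⟩ := sp_fin lam J
  obtain ⟨hW1, hW2⟩ := finrank_pow' (Sp lam J) D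
  obtain ⟨s, hs⟩ : ∃ s, s = finrank Qa (Sp lam J ^ D : Submodule Qa ℂ) := ⟨_, rfl⟩
  obtain ⟨bas, -⟩ : ∃ bas : Basis (Fin s) Qa (Sp lam J ^ D : Submodule Qa ℂ), True :=
    ⟨finBasisOfFinrankEq Qa _ hs.symm, trivial⟩
  have hs1 : s ≤ (J + 1) ^ D := by
    rw [hs]
    exact hW2.trans (Nat.pow_le_pow_left hsp2 D)
  obtain ⟨w, hw⟩ : ∃ w : Fin s → ℂ, w = fun i => (bas i : ℂ) := ⟨_, rfl⟩
  have hwli : LinearIndependent Qa w := by
    rw [hw]
    exact bas.linearIndependent.map' (Submodule.subtype _)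
      (LinearMap.ker_eq_bot.2 (Submodule.subtype_injective _))
  -- the kernel
  obtain ⟨K, hK⟩ : ∃ K : Submodule Qa (Fin s → ℂ), K =
      { carrier := {y | (∀ i, y i ∈ Lt) ∧ ∑ i, w i * y i = 0}
        add_mem' := by
          rintro x y ⟨hx1, hx2⟩ ⟨hy1, hy2⟩
          refine ⟨fun i => Lt.add_mem (hx1 i) (hy1 i), ?_⟩
          have h1 : ∑ i, w i * (x + y) i = ∑ i, w i * x i + ∑ i, w i * y i := by
            rw [← Finset.sum_add_distrib]
            exact Finset.sum_congr rfl fun i _ => mul_add _ _ _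
          rw [h1, hx2, hy2, add_zero]
        zero_mem' := ⟨fun i => Lt.zero_mem, Finset.sum_eq_zero fun i _ => mul_zero _⟩
        smul_mem' := by
          rintro c x ⟨hx1, hx2⟩
          refine ⟨fun i => Lt.smul_mem c (hx1 i), ?_⟩
          have h1 : ∑ i, w i * (c • x) i = c • ∑ i, w i * x i := by
            rw [Finset.smul_sum]
            refine Finset.sum_congr rfl fun i _ => ?_
            rw [Pi.smul_apply, mul_smul_comm]
          rw [h1, hx2, smul_zero] } := ⟨_, rfl⟩
  have hmemK : ∀ y, y ∈ K ↔ (∀ i, y i ∈ Lt) ∧ ∑ i, w i * y i = 0 := by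
    intro y
    rw [hK]
    rfl
  obtain ⟨hKf, hKr⟩ := ker_bound w hwli K (fun y hy => ((hmemK y).1 hy).1)
    fun y hy => ((hmemK y).1 hy).2
  -- the space
  obtain ⟨L1, hL1⟩ : ∃ L1 : Submodule Qa ℂ, L1 = LinearMap.range
      ((LinearMap.lsum Qa (fun _ : Fin s => K) ℕ) fun i =>
        (LinearMap.proj i).comp K.subtype) := ⟨_, rfl⟩
  have hL1mem : ∀ y ∈ K, ∀ i, y i ∈ L1 := by
    intro y hy i
    rw [hL1]
    refine ⟨Pi.single i ⟨y, hy⟩, ?_⟩
    rw [LinearMap.lsum_apply, LinearMap.sum_apply, Finset.sum_eq_single i]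
    · rw [LinearMap.comp_apply, LinearMap.proj_apply, Pi.single_eq_same]
      rfl
    · intro i' _ hne
      rw [LinearMap.comp_apply, LinearMap.proj_apply, Pi.single_eq_of_ne hne, map_zero]
    · intro h
      exact absurd (Finset.mem_univ _) h
  have hL1fin : FiniteDimensional Qa L1 := by
    rw [hL1]
    infer_instance
  have hL1r : finrank Qa L1 ≤ s * (s * s) := by
    rw [hL1]
    refine (LinearMap.finrank_range_le _).trans ?_
    rw [finrank_pi_fintype, Finset.sum_const, Finset.card_univ, Fintype.card_fin, smul_eq_mul]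
    exact Nat.mul_le_mul_left _ hKr
  have hL1L : L1 ≤ Lt := by
    rw [hL1]
    rintro _ ⟨f, rfl⟩
    rw [LinearMap.lsum_apply, LinearMap.sum_apply]
    refine Lt.sum_mem fun i _ => ?_
    exact ((hmemK _).1 (f i).2).1 i
  refine ⟨L1 ⊔ Sp lam J, inferInstance, ?_, ?_, ?_, ?_, ?_⟩
  · refine (Submodule.finrank_add_le_finrank_add_finrank _ _).trans ?_
    refine add_le_add (hL1r.trans ?_) hsp2
    have h1 : s * (s * s) = s ^ 3 := by ring
    rw [h1]
    exact Nat.pow_le_pow_left hs1 3
  · refine sup_le hL1L ?_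
    unfold Sp
    rw [Submodule.span_le]
    rintro _ (h1 | ⟨l, -, rfl⟩)
    · rw [Set.mem_singleton_iff] at h1
      rw [h1]
      exact SL.one_mem_Lt
    · exact SL.Lsp_le_Lt (hlog l)
  · exact Submodule.mem_sup_right (one_mem_Sp lam J)
  · intro V b hb
    exact Submodule.mem_sup_right (val_mem_Sp lam (hJ b hb) V)
  · intro V hfree P hP1 hP2 hP3 a
    refine Submodule.mem_sup_left ?_
    obtain ⟨S, hS⟩ : ∃ S, S = SW M (Finset.range n) := ⟨_, rfl⟩
    have hmemS : ∀ a, a ∈ S ↔ a ∈ M ∧ ∀ b ∈ a.support, b < n := by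
      intro a
      rw [hS, mem_SW hfin]
      exact and_congr_right fun _ => ⟨fun h b hb => Finset.mem_range.1 (h hb),
        fun h b hb => Finset.mem_range.2 (h b hb)⟩
    obtain ⟨u, hu⟩ : ∃ u, u = val lam j V := ⟨_, rfl⟩
    have hmW : ∀ a : {a // a ∈ S}, mon a.1 u ∈ (Sp lam J ^ D : Submodule Qa ℂ) := by
      intro a
      obtain ⟨h1, h2⟩ := (hmemS a.1).1 a.2
      rw [hu]
      exact mon_mem_pow lam hJ V h2 (hD a.1 h1 h2)
    by_cases ha : a ∈ S
    · -- the coordinates
      obtain ⟨Cc, hCc⟩ : ∃ Cc : {a // a ∈ S} → Fin s → Qa,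
          Cc = fun a => bas.equivFun ⟨mon a.1 u, hmW a⟩ := ⟨_, rfl⟩
      have hCsum : ∀ a : {a // a ∈ S}, mon a.1 u = ∑ i, (Cc a i : ℂ) * w i := by
        intro a
        have h1 := congrArg (Submodule.subtype _) (bas.sum_equivFun ⟨mon a.1 u, hmW a⟩)
        rw [map_sum] at h1
        rw [hCc, hw]
        refine h1.symm.trans (Finset.sum_congr rfl fun i _ => ?_)
        rw [map_smul, smul_eq]
        rfl
      have hinj : Function.Injective (Fintype.linearCombination Qa Cc) := by
        rw [← LinearMap.ker_eq_bot, LinearMap.ker_eq_bot']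
        intro c hc
        have h2 : ∑ a : {a // a ∈ S}, (c a : ℂ) * mon a.1 u = 0 := by
          simp only [hCsum, Finset.mul_sum]
          rw [Finset.sum_comm]
          refine Finset.sum_eq_zero fun i _ => ?_
          have h3 := congrFun hc i
          rw [Fintype.linearCombination_apply, Finset.sum_apply] at h3
          have h4 : ((∑ a : {a // a ∈ S}, (c a • Cc a) i : Qa) : ℂ) = 0 := by
            rw [h3]
            rfl
          have h5 : ((∑ a : {a // a ∈ S}, (c a • Cc a) i : Qa) : ℂ) =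
              ∑ a : {a // a ∈ S}, (c a : ℂ) * (Cc a i : ℂ) := by
            have h6 : ∀ x : Qa, (x : ℂ) = algebraMap Qa ℂ x := fun _ => rfl
            rw [h6, map_sum]
            refine Finset.sum_congr rfl fun a _ => ?_
            rw [Pi.smul_apply, smul_eq_mul, map_mul]
            rfl
          rw [h5] at h4
          rw [← zero_mul (w i), ← h4, Finset.sum_mul]
          exact Finset.sum_congr rfl fun a _ => by ring
        -- free
        obtain ⟨R, hR⟩ : ∃ R : MvPolynomial ℕ Qa, R = ∑ a : {a // a ∈ S}, monomial a.1 (c a) :=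
          ⟨_, rfl⟩
        have hcoef : ∀ a : {a // a ∈ S}, coeff a.1 R = c a := by
          intro a
          rw [hR, coeff_sum, Finset.sum_eq_single a]
          · rw [coeff_monomial, if_pos rfl]
          · intro a' _ hne
            rw [coeff_monomial, if_neg fun h1 => hne (Subtype.ext h1)]
          · intro h1
            exact absurd (Finset.mem_univ a) h1
        have h0 : R = 0 := by
          refine hfree R (fun a ha => ?_) ?_
          · rw [MvPolynomial.mem_support_iff, hR, coeff_sum] at ha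
            obtain ⟨a', -, h1⟩ := Finset.exists_ne_zero_of_sum_ne_zero ha
            rw [coeff_monomial] at h1
            have h2 : a'.1 = a := by
              by_contra h3
              exact h1 (if_neg h3)
            rw [← h2]
            exact (hmemS _).1 a'.2
          · rw [← hu, hR, map_sum, ← h2]
            refine Finset.sum_congr rfl fun a _ => ?_
            rw [aeval_monomial]
            rfl
        funext a
        rw [← hcoef a, h0, coeff_zero]
        rfl
      obtain ⟨g, hg⟩ := LinearMap.exists_leftInverse_of_injective _ (LinearMap.ker_eq_bot.2 hinj)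
      -- the element of the kernel
      obtain ⟨y, hy⟩ : ∃ y : Fin s → ℂ, y = fun i => ∑ a : {a // a ∈ S},
          (Cc a i : ℂ) * coeff a.1 P := ⟨_, rfl⟩
      have hyK : y ∈ K := by
        rw [hmemK]
        constructor
        · intro i
          rw [hy]
          exact Lt.sum_mem fun a _ => cmul_mem _ (hP2 _)
        · have h1 : ∑ i, w i * y i = eval u P := by
            rw [hy, eval_eq]
            simp only [Finset.mul_sum]
            rw [Finset.sum_comm]
            have h2 : ∑ a ∈ P.support, coeff a P * ∏ i ∈ a.support, u i ^ a i =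
                ∑ a : {a // a ∈ S}, coeff a.1 P * mon a.1 u := by
              rw [Finset.sum_coe_sort S (fun a => coeff a P * mon a u)]
              apply Finset.sum_subset
              · intro m hm
                exact (hmemS m).2 (hP1 m hm)
              · intro m _ hm
                rw [MvPolynomial.notMem_support_iff.1 hm, zero_mul]
            rw [h2]
            refine Finset.sum_congr rfl fun a _ => ?_
            rw [hCsum a, Finset.mul_sum]
            exact Finset.sum_congr rfl fun i _ => by ring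
          rw [h1, hu]
          exact hP3
      have h1 : coeff a P = ∑ i, ((g (Pi.single i 1) ⟨a, ha⟩ : Qa) : ℂ) * y i := by
        rw [hy]
        simp only [Finset.mul_sum]
        rw [Finset.sum_comm]
        have h2 : ∀ a' : {a // a ∈ S}, ∑ i, g (Pi.single i 1) ⟨a, ha⟩ * Cc a' i =
            if a' = ⟨a, ha⟩ then 1 else 0 := by
          intro a'
          have h3 := congrFun (LinearMap.congr_fun hg (Pi.single a' 1)) ⟨a, ha⟩
          rw [LinearMap.comp_apply, Fintype.linearCombination_apply_single, one_smul,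
            LinearMap.id_apply, Pi.single_apply] at h3
          have h4 : Cc a' = ∑ i, Cc a' i • (Pi.single i 1 : Fin s → Qa) := by
            funext i
            rw [Finset.sum_apply, Finset.sum_eq_single i]
            · rw [Pi.smul_apply, Pi.single_eq_same, smul_eq_mul, mul_one]
            · intro i' _ hne
              rw [Pi.smul_apply, Pi.single_eq_of_ne hne.symm, smul_zero]
            · intro h
              exact absurd (Finset.mem_univ _) h
          rw [h4, map_sum, Finset.sum_apply] at h3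
          have h5 : ∀ i, (g (Cc a' i • (Pi.single i 1 : Fin s → Qa))) ⟨a, ha⟩ =
              g (Pi.single i 1) ⟨a, ha⟩ * Cc a' i := by
            intro i
            rw [map_smul, Pi.smul_apply, smul_eq_mul, mul_comm]
          simp only [h5] at h3
          rw [h3]
          by_cases h6 : a' = ⟨a, ha⟩
          · rw [if_pos h6, if_pos h6.symm]
          · rw [if_neg h6, if_neg fun h7 => h6 h7.symm]
        symm
        rw [Finset.sum_eq_single ⟨a, ha⟩]
        · have h3 := congrArg (algebraMap Qa ℂ) (h2 ⟨a, ha⟩)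
          rw [if_pos rfl, map_sum, map_one] at h3
          have h4 : ∀ i, ((g (Pi.single i 1) ⟨a, ha⟩ : Qa) : ℂ) *
              (((Cc ⟨a, ha⟩ i : Qa) : ℂ) * coeff a P) = algebraMap Qa ℂ
                (g (Pi.single i 1) ⟨a, ha⟩ * Cc ⟨a, ha⟩ i) * coeff a P := by
            intro i
            rw [map_mul, ← mul_assoc]
            rfl
          simp only [h4]
          rw [← Finset.sum_mul, h3, one_mul]
        · intro a' _ hne
          have h3 := congrArg (algebraMap Qa ℂ) (h2 a')
          rw [if_neg hne, map_sum, map_zero] at h3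
          have h4 : ∀ i, ((g (Pi.single i 1) ⟨a, ha⟩ : Qa) : ℂ) *
              (((Cc a' i : Qa) : ℂ) * coeff a'.1 P) = algebraMap Qa ℂ
                (g (Pi.single i 1) ⟨a, ha⟩ * Cc a' i) * coeff a'.1 P := by
            intro i
            rw [map_mul, ← mul_assoc]
            rfl
          simp only [h4]
          rw [← Finset.sum_mul, h3, zero_mul]
        · intro h
          exact absurd (Finset.mem_univ _) h
      rw [h1]
      exact Submodule.sum_mem _ fun i _ => cmul_mem _ (hL1mem y hyK i)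
    · rw [MvPolynomial.notMem_support_iff.1 fun h3 => ha ((hmemS a).2 (hP1 a h3))]
      exact Submodule.zero_mem _

end MP60829e.FM
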