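import Pool.Agent.Lib.MP_60829e_nt.FM.FinM

/-! # Linear independence of the products

From the predicates `Free` and `GoodM` to the linear independence over the algebraic numbers of the
monomials and of their products with arbitrary logarithms. -/

open MvPolynomial Module

namespace MP60829e.FM

open MP60829e.ST (Qa Lsp Lt)
open MP60829e.HD (val Free FreeL mon)
open MP60829e.SL (smul_eq)

/-- Baker's theorem for arbitrary families. -/
theorem baker_any {I : Type} (w : I → ℂ) (h : ∀ j, IsAlgebraic ℚ (Complex.exp (w j)))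
    (hli : LinearIndependent ℚ w) : LinearIndependent Qa w := by
  classical
  rw [linearIndependent_iff_finset_linearIndependent]
  intro s
  exact FZ.baker_fin (fun i : {i // i ∈ s} => w i.1) (fun i => h i.1)
    (hli.comp (fun i : {i // i ∈ s} => i.1) Subtype.val_injective)

/-- Baker's theorem for arbitrary families, with the number one. -/
theorem baker_one_any {I : Type} (w : I → ℂ) (h : ∀ j, IsAlgebraic ℚ (Complex.exp (w j)))
    (hli : LinearIndependent ℚ w) :
    LinearIndependent Qa (Sum.elim (fun _ : Unit => (1 : ℂ)) w) := by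
  refine LinearIndependent.sum_type (LinearIndependent.of_subsingleton () one_ne_zero)
    (baker_any w h hli) ?_
  rw [Submodule.disjoint_def]
  intro x hx hx'
  rw [Set.range_const, Submodule.mem_span_singleton] at hx
  obtain ⟨c, rfl⟩ := hx
  by_contra hne
  have hc : c ≠ 0 := by
    rintro rfl
    exact hne (zero_smul _ _)
  have h1 : (1 : ℂ) ∈ Submodule.span Qa (Set.range w) := by
    have := Submodule.smul_mem _ c⁻¹ hx'
    rwa [smul_smul, inv_mul_cancel₀ hc, one_smul] at this
  have h2 : (1 : ℂ) ∈ Lsp := Submodule.span_mono (by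
    rintro _ ⟨i, rfl⟩
    exact h i) h1
  exact Pool.Agent.Lib.MP_60829e_nt.ML.one_notMem h2

/-- Free monomials are linearly independent. -/
theorem li_of_free {u : ℕ → ℂ} {M : Set (ℕ →₀ ℕ)} (h : ∀ n, Free M n u) :
    LinearIndependent Qa (fun a : M => mon a.1 u) := by
  classical
  rw [linearIndependent_iff']
  intro A g hs
  obtain ⟨n, hn⟩ : ∃ n, ∀ a ∈ A, ∀ b ∈ a.1.support, b < n := by
    refine ⟨A.sup (fun a => a.1.support.sup fun b => b + 1), fun a ha b hb => ?_⟩
    have h1 : b + 1 ≤ a.1.support.sup fun b => b + 1 :=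
      Finset.le_sup (f := fun b => b + 1) hb
    have h2 : (a.1.support.sup fun b => b + 1) ≤ A.sup (fun a => a.1.support.sup fun b => b + 1) :=
      Finset.le_sup (f := fun a : M => a.1.support.sup fun b => b + 1) ha
    omega
  obtain ⟨R, hR⟩ : ∃ R : MvPolynomial ℕ Qa, R = ∑ a ∈ A, monomial a.1 (g a) := ⟨_, rfl⟩
  have hco : ∀ a : M, coeff a.1 R = if a ∈ A then g a else 0 := by
    intro a
    rw [hR, coeff_sum]
    simp only [coeff_monomial]
    have h1 : ∀ a' : M, (if a'.1 = a.1 then g a' else 0) = if a' = a then g a' else 0 := by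
      intro a'
      by_cases h2 : a' = a
      · rw [if_pos h2, if_pos (congrArg Subtype.val h2)]
      · rw [if_neg h2, if_neg fun h3 => h2 (Subtype.ext h3)]
    simp only [h1]
    rw [Finset.sum_ite_eq' A a g]
  have h0 : R = 0 := by
    refine h n R (fun a ha => ?_) ?_
    · rw [MvPolynomial.mem_support_iff, hR, coeff_sum] at ha
      obtain ⟨a', ha', h1⟩ := Finset.exists_ne_zero_of_sum_ne_zero ha
      rw [coeff_monomial] at h1
      have h2 : a'.1 = a := by
        by_contra h3
        exact h1 (if_neg h3)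
      rw [← h2]
      exact ⟨a'.2, hn a' ha'⟩
    · rw [hR, map_sum, ← hs]
      refine Finset.sum_congr rfl fun a _ => ?_
      rw [aeval_monomial, smul_eq]
      rfl
  intro a ha
  have h1 := hco a
  rw [h0, coeff_zero, if_pos ha] at h1
  exact h1.symm

/-- The products are linearly independent. -/
theorem li_of_good {u : ℕ → ℂ} (hu : ∀ b, IsAlgebraic ℚ (Complex.exp (u b)))
    {M : Set (ℕ →₀ ℕ)} (h : ∀ n, Free (MX M) n u ∧ GoodM M n u) {κ : Type} (v : κ → ℂ)
    (hv : ∀ c, IsAlgebraic ℚ (Complex.exp (v c))) (hli : LinearIndependent ℚ (Sum.elim u v)) :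
    LinearIndependent Qa (Sum.elim (fun a : MX M => mon a.1 u)
      (fun p : κ × M => v p.1 * mon p.2.1 u)) := by
  classical
  have huL : ∀ b, u b ∈ Lt := fun b => SL.Lsp_le_Lt (Submodule.subset_span (hu b))
  have hvL : ∀ c, v c ∈ Lt := fun c => SL.Lsp_le_Lt (Submodule.subset_span (hv c))
  -- the independence of `1`, `u`, `v`
  have hbk := baker_one_any (Sum.elim u v) (fun j => by
    rcases j with b | c
    · exact hu b
    · exact hv c) hli
  have hbk2 : LinearIndependent Qa (Sum.elim (Sum.elim (fun _ : Unit => (1 : ℂ)) u) v) := by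
    have h1 := hbk.comp (Equiv.sumAssoc Unit ℕ κ) (Equiv.injective _)
    have h2 : Sum.elim (Sum.elim (fun _ : Unit => (1 : ℂ)) u) v =
        Sum.elim (fun _ : Unit => (1 : ℂ)) (Sum.elim u v) ∘ Equiv.sumAssoc Unit ℕ κ := by
      funext i
      rcases i with (i | i) | i <;> rfl
    rw [h2]
    exact h1
  obtain ⟨-, hvli, hdis⟩ := linearIndependent_sum.1 hbk2
  have hTn : ∀ n, Tn n u ≤ Submodule.span Qa (Set.range
      (Sum.elim (Sum.elim (fun _ : Unit => (1 : ℂ)) u) v ∘ Sum.inl)) := by
    intro n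
    refine Submodule.span_mono ?_
    rintro _ (h1 | ⟨b, -, rfl⟩)
    · rw [Set.mem_singleton_iff] at h1
      rw [h1]
      exact ⟨Sum.inl (), rfl⟩
    · exact ⟨Sum.inr b, rfl⟩
  -- a relation
  rw [linearIndependent_iff']
  intro s g hs
  obtain ⟨A, hA⟩ : ∃ A, A = s.toLeft := ⟨_, rfl⟩
  obtain ⟨B, hB⟩ : ∃ B, B = s.toRight := ⟨_, rfl⟩
  have hsum : ∑ a ∈ A, g (Sum.inl a) • mon a.1 u +
      ∑ p ∈ B, g (Sum.inr p) • (v p.1 * mon p.2.1 u) = 0 := by
    rw [← hs, hA, hB]
    conv_rhs => rw [← Finset.toLeft_disjSum_toRight (u := s), Finset.sum_disjSum]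
    rfl
  -- the decomposition of the monomials
  have hdec : ∀ a : MX M, ∃ (m : ℕ →₀ ℕ) (o : Option ℕ), m ∈ M ∧
      a.1 = m + o.elim 0 (fun b => Finsupp.single b 1) ∧
      mon a.1 u = (o.elim 1 fun b => u b) * mon m u := by
    rintro ⟨a, ha | ⟨m, hm, b, rfl⟩⟩
    · exact ⟨a, none, ha, (add_zero _).symm, (one_mul _).symm⟩
    · refine ⟨m, some b, hm, rfl, ?_⟩
      have h1 : ∀ m : ℕ →₀ ℕ, mon m u = eval u (monomial m (1 : ℂ)) := fun m => by
        rw [eval_monomial', one_mul]
      show mon (m + Finsupp.single b 1) u = u b * mon m u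
      rw [h1, h1, monomial_add_single, map_mul, pow_one, eval_X, mul_comm]
  choose m o hm hmo hmon using hdec
  -- a bound for the variables
  obtain ⟨n, hnA, hnB⟩ : ∃ n, (∀ a ∈ A, ∀ b ∈ a.1.support, b < n) ∧
      ∀ p ∈ B, ∀ b ∈ p.2.1.support, b < n := by
    refine ⟨A.sup (fun a => a.1.support.sup fun b => b + 1) +
      B.sup (fun p => p.2.1.support.sup fun b => b + 1), fun a ha b hb => ?_, fun p hp b hb => ?_⟩
    · have h1 : b + 1 ≤ a.1.support.sup fun b => b + 1 :=
        Finset.le_sup (f := fun b => b + 1) hb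
      have h2 : (a.1.support.sup fun b => b + 1) ≤
          A.sup (fun a => a.1.support.sup fun b => b + 1) :=
        Finset.le_sup (f := fun a : MX M => a.1.support.sup fun b => b + 1) ha
      omega
    · have h1 : b + 1 ≤ p.2.1.support.sup fun b => b + 1 :=
        Finset.le_sup (f := fun b => b + 1) hb
      have h2 : (p.2.1.support.sup fun b => b + 1) ≤
          B.sup (fun p => p.2.1.support.sup fun b => b + 1) :=
        Finset.le_sup (f := fun p : κ × M => p.2.1.support.sup fun b => b + 1) hp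
      omega
  have hmn : ∀ a ∈ A, ∀ b ∈ (m a).support, b < n := by
    intro a ha b hb
    refine hnA a ha b ?_
    rw [Finsupp.mem_support_iff] at hb ⊢
    rw [hmo a, Finsupp.add_apply]
    omega
  have hon : ∀ a ∈ A, (o a).elim 1 (fun b => u b) ∈ Tn n u := by
    intro a ha
    have h1 := hmo a
    rcases h2 : o a with _ | b
    · exact one_mem_Tn n u
    · refine x_mem_Tn u (hnA a ha b ?_)
      rw [h2] at h1
      rw [Finsupp.mem_support_iff, h1, Finsupp.add_apply]
      show m a b + Finsupp.single b 1 b ≠ 0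
      rw [Finsupp.single_eq_same]
      omega
  -- the polynomial
  obtain ⟨P, hP⟩ : ∃ P : MvPolynomial ℕ ℂ, P =
      ∑ a ∈ A, monomial (m a) ((g (Sum.inl a) : ℂ) * (o a).elim 1 (fun b => u b)) +
      ∑ p ∈ B, monomial p.2.1 ((g (Sum.inr p) : ℂ) * v p.1) := ⟨_, rfl⟩
  have hP0 : eval u P = 0 := by
    rw [hP, map_add, map_sum, map_sum, ← hsum]
    congr 1
    · refine Finset.sum_congr rfl fun a _ => ?_
      rw [eval_monomial', smul_eq, hmon a, mul_assoc]
    · refine Finset.sum_congr rfl fun p _ => ?_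
      rw [eval_monomial', smul_eq, mul_assoc]
  have hco : ∀ a', coeff a' P = ∑ a ∈ A.filter (fun a => m a = a'),
      (g (Sum.inl a) : ℂ) * (o a).elim 1 (fun b => u b) +
        ∑ p ∈ B.filter (fun p => p.2.1 = a'), (g (Sum.inr p) : ℂ) * v p.1 := by
    intro a'
    rw [hP, coeff_add, coeff_sum, coeff_sum, Finset.sum_filter, Finset.sum_filter]
    simp only [coeff_monomial]
  have hfirst : ∀ a', ∑ a ∈ A.filter (fun a => m a = a'),
      (g (Sum.inl a) : ℂ) * (o a).elim 1 (fun b => u b) ∈ Tn n u := fun a' =>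
    Submodule.sum_mem _ fun a ha => cmul_mem _ (hon a (Finset.mem_filter.1 ha).1)
  have hTL : Tn n u ≤ Lt := by
    refine Submodule.span_le.2 ?_
    rintro _ (h1 | ⟨b, -, rfl⟩)
    · rw [Set.mem_singleton_iff] at h1
      rw [h1]
      exact SL.one_mem_Lt
    · exact huL b
  have hgood := (h n).2 P (fun a' ha' => by
    rw [MvPolynomial.mem_support_iff, hco] at ha'
    by_cases h1 : ∑ a ∈ A.filter (fun a => m a = a'),
      (g (Sum.inl a) : ℂ) * (o a).elim 1 (fun b => u b) = 0
    · rw [h1, zero_add] at ha'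
      obtain ⟨p, hp, -⟩ := Finset.exists_ne_zero_of_sum_ne_zero ha'
      obtain ⟨h2, h3⟩ := Finset.mem_filter.1 hp
      rw [← h3]
      exact ⟨p.2.2, hnB p h2⟩
    · obtain ⟨a, ha, -⟩ := Finset.exists_ne_zero_of_sum_ne_zero h1
      obtain ⟨h2, h3⟩ := Finset.mem_filter.1 ha
      rw [← h3]
      exact ⟨hm a, hmn a h2⟩) (fun a' => by
    rw [hco]
    exact Lt.add_mem (hTL (hfirst a')) (Lt.sum_mem fun p _ => cmul_mem _ (hvL _))) hP0
  -- the coefficients of the `v c` vanish
  have hBz : ∀ p ∈ B, g (Sum.inr p) = 0 := by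
    intro p0 hp0
    obtain ⟨T, hT⟩ : ∃ T, T = B.filter (fun p => p.2.1 = p0.2.1) := ⟨_, rfl⟩
    have h1 : ∑ p ∈ T, g (Sum.inr p) • v p.1 ∈ Tn n u := by
      have h2 := hgood p0.2.1
      rw [hco] at h2
      have h3 := (Submodule.add_mem_iff_right _ (hfirst p0.2.1)).1 h2
      rw [hT]
      simp only [smul_eq]
      exact h3
    have h2 : ∑ p ∈ T, g (Sum.inr p) • v p.1 = 0 := by
      refine (Submodule.disjoint_def.1 hdis) _ (hTn n h1) ?_
      exact Submodule.sum_mem _ fun p _ => Submodule.smul_mem _ _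
        (Submodule.subset_span ⟨p.1, rfl⟩)
    have h3 : LinearIndependent Qa (fun p : {p // p ∈ T} => v p.1.1) := by
      have h4 : LinearIndependent Qa v := hvli
      refine h4.comp (fun p : {p // p ∈ T} => p.1.1) ?_
      rintro ⟨p, hp⟩ ⟨q, hq⟩ h5
      dsimp only at h5
      rw [hT] at hp hq
      refine Subtype.ext (Prod.ext h5 (Subtype.ext ?_))
      exact (Finset.mem_filter.1 hp).2.trans (Finset.mem_filter.1 hq).2.symm
    have h4 : p0 ∈ T := by
      rw [hT]
      exact Finset.mem_filter.2 ⟨hp0, rfl⟩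
    exact Fintype.linearIndependent_iff.1 h3 (fun p => g (Sum.inr p.1)) (by
      rw [← h2, ← Finset.sum_coe_sort T]) ⟨p0, h4⟩
  -- the other coefficients vanish
  have hAz : ∀ a ∈ A, g (Sum.inl a) = 0 := by
    have h1 : ∑ a ∈ A, g (Sum.inl a) • mon a.1 u = 0 := by
      rw [← hsum]
      symm
      rw [add_eq_left]
      refine Finset.sum_eq_zero fun p hp => ?_
      rw [hBz p hp, zero_smul]
    exact linearIndependent_iff'.1 (li_of_free fun n => (h n).1) A (fun a => g (Sum.inl a)) h1
  rintro (a | p) hi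
  · exact hAz a (by
      rw [hA]
      exact Finset.mem_toLeft.2 hi)
  · exact hBz p (by
      rw [hB]
      exact Finset.mem_toRight.2 hi)

end MP60829e.FM
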