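import Pool.Agent.Lib.MP_60829e_nt.FM.Ech

/-! # Linear algebra for the normal form of a bilinear relation -/

open Finset

namespace MP60829e.FM

/-- The invariance of `∑ A c b m_c x_b + ∑ s a b x_a x_b` under the translations which come from
the relations between its derivatives. -/
theorem inv_form {k : Type*} [Field k] [CharZero k] {n : ℕ} {Q R Q' : Finset ℕ}
    (hR : R ⊆ range n) (hQ' : Q' ⊆ range n) (A s : ℕ → ℕ → k) (hs : ∀ a b, s a b = s b a)
    (τ κ : ℕ → ℕ → k)
    (h1 : ∀ b ∈ R, ∀ c ∈ Q, A c b = ∑ b' ∈ Q', τ b b' * A c b')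
    (h2 : ∀ b ∈ R, ∀ a < n, 2 * s a b = ∑ b' ∈ Q', τ b b' * (2 * s a b') +
      ∑ c ∈ Q, κ b c * A c a)
    (x x' m m' : ℕ → k)
    (hx : ∀ i, x' i = x i - (if i ∈ R then x i else 0) +
      if i ∈ Q' then ∑ b ∈ R, τ b i * x b else 0)
    (hm : ∀ c, m' c = m c + ∑ b ∈ R, κ b c * x b) :
    (∀ c ∈ Q, ∑ b ∈ range n, A c b * x' b = ∑ b ∈ range n, A c b * x b) ∧
    (∀ b < n, ∑ c ∈ Q, A c b * m' c + 2 * ∑ a ∈ range n, s a b * x' a =
      ∑ c ∈ Q, A c b * m c + 2 * ∑ a ∈ range n, s a b * x a) ∧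
    ∑ c ∈ Q, m' c * ∑ b ∈ range n, A c b * x' b +
      ∑ a ∈ range n, ∑ b ∈ range n, s a b * x' a * x' b =
    ∑ c ∈ Q, m c * ∑ b ∈ range n, A c b * x b +
      ∑ a ∈ range n, ∑ b ∈ range n, s a b * x a * x b := by
  obtain ⟨v, hv⟩ : ∃ v : ℕ → k, v = fun i => -(if i ∈ R then x i else 0) +
      if i ∈ Q' then ∑ b ∈ R, τ b i * x b else 0 := ⟨_, rfl⟩
  have hxv : ∀ i, x' i = x i + v i := by
    intro i
    rw [hx, hv]
    ring
  -- a sum against `v`
  have hsum : ∀ f : ℕ → k, ∑ i ∈ range n, f i * v i =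
      ∑ b ∈ R, x b * (-(f b) + ∑ b' ∈ Q', τ b b' * f b') := by
    intro f
    have e1 : ∑ i ∈ range n, f i * v i = ∑ i ∈ range n, (if i ∈ R then -(f i * x i) else 0) +
        ∑ i ∈ range n, (if i ∈ Q' then f i * ∑ b ∈ R, τ b i * x b else 0) := by
      rw [← sum_add_distrib]
      refine sum_congr rfl fun i _ => ?_
      rw [hv]
      dsimp only
      by_cases h3 : i ∈ R <;> by_cases h4 : i ∈ Q' <;> simp only [h3, h4, if_true, if_false] <;>
        ring
    rw [e1, ← sum_filter, ← sum_filter, filter_mem_eq_inter, filter_mem_eq_inter,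
      inter_eq_right.2 hR, inter_eq_right.2 hQ']
    simp only [mul_sum, mul_add, sum_add_distrib]
    congr 1
    · exact sum_congr rfl fun b _ => by ring
    · rw [sum_comm]
      exact sum_congr rfl fun b _ => sum_congr rfl fun b' _ => by ring
  have hA : ∀ c ∈ Q, ∑ b ∈ range n, A c b * v b = 0 := by
    intro c hc
    rw [hsum]
    refine sum_eq_zero fun b hb => ?_
    rw [h1 b hb c hc, neg_add_cancel, mul_zero]
  obtain ⟨μ, hμ⟩ : ∃ μ : ℕ → k, μ = fun c => ∑ b ∈ R, κ b c * x b := ⟨_, rfl⟩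
  have hmm : ∀ c, m' c = m c + μ c := by
    intro c
    rw [hm, hμ]
  have hS : ∀ a < n, 2 * ∑ b ∈ range n, s a b * v b = -∑ c ∈ Q, μ c * A c a := by
    intro a ha
    rw [hsum, mul_sum, hμ]
    simp only [sum_mul]
    rw [sum_comm, ← sum_neg_distrib]
    refine sum_congr rfl fun b hb => ?_
    have h3 := h2 b hb a ha
    have h4 : 2 * (x b * (-(s a b) + ∑ b' ∈ Q', τ b b' * s a b')) =
        x b * (-(2 * s a b) + ∑ b' ∈ Q', τ b b' * (2 * s a b')) := by
      have h5 : ∑ b' ∈ Q', τ b b' * (2 * s a b') = 2 * ∑ b' ∈ Q', τ b b' * s a b' := by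
        rw [mul_sum]
        exact sum_congr rfl fun _ _ => by ring
      rw [h5]
      ring
    rw [h4, h3]
    have h6 : ∑ c ∈ Q, κ b c * x b * A c a = x b * ∑ c ∈ Q, κ b c * A c a := by
      rw [mul_sum]
      exact sum_congr rfl fun _ _ => by ring
    rw [h6]
    ring
  have hE : ∀ c ∈ Q, ∑ b ∈ range n, A c b * x' b = ∑ b ∈ range n, A c b * x b := by
    intro c hc
    have h3 : ∑ b ∈ range n, A c b * x' b = ∑ b ∈ range n, A c b * x b +
        ∑ b ∈ range n, A c b * v b := by
      rw [← sum_add_distrib]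
      exact sum_congr rfl fun b _ => by rw [hxv]; ring
    rw [h3, hA c hc, add_zero]
  refine ⟨hE, ?_, ?_⟩
  · intro b hb
    have h3 : ∑ c ∈ Q, A c b * m' c = ∑ c ∈ Q, A c b * m c + ∑ c ∈ Q, μ c * A c b := by
      rw [← sum_add_distrib]
      exact sum_congr rfl fun c _ => by rw [hmm]; ring
    have h4 : ∑ a ∈ range n, s a b * x' a = ∑ a ∈ range n, s a b * x a +
        ∑ a ∈ range n, s b a * v a := by
      rw [← sum_add_distrib]
      exact sum_congr rfl fun a _ => by rw [hxv, hs b a]; ring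
    have h5 := hS b hb
    rw [h3, h4, mul_add, h5]
    ring
  · have h3 : ∑ c ∈ Q, m' c * ∑ b ∈ range n, A c b * x' b =
        ∑ c ∈ Q, m c * ∑ b ∈ range n, A c b * x b +
          ∑ c ∈ Q, μ c * ∑ b ∈ range n, A c b * x b := by
      rw [← sum_add_distrib]
      refine sum_congr rfl fun c hc => ?_
      rw [hE c hc, hmm]
      ring
    have h4 : ∑ a ∈ range n, ∑ b ∈ range n, s a b * x' a * x' b =
        ∑ a ∈ range n, ∑ b ∈ range n, s a b * x a * x b +
          ∑ a ∈ range n, x a * (2 * ∑ b ∈ range n, s a b * v b) +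
            ∑ a ∈ range n, v a * ∑ b ∈ range n, s a b * v b := by
      have h5 : ∑ a ∈ range n, x a * (2 * ∑ b ∈ range n, s a b * v b) =
          ∑ a ∈ range n, ∑ b ∈ range n, s a b * x a * v b +
            ∑ a ∈ range n, ∑ b ∈ range n, s a b * v a * x b := by
        have h6 : ∑ a ∈ range n, ∑ b ∈ range n, s a b * v a * x b =
            ∑ a ∈ range n, ∑ b ∈ range n, s a b * x a * v b := by
          rw [sum_comm]
          exact sum_congr rfl fun a _ => sum_congr rfl fun b _ => by rw [hs b a]; ring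
        rw [h6, ← two_mul, mul_sum]
        refine sum_congr rfl fun a _ => ?_
        rw [mul_sum, mul_sum, mul_sum]
        exact sum_congr rfl fun b _ => by ring
      rw [h5, ← sum_add_distrib, ← sum_add_distrib, ← sum_add_distrib]
      refine sum_congr rfl fun a _ => ?_
      rw [mul_sum, ← sum_add_distrib, ← sum_add_distrib, ← sum_add_distrib]
      refine sum_congr rfl fun b _ => ?_
      rw [hxv, hxv]
      ring
    have h5 : ∑ a ∈ range n, x a * (2 * ∑ b ∈ range n, s a b * v b) =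
        -∑ c ∈ Q, μ c * ∑ b ∈ range n, A c b * x b := by
      have h6 : ∑ a ∈ range n, x a * (2 * ∑ b ∈ range n, s a b * v b) =
          ∑ a ∈ range n, -∑ c ∈ Q, x a * (μ c * A c a) := by
        refine sum_congr rfl fun a ha => ?_
        rw [hS a (mem_range.1 ha), mul_neg, mul_sum]
      rw [h6, sum_neg_distrib, sum_comm]
      congr 1
      refine sum_congr rfl fun c _ => ?_
      rw [mul_sum]
      exact sum_congr rfl fun _ _ => by ring
    have h6 : ∑ a ∈ range n, v a * ∑ b ∈ range n, s a b * v b = 0 := by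
      have h7 : (2 : k) * ∑ a ∈ range n, v a * ∑ b ∈ range n, s a b * v b = 0 := by
        have h8 : (2 : k) * ∑ a ∈ range n, v a * ∑ b ∈ range n, s a b * v b =
            ∑ a ∈ range n, -∑ c ∈ Q, v a * (μ c * A c a) := by
          rw [mul_sum]
          refine sum_congr rfl fun a ha => ?_
          have h9 := hS a (mem_range.1 ha)
          have h10 : 2 * (v a * ∑ b ∈ range n, s a b * v b) =
              v a * (2 * ∑ b ∈ range n, s a b * v b) := by ring
          rw [h10, h9, mul_neg, mul_sum]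
        rw [h8, sum_neg_distrib, sum_comm, neg_eq_zero]
        refine sum_eq_zero fun c hc => ?_
        have h9 : ∑ a ∈ range n, v a * (μ c * A c a) = μ c * ∑ a ∈ range n, A c a * v a := by
          rw [mul_sum]
          exact sum_congr rfl fun _ _ => by ring
        rw [h9, hA c hc, mul_zero]
      exact (mul_eq_zero.1 h7).resolve_left two_ne_zero
    rw [h3, h4, h5, h6]
    ring

end MP60829e.FM
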