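import Pool.Agent.Lib.MP_60829e_nt.FM.Ker
import Pool.Agent.Lib.MP_60829e_nt.FM.Li
import Pool.Agent.Lib.MP_60829e_nt.HD.FinE

/-! # The hypersurfaces of the theorem with arbitrary logarithms as minors -/

open MvPolynomial Module

namespace MP60829e.FM

open MP60829e.ST (Qa Lsp Lt)
open MP60829e.HD (val Free SW mem_SW mon Adm Gq GqD lp)
open MP60829e.SL (smul_eq)

/-- The independence of a family of values is preserved off a minor. -/
theorem minor_gen {ι : Type} [Finite ι] (W : ℕ × ℕ → Prop) (F : ι → MvPolynomial (ℕ × ℕ) ℂ)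
    (b : ℕ) (dd : ι → ℕ) (hF : ∀ i, Adm W b (dd i) (F i)) (Vs : ℕ × ℕ → Qa)
    (hVs : LinearIndependent Qa fun i => TV.ev Vs (F i)) (d : ℕ)
    (hd : ∀ s : Finset ι, ∑ i ∈ s, dd i ≤ d) :
    ∃ H : MvPolynomial (ℕ × ℕ) Qa, H ≠ 0 ∧ Adm W b d H ∧
      ∀ V, eval V H ≠ 0 → LinearIndependent Qa fun i => TV.ev V (F i) := by
  classical
  have : Fintype ι := Fintype.ofFinite ι
  have hinj : Function.Injective (Fintype.linearCombination Qa (fun i => TV.ev Vs (F i))) := by
    rw [← LinearMap.ker_eq_bot, LinearMap.ker_eq_bot']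
    intro c hc
    rw [Fintype.linearIndependent_iff] at hVs
    funext a
    exact hVs c hc a
  obtain ⟨g, hg⟩ := LinearMap.exists_leftInverse_of_injective _ (LinearMap.ker_eq_bot.2 hinj)
  obtain ⟨ψ, hψ⟩ : ∃ ψ : ι → (ℂ →ₗ[Qa] Qa), ψ = fun a' => (LinearMap.proj a').comp g :=
    ⟨_, rfl⟩
  have hdual : ∀ a' a : ι, ψ a' (TV.ev Vs (F a)) = if a' = a then 1 else 0 := by
    intro a' a
    have h1 := congrFun (LinearMap.congr_fun hg (Pi.single a 1)) a'
    rw [LinearMap.comp_apply, Fintype.linearCombination_apply_single, one_smul,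
      LinearMap.id_apply, Pi.single_apply] at h1
    rw [hψ]
    exact h1
  obtain ⟨G, hG⟩ : ∃ G : Matrix ι ι (MvPolynomial (ℕ × ℕ) Qa),
      G = fun a' a => TV.star (ψ a') (F a) := ⟨_, rfl⟩
  have heval : ∀ V : ℕ × ℕ → Qa, eval V G.det = Matrix.det (fun a' a => ψ a' (TV.ev V (F a))) := by
    intro V
    rw [RingHom.map_det]
    congr 1
    funext a' a
    rw [RingHom.mapMatrix_apply, Matrix.map_apply, hG]
    dsimp only
    rw [TV.eval_star]
  refine ⟨G.det, ?_, ?_, ?_⟩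
  · intro h0
    have h1 := heval Vs
    rw [h0, map_zero] at h1
    have h2 : (fun a' a : ι => ψ a' (TV.ev Vs (F a))) = (1 : Matrix _ _ Qa) := by
      funext a' a
      rw [hdual, Matrix.one_apply]
    rw [h2, Matrix.det_one] at h1
    exact zero_ne_one h1
  · refine (Adm.det (d := dd) fun a' a => ?_).mono (hd Finset.univ)
    rw [hG]
    exact (hF a).star _
  · intro V hne
    rw [heval V] at hne
    rw [Fintype.linearIndependent_iff]
    intro c hc a
    have h1 : Matrix.mulVec (fun a' a : ι => ψ a' (TV.ev V (F a))) c = 0 := by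
      funext a'
      have h2 := congrFun (congrArg g hc) a'
      rw [map_zero, map_sum, Finset.sum_apply] at h2
      show ∑ a : ι, ψ a' (TV.ev V (F a)) * c a = 0
      refine (Finset.sum_congr rfl fun a _ => ?_).trans h2
      rw [map_smul, Pi.smul_apply, smul_eq_mul, mul_comm, hψ]
      rfl
    exact congrFun (Matrix.eq_zero_of_mulVec_eq_zero hne h1) a

/-- The predicate: the products with arbitrary logarithms have only the formal relations. -/
def GX (M : Set (ℕ →₀ ℕ)) (lam : ℕ → ℂ) (j : ℕ → ℕ) (n : ℕ) (V : ℕ × ℕ → Qa) : Prop :=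
  Free (MX M) n (val lam j V) ∧ GoodM M n (val lam j V)

section lin

variable {M : Set (ℕ →₀ ℕ)} {n : ℕ}

/-- The number with index `o`. -/
noncomputable def uo {n : ℕ} (u : ℕ → ℂ) (o : Option (Fin n)) : ℂ := o.elim 1 fun a => u a.1

theorem mon_sh' {n : ℕ} (u : ℕ → ℂ) (m : ℕ →₀ ℕ) (o : Option (Fin n)) :
    mon (m + sh o) u = mon m u * uo u o := mon_sh u m o

/-- The formal part: coefficients of the polynomial. -/
noncomputable def Psi (S X : Finset (ℕ →₀ ℕ)) (n : ℕ) :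
    ({m // m ∈ S} × Option (Fin n) → Qa) →ₗ[Qa] ({x // x ∈ X} → Qa) :=
  LinearMap.pi fun x => ∑ p : {m // m ∈ S} × Option (Fin n),
    if p.1.1 + sh p.2 = x.1 then LinearMap.proj p else 0

theorem Psi_apply (S X : Finset (ℕ →₀ ℕ)) (n : ℕ) (t : {m // m ∈ S} × Option (Fin n) → Qa)
    (x : {x // x ∈ X}) : Psi S X n t x = ∑ p : {m // m ∈ S} × Option (Fin n),
      if p.1.1 + sh p.2 = x.1 then t p else 0 := by
  unfold Psi
  rw [LinearMap.pi_apply, LinearMap.sum_apply]
  refine Finset.sum_congr rfl fun p _ => ?_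
  split_ifs <;> rfl

/-- The values of the formal part. -/
noncomputable def tau (S : Finset (ℕ →₀ ℕ)) (n : ℕ) (u : ℕ → ℂ) :
    ({m // m ∈ S} × Option (Fin n) → Qa) →ₗ[Qa] ({m // m ∈ S} → ℂ) :=
  LinearMap.pi fun m => ∑ o : Option (Fin n),
    (LinearMap.toSpanSingleton Qa ℂ (uo u o)).comp (LinearMap.proj (m, o))

theorem tau_apply (S : Finset (ℕ →₀ ℕ)) (n : ℕ) (u : ℕ → ℂ)
    (t : {m // m ∈ S} × Option (Fin n) → Qa) (m : {m // m ∈ S}) :
    tau S n u t m = ∑ o : Option (Fin n), (t (m, o) : ℂ) * uo u o := by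
  unfold tau
  rw [LinearMap.pi_apply, LinearMap.sum_apply]
  rfl

/-- The value of a relation. -/
noncomputable def Ev (S : Finset (ℕ →₀ ℕ)) (u : ℕ → ℂ) : ({m // m ∈ S} → ℂ) →ₗ[Qa] ℂ :=
  ∑ m : {m // m ∈ S}, (LinearMap.mulRight Qa (mon m.1 u)).comp (LinearMap.proj m)

theorem Ev_apply (S : Finset (ℕ →₀ ℕ)) (u : ℕ → ℂ) (l : {m // m ∈ S} → ℂ) :
    Ev S u l = ∑ m : {m // m ∈ S}, l m * mon m.1 u := by
  unfold Ev
  rw [LinearMap.sum_apply]
  rfl

/-- The polynomial with given coefficients. -/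
theorem aeval_of (X : Finset (ℕ →₀ ℕ)) (q : {x // x ∈ X} → Qa) (u : ℕ → ℂ) :
    aeval u (∑ x : {x // x ∈ X}, monomial x.1 (q x)) = ∑ x : {x // x ∈ X}, (q x : ℂ) * mon x.1 u := by
  rw [map_sum]
  refine Finset.sum_congr rfl fun x _ => ?_
  rw [aeval_monomial]
  rfl

theorem Ev_tau (S X : Finset (ℕ →₀ ℕ)) (n : ℕ) (hSX : ∀ m ∈ S, ∀ o : Option (Fin n), m + sh o ∈ X)
    (u : ℕ → ℂ) (t : {m // m ∈ S} × Option (Fin n) → Qa) :
    Ev S u (tau S n u t) = ∑ x : {x // x ∈ X}, (Psi S X n t x : ℂ) * mon x.1 u := by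
  classical
  rw [Ev_apply]
  have h1 : ∀ x : {x // x ∈ X}, ((Psi S X n t x : Qa) : ℂ) * mon x.1 u =
      ∑ p : {m // m ∈ S} × Option (Fin n),
        if p.1.1 + sh p.2 = x.1 then (t p : ℂ) * (mon p.1.1 u * uo u p.2) else 0 := by
    intro x
    rw [Psi_apply]
    have h2 : ∀ y : Qa, (y : ℂ) = algebraMap Qa ℂ y := fun _ => rfl
    rw [h2, map_sum, Finset.sum_mul]
    refine Finset.sum_congr rfl fun p _ => ?_
    split_ifs with h3
    · rw [← mon_sh', h3]
      rfl
    · rw [map_zero, zero_mul]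
  simp only [h1]
  rw [Finset.sum_comm, Fintype.sum_prod_type]
  refine Finset.sum_congr rfl fun m _ => ?_
  rw [tau_apply, Finset.sum_mul]
  refine Finset.sum_congr rfl fun o _ => ?_
  rw [Finset.sum_eq_single ⟨m.1 + sh o, hSX m.1 m.2 o⟩]
  · rw [if_pos rfl]
    ring
  · intro x _ hne
    rw [if_neg]
    intro h3
    exact hne (Subtype.ext h3.symm)
  · intro h
    exact absurd (Finset.mem_univ _) h

theorem Psi_surj (S X : Finset (ℕ →₀ ℕ)) (n : ℕ)
    (hX : ∀ x ∈ X, ∃ m ∈ S, ∃ o : Option (Fin n), m + sh o = x) :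
    Function.Surjective (Psi S X n) := by
  classical
  rw [← LinearMap.range_eq_top, eq_top_iff]
  rw [← (Pi.basisFun Qa {x // x ∈ X}).span_eq, Submodule.span_le]
  rintro _ ⟨x, rfl⟩
  obtain ⟨m, hm, o, hmo⟩ := hX x.1 x.2
  refine ⟨Pi.single (⟨m, hm⟩, o) 1, ?_⟩
  funext x'
  rw [Psi_apply, Finset.sum_eq_single (⟨m, hm⟩, o), Pi.single_eq_same, Pi.basisFun_apply]
  · by_cases h : x' = x
    · subst h
      rw [if_pos hmo, Pi.single_eq_same]
    · rw [if_neg fun h1 => h (Subtype.ext (h1.symm.trans hmo)), Pi.single_eq_of_ne h]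
  · intro p _ hne
    rw [Pi.single_eq_of_ne hne, ite_self]
  · intro h
    exact absurd (Finset.mem_univ _) h

theorem tau_inj (S : Finset (ℕ →₀ ℕ)) (n : ℕ) (u : ℕ → ℂ)
    (h : LinearIndependent Qa fun o : Option (Fin n) => uo u o) :
    Function.Injective (tau S n u) := by
  classical
  rw [← LinearMap.ker_eq_bot, LinearMap.ker_eq_bot']
  intro t ht
  funext ⟨m, o⟩
  have h1 := congrFun ht m
  rw [tau_apply] at h1
  exact Fintype.linearIndependent_iff.1 h (fun o => t (m, o)) (by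
    rw [← show ∑ o : Option (Fin n), (t (m, o) : ℂ) * uo u o = 0 from h1]
    exact Finset.sum_congr rfl fun o _ => smul_eq _ _) o

end lin

end MP60829e.FM
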