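import Pool.Agent.Lib.MP_60829e_nt.FM.Minor

/-! # The hypersurfaces of the theorem with arbitrary logarithms: bounds for the degrees -/

open MvPolynomial Module

namespace MP60829e.FM

open MP60829e.ST (Qa Lsp Lt)
open MP60829e.HD (val Free SW mem_SW mon Adm Gq GqD lp)
open MP60829e.SL (smul_eq)

section lin

variable {M : Set (ℕ →₀ ℕ)} {n : ℕ}

/-- The value of a relation with coefficients in `L`. -/
noncomputable def EL (L : Submodule Qa ℂ) (S : Finset (ℕ →₀ ℕ)) (u : ℕ → ℂ) :
    ({m // m ∈ S} → L) →ₗ[Qa] ℂ :=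
  (Ev S u).comp (L.subtype.compLeft {m // m ∈ S})

theorem EL_apply (L : Submodule Qa ℂ) (S : Finset (ℕ →₀ ℕ)) (u : ℕ → ℂ) (l : {m // m ∈ S} → L) :
    EL L S u l = ∑ m : {m // m ∈ S}, (l m : ℂ) * mon m.1 u := by
  unfold EL
  rw [LinearMap.comp_apply, Ev_apply]
  rfl

theorem uo_mem_Tn {n : ℕ} (u : ℕ → ℂ) (o : Option (Fin n)) : uo u o ∈ Tn n u := by
  rcases o with _ | a
  · exact one_mem_Tn n u
  · exact x_mem_Tn u a.2

theorem mem_Tn_uo {n : ℕ} {u : ℕ → ℂ} {y : ℂ} (hy : y ∈ Tn n u) :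
    ∃ t : Option (Fin n) → Qa, y = ∑ o, (t o : ℂ) * uo u o := by
  obtain ⟨t0, t, ht⟩ := mem_Tn.1 hy
  refine ⟨fun o => o.elim t0 fun a => t a.1, ?_⟩
  rw [Fintype.sum_option, ht]
  congr 1
  · exact (mul_one _).symm
  · rw [Finset.sum_range]
    rfl

theorem li_uo {n : ℕ} {u : ℕ → ℂ} (h : Free HD.M1 n u) :
    LinearIndependent Qa fun o : Option (Fin n) => uo u o := by
  classical
  have hM : ∀ a : ℕ →₀ ℕ, a.degree ≤ 1 → a ∈ HD.M1 := fun a ha => ha
  rw [Fintype.linearIndependent_iff]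
  intro c hc
  obtain ⟨R, hR⟩ : ∃ R : MvPolynomial ℕ Qa, R = C (c none) + ∑ a : Fin n,
      monomial (Finsupp.single a.1 1) (c (some a)) := ⟨_, rfl⟩
  have hne : ∀ b : ℕ, (Finsupp.single b 1 : ℕ →₀ ℕ) ≠ 0 := fun b h0 => by
    have h1 := DFunLike.congr_fun h0 b
    simp at h1
  have h0 : R = 0 := by
    refine h R (fun a ha => ?_) ?_
    · rw [MvPolynomial.mem_support_iff, hR, coeff_add, coeff_C, coeff_sum] at ha
      by_cases h1 : (0 : ℕ →₀ ℕ) = a
      · rw [← h1]
        refine ⟨hM _ ?_, fun b hb => ?_⟩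
        · rw [map_zero]
          exact Nat.zero_le _
        · rw [Finsupp.support_zero] at hb
          exact absurd hb (Finset.notMem_empty _)
      · rw [if_neg h1, zero_add] at ha
        obtain ⟨b, -, h2⟩ := Finset.exists_ne_zero_of_sum_ne_zero ha
        rw [coeff_monomial] at h2
        have h3 : Finsupp.single b.1 1 = a := by
          by_contra h4
          exact h2 (if_neg h4)
        rw [← h3]
        refine ⟨hM _ ?_, fun b' hb' => ?_⟩
        · rw [Finsupp.degree_single]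
        · have h4 := Finsupp.support_single_subset hb'
          rw [Finset.mem_singleton] at h4
          rw [h4]
          exact b.2
    · rw [Fintype.sum_option] at hc
      rw [hR, map_add, map_sum, ← hc]
      congr 1
      · rw [algHom_C, smul_eq]
        exact (mul_one _).symm
      · refine Finset.sum_congr rfl fun a _ => ?_
        rw [aeval_monomial, Finsupp.prod_single_index, pow_one, smul_eq]
        · rfl
        · exact pow_zero _
  intro o
  rcases o with _ | a
  · have h1 : coeff 0 R = c none := by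
      rw [hR, coeff_add, coeff_C, if_pos rfl, coeff_sum, Finset.sum_eq_zero, add_zero]
      intro a _
      rw [coeff_monomial, if_neg (hne _)]
    rw [← h1, h0, coeff_zero]
  · have h1 : coeff (Finsupp.single a.1 1) R = c (some a) := by
      rw [hR, coeff_add, coeff_C, if_neg (hne _).symm, zero_add, coeff_sum,
        Finset.sum_eq_single a]
      · rw [coeff_monomial, if_pos rfl]
      · intro b _ hb
        rw [coeff_monomial, if_neg]
        intro h2
        exact hb (Fin.ext (Finsupp.single_left_injective one_ne_zero h2))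
      · intro h2
        exact absurd (Finset.mem_univ _) h2
    rw [← h1, h0, coeff_zero]

/-- If the products have only the formal relations, the kernel is in the formal part. -/
theorem ker_le {L : Submodule Qa ℂ} (hL : L ≤ Lt) {S X : Finset (ℕ →₀ ℕ)} {u : ℕ → ℂ}
    (hS : ∀ m, m ∈ S ↔ m ∈ M ∧ ∀ b ∈ m.support, b < n)
    (hXm : ∀ m, m ∈ X ↔ m ∈ MX M ∧ ∀ b ∈ m.support, b < n)
    (hSX : ∀ m ∈ S, ∀ o : Option (Fin n), m + sh o ∈ X)
    (h1 : Free (MX M) n u) (h2 : GoodM M n u) (l : {m // m ∈ S} → L) (hl : EL L S u l = 0) :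
    ∃ t : {m // m ∈ S} × Option (Fin n) → Qa, Psi S X n t = 0 ∧
      tau S n u t = fun m => (l m : ℂ) := by
  classical
  obtain ⟨P, hP⟩ : ∃ P : MvPolynomial ℕ ℂ, P = ∑ m : {m // m ∈ S}, monomial m.1 (l m : ℂ) :=
    ⟨_, rfl⟩
  have hco : ∀ m : {m // m ∈ S}, coeff m.1 P = l m := by
    intro m
    rw [hP, coeff_sum, Finset.sum_eq_single m]
    · rw [coeff_monomial, if_pos rfl]
    · intro m' _ hne
      rw [coeff_monomial, if_neg fun h => hne (Subtype.ext h)]
    · intro h
      exact absurd (Finset.mem_univ _) h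
  have hsupp : ∀ a ∈ P.support, a ∈ S := by
    intro a ha
    rw [MvPolynomial.mem_support_iff, hP, coeff_sum] at ha
    obtain ⟨m, -, hm⟩ := Finset.exists_ne_zero_of_sum_ne_zero ha
    rw [coeff_monomial] at hm
    have h3 : m.1 = a := by
      by_contra h4
      exact hm (if_neg h4)
    rw [← h3]
    exact m.2
  have hPL : ∀ a, coeff a P ∈ Lt := by
    intro a
    by_cases ha : a ∈ S
    · rw [show coeff a P = l ⟨a, ha⟩ from hco ⟨a, ha⟩]
      exact hL (l ⟨a, ha⟩).2
    · rw [MvPolynomial.notMem_support_iff.1 fun h => ha (hsupp a h)]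
      exact Lt.zero_mem
  have hev : eval u P = 0 := by
    rw [← hl, EL_apply, hP, map_sum]
    exact Finset.sum_congr rfl fun m _ => eval_monomial' u m.1 _
  have h3 := h2 P (fun a ha => (hS a).1 (hsupp a ha)) hPL hev
  have h4 : ∀ m : {m // m ∈ S}, ∃ t : Option (Fin n) → Qa,
      (l m : ℂ) = ∑ o, (t o : ℂ) * uo u o := fun m => by
    have h5 := h3 m.1
    rw [hco] at h5
    exact mem_Tn_uo h5
  choose t ht using h4
  have htau : tau S n u (fun p => t p.1 p.2) = fun m => (l m : ℂ) := by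
    funext m
    rw [tau_apply, ht m]
  refine ⟨fun p => t p.1 p.2, ?_, htau⟩
  have h5 := Ev_tau S X n hSX u fun p => t p.1 p.2
  rw [htau] at h5
  have h6 : Ev S u (fun m => (l m : ℂ)) = 0 := by
    rw [← hl]
    rfl
  rw [h6] at h5
  obtain ⟨R, hR⟩ : ∃ R : MvPolynomial ℕ Qa, R = ∑ x : {x // x ∈ X},
      monomial x.1 (Psi S X n (fun p => t p.1 p.2) x) := ⟨_, rfl⟩
  have hcoR : ∀ x : {x // x ∈ X}, coeff x.1 R = Psi S X n (fun p => t p.1 p.2) x := by
    intro x
    rw [hR, coeff_sum, Finset.sum_eq_single x]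
    · rw [coeff_monomial, if_pos rfl]
    · intro m' _ hne
      rw [coeff_monomial, if_neg fun h => hne (Subtype.ext h)]
    · intro h
      exact absurd (Finset.mem_univ _) h
  have hR0 : R = 0 := by
    refine h1 R (fun a ha => ?_) ?_
    · rw [MvPolynomial.mem_support_iff, hR, coeff_sum] at ha
      obtain ⟨m, -, hm⟩ := Finset.exists_ne_zero_of_sum_ne_zero ha
      rw [coeff_monomial] at hm
      have h3 : m.1 = a := by
        by_contra h4
        exact hm (if_neg h4)
      rw [← h3]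
      exact (hXm _).1 m.2
    · rw [hR, aeval_of]
      exact h5.symm
  funext x
  rw [← hcoR x, hR0, coeff_zero]
  rfl

/-- The converse. -/
theorem gx_of_ker {L : Submodule Qa ℂ} {S X : Finset (ℕ →₀ ℕ)} {u : ℕ → ℂ}
    (hS : ∀ m, m ∈ S ↔ m ∈ M ∧ ∀ b ∈ m.support, b < n)
    (hXm : ∀ m, m ∈ X ↔ m ∈ MX M ∧ ∀ b ∈ m.support, b < n)
    (hSX : ∀ m ∈ S, ∀ o : Option (Fin n), m + sh o ∈ X)
    (hX : ∀ x ∈ X, ∃ m ∈ S, ∃ o : Option (Fin n), m + sh o = x)
    (huo : ∀ o : Option (Fin n), uo u o ∈ L)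
    (hLX : Free M n u → ∀ P : MvPolynomial ℕ ℂ,
      (∀ a ∈ P.support, a ∈ M ∧ ∀ b ∈ a.support, b < n) →
          (∀ a, coeff a P ∈ Lt) → eval u P = 0 → ∀ a, coeff a P ∈ L)
    (hli : LinearIndependent Qa fun o : Option (Fin n) => uo u o)
    (hfd : FiniteDimensional Qa L)
    (hk : finrank Qa (LinearMap.ker (EL L S u)) ≤ finrank Qa (LinearMap.ker (Psi S X n))) :
    Free (MX M) n u ∧ GoodM M n u := by
  classical
  have htau := tau_inj S n u hli
  obtain ⟨ι, hι⟩ : ∃ ι : ({m // m ∈ S} → L) →ₗ[Qa] ({m // m ∈ S} → ℂ),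
      ι = L.subtype.compLeft {m // m ∈ S} := ⟨_, rfl⟩
  have hιi : ∀ l m, ι l m = (l m : ℂ) := fun l m => by rw [hι]; rfl
  have hιinj : Function.Injective ι := by
    intro l l' h
    funext m
    have h1 := congrFun h m
    rw [hιi, hιi] at h1
    exact Subtype.ext h1
  have hEv : ∀ l, EL L S u l = Ev S u (ι l) := fun l => by rw [hι]; rfl
  have hle : (LinearMap.ker (Psi S X n)).map (tau S n u) ≤ (LinearMap.ker (EL L S u)).map ι := by
    rintro _ ⟨t, ht, rfl⟩
    have h1 : ∀ m, tau S n u t m ∈ L := by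
      intro m
      rw [tau_apply]
      exact Submodule.sum_mem _ fun o _ => cmul_mem _ (huo o)
    refine ⟨fun m => ⟨tau S n u t m, h1 m⟩, ?_, ?_⟩
    · have h2 : ι (fun m => ⟨tau S n u t m, h1 m⟩) = tau S n u t := by
        funext m
        rw [hιi]
      show EL L S u _ = 0
      rw [hEv, h2, Ev_tau S X n hSX]
      have h3 : Psi S X n t = 0 := ht
      rw [h3]
      refine Finset.sum_eq_zero fun x _ => ?_
      have h4 : (((0 : {x // x ∈ X} → Qa) x : Qa) : ℂ) = 0 := rfl
      rw [h4, zero_mul]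
    · funext m
      rw [hιi]
  have heq : (LinearMap.ker (Psi S X n)).map (tau S n u) = (LinearMap.ker (EL L S u)).map ι := by
    refine Submodule.eq_of_le_of_finrank_le hle ?_
    rw [← (Submodule.equivMapOfInjective (tau S n u) htau _).finrank_eq,
      ← (Submodule.equivMapOfInjective ι hιinj _).finrank_eq]
    exact hk
  have hfree : Free (MX M) n u := by
    intro P hP hv
    obtain ⟨t, ht⟩ := Psi_surj S X n hX (fun x => coeff x.1 P)
    have h1 : ∀ m, tau S n u t m ∈ L := by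
      intro m
      rw [tau_apply]
      exact Submodule.sum_mem _ fun o _ => cmul_mem _ (huo o)
    have h2 : ι (fun m => ⟨tau S n u t m, h1 m⟩) = tau S n u t := by
      funext m
      rw [hιi]
    have h3 : tau S n u t ∈ (LinearMap.ker (EL L S u)).map ι := by
      refine ⟨fun m => ⟨tau S n u t m, h1 m⟩, ?_, h2⟩
      show EL L S u _ = 0
      rw [hEv, h2, Ev_tau S X n hSX, ht, ← hv, HD.aeval_mon]
      rw [Finset.sum_coe_sort X (fun x => ((coeff x P : Qa) : ℂ) * mon x u)]
      symm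
      apply Finset.sum_subset
      · intro x hx
        exact (hXm x).2 (hP x hx)
      · intro x _ hx
        rw [MvPolynomial.notMem_support_iff.1 hx]
        exact zero_mul _
    rw [← heq] at h3
    obtain ⟨t', ht', h4⟩ := h3
    have h5 : t' = t := htau h4
    subst h5
    have h6 : Psi S X n t' = 0 := ht'
    rw [h6] at ht
    refine MvPolynomial.ext _ _ fun x => ?_
    rw [coeff_zero]
    by_cases hx : x ∈ X
    · exact (congrFun ht ⟨x, hx⟩).symm
    · exact MvPolynomial.notMem_support_iff.1 fun h7 => hx ((hXm x).2 (hP x h7))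
  refine ⟨hfree, fun P hP1 hP2 hP3 => ?_⟩
  have hfreeM : Free M n u := fun P hP hv => hfree P
    (fun a ha => ⟨Or.inl (hP a ha).1, (hP a ha).2⟩) hv
  have h1 := hLX hfreeM P hP1 hP2 hP3
  have h2 : ι (fun m => ⟨coeff m.1 P, h1 m.1⟩) ∈ (LinearMap.ker (EL L S u)).map ι := by
    refine ⟨_, ?_, rfl⟩
    show EL L S u _ = 0
    rw [EL_apply, ← hP3, eval_eq]
    rw [Finset.sum_coe_sort S (fun m => coeff m P * mon m u)]
    symm
    apply Finset.sum_subset
    · intro m hm
      exact (hS m).2 (hP1 m hm)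
    · intro m _ hm
      rw [MvPolynomial.notMem_support_iff.1 hm, zero_mul]
  rw [← heq] at h2
  obtain ⟨t, -, ht⟩ := h2
  intro a
  by_cases ha : a ∈ S
  · have h3 := congrFun ht ⟨a, ha⟩
    rw [hιi, tau_apply] at h3
    rw [← show ∑ o : Option (Fin n), (t (⟨a, ha⟩, o) : ℂ) * uo u o = coeff a P from h3]
    exact Submodule.sum_mem _ fun o _ => cmul_mem _ (uo_mem_Tn u o)
  · rw [MvPolynomial.notMem_support_iff.1 fun h3 => ha ((hS a).2 (hP1 a h3))]
    exact Submodule.zero_mem _

end lin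

/-- The degree of the minor in the row `α`. -/
noncomputable def dgX (M : Set (ℕ →₀ ℕ)) (J D α n : ℕ) : ℕ :=
  (((J + 1) ^ D) ^ 3 + (J + 1)) * (∑ a ∈ SW M (Finset.range n), a α) +
    ∑ a ∈ SW HD.M1 (Finset.range n), a α

theorem gx_minor {M : Set (ℕ →₀ ℕ)} (h0M : (0 : ℕ →₀ ℕ) ∈ M) (hM : IsLowerSet M)
    (hfin : ∀ n, {a : ℕ →₀ ℕ | a ∈ M ∧ ∀ b ∈ a.support, b < n}.Finite) {lam : ℕ → ℂ}
    (hlog : ∀ i, lam i ∈ Lsp) (j : ℕ → ℕ) (α n J D : ℕ) (hJ : ∀ b < n, j b ≤ J)
    (hD : ∀ a ∈ M, (∀ b ∈ a.support, b < n) → a.degree ≤ D) (V0 : ℕ × ℕ → Qa)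
    (h : Gq j (GX M lam j) V0 α n) : GqD j (GX M lam j) V0 α n (dgX M J D α n) := by
  classical
  have : Infinite Qa := Infinite.of_injective (Nat.cast : ℕ → Qa) Nat.cast_injective
  obtain ⟨Vs, hVs, hg1, hg2⟩ := h.exists_good
  obtain ⟨L, hLf, hLr, hLt, hL1, hLv, hLX⟩ := exists_LX lam hlog hfin j n J D hJ hD
  obtain ⟨S, hSd⟩ : ∃ S, S = SW M (Finset.range n) := ⟨_, rfl⟩
  obtain ⟨X, hXd⟩ : ∃ X, X = SW (MX M) (Finset.range n) := ⟨_, rfl⟩
  have hS : ∀ m, m ∈ S ↔ m ∈ M ∧ ∀ b ∈ m.support, b < n := by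
    intro a
    rw [hSd, mem_SW hfin]
    exact and_congr_right fun _ => ⟨fun h b hb => Finset.mem_range.1 (h hb),
      fun h b hb => Finset.mem_range.2 (h b hb)⟩
  have hXm : ∀ m, m ∈ X ↔ m ∈ MX M ∧ ∀ b ∈ m.support, b < n := by
    intro a
    rw [hXd, mem_SW (finite_MX hM hfin)]
    exact and_congr_right fun _ => ⟨fun h b hb => Finset.mem_range.1 (h hb),
      fun h b hb => Finset.mem_range.2 (h b hb)⟩
  have hSX : ∀ m ∈ S, ∀ o : Option (Fin n), m + sh o ∈ X := by
    intro m hm o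
    obtain ⟨h1, h2⟩ := (hS m).1 hm
    rw [hXm]
    rcases o with _ | a
    · show m + 0 ∈ MX M ∧ ∀ b ∈ (m + 0).support, b < n
      rw [add_zero]
      exact ⟨Or.inl h1, h2⟩
    · refine ⟨Or.inr ⟨m, h1, a.1, rfl⟩, fun b hb => ?_⟩
      rcases Finset.mem_union.1 (Finsupp.support_add hb) with h3 | h3
      · exact h2 b h3
      · have h4 := Finsupp.support_single_subset h3
        rw [Finset.mem_singleton] at h4
        rw [h4]
        exact a.2
  have hX : ∀ x ∈ X, ∃ m ∈ S, ∃ o : Option (Fin n), m + sh o = x := by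
    intro x hx
    obtain ⟨h1, h2⟩ := (hXm x).1 hx
    rcases h1 with h1 | ⟨m, hm, b, rfl⟩
    · exact ⟨x, (hS x).2 ⟨h1, h2⟩, none, add_zero _⟩
    · have hb : b < n := by
        refine h2 b ?_
        rw [Finsupp.mem_support_iff, Finsupp.add_apply, Finsupp.single_eq_same]
        omega
      refine ⟨m, (hS m).2 ⟨hm, fun i hi => h2 i ?_⟩, some ⟨b, hb⟩, rfl⟩
      rw [Finsupp.mem_support_iff] at hi ⊢
      rw [Finsupp.add_apply]
      omega
  -- the family
  obtain ⟨d0, hd0⟩ : ∃ d0, d0 = finrank Qa L := ⟨_, rfl⟩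
  obtain ⟨bas, -⟩ : ∃ bas : Basis (Fin d0) Qa L, True :=
    ⟨finBasisOfFinrankEq Qa _ hd0.symm, trivial⟩
  obtain ⟨F, hF⟩ : ∃ F : Fin d0 × {m // m ∈ S} → MvPolynomial (ℕ × ℕ) ℂ,
      F = fun p => C ((bas p.1 : L) : ℂ) * mon p.2.1 (lp lam j V0 α) := ⟨_, rfl⟩
  have hFev : ∀ V : ℕ × ℕ → Qa, (∀ p, p.1 < α → V p = V0 p) → ∀ p,
      TV.ev V (F p) = ((bas p.1 : L) : ℂ) * mon p.2.1 (val lam j V) := by
    intro V hV p
    rw [hF]
    dsimp only
    rw [TV.ev_mul, TV.ev_C, HD.ev_mon lam j V0 V α hV]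
  have hrange : ∀ V : ℕ × ℕ → Qa, (∀ p, p.1 < α → V p = V0 p) →
      LinearMap.range (EL L S (val lam j V)) =
        Submodule.span Qa (Set.range fun p => TV.ev V (F p)) := by
    intro V hV
    apply le_antisymm
    · rintro _ ⟨l, rfl⟩
      rw [EL_apply]
      refine Submodule.sum_mem _ fun m _ => ?_
      have h1 : (l m : ℂ) = ∑ i, (bas.equivFun (l m) i : ℂ) * ((bas i : L) : ℂ) := by
        have h2 := congrArg (Submodule.subtype _) (bas.sum_equivFun (l m))
        rw [map_sum] at h2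
        refine h2.symm.trans (Finset.sum_congr rfl fun i _ => ?_)
        rw [map_smul, smul_eq]
        rfl
      rw [h1, Finset.sum_mul]
      refine Submodule.sum_mem _ fun i _ => ?_
      rw [mul_assoc]
      refine cmul_mem _ (Submodule.subset_span ⟨(i, m), ?_⟩)
      exact hFev V hV (i, m)
    · rw [Submodule.span_le]
      rintro _ ⟨⟨i, m⟩, rfl⟩
      dsimp only
      rw [hFev V hV]
      refine ⟨Pi.single m (bas i), ?_⟩
      rw [EL_apply, Finset.sum_eq_single m]
      · rw [Pi.single_eq_same]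
      · intro m' _ hne
        rw [Pi.single_eq_of_ne hne]
        exact zero_mul _
      · intro h
        exact absurd (Finset.mem_univ _) h
  -- the dimensions
  have hdim : ∀ V : ℕ × ℕ → Qa, finrank Qa (LinearMap.range (EL L S (val lam j V))) +
      finrank Qa (LinearMap.ker (EL L S (val lam j V))) = finrank Qa ({m // m ∈ S} → L) :=
    fun V => LinearMap.finrank_range_add_finrank_ker _
  have hkers : finrank Qa (LinearMap.ker (EL L S (val lam j Vs))) ≤
      finrank Qa (LinearMap.ker (Psi S X n)) := by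
    obtain ⟨ι, hι⟩ : ∃ ι : ({m // m ∈ S} → L) →ₗ[Qa] ({m // m ∈ S} → ℂ),
        ι = L.subtype.compLeft {m // m ∈ S} := ⟨_, rfl⟩
    have hιi : ∀ l m, ι l m = (l m : ℂ) := fun l m => by rw [hι]; rfl
    have hιinj : Function.Injective ι := by
      intro l l' h
      funext m
      have h1 := congrFun h m
      rw [hιi, hιi] at h1
      exact Subtype.ext h1
    rw [(Submodule.equivMapOfInjective ι hιinj _).finrank_eq]
    refine le_trans (Submodule.finrank_mono
      (t := (LinearMap.ker (Psi S X n)).map (tau S n (val lam j Vs))) ?_)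
      (Submodule.finrank_map_le _ _)
    rintro _ ⟨l, hl, rfl⟩
    obtain ⟨t, ht1, ht2⟩ := ker_le hLt hS hXm hSX hg1 hg2 l hl
    refine ⟨t, ht1, ?_⟩
    rw [ht2]
    funext m
    exact (hιi l m).symm
  -- the subfamily
  obtain ⟨κ, a, ha, hspan, hali⟩ := exists_linearIndependent' Qa fun p => TV.ev Vs (F p)
  have hκ : Finite κ := Finite.of_injective a ha
  have hκ' : Fintype κ := Fintype.ofFinite κ
  have hcard : Fintype.card κ = finrank Qa (LinearMap.range (EL L S (val lam j Vs))) := by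
    rw [hrange Vs hVs, ← hspan, finrank_span_eq_card hali]
  obtain ⟨H, hH0, hHa, hH⟩ := minor_gen
    (fun p : ℕ × ℕ => α ≤ p.1 ∧ p.1 < n ∧ p.2 < j p.1) (fun k => F (a k)) α
    (fun k => (a k).2.1 α) (fun k => by
      rw [hF]
      dsimp only
      rw [← zero_add ((a k).2.1 α)]
      refine (Adm.C _ _ _).mul (HD.adm_mon lam j V0 α n α _ fun i hi => ?_)
      exact ((hS _).1 (a k).2.2).2 i hi) Vs hali
    ((((J + 1) ^ D) ^ 3 + (J + 1)) * ∑ a ∈ SW M (Finset.range n), a α) (fun s => by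
      calc ∑ k ∈ s, (a k).2.1 α = ∑ p ∈ s.map ⟨a, ha⟩, p.2.1 α := by rw [Finset.sum_map]; rfl
        _ ≤ ∑ p : Fin d0 × {m // m ∈ S}, p.2.1 α :=
          Finset.sum_le_sum_of_subset (Finset.subset_univ _)
        _ = ∑ _i : Fin d0, ∑ a ∈ SW M (Finset.range n), a α := by
          rw [Fintype.sum_prod_type]
          refine Finset.sum_congr rfl fun i _ => ?_
          rw [← hSd]
          exact Finset.sum_coe_sort S fun m => m α
        _ = d0 * ∑ a ∈ SW M (Finset.range n), a α := by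
          rw [Finset.sum_const, Finset.card_univ, Fintype.card_fin, smul_eq_mul]
        _ ≤ _ := Nat.mul_le_mul_right _ (hd0.le.trans hLr))
  -- monomials of degree at most one
  have hM1 : ∀ m ∈ HD.M1, m ∈ MX M := by
    intro m h1
    have h3 : m.degree ≤ 1 := h1
    by_cases h : m = 0
    · rw [h]
      exact Or.inl h0M
    · obtain ⟨b, hb⟩ := Finsupp.support_nonempty_iff.2 h
      have hb1 : 1 ≤ m b := Nat.one_le_iff_ne_zero.2 (Finsupp.mem_support_iff.1 hb)
      have h4 : m - Finsupp.single b 1 + Finsupp.single b 1 = m :=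
        tsub_add_cancel_of_le (Finsupp.single_le_iff.2 hb1)
      have h5 : (m - Finsupp.single b 1).degree = 0 := by
        have h6 := congrArg Finsupp.degree h4
        rw [map_add, Finsupp.degree_single] at h6
        omega
      rw [Finsupp.degree_eq_zero_iff] at h5
      rw [h5] at h4
      exact Or.inr ⟨0, h0M, b, h4.symm⟩
  -- the independence of the numbers
  obtain ⟨H1, hH10, hH1a, hH1⟩ := HD.exists_minor (HD.finite_degree 1) ⊥ lam j V0 α n
    ⟨Vs, hVs, HD.freeA_bot.2 (fun P hP hv =>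
      hg1 P (fun m hm => ⟨hM1 m (hP m hm).1, (hP m hm).2⟩) hv)⟩
  refine ⟨H * H1, mul_ne_zero hH0 hH10, hHa.mul (hH1a α), fun V hV hne => ?_⟩
  rw [map_mul] at hne
  have hfree1 := HD.freeA_bot.1 (hH1 V hV (right_ne_zero_of_mul hne))
  refine gx_of_ker hS hXm hSX hX (fun o => ?_) (hLX V) (li_uo hfree1) hLf ?_
  · rcases o with _ | b
    · exact hL1
    · exact hLv V b.1 b.2
  · have h1 := hdim V
    have h2 := hdim Vs
    have h3 : Fintype.card κ ≤ finrank Qa (LinearMap.range (EL L S (val lam j V))) := by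
      rw [← finrank_span_eq_card (hH V (left_ne_zero_of_mul hne)), hrange V hV]
      have hfs : FiniteDimensional Qa (Submodule.span Qa (Set.range fun p => TV.ev V (F p))) :=
        FiniteDimensional.span_of_finite Qa (Set.finite_range _)
      refine Submodule.finrank_mono (Submodule.span_mono ?_)
      rintro _ ⟨k, rfl⟩
      exact ⟨a k, rfl⟩
    omega

end MP60829e.FM
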