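import Pool.Agent.Lib.MP_60829e_nt.FM.Lin
import Pool.Agent.Lib.MP_60829e_nt.SL.HypL

/-! # The normal form of a relation with coefficients in the linear forms in logarithms -/

open Finset

namespace MP60829e.FM

open MP60829e.ST (Qa Lsp Lt)
open MP60829e.SL (smul_eq)

/-- The span of `1` and the first `n` numbers. -/
noncomputable def Tn (n : ℕ) (x : ℕ → ℂ) : Submodule Qa ℂ :=
  Submodule.span Qa ({1} ∪ x '' {b | b < n})

theorem mem_Tn {n : ℕ} {x : ℕ → ℂ} {y : ℂ} : y ∈ Tn n x ↔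
    ∃ (t0 : Qa) (t : ℕ → Qa), y = (t0 : ℂ) + ∑ a ∈ range n, (t a : ℂ) * x a := by
  have h0 : ({b | b < n} : Set ℕ) = ((range n : Finset ℕ) : Set ℕ) := by
    ext b
    simp
  unfold Tn
  rw [Submodule.span_union, Submodule.mem_sup, h0]
  constructor
  · rintro ⟨a, ha, b, hb, rfl⟩
    obtain ⟨t0, rfl⟩ := Submodule.mem_span_singleton.1 ha
    obtain ⟨t, rfl⟩ := (Submodule.mem_span_image_finset_iff_exists_fun' Qa).1 hb
    refine ⟨t0, t, ?_⟩
    rw [smul_eq, mul_one]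
    congr 1
  · rintro ⟨t0, t, rfl⟩
    refine ⟨(t0 : ℂ), Submodule.mem_span_singleton.2 ⟨t0, by rw [smul_eq, mul_one]⟩, _,
      (Submodule.mem_span_image_finset_iff_exists_fun' Qa).2 ⟨t, rfl⟩, ?_⟩
    congr 1

theorem one_mem_Tn (n : ℕ) (x : ℕ → ℂ) : (1 : ℂ) ∈ Tn n x :=
  Submodule.subset_span (Or.inl rfl)

theorem x_mem_Tn {n : ℕ} (x : ℕ → ℂ) {b : ℕ} (hb : b < n) : x b ∈ Tn n x :=
  Submodule.subset_span (Or.inr ⟨b, hb, rfl⟩)

theorem Tn_mono {n n' : ℕ} (h : n ≤ n') (x : ℕ → ℂ) : Tn n x ≤ Tn n' x :=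
  Submodule.span_mono (Set.union_subset_union_right _ (Set.image_mono fun _ hb =>
    lt_of_lt_of_le hb h))

theorem coe_mem {L : Submodule Qa ℂ} (h1 : (1 : ℂ) ∈ L) (c : Qa) : (c : ℂ) ∈ L := by
  have := L.smul_mem c h1
  rwa [smul_eq, mul_one] at this

theorem cmul_mem {L : Submodule Qa ℂ} (c : Qa) {z : ℂ} (h1 : z ∈ L) : (c : ℂ) * z ∈ L := by
  have := L.smul_mem c h1
  rwa [smul_eq] at this

/-- Relations with coefficients in the linear forms in logarithms. -/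
def GoodF (n : ℕ) (x : ℕ → ℂ) : Prop :=
  ∀ l : ℕ → ℂ, (∀ b, l b ∈ Lt) → ∑ b ∈ range n, l b * x b ∈ Lt → ∀ b < n, l b ∈ Tn n x

/-- The algebra of the normal form. -/
theorem nf_alg {k : Type*} [Field k] {N Q : Finset ℕ} (hd : Disjoint N Q) (x l t0 : ℕ → k)
    (ρ tt : ℕ → ℕ → k)
    (hl : ∀ b ∈ N, l b = ∑ c ∈ Q, ρ b c * l c + (t0 b + ∑ a ∈ N ∪ Q, tt b a * x a)) :
    ∑ b ∈ N ∪ Q, l b * x b = ∑ c ∈ Q, (l c + ∑ b ∈ N, tt b c * x b) *
        (x c + ∑ b ∈ N, ρ b c * x b) +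
      ∑ a ∈ N, ∑ b ∈ N, (tt b a - ∑ c ∈ Q, tt b c * ρ a c) * x a * x b +
        ∑ b ∈ N, t0 b * x b := by
  have e1 : ∑ b ∈ N, l b * x b = ∑ c ∈ Q, l c * ∑ b ∈ N, ρ b c * x b +
      (∑ b ∈ N, t0 b * x b + (∑ b ∈ N, ∑ a ∈ N, tt b a * x a * x b +
        ∑ c ∈ Q, x c * ∑ b ∈ N, tt b c * x b)) := by
    have e2 : ∀ b ∈ N, l b * x b = ∑ c ∈ Q, l c * (ρ b c * x b) + (t0 b * x b +
        (∑ a ∈ N, tt b a * x a * x b + ∑ c ∈ Q, x c * (tt b c * x b))) := by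
      intro b hb
      rw [hl b hb, sum_union hd, add_mul, add_mul, add_mul, sum_mul, sum_mul, sum_mul]
      congr 1
      · exact sum_congr rfl fun _ _ => by ring
      · congr 2
        exact sum_congr rfl fun _ _ => by ring
    rw [sum_congr rfl e2, sum_add_distrib, sum_add_distrib, sum_add_distrib]
    congr 1
    · rw [sum_comm]
      exact sum_congr rfl fun _ _ => by rw [mul_sum]
    · congr 2
      rw [sum_comm]
      exact sum_congr rfl fun _ _ => by rw [mul_sum]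
  have e3 : ∑ a ∈ N, ∑ b ∈ N, (tt b a - ∑ c ∈ Q, tt b c * ρ a c) * x a * x b =
      ∑ b ∈ N, ∑ a ∈ N, tt b a * x a * x b -
        ∑ c ∈ Q, (∑ b ∈ N, tt b c * x b) * ∑ b ∈ N, ρ b c * x b := by
    have e4 : ∑ c ∈ Q, (∑ b ∈ N, tt b c * x b) * ∑ b ∈ N, ρ b c * x b =
        ∑ a ∈ N, ∑ b ∈ N, (∑ c ∈ Q, tt b c * ρ a c) * x a * x b := by
      have e5 : ∀ c ∈ Q, (∑ b ∈ N, tt b c * x b) * ∑ b ∈ N, ρ b c * x b =
          ∑ a ∈ N, ∑ b ∈ N, tt b c * ρ a c * x a * x b := by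
        intro c _
        rw [sum_mul_sum, sum_comm]
        exact sum_congr rfl fun _ _ => sum_congr rfl fun _ _ => by ring
      rw [sum_congr rfl e5, sum_comm]
      refine sum_congr rfl fun a _ => ?_
      rw [sum_comm]
      refine sum_congr rfl fun b _ => ?_
      rw [sum_mul, sum_mul]
    rw [e4, sum_comm (s := N) (t := N) (f := fun b a => tt b a * x a * x b),
      ← sum_sub_distrib]
    refine sum_congr rfl fun a _ => ?_
    rw [← sum_sub_distrib]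
    exact sum_congr rfl fun b _ => by ring
  rw [sum_union hd, e1, e3]
  have e6 : ∑ c ∈ Q, (l c + ∑ b ∈ N, tt b c * x b) * (x c + ∑ b ∈ N, ρ b c * x b) =
      ∑ c ∈ Q, l c * x c + ∑ c ∈ Q, l c * ∑ b ∈ N, ρ b c * x b +
        ∑ c ∈ Q, x c * ∑ b ∈ N, tt b c * x b +
          ∑ c ∈ Q, (∑ b ∈ N, tt b c * x b) * ∑ b ∈ N, ρ b c * x b := by
    rw [← sum_add_distrib, ← sum_add_distrib, ← sum_add_distrib]
    exact sum_congr rfl fun _ _ => by ring
  rw [e6]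
  ring

/-- The normal form. -/
theorem normal {n : ℕ} (x l : ℕ → ℂ) (L : Submodule Qa ℂ) (h1L : (1 : ℂ) ∈ L)
    (hxL : ∀ b < n, x b ∈ L) (hl : ∀ b, l b ∈ L) (hsum : ∑ b ∈ range n, l b * x b ∈ L)
    (hbad : ∃ b < n, l b ∉ Tn n x) :
    ∃ Q ⊆ range n, Q.Nonempty ∧ ∃ (A s : ℕ → ℕ → Qa) (m : ℕ → ℂ) (m' : ℂ),
      (∀ c ∈ Q, A c c = 1) ∧ (∀ c ∈ Q, ∀ b, b ≠ c → (b ∈ Q ∨ c < b) → A c b = 0) ∧
      (∀ a b, s a b = s b a) ∧ (∀ a ∈ Q, ∀ b, s a b = 0) ∧ (∀ c, m c ∈ L) ∧ m' ∈ L ∧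
      (∑ c ∈ Q, m c * ∑ b ∈ range n, (A c b : ℂ) * x b +
        ∑ a ∈ range n, ∑ b ∈ range n, (s a b : ℂ) * x a * x b + m' = 0) ∧
      ∀ κ : ℕ → Qa, ∑ c ∈ Q, (κ c : ℂ) * m c ∈ Tn n x → ∀ c ∈ Q, κ c = 0 := by
  classical
  obtain ⟨Q, hQ1, hQ2, hQ3, -⟩ := echelon (fun b => (Tn n x).mkQ (l b)) n n 0 (by omega)
  rw [← Finset.range_eq_Ico] at hQ1 hQ3
  -- the coefficients
  have h3 : ∀ b, ∃ (ρ : ℕ → Qa) (t0 : Qa) (t : ℕ → Qa), b ∈ range n → b ∉ Q →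
      l b = ∑ c ∈ Q, ((if b < c then ρ c else 0 : Qa) : ℂ) * l c +
        ((t0 : ℂ) + ∑ a ∈ range n, (t a : ℂ) * x a) := by
    intro b
    by_cases h4 : b ∈ range n ∧ b ∉ Q
    · obtain ⟨ρ, hρ⟩ := hQ3 b h4.1 h4.2
      have h5 : l b - ∑ c ∈ Q, ((if b < c then ρ c else 0 : Qa) : ℂ) * l c ∈ Tn n x := by
        rw [← Submodule.Quotient.mk_eq_zero, ← Submodule.mkQ_apply, map_sub, sub_eq_zero, ← hρ,
          map_sum, sum_filter]
        refine sum_congr rfl fun c _ => ?_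
        rw [← smul_eq, map_smul]
        by_cases h6 : b < c
        · rw [if_pos h6, if_pos h6]
        · rw [if_neg h6, if_neg h6, zero_smul]
      obtain ⟨t0, t, ht⟩ := mem_Tn.1 h5
      exact ⟨ρ, t0, t, fun _ _ => by rw [← ht]; ring⟩
    · exact ⟨0, 0, 0, fun h5 h6 => absurd ⟨h5, h6⟩ h4⟩
  choose ρ t0 tt hρ using h3
  obtain ⟨N, hN⟩ : ∃ N : Finset ℕ, N = range n \ Q := ⟨_, rfl⟩
  have hNQ : N ∪ Q = range n := by rw [hN]; exact sdiff_union_of_subset hQ1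
  have hdis : Disjoint N Q := by rw [hN]; exact sdiff_disjoint
  have hmemN : ∀ b, b ∈ N ↔ b ∈ range n ∧ b ∉ Q := fun b => by rw [hN, mem_sdiff]
  obtain ⟨r, hr⟩ : ∃ r : ℕ → ℕ → Qa, r = fun b c => if b < c then ρ b c else 0 := ⟨_, rfl⟩
  have hl' : ∀ b ∈ N, l b = ∑ c ∈ Q, (r b c : ℂ) * l c +
      ((t0 b : ℂ) + ∑ a ∈ N ∪ Q, (tt b a : ℂ) * x a) := by
    intro b hb
    rw [hNQ, hr]
    exact hρ b ((hmemN b).1 hb).1 ((hmemN b).1 hb).2
  have hnf := nf_alg hdis x l (fun b => (t0 b : ℂ)) (fun b c => (r b c : ℂ))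
    (fun b a => (tt b a : ℂ)) hl'
  -- the data
  obtain ⟨A, hA⟩ : ∃ A : ℕ → ℕ → Qa, A = fun c b => if b = c then 1 else if b ∈ Q then 0 else
    r b c := ⟨_, rfl⟩
  obtain ⟨s0, hs0⟩ : ∃ s0 : ℕ → ℕ → Qa, s0 = fun a b => tt b a - ∑ c ∈ Q, tt b c * r a c :=
    ⟨_, rfl⟩
  obtain ⟨s, hs⟩ : ∃ s : ℕ → ℕ → Qa, s = fun a b => if a ∈ Q ∨ b ∈ Q then 0 else
    (s0 a b + s0 b a) / 2 := ⟨_, rfl⟩
  obtain ⟨m, hm⟩ : ∃ m : ℕ → ℂ, m = fun c => l c + ∑ b ∈ N, (tt b c : ℂ) * x b := ⟨_, rfl⟩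
  have hxN : ∀ b ∈ N, x b ∈ L := fun b hb => hxL b (mem_range.1 ((hmemN b).1 hb).1)
  refine ⟨Q, hQ1, ?_, A, s, m, ∑ b ∈ N, (t0 b : ℂ) * x b - ∑ b ∈ range n, l b * x b,
    ?_, ?_, ?_, ?_, ?_, ?_, ?_, ?_⟩
  · by_contra hne
    rw [not_nonempty_iff_eq_empty] at hne
    obtain ⟨b, hb, hb'⟩ := hbad
    apply hb'
    have h4 := hρ b (mem_range.2 hb) (by rw [hne]; exact notMem_empty _)
    rw [h4, hne, sum_empty, zero_add]
    exact mem_Tn.2 ⟨_, _, rfl⟩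
  · intro c _
    rw [hA]
    exact if_pos rfl
  · intro c _ b hb h4
    rw [hA]
    dsimp only
    rw [if_neg hb]
    by_cases h5 : b ∈ Q
    · rw [if_pos h5]
    · rw [if_neg h5, hr]
      exact if_neg (not_lt.2 (h4.resolve_left h5).le)
  · intro a b
    rw [hs]
    dsimp only
    by_cases h4 : a ∈ Q ∨ b ∈ Q
    · rw [if_pos h4, if_pos h4.symm]
    · rw [if_neg h4, if_neg (fun h5 => h4 h5.symm), add_comm]
  · intro a ha b
    rw [hs]
    exact if_pos (Or.inl ha)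
  · intro c
    rw [hm]
    exact L.add_mem (hl c) (L.sum_mem fun b hb => cmul_mem _ (hxN b hb))
  · exact L.sub_mem (L.sum_mem fun b hb => cmul_mem _ (hxN b hb)) hsum
  · -- the value
    have e1 : ∀ c ∈ Q, ∑ b ∈ range n, (A c b : ℂ) * x b = x c + ∑ b ∈ N, (r b c : ℂ) * x b := by
      intro c hc
      rw [← hNQ, sum_union hdis, add_comm]
      congr 1
      · rw [sum_eq_single c]
        · rw [hA]
          dsimp only
          rw [if_pos rfl]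
          exact one_mul _
        · intro b hb hbc
          rw [hA]
          dsimp only
          rw [if_neg hbc, if_pos hb]
          exact zero_mul _
        · intro h5
          exact absurd hc h5
      · refine sum_congr rfl fun b hb => ?_
        have h5 := (hmemN b).1 hb
        rw [hA]
        dsimp only
        rw [if_neg (fun h6 => h5.2 (by rw [h6]; exact hc)), if_neg h5.2]
    have e2 : ∑ a ∈ range n, ∑ b ∈ range n, (s a b : ℂ) * x a * x b =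
        ∑ a ∈ N, ∑ b ∈ N, (s0 a b : ℂ) * x a * x b := by
      have e3 : ∑ a ∈ range n, ∑ b ∈ range n, (s a b : ℂ) * x a * x b =
          ∑ a ∈ N, ∑ b ∈ N, (s a b : ℂ) * x a * x b := by
        have e4 : ∀ a b, a ∈ Q ∨ b ∈ Q → (s a b : ℂ) = 0 := by
          intro a b h
          rw [hs]
          dsimp only
          rw [if_pos h]
          rfl
        rw [← hNQ, sum_union hdis, sum_eq_zero (s := Q), add_zero]
        · refine sum_congr rfl fun a _ => ?_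
          rw [sum_union hdis, sum_eq_zero (s := Q), add_zero]
          intro b hb
          rw [e4 a b (Or.inr hb), zero_mul, zero_mul]
        · intro a ha
          refine sum_eq_zero fun b _ => ?_
          rw [e4 a b (Or.inl ha), zero_mul, zero_mul]
      have e5 : ∀ a ∈ N, ∀ b ∈ N, (s a b : ℂ) = ((s0 a b : ℂ) + (s0 b a : ℂ)) / 2 := by
        intro a ha b hb
        rw [hs]
        dsimp only
        rw [if_neg (not_or.2 ⟨((hmemN a).1 ha).2, ((hmemN b).1 hb).2⟩)]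
        push_cast
        rfl
      have e6 : ∑ a ∈ N, ∑ b ∈ N, (s a b : ℂ) * x a * x b =
          (∑ a ∈ N, ∑ b ∈ N, (s0 a b : ℂ) * x a * x b +
            ∑ a ∈ N, ∑ b ∈ N, (s0 b a : ℂ) * x b * x a) / 2 := by
        rw [← sum_add_distrib, sum_div]
        refine sum_congr rfl fun a ha => ?_
        rw [← sum_add_distrib, sum_div]
        refine sum_congr rfl fun b hb => ?_
        rw [e5 a ha b hb]
        ring
      rw [e3, e6, sum_comm (s := N) (t := N) (f := fun a b => (s0 b a : ℂ) * x b * x a)]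
      ring
    have e7 : ∑ a ∈ N, ∑ b ∈ N, (s0 a b : ℂ) * x a * x b =
        ∑ a ∈ N, ∑ b ∈ N, ((tt b a : ℂ) - ∑ c ∈ Q, (tt b c : ℂ) * (r a c : ℂ)) * x a * x b := by
      refine sum_congr rfl fun a _ => sum_congr rfl fun b _ => ?_
      rw [hs0]
      push_cast
      rfl
    rw [e2, e7, sum_congr rfl fun c hc => by rw [e1 c hc, hm]]
    rw [hNQ] at hnf
    linear_combination -hnf
  · intro κ hκ c hc
    have h4 : ∑ c ∈ Q, (κ c : ℂ) * l c ∈ Tn n x := by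
      have h5 : ∑ c ∈ Q, (κ c : ℂ) * l c = ∑ c ∈ Q, (κ c : ℂ) * m c -
          ∑ c ∈ Q, (κ c : ℂ) * ∑ b ∈ N, (tt b c : ℂ) * x b := by
        rw [← sum_sub_distrib]
        refine sum_congr rfl fun c _ => ?_
        rw [hm]
        ring
      rw [h5]
      refine (Tn n x).sub_mem hκ ((Tn n x).sum_mem fun c _ => cmul_mem _
        ((Tn n x).sum_mem fun b hb => cmul_mem _ (x_mem_Tn x (mem_range.1 ((hmemN b).1 hb).1))))
    have h5 : ∑ c ∈ Q, κ c • (Tn n x).mkQ (l c) = 0 := by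
      rw [← Submodule.Quotient.mk_eq_zero, ← Submodule.mkQ_apply, map_sum] at h4
      rw [← h4]
      refine sum_congr rfl fun c _ => ?_
      rw [← map_smul, smul_eq]
    exact (linearIndepOn_finset_iff.1 hQ2) κ h5 c hc

end MP60829e.FM
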