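import Pool.Agent.Lib.MP_60829e_nt.FM.MinorX

/-! # Monomials of degree at most one: from the general predicate to the three statements -/

open MvPolynomial Module

namespace MP60829e.FM

open MP60829e.ST (Qa Lsp Lt)
open MP60829e.HD (val Free FreeL SW mem_SW mon)
open MP60829e.SL (smul_eq)

theorem deg_one_or {a : ℕ →₀ ℕ} (ha : a.degree ≤ 1) : a = 0 ∨ ∃ b, a = Finsupp.single b 1 := by
  by_cases h : a = 0
  · exact Or.inl h
  · right
    obtain ⟨b, hb⟩ := Finsupp.support_nonempty_iff.2 h
    have hb1 : 1 ≤ a b := Nat.one_le_iff_ne_zero.2 (Finsupp.mem_support_iff.1 hb)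
    have h4 : a - Finsupp.single b 1 + Finsupp.single b 1 = a :=
      tsub_add_cancel_of_le (Finsupp.single_le_iff.2 hb1)
    have h5 : (a - Finsupp.single b 1).degree = 0 := by
      have h6 := congrArg Finsupp.degree h4
      rw [map_add, Finsupp.degree_single] at h6
      omega
    rw [Finsupp.degree_eq_zero_iff] at h5
    rw [h5, zero_add] at h4
    exact ⟨b, h4.symm⟩

theorem deg_two_dec {a : ℕ →₀ ℕ} (ha : a.degree = 2) :
    ∃ m b, m.degree = 1 ∧ a = m + Finsupp.single b 1 := by
  have h : a ≠ 0 := by
    rintro rfl
    rw [map_zero] at ha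
    omega
  obtain ⟨b, hb⟩ := Finsupp.support_nonempty_iff.2 h
  have hb1 : 1 ≤ a b := Nat.one_le_iff_ne_zero.2 (Finsupp.mem_support_iff.1 hb)
  have h4 : a - Finsupp.single b 1 + Finsupp.single b 1 = a :=
    tsub_add_cancel_of_le (Finsupp.single_le_iff.2 hb1)
  refine ⟨a - Finsupp.single b 1, b, ?_, h4.symm⟩
  have h6 := congrArg Finsupp.degree h4
  rw [map_add, Finsupp.degree_single] at h6
  omega

theorem f_of_gx {n : ℕ} {u : ℕ → ℂ} (hu : ∀ b, u b ∈ Lsp)
    (h1 : Free (MX {a | a.degree ≤ 1}) n u) (h2 : GoodM {a | a.degree ≤ 1} n u) :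
    Free {a | a.degree ≤ 1} n u ∧ FreeL {a | a.degree = 2} n u ∧ GoodF n u := by
  classical
  have huT : ∀ b, u b ∈ Lt := fun b => SL.Lsp_le_Lt (hu b)
  have hne : ∀ b : ℕ, (Finsupp.single b 1 : ℕ →₀ ℕ) ≠ 0 := fun b h0 => by
    have h1 := DFunLike.congr_fun h0 b
    simp at h1
  refine ⟨fun P hP hv => h1 P (fun a ha => ⟨Or.inl (hP a ha).1, (hP a ha).2⟩) hv, ?_, ?_⟩
  · intro P hP hv
    -- the decomposition
    have hdec : ∀ a : ℕ →₀ ℕ, ∃ m b, a ∈ P.support → (m.degree = 1 ∧ a = m + Finsupp.single b 1) := by
      intro a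
      by_cases ha : a ∈ P.support
      · obtain ⟨m, b, h3, h4⟩ := deg_two_dec (a := a) (hP a ha).1
        exact ⟨m, b, fun _ => ⟨h3, h4⟩⟩
      · exact ⟨0, 0, fun h => absurd h ha⟩
    choose m b hmb using hdec
    obtain ⟨Q, hQ⟩ : ∃ Q : MvPolynomial ℕ ℂ, Q = C (-aeval u P) +
        ∑ a ∈ P.support, monomial (m a) (((coeff a P : Qa) : ℂ) * u (b a)) := ⟨_, rfl⟩
    have hbn : ∀ a ∈ P.support, b a < n := by
      intro a ha
      refine (hP a ha).2 _ ?_
      rw [Finsupp.mem_support_iff, (hmb a ha).2, Finsupp.add_apply]
      have : (Finsupp.single (b a) 1 : ℕ →₀ ℕ) (b a) = 1 := Finsupp.single_eq_same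
      rw [← (hmb a ha).2, this]
      omega
    have hQ0 : eval u Q = 0 := by
      rw [hQ, map_add, eval_C, map_sum, neg_add_eq_zero, HD.aeval_mon]
      refine Finset.sum_congr rfl fun a ha => ?_
      rw [eval_monomial', mul_assoc]
      congr 1
      have h3 := mon_sh (n := b a + 1) u (m a) (some ⟨b a, Nat.lt_succ_self _⟩)
      have h4 : m a + sh (n := b a + 1) (some ⟨b a, Nat.lt_succ_self _⟩) = a :=
        (hmb a ha).2.symm
      rw [h4] at h3
      rw [h3]
      exact mul_comm _ _
    have hQL : ∀ a, coeff a Q ∈ Lt := by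
      intro a
      rw [hQ, coeff_add, coeff_C, coeff_sum]
      refine Lt.add_mem ?_ (Lt.sum_mem fun a' _ => ?_)
      · split_ifs
        · exact Lt.neg_mem hv
        · exact Lt.zero_mem
      · rw [coeff_monomial]
        split_ifs
        · exact cmul_mem _ (huT _)
        · exact Lt.zero_mem
    have hQs : ∀ a ∈ Q.support, a ∈ {a : ℕ →₀ ℕ | a.degree ≤ 1} ∧ ∀ b ∈ a.support, b < n := by
      intro a ha
      rw [MvPolynomial.mem_support_iff, hQ, coeff_add, coeff_C, coeff_sum] at ha
      by_cases h3 : (0 : ℕ →₀ ℕ) = a
      · rw [← h3]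
        refine ⟨?_, fun b hb => ?_⟩
        · show (0 : ℕ →₀ ℕ).degree ≤ 1
          rw [map_zero]
          exact Nat.zero_le _
        · rw [Finsupp.support_zero] at hb
          exact absurd hb (Finset.notMem_empty _)
      · rw [if_neg h3, zero_add] at ha
        obtain ⟨a', ha', h4⟩ := Finset.exists_ne_zero_of_sum_ne_zero ha
        rw [coeff_monomial] at h4
        have h5 : m a' = a := by
          by_contra h6
          exact h4 (if_neg h6)
        rw [← h5]
        refine ⟨(hmb a' ha').1.le, fun i hi => (hP a' ha').2 i ?_⟩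
        rw [Finsupp.mem_support_iff] at hi ⊢
        rw [(hmb a' ha').2, Finsupp.add_apply]
        omega
    have h3 := h2 Q hQs hQL hQ0 0
    have h4 : coeff 0 Q = -aeval u P := by
      rw [hQ, coeff_add, coeff_C, if_pos rfl, coeff_sum, Finset.sum_eq_zero, add_zero]
      intro a ha
      rw [coeff_monomial, if_neg]
      intro h5
      have h6 := (hmb a ha).1
      rw [h5, map_zero] at h6
      omega
    rw [h4] at h3
    obtain ⟨t0, t, ht⟩ := mem_Tn.1 h3
    obtain ⟨R, hR⟩ : ∃ R : MvPolynomial ℕ Qa, R = P + (C t0 + ∑ a ∈ Finset.range n,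
        monomial (Finsupp.single a 1) (t a)) := ⟨_, rfl⟩
    have hR0 : R = 0 := by
      refine h1 R (fun a ha => ?_) ?_
      · by_cases haP : a ∈ P.support
        · obtain ⟨h5, h6⟩ := hmb a haP
          exact ⟨Or.inr ⟨m a, h5.le, b a, h6⟩, (hP a haP).2⟩
        · rw [MvPolynomial.mem_support_iff, hR, coeff_add,
            MvPolynomial.notMem_support_iff.1 haP, zero_add, coeff_add, coeff_C, coeff_sum] at ha
          by_cases h3 : (0 : ℕ →₀ ℕ) = a
          · rw [← h3]
            refine ⟨Or.inl ?_, fun b hb => ?_⟩
            · show (0 : ℕ →₀ ℕ).degree ≤ 1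
              rw [map_zero]
              exact Nat.zero_le _
            · rw [Finsupp.support_zero] at hb
              exact absurd hb (Finset.notMem_empty _)
          · rw [if_neg h3, zero_add] at ha
            obtain ⟨a', ha', h4⟩ := Finset.exists_ne_zero_of_sum_ne_zero ha
            rw [coeff_monomial] at h4
            have h5 : Finsupp.single a' 1 = a := by
              by_contra h6
              exact h4 (if_neg h6)
            rw [← h5]
            refine ⟨Or.inl ?_, fun i hi => ?_⟩
            · show (Finsupp.single a' 1 : ℕ →₀ ℕ).degree ≤ 1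
              rw [Finsupp.degree_single]
            · have h6 := Finsupp.support_single_subset hi
              rw [Finset.mem_singleton] at h6
              rw [h6]
              exact Finset.mem_range.1 ha'
      · rw [hR, map_add, map_add, map_sum, algHom_C]
        have h5 : ∑ a ∈ Finset.range n, aeval u (monomial (Finsupp.single a 1) (t a)) =
            ∑ a ∈ Finset.range n, (t a : ℂ) * u a := by
          refine Finset.sum_congr rfl fun a _ => ?_
          rw [aeval_monomial, Finsupp.prod_single_index, pow_one]
          · rfl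
          · exact pow_zero _
        rw [h5]
        have h6 : algebraMap Qa ℂ t0 = (t0 : ℂ) := rfl
        rw [h6, ← ht]
        exact add_neg_cancel _
    refine MvPolynomial.ext _ _ fun a => ?_
    rw [coeff_zero]
    by_cases haP : a ∈ P.support
    · have hdeg : a.degree = 2 := (hP a haP).1
      have h5 := congrArg (coeff a) hR0
      rw [hR, coeff_add, coeff_zero, coeff_add, coeff_C, coeff_sum] at h5
      have h6 : (0 : ℕ →₀ ℕ) ≠ a := by
        rintro rfl
        rw [map_zero] at hdeg
        omega
      have h7 : ∑ x ∈ Finset.range n, coeff a (monomial (Finsupp.single x 1) (t x)) = 0 := by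
        refine Finset.sum_eq_zero fun x _ => ?_
        rw [coeff_monomial, if_neg]
        rintro rfl
        rw [Finsupp.degree_single] at hdeg
        omega
      rw [if_neg h6, h7, add_zero, add_zero] at h5
      exact h5
    · exact MvPolynomial.notMem_support_iff.1 haP
  · intro l hl hsum
    obtain ⟨P, hP⟩ : ∃ P : MvPolynomial ℕ ℂ, P = C (-∑ b ∈ Finset.range n, l b * u b) +
        ∑ b ∈ Finset.range n, monomial (Finsupp.single b 1) (l b) := ⟨_, rfl⟩
    have h3 := h2 P (fun a ha => by
      rw [MvPolynomial.mem_support_iff, hP, coeff_add, coeff_C, coeff_sum] at ha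
      by_cases h3 : (0 : ℕ →₀ ℕ) = a
      · rw [← h3]
        refine ⟨?_, fun b hb => ?_⟩
        · show (0 : ℕ →₀ ℕ).degree ≤ 1
          rw [map_zero]
          exact Nat.zero_le _
        · rw [Finsupp.support_zero] at hb
          exact absurd hb (Finset.notMem_empty _)
      · rw [if_neg h3, zero_add] at ha
        obtain ⟨a', ha', h4⟩ := Finset.exists_ne_zero_of_sum_ne_zero ha
        rw [coeff_monomial] at h4
        have h5 : Finsupp.single a' 1 = a := by
          by_contra h6
          exact h4 (if_neg h6)
        rw [← h5]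
        refine ⟨?_, fun i hi => ?_⟩
        · show (Finsupp.single a' 1 : ℕ →₀ ℕ).degree ≤ 1
          rw [Finsupp.degree_single]
        · have h6 := Finsupp.support_single_subset hi
          rw [Finset.mem_singleton] at h6
          rw [h6]
          exact Finset.mem_range.1 ha') (fun a => by
      rw [hP, coeff_add, coeff_C, coeff_sum]
      refine Lt.add_mem ?_ (Lt.sum_mem fun a' _ => ?_)
      · split_ifs
        · exact Lt.neg_mem hsum
        · exact Lt.zero_mem
      · rw [coeff_monomial]
        split_ifs
        · exact hl _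
        · exact Lt.zero_mem) (by
      rw [hP, map_add, eval_C, map_sum, neg_add_eq_zero]
      refine Finset.sum_congr rfl fun b _ => ?_
      rw [eval_monomial', show mon (Finsupp.single b 1) u = u b by
        unfold HD.mon
        rw [Finsupp.support_single _ one_ne_zero, Finset.prod_singleton,
          Finsupp.single_eq_same, pow_one]])
    intro b hb
    have h4 := h3 (Finsupp.single b 1)
    have h5 : coeff (Finsupp.single b 1) P = l b := by
      rw [hP, coeff_add, coeff_C, if_neg (hne b).symm, zero_add, coeff_sum, Finset.sum_eq_single b]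
      · rw [coeff_monomial, if_pos rfl]
      · intro b' _ hb'
        rw [coeff_monomial, if_neg]
        intro h6
        exact hb' (Finsupp.single_left_injective one_ne_zero h6)
      · intro h6
        exact absurd (Finset.mem_range.2 hb) h6
    rwa [h5] at h4

/-- Fewer variables. -/
theorem gx_down {M : Set (ℕ →₀ ℕ)} {n n' : ℕ} (hn : n ≤ n') {u : ℕ → ℂ}
    (h1 : Free (MX M) n' u) (h2 : GoodM M n' u) : Free (MX M) n u ∧ GoodM M n u := by
  classical
  refine ⟨fun P hP hv => h1 P (fun a ha => ⟨(hP a ha).1, fun b hb =>
    lt_of_lt_of_le ((hP a ha).2 b hb) hn⟩) hv, fun P hP1 hP2 hP3 => ?_⟩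
  have h3 := h2 P (fun a ha => ⟨(hP1 a ha).1, fun b hb =>
    lt_of_lt_of_le ((hP1 a ha).2 b hb) hn⟩) hP2 hP3
  have h4 : ∀ a, ∃ (t0 : Qa) (t : ℕ → Qa), coeff a P =
      (t0 : ℂ) + ∑ b ∈ Finset.range n', (t b : ℂ) * u b := fun a => mem_Tn.1 (h3 a)
  choose t0 t ht using h4
  -- the polynomial
  obtain ⟨R, hR⟩ : ∃ R : MvPolynomial ℕ Qa, R = ∑ a ∈ P.support, (monomial a (t0 a) +
      ∑ b ∈ Finset.range n', monomial (a + Finsupp.single b 1) (t a b)) := ⟨_, rfl⟩
  have hmon : ∀ (a : ℕ →₀ ℕ) (b : ℕ), mon (a + Finsupp.single b 1) u = mon a u * u b := by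
    intro a b
    exact mon_sh (n := b + 1) u a (some ⟨b, Nat.lt_succ_self _⟩)
  have hR0 : R = 0 := by
    refine h1 R (fun a ha => ?_) ?_
    · rw [MvPolynomial.mem_support_iff, hR, coeff_sum] at ha
      obtain ⟨a', ha', h5⟩ := Finset.exists_ne_zero_of_sum_ne_zero ha
      rw [coeff_add, coeff_monomial, coeff_sum] at h5
      by_cases h6 : a' = a
      · rw [← h6]
        exact ⟨Or.inl (hP1 a' ha').1, fun b hb => lt_of_lt_of_le ((hP1 a' ha').2 b hb) hn⟩
      · rw [if_neg h6, zero_add] at h5
        obtain ⟨b, hb, h7⟩ := Finset.exists_ne_zero_of_sum_ne_zero h5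
        rw [coeff_monomial] at h7
        have h8 : a' + Finsupp.single b 1 = a := by
          by_contra h9
          exact h7 (if_neg h9)
        rw [← h8]
        refine ⟨Or.inr ⟨a', (hP1 a' ha').1, b, rfl⟩, fun i hi => ?_⟩
        rcases Finset.mem_union.1 (Finsupp.support_add hi) with h9 | h9
        · exact lt_of_lt_of_le ((hP1 a' ha').2 i h9) hn
        · have h10 := Finsupp.support_single_subset h9
          rw [Finset.mem_singleton] at h10
          rw [h10]
          exact Finset.mem_range.1 hb
    · rw [hR, map_sum, ← hP3, eval_eq]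
      refine Finset.sum_congr rfl fun a _ => ?_
      rw [map_add, map_sum, aeval_monomial, ht a, add_mul, Finset.sum_mul]
      congr 1
      refine Finset.sum_congr rfl fun b _ => ?_
      have h5 : aeval u (monomial (a + Finsupp.single b 1) (t a b)) =
          (t a b : ℂ) * mon (a + Finsupp.single b 1) u := by
        rw [aeval_monomial]
        rfl
      rw [h5, hmon]
      show _ = (t a b : ℂ) * u b * mon a u
      ring
  intro a
  by_cases ha : a ∈ P.support
  · have hz : ∀ b, n ≤ b → b < n' → t a b = 0 := by
      intro b hb hb'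
      have h5 := congrArg (coeff (a + Finsupp.single b 1)) hR0
      rw [hR, coeff_sum, coeff_zero, Finset.sum_eq_single a] at h5
      · rw [coeff_add, coeff_monomial, coeff_sum, if_neg, zero_add, Finset.sum_eq_single b] at h5
        · rw [coeff_monomial, if_pos rfl] at h5
          exact h5
        · intro b' _ hne
          rw [coeff_monomial, if_neg]
          intro h6
          exact hne (Finsupp.single_left_injective one_ne_zero (add_left_cancel h6))
        · intro h6
          exact absurd (Finset.mem_range.2 hb') h6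
        · intro h6
          have h7 := DFunLike.congr_fun h6 b
          rw [Finsupp.add_apply, Finsupp.single_eq_same] at h7
          omega
      · intro a' ha' hne
        have hab : a' b = 0 := by
          by_contra h6
          have := (hP1 a' ha').2 b (Finsupp.mem_support_iff.2 h6)
          omega
        rw [coeff_add, coeff_monomial, coeff_sum, if_neg, zero_add]
        · refine Finset.sum_eq_zero fun b' _ => ?_
          rw [coeff_monomial, if_neg]
          intro h6
          apply hne
          have h7 := DFunLike.congr_fun h6 b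
          rw [Finsupp.add_apply, Finsupp.add_apply, Finsupp.single_eq_same, hab, zero_add,
            Finsupp.single_apply] at h7
          by_cases h8 : b' = b
          · subst h8
            exact add_right_cancel h6
          · rw [if_neg h8] at h7
            omega
        · intro h6
          have h7 := DFunLike.congr_fun h6 b
          rw [Finsupp.add_apply, Finsupp.single_eq_same, hab] at h7
          omega
      · intro h6
        exact absurd ha h6
    rw [mem_Tn]
    refine ⟨t0 a, t a, ?_⟩
    rw [ht a]
    congr 1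
    symm
    apply Finset.sum_subset (Finset.range_subset_range.2 hn)
    intro b hb hb'
    rw [hz b (by
      rw [Finset.mem_range] at hb'
      omega) (Finset.mem_range.1 hb)]
    have h5 : ((0 : Qa) : ℂ) = 0 := rfl
    rw [h5, zero_mul]
  · rw [MvPolynomial.notMem_support_iff.1 ha]
    exact Submodule.zero_mem _

end MP60829e.FM
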