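import Pool.Agent.Lib.MP_60829e_nt.HD.RkB

/-! # The derivations which kill the parameters: the rows of the point -/

open MvPolynomial Module

namespace MP60829e.FM

open MP60829e.ST (Qa Lsp Lt)
open MP60829e.PS
open MP60829e.SB

/-- The sharp hyperplane theorem in coordinates, any index type. -/
theorem hyp_countT {Q T : Type} [Fintype Q] [Fintype T] {r : ℕ} (lam : Fin r → ℂ)
    (hlam : LinearIndependent Qa lam) (hlog : ∀ j, lam j ∈ Lsp) (g : Q → ℂ)
    (hg : LinearIndependent Qa g) (β : T → Q × Fin r → Qa) (hβ : LinearIndependent Qa β)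
    (h : ∀ s, ∑ i, g i * pt lam (β s) i = 0) :
    Fintype.card T ≤ Fintype.card Q * (Fintype.card Q - 1) :=
  FS.hyp_countS lam hlam hlog g hg (fun s => β ((Fintype.equivFin T).symm s))
    (hβ.comp _ (Fintype.equivFin T).symm.injective) fun s => h _

/-- The solutions of the relation together with the skew solutions. -/
theorem skew_count {ι κ T : Type} [Fintype ι] [Fintype κ] [Fintype T] [DecidableEq κ] {r : ℕ}
    (lam : Fin r → ℂ) (hlam : LinearIndependent Qa lam) (hlog : ∀ j, lam j ∈ Lsp)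
    (g : ι ⊕ κ → ℂ) (hg : LinearIndependent Qa g) (β : T → (ι ⊕ κ) × Fin r → Qa)
    (hβ : LinearIndependent Qa fun s (p : ι × Fin r) => β s (Sum.inl p.1, p.2))
    (h : ∀ s, ∑ i, g i * pt lam (β s) i = 0) (P : Finset (κ × κ))
    (hP : ∀ p ∈ P, (p.2, p.1) ∉ P ∧ p.1 ≠ p.2 ∧ g (Sum.inr p.1) ∈ Submodule.span Qa (Set.range lam) ∧
      g (Sum.inr p.2) ∈ Submodule.span Qa (Set.range lam)) :
    Fintype.card T + P.card ≤
      (Fintype.card ι + Fintype.card κ) * (Fintype.card ι + Fintype.card κ - 1) := by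
  classical
  -- coordinates
  have hco : ∀ k : κ, ∃ e : Fin r → Qa, g (Sum.inr k) ∈ Submodule.span Qa (Set.range lam) →
      ∑ l, e l • lam l = g (Sum.inr k) := by
    intro k
    by_cases h1 : g (Sum.inr k) ∈ Submodule.span Qa (Set.range lam)
    · obtain ⟨e, he⟩ := (Submodule.mem_span_range_iff_exists_fun Qa).1 h1
      exact ⟨e, fun _ => he⟩
    · exact ⟨0, fun h2 => absurd h2 h1⟩
  choose e he using hco
  obtain ⟨γ, hγ⟩ : ∃ γ : {p // p ∈ P} → (ι ⊕ κ) × Fin r → Qa, γ = fun p q =>
      Sum.elim (fun _ => 0) (fun k => if k = p.1.1 then e p.1.2 q.2 else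
        if k = p.1.2 then - e p.1.1 q.2 else 0) q.1 := ⟨_, rfl⟩
  have hγ1 : ∀ p i l, γ p (Sum.inl i, l) = 0 := fun p i l => by rw [hγ]; rfl
  have hγ2 : ∀ p k l, γ p (Sum.inr k, l) = if k = p.1.1 then e p.1.2 l else
      if k = p.1.2 then - e p.1.1 l else 0 := fun p k l => by rw [hγ]; rfl
  have hpt1 : ∀ p i, pt lam (γ p) (Sum.inl i) = 0 := by
    intro p i
    unfold pt
    exact Finset.sum_eq_zero fun l _ => by rw [hγ1, zero_smul]
  have hpt2 : ∀ p k, pt lam (γ p) (Sum.inr k) = (if k = p.1.1 then g (Sum.inr p.1.2) else 0) -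
      (if k = p.1.2 then g (Sum.inr p.1.1) else 0) := by
    intro p k
    have h1 := hP p.1 p.2
    unfold pt
    simp only [hγ2]
    by_cases h2 : k = p.1.1
    · have h3 : k ≠ p.1.2 := fun h4 => h1.2.1 (h2.symm.trans h4)
      simp only [h2, if_true]
      rw [if_neg h1.2.1, sub_zero]
      exact he _ h1.2.2.2
    · by_cases h3 : k = p.1.2
      · have h4 : p.1.2 ≠ p.1.1 := fun h5 => h1.2.1 h5.symm
        simp only [h3, if_true, if_neg h4]
        rw [zero_sub, ← he _ h1.2.2.1, ← Finset.sum_neg_distrib]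
        exact Finset.sum_congr rfl fun l _ => by rw [neg_smul]
      · simp only [if_neg h2, if_neg h3, zero_smul, Finset.sum_const_zero, sub_zero]
  have key := hyp_countT lam hlam hlog g hg (Sum.elim β γ) (by
    rw [Fintype.linearIndependent_iff]
    intro c hc
    rw [Fintype.sum_sum_type] at hc
    simp only [Sum.elim_inl, Sum.elim_inr] at hc
    have h1 : ∀ s, c (Sum.inl s) = 0 := by
      rw [Fintype.linearIndependent_iff] at hβ
      refine hβ (fun s => c (Sum.inl s)) ?_
      funext p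
      have h2 := congrFun hc (Sum.inl p.1, p.2)
      simp only [Pi.add_apply, Finset.sum_apply, Pi.smul_apply, hγ1, smul_zero,
        Finset.sum_const_zero, add_zero, Pi.zero_apply] at h2 ⊢
      exact h2
    have h2 : ∑ p : {p // p ∈ P}, c (Sum.inr p) • γ p = 0 := by
      rw [← hc, Finset.sum_eq_zero (s := (Finset.univ : Finset T)), zero_add]
      intro s _
      rw [h1, zero_smul]
    have h3 : ∀ p0 : {p // p ∈ P}, c (Sum.inr p0) = 0 := by
      intro p0
      have h4 : ∑ p : {p // p ∈ P}, c (Sum.inr p) • pt lam (γ p) (Sum.inr p0.1.1) = 0 := by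
        have h5 : pt lam (∑ p : {p // p ∈ P}, c (Sum.inr p) • γ p) (Sum.inr p0.1.1) = 0 := by
          rw [h2]
          unfold pt
          exact Finset.sum_eq_zero fun l _ => by rw [Pi.zero_apply, zero_smul]
        rw [← h5]
        unfold pt
        simp only [Finset.sum_apply, Pi.smul_apply, Finset.sum_smul, Finset.smul_sum, smul_smul,
          smul_eq_mul]
        rw [Finset.sum_comm]
      -- as a combination of the `g (inr k)`
      have h5 : ∑ o : ι ⊕ κ, (Sum.elim (fun _ => (0 : Qa)) (fun k' => ∑ p : {p // p ∈ P},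
          c (Sum.inr p) * ((if p0.1.1 = p.1.1 ∧ k' = p.1.2 then 1 else 0) -
            (if p0.1.1 = p.1.2 ∧ k' = p.1.1 then 1 else 0))) o) • g o = 0 := by
        rw [Fintype.sum_sum_type]
        simp only [Sum.elim_inl, Sum.elim_inr, zero_smul, Finset.sum_const_zero, zero_add]
        rw [← h4]
        simp only [Finset.sum_smul, mul_smul]
        rw [Finset.sum_comm]
        refine Finset.sum_congr rfl fun p _ => ?_
        rw [← Finset.smul_sum]
        congr 1
        rw [hpt2]
        simp only [sub_smul, Finset.sum_sub_distrib]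
        congr 1
        · by_cases h6 : p0.1.1 = p.1.1
          · rw [if_pos h6, Finset.sum_eq_single p.1.2]
            · rw [if_pos ⟨h6, rfl⟩, one_smul]
            · intro k _ hk
              rw [if_neg (fun h7 => hk h7.2), zero_smul]
            · intro h7; exact absurd (Finset.mem_univ _) h7
          · rw [if_neg h6]
            exact Finset.sum_eq_zero fun k _ => by rw [if_neg (fun h7 => h6 h7.1), zero_smul]
        · by_cases h6 : p0.1.1 = p.1.2
          · rw [if_pos h6, Finset.sum_eq_single p.1.1]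
            · rw [if_pos ⟨h6, rfl⟩, one_smul]
            · intro k _ hk
              rw [if_neg (fun h7 => hk h7.2), zero_smul]
            · intro h7; exact absurd (Finset.mem_univ _) h7
          · rw [if_neg h6]
            exact Finset.sum_eq_zero fun k _ => by rw [if_neg (fun h7 => h6 h7.1), zero_smul]
      have h6 := (Fintype.linearIndependent_iff.1 hg) _ h5 (Sum.inr p0.1.2)
      rw [Sum.elim_inr, Finset.sum_eq_single p0] at h6
      · rw [if_pos ⟨rfl, rfl⟩, if_neg (fun h7 => (hP p0.1 p0.2).2.1 h7.1), sub_zero, mul_one] at h6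
        exact h6
      · intro p _ hp
        rw [if_neg, if_neg, sub_zero, mul_zero]
        · rintro ⟨h7, h8⟩
          apply (hP p.1 p.2).1
          rw [← h7, ← h8]
          exact p0.2
        · rintro ⟨h7, h8⟩
          apply hp
          exact Subtype.ext (Prod.ext h7.symm h8.symm)
      · intro h7; exact absurd (Finset.mem_univ _) h7
    rintro (s | p)
    · exact h1 s
    · exact h3 p) (by
    rintro (s | p)
    · exact h s
    · rw [Fintype.sum_sum_type]
      simp only [Sum.elim_inr, hpt1, hpt2, mul_zero, Finset.sum_const_zero, zero_add, mul_sub,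
        Finset.sum_sub_distrib, mul_ite]
      rw [Finset.sum_ite_eq', Finset.sum_ite_eq', if_pos (Finset.mem_univ _),
        if_pos (Finset.mem_univ _)]
      ring)
  rw [Fintype.card_sum, Fintype.card_sum, Fintype.card_coe] at key
  exact key

/-- The derivations in `Δ` which kill `z` and the rows of the point outside `B` give only few
independent vectors in the rows `B` of the point. -/
theorem rk_F {I ζ ι κ : Type} [Fintype ζ] [Fintype ι] [Fintype κ] [DecidableEq ι] [DecidableEq κ]
    {r : ℕ} (lam : Fin r → ℂ) (hlam : LinearIndependent Qa lam) (hlog : ∀ j, lam j ∈ Lsp)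
    (U : Ultrafilter I) (G : MvPolynomial (ζ ⊕ (ι ⊕ κ)) ℂ) (z : I → ζ → Qa)
    (M : I → (ι ⊕ κ) × Fin r → Qa)
    (h : ∀ᶠ a in (U : Filter I), eval (pv (z a) (pt lam (M a))) G = 0) (B : Finset ι)
    (hli : ∀ᶠ a in (U : Filter I), LinearIndependent Qa fun o : {i // i ∈ B} ⊕ κ =>
      eval (pv (z a) (pt lam (M a))) (pderiv (Sum.inr (Sum.map Subtype.val id o)) G))
    (P : Finset (κ × κ)) (hP : ∀ p ∈ P, (p.2, p.1) ∉ P ∧ p.1 ≠ p.2)
    (hPs : ∀ᶠ a in (U : Filter I), ∀ p ∈ P,
      eval (pv (z a) (pt lam (M a))) (pderiv (Sum.inr (Sum.inr p.1)) G) ∈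
        Submodule.span Qa (Set.range lam) ∧
      eval (pv (z a) (pt lam (M a))) (pderiv (Sum.inr (Sum.inr p.2)) G) ∈
        Submodule.span Qa (Set.range lam))
    (b : I → {i // i ∈ B} × Fin r → Qa) (hb : ∀ a i l, b a (i, l) = M a (Sum.inl i.1, l))
    (Δ : Submodule (UP U Qa) (Derivation Qa (UP U Qa) (UP U Qa)))
    (hz : ∀ D ∈ Δ, ∀ t, D (cls U z t) = 0)
    (hM : ∀ D ∈ Δ, ∀ i ∉ B, ∀ l, D (cls U M (Sum.inl i, l)) = 0) :
    rk Δ (cls U b) + P.card ≤
      (B.card + Fintype.card κ) * (B.card + Fintype.card κ - 1) := by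
  classical
  obtain ⟨N, hN⟩ : ∃ N, N = rk Δ (cls U b) := ⟨_, rfl⟩
  obtain ⟨D, hD, hDi⟩ := exists_of_le_rk (N := N) Δ (cls U b) hN.le
  rw [← hN]
  -- representatives
  have hrep : ∀ (s : Fin N) (p : (ι ⊕ κ) × Fin r),
      ∃ e : I → Qa, UP.mk U e = D s (cls U M p) := fun s p => UP.mk_surjective U _
  choose e he using hrep
  obtain ⟨T, hT⟩ : ∃ T : Fin N → I → (ι ⊕ κ) × Fin r → Qa,
      T = fun s a p => e s p a := ⟨_, rfl⟩
  have hTD : ∀ s p, cls U (T s) p = D s (cls U M p) := by
    intro s p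
    rw [← he s p, hT]
    rfl
  obtain ⟨E, hE⟩ : ∃ E : Fin N → I → {i // i ∈ B} × Fin r → Qa,
      E = fun s a p => T s a (Sum.inl p.1.1, p.2) := ⟨_, rfl⟩
  have hED : ∀ s, cls U (E s) = evl (cls U b) (D s) := by
    intro s
    funext ⟨i, l⟩
    have h1 : cls U b (i, l) = cls U M (Sum.inl i.1, l) := by
      unfold cls
      congr 1
      funext a
      exact hb a i l
    rw [evl_apply, h1, ← hTD, hE]
    rfl
  have hEi : LinearIndependent (UP U Qa) fun s => cls U fun a => (fun s' => E s' a) s := by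
    have h1 : (fun s => cls U fun a => (fun s' => E s' a) s) = fun s => evl (cls U b) (D s) := by
      funext s
      exact hED s
    rw [h1]
    exact hDi
  have h2 := eventually_li U (fun a s => E s a) hEi
  have h3 : ∀ᶠ a in (U : Filter I), ∀ s, ∑ i, eval (pv (z a) (pt lam (M a)))
      (pderiv (Sum.inr i) G) * pt lam (T s a) i = 0 :=
    Filter.eventually_all.2 fun s => tangent U lam G z M h (D s) (hz _ (hD s)) (T s) (hTD s)
  -- the rows outside B
  have h0 : ∀ᶠ a in (U : Filter I), ∀ s, ∀ i : {i // i ∉ B}, ∀ l, T s a (Sum.inl i.1, l) = 0 := by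
    refine Filter.eventually_all.2 fun s => Filter.eventually_all.2 fun i =>
      Filter.eventually_all.2 fun l => ?_
    have h4 : cls U (T s) (Sum.inl i.1, l) = 0 := by rw [hTD, hM _ (hD s) _ i.2]
    exact UP.mk_eq_zero.1 h4
  obtain ⟨a, ⟨⟨⟨ha1, ha2⟩, ha3⟩, ha4⟩, ha5⟩ := ((((h2.and h3).and hli).and h0).and hPs).exists
  have h4 := skew_count lam hlam hlog _ ha3 (fun s q => T s a (Sum.map Subtype.val id q.1, q.2))
    (by
      have h5 : (fun (s : Fin N) (p : {i // i ∈ B} × Fin r) =>
          T s a (Sum.map Subtype.val id (Sum.inl p.1 : {i // i ∈ B} ⊕ κ), p.2)) =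
          fun s => E s a := by
        funext s p
        rw [hE]
        rfl
      rw [h5]
      exact ha1) (fun s => by
    have h8 := ha2 s
    rw [Fintype.sum_sum_type] at h8 ⊢
    have h5 : ∀ o : {i // i ∈ B} ⊕ κ, pt lam (fun q : ({i // i ∈ B} ⊕ κ) × Fin r =>
        T s a (Sum.map Subtype.val id q.1, q.2)) o = pt lam (T s a) (Sum.map Subtype.val id o) :=
      fun o => rfl
    simp only [h5, Sum.map_inl, Sum.map_inr, id]
    have h6 : ∀ i ∉ B, eval (pv (z a) (pt lam (M a))) (pderiv (Sum.inr (Sum.inl i)) G) *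
        pt lam (T s a) (Sum.inl i) = 0 := by
      intro i hi
      have h7 : pt lam (T s a) (Sum.inl i) = 0 := by
        unfold pt
        refine Finset.sum_eq_zero fun l _ => ?_
        rw [ha4 s ⟨i, hi⟩ l, zero_smul]
      rw [h7, mul_zero]
    rw [← Finset.sum_subset (Finset.subset_univ B) fun i _ hi => h6 i hi] at h8
    rw [← Finset.sum_coe_sort B fun i => eval (pv (z a) (pt lam (M a)))
      (pderiv (Sum.inr (Sum.inl i)) G) * pt lam (T s a) (Sum.inl i)] at h8
    exact h8) P (fun p hp => ⟨(hP p hp).1, (hP p hp).2, ha5 p hp⟩)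
  rw [Fintype.card_fin, Fintype.card_coe] at h4
  exact h4

end MP60829e.FM
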