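import Pool.Agent.Lib.MP_60829e_nt.FM.StructM
import Pool.Agent.Lib.MP_60829e_nt.FM.Count
import Pool.Agent.Lib.MP_60829e_nt.FM.Mu
import Pool.Agent.Lib.MP_60829e_nt.HD.Seq

/-! # One more row for relations with logarithms as coefficients -/

open MvPolynomial Module

namespace MP60829e.FM

open MP60829e.ST (Qa Lsp Lt)
open MP60829e.PS
open MP60829e.SB
open MP60829e.HD (val Win Free GenFree Gq SW mem_SW mon)
open MP60829e.SL (smul_eq)

/-! ## The polynomial -/

section poly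

variable {S S' : Finset (ℕ →₀ ℕ)} {n : ℕ}

/-- The parameters. -/
abbrev ZM (S S' : Finset (ℕ →₀ ℕ)) (n : ℕ) : Type :=
  {m // m ∈ S} ⊕ ({m // m ∈ S'} × Option (Fin n))

/-- The polynomials in the first variables. -/
noncomputable def phi (S S' : Finset (ℕ →₀ ℕ)) (n : ℕ) :
    MvPolynomial ℕ ℂ →ₐ[ℂ] MvPolynomial (ZM S S' n ⊕ (Fin n ⊕ {m // m ∈ S})) ℂ :=
  aeval fun i => if h : i < n then X (Sum.inr (Sum.inl ⟨i, h⟩)) else 0

theorem eval_phi (v : ZM S S' n ⊕ (Fin n ⊕ {m // m ∈ S}) → ℂ) (q : MvPolynomial ℕ ℂ) :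
    eval v (phi S S' n q) =
      eval (fun i => if h : i < n then v (Sum.inr (Sum.inl ⟨i, h⟩)) else 0) q := by
  induction q using MvPolynomial.induction_on with
  | C a =>
    have h1 : phi S S' n (C a) = C a := algHom_C _ a
    rw [h1, eval_C, eval_C]
  | add p q hp hq => rw [map_add, map_add, map_add, hp, hq]
  | mul_X p i hp =>
    rw [map_mul, map_mul, hp, map_mul, eval_X]
    congr 1
    have h1 : phi S S' n (X i) = if h : i < n then X (Sum.inr (Sum.inl ⟨i, h⟩)) else 0 :=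
      aeval_X _ _
    rw [h1]
    by_cases h : i < n
    · rw [dif_pos h, dif_pos h, eval_X]
    · rw [dif_neg h, dif_neg h, map_zero]

theorem pderiv_phi (b : Fin n) (q : MvPolynomial ℕ ℂ) :
    pderiv (Sum.inr (Sum.inl b)) (phi S S' n q) = phi S S' n (pderiv b.1 q) := by
  classical
  induction q using MvPolynomial.induction_on with
  | C a =>
    have h1 : phi S S' n (C a) = C a := algHom_C _ a
    rw [h1, pderiv_C, pderiv_C, map_zero]
  | add p q hp hq => rw [map_add, map_add, hp, hq, map_add, map_add]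
  | mul_X p i hp =>
    have h1 : phi S S' n (X i) = if h : i < n then X (Sum.inr (Sum.inl ⟨i, h⟩)) else 0 :=
      aeval_X _ _
    have h2 : pderiv (Sum.inr (Sum.inl b)) (phi S S' n (X i)) = if i = b.1 then 1 else 0 := by
      rw [h1]
      by_cases h : i < n
      · rw [dif_pos h]
        by_cases h3 : i = b.1
        · rw [if_pos h3]
          have h4 : b = ⟨i, h⟩ := Fin.ext h3.symm
          rw [h4, pderiv_X_self]
        · rw [if_neg h3, pderiv_X_of_ne]
          intro h4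
          exact h3 (congrArg Fin.val (Sum.inl.inj (Sum.inr.inj h4)))
      · rw [dif_neg h, map_zero, if_neg]
        intro h3
        exact h (h3 ▸ b.2)
    have h3 : pderiv b.1 (X i : MvPolynomial ℕ ℂ) = if i = b.1 then 1 else 0 := by
      by_cases h : i = b.1
      · rw [if_pos h, h, pderiv_X_self]
      · rw [if_neg h, pderiv_X_of_ne h]
    rw [map_mul, pderiv_mul, hp, h2, pderiv_mul, h3, map_add, map_mul, map_mul]
    congr 2
    by_cases h : i = b.1
    · rw [if_pos h, if_pos h, map_one]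
    · rw [if_neg h, if_neg h, map_zero]

theorem pderiv_phi' (k : {m // m ∈ S}) (q : MvPolynomial ℕ ℂ) :
    pderiv (Sum.inr (Sum.inr k)) (phi S S' n q) = 0 := by
  induction q using MvPolynomial.induction_on with
  | C a =>
    have h1 : phi S S' n (C a) = C a := algHom_C _ a
    rw [h1, pderiv_C]
  | add p q hp hq => rw [map_add, map_add, hp, hq, add_zero]
  | mul_X p i hp =>
    have h1 : phi S S' n (X i) = if h : i < n then X (Sum.inr (Sum.inl ⟨i, h⟩)) else 0 :=
      aeval_X _ _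
    rw [map_mul, pderiv_mul, hp, zero_mul, zero_add, h1]
    by_cases h : i < n
    · rw [dif_pos h, pderiv_X_of_ne, mul_zero]
      intro h4
      cases h4
    · rw [dif_neg h, map_zero, mul_zero]

/-- The universal relation. -/
noncomputable def GM (S S' : Finset (ℕ →₀ ℕ)) (n : ℕ) :
    MvPolynomial (ZM S S' n ⊕ (Fin n ⊕ {m // m ∈ S})) ℂ :=
  ∑ m : {m // m ∈ S}, (X (Sum.inl (Sum.inl m)) + X (Sum.inr (Sum.inr m))) *
      phi S S' n (monomial m.1 1) +
    ∑ p : {m // m ∈ S'} × Option (Fin n), X (Sum.inl (Sum.inr p)) *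
      phi S S' n (monomial (p.1.1 + sh p.2) 1)

private theorem dz (i : Fin n ⊕ {m // m ∈ S}) (t : ZM S S' n) :
    pderiv (Sum.inr i) (X (Sum.inl t) : MvPolynomial (ZM S S' n ⊕ (Fin n ⊕ {m // m ∈ S})) ℂ) =
      0 := by
  refine pderiv_X_of_ne ?_
  intro h
  cases h

theorem eval_GM (z : ZM S S' n → Qa) (v : Fin n ⊕ {m // m ∈ S} → ℂ) (l : (ℕ →₀ ℕ) → ℂ)
    (t : (ℕ →₀ ℕ) → Option (Fin n) → Qa)
    (hl : ∀ m : {m // m ∈ S}, l m.1 = (z (Sum.inl m) : ℂ) + v (Sum.inr m))
    (ht : ∀ p : {m // m ∈ S'} × Option (Fin n), t p.1.1 p.2 = z (Sum.inr p)) (x : ℕ → ℂ)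
    (hx : x = fun i => if h : i < n then v (Sum.inl ⟨i, h⟩) else 0) :
    eval (pv z v) (GM S S' n) = eval x (Ph n S S' l t) := by
  have hx' : (fun i => if h : i < n then pv z v (Sum.inr (Sum.inl ⟨i, h⟩)) else 0) = x := by
    rw [hx]
    rfl
  unfold GM Ph
  rw [map_add, map_add, map_sum, map_sum, map_sum, map_sum]
  congr 1
  · rw [← Finset.sum_coe_sort S]
    refine Finset.sum_congr rfl fun m _ => ?_
    rw [map_mul, map_add, eval_X, eval_X, eval_phi, hx', eval_monomial', eval_monomial', hl,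
      one_mul]
    rfl
  · rw [Fintype.sum_prod_type, ← Finset.sum_coe_sort S']
    refine Finset.sum_congr rfl fun m _ => ?_
    rw [map_sum]
    refine Finset.sum_congr rfl fun o _ => ?_
    rw [map_mul, eval_X, eval_phi, hx', eval_monomial', eval_monomial', one_mul]
    have h1 := ht (m, o)
    dsimp only at h1 ⊢
    rw [h1]
    rfl

theorem eval_d_GM (z : ZM S S' n → Qa) (v : Fin n ⊕ {m // m ∈ S} → ℂ) (l : (ℕ →₀ ℕ) → ℂ)
    (t : (ℕ →₀ ℕ) → Option (Fin n) → Qa)
    (hl : ∀ m : {m // m ∈ S}, l m.1 = (z (Sum.inl m) : ℂ) + v (Sum.inr m))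
    (ht : ∀ p : {m // m ∈ S'} × Option (Fin n), t p.1.1 p.2 = z (Sum.inr p)) (x : ℕ → ℂ)
    (hx : x = fun i => if h : i < n then v (Sum.inl ⟨i, h⟩) else 0) (b : Fin n) :
    eval (pv z v) (pderiv (Sum.inr (Sum.inl b)) (GM S S' n)) =
      eval x (pderiv b.1 (Ph n S S' l t)) := by
  have hx' : (fun i => if h : i < n then pv z v (Sum.inr (Sum.inl ⟨i, h⟩)) else 0) = x := by
    rw [hx]
    rfl
  have hmon : ∀ (m : ℕ →₀ ℕ) (c : ℂ), eval x (pderiv b.1 (monomial m c)) =
      c * eval x (pderiv b.1 (monomial m 1)) := by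
    intro m c
    have h1 : (monomial m c : MvPolynomial ℕ ℂ) = C c * monomial m 1 := by
      rw [C_mul_monomial, mul_one]
    rw [h1, pderiv_C_mul, map_mul, eval_C]
  unfold GM Ph
  simp only [map_add, map_sum, pderiv_mul, dz, pderiv_phi, zero_mul, zero_add]
  congr 1
  · rw [← Finset.sum_coe_sort S]
    refine Finset.sum_congr rfl fun m _ => ?_
    have h0 : pderiv (Sum.inr (Sum.inl b)) (X (Sum.inr (Sum.inr m)) :
        MvPolynomial (ZM S S' n ⊕ (Fin n ⊕ {m // m ∈ S})) ℂ) = 0 := by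
      refine pderiv_X_of_ne ?_
      intro h
      cases h
    rw [h0, zero_mul, map_zero, zero_add, map_mul, map_add, eval_X, eval_X, eval_phi, hx',
      hmon m.1 (l m.1), hl]
    rfl
  · rw [Fintype.sum_prod_type, ← Finset.sum_coe_sort S']
    refine Finset.sum_congr rfl fun m _ => ?_
    refine Finset.sum_congr rfl fun o _ => ?_
    rw [map_mul, eval_X, eval_phi, hx', hmon _ (t m.1 o : ℂ)]
    have h1 := ht (m, o)
    dsimp only at h1 ⊢
    rw [h1]
    rfl

theorem eval_d_GM' (z : ZM S S' n → Qa) (v : Fin n ⊕ {m // m ∈ S} → ℂ) (x : ℕ → ℂ)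
    (hx : x = fun i => if h : i < n then v (Sum.inl ⟨i, h⟩) else 0) (k : {m // m ∈ S}) :
    eval (pv z v) (pderiv (Sum.inr (Sum.inr k)) (GM S S' n)) = mon k.1 x := by
  classical
  have hx' : (fun i => if h : i < n then pv z v (Sum.inr (Sum.inl ⟨i, h⟩)) else 0) = x := by
    rw [hx]
    rfl
  unfold GM
  simp only [map_add, map_sum, pderiv_mul, dz, pderiv_phi', zero_mul, mul_zero, zero_add,
    add_zero, Finset.sum_const_zero]
  rw [Finset.sum_eq_single k]
  · rw [pderiv_X_self, map_mul, map_one, one_mul, eval_phi, hx', eval_monomial', one_mul]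
  · intro m _ hm
    rw [pderiv_X_of_ne, zero_mul, map_zero]
    intro h
    exact hm (Sum.inr.inj (Sum.inr.inj h))
  · intro h
    exact absurd (Finset.mem_univ _) h

end poly

/-! ## Congruence -/

theorem eval_congr_supp {P : MvPolynomial ℕ ℂ} {n : ℕ}
    (hP : ∀ a ∈ P.support, ∀ b ∈ a.support, b < n) {x y : ℕ → ℂ} (h : ∀ b < n, x b = y b) :
    eval x P = eval y P := by
  rw [eval_eq, eval_eq]
  refine Finset.sum_congr rfl fun a ha => ?_
  congr 1
  exact Finset.prod_congr rfl fun b hb => by rw [h b (hP a ha b hb)]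

theorem Tn_congr {n : ℕ} {x y : ℕ → ℂ} (h : ∀ b < n, x b = y b) : Tn n x = Tn n y := by
  unfold Tn
  congr 2
  exact Set.image_congr fun b hb => h b hb

theorem GoodM.congr {M : Set (ℕ →₀ ℕ)} {n : ℕ} {x y : ℕ → ℂ} (hg : GoodM M n x)
    (h : ∀ b < n, x b = y b) : GoodM M n y := by
  intro P h1 h2 h3 a
  rw [← Tn_congr h]
  refine hg P h1 h2 ?_ a
  rw [eval_congr_supp (fun a ha => (h1 a ha).2) h]
  exact h3

theorem free_congr {M : Set (ℕ →₀ ℕ)} {n : ℕ} {x y : ℕ → ℂ} (hg : Free M n x)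
    (h : ∀ b < n, x b = y b) : Free M n y := by
  intro P h1 h2
  refine hg P h1 ?_
  rw [HD.aeval_congr (M := M) h1 h]
  exact h2

/-! ## The finite-dimensional space -/

theorem exists_LM (lam : ℕ → ℂ) (hlog : ∀ i, lam i ∈ Lsp) {M : Set (ℕ →₀ ℕ)}
    (hfin : ∀ n, {a : ℕ →₀ ℕ | a ∈ M ∧ ∀ b ∈ a.support, b < n}.Finite) (j : ℕ → ℕ) (n : ℕ) :
    ∃ L : Submodule Qa ℂ, FiniteDimensional Qa L ∧ L ≤ Lt ∧
      ∀ (V : ℕ × ℕ → Qa), Free (MX M) n (val lam j V) →
        ∀ P : MvPolynomial ℕ ℂ, (∀ a ∈ P.support, a ∈ M ∧ ∀ b ∈ a.support, b < n) →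
          (∀ a, coeff a P ∈ Lt) → eval (val lam j V) P = 0 → ∀ a, coeff a P ∈ L := by
  classical
  obtain ⟨r, hr⟩ : ∃ r, ∀ b < n, j b ≤ r + 1 :=
    ⟨(Finset.range n).sup j, fun b hb => (Finset.le_sup (Finset.mem_range.2 hb)).trans
      (Nat.le_succ _)⟩
  obtain ⟨lam', hlam'⟩ : ∃ lam' : Fin (r + 1) → ℂ, lam' = fun i => lam i.1 := ⟨_, rfl⟩
  obtain ⟨W, hW⟩ : ∃ W, W = SW M (Finset.range n) := ⟨_, rfl⟩
  have hmemW : ∀ a, a ∈ W ↔ a ∈ M ∧ ∀ b ∈ a.support, b < n := by
    intro a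
    rw [hW, mem_SW hfin]
    exact and_congr_right fun _ => ⟨fun h b hb => Finset.mem_range.1 (h hb),
      fun h b hb => Finset.mem_range.2 (h b hb)⟩
  obtain ⟨e, he⟩ : ∃ e : Fin W.card ≃ {a // a ∈ W}, e = (W.equivFin).symm := ⟨_, rfl⟩
  obtain ⟨ψ, hψ⟩ : ∃ ψ : MvPolynomial ℕ ℂ →ₐ[ℂ] MvPolynomial (Fin 0 ⊕ Fin n) ℂ,
      ψ = aeval fun i => if h : i < n then X (Sum.inr ⟨i, h⟩) else 0 := ⟨_, rfl⟩
  have hevψ : ∀ (v : Fin 0 ⊕ Fin n → ℂ) (q : MvPolynomial ℕ ℂ),
      eval v (ψ q) = eval (fun i => if h : i < n then v (Sum.inr ⟨i, h⟩) else 0) q := by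
    intro v q
    rw [hψ]
    induction q using MvPolynomial.induction_on with
    | C a => rw [algHom_C, algebraMap_eq, eval_C, eval_C]
    | add p q hp hq => rw [map_add, map_add, map_add, hp, hq]
    | mul_X p i hp =>
      rw [map_mul, map_mul, hp, map_mul, eval_X, aeval_X]
      congr 1
      by_cases h : i < n
      · rw [dif_pos h, dif_pos h, eval_X]
      · rw [dif_neg h, dif_neg h, map_zero]
  obtain ⟨L0, hf, hle, hL0⟩ := SY.exists_L0 (n := n) (s := W.card) (N := 0) lam'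
    (fun i => ψ (monomial (e i).1 1))
  refine ⟨L0, hf, hle, fun V hfree P hP1 hP2 hP3 => ?_⟩
  have hval : ∀ i : Fin n, TV.pt lam' (fun p : Fin n × Fin (r + 1) =>
      if p.2.1 < j p.1.1 then V (p.1.1, p.2.1) else 0) i = val lam j V i.1 := by
    intro i
    unfold TV.pt val
    rw [hlam']
    dsimp only
    rw [Fin.sum_univ_eq_sum_range (fun l => (if l < j i.1 then V (i.1, l) else 0) • lam l) (r + 1)]
    rw [← Finset.sum_subset (Finset.range_subset_range.2 (hr i.1 i.2))]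
    · refine Finset.sum_congr rfl fun l hl => ?_
      rw [if_pos (Finset.mem_range.1 hl)]
    · intro l _ hl
      rw [if_neg (fun h1 => hl (Finset.mem_range.2 h1)), zero_smul]
  have hev : ∀ i : Fin W.card, eval (Sum.elim (fun l : Fin 0 => (((0 : Fin 0 → Qa) l : Qa) : ℂ))
      (TV.pt lam' fun p : Fin n × Fin (r + 1) =>
        if p.2.1 < j p.1.1 then V (p.1.1, p.2.1) else 0)) (ψ (monomial (e i).1 1)) =
      mon (e i).1 (val lam j V) := by
    intro i
    rw [hevψ, eval_monomial', one_mul]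
    refine Finset.prod_congr rfl fun b hb => ?_
    have h1 := ((hmemW _).1 (e i).2).2 b hb
    beta_reduce
    rw [dif_pos h1, Sum.elim_inr, hval]
  have hsum : ∀ f : (ℕ →₀ ℕ) → ℂ, ∑ i : Fin W.card, f (e i).1 = ∑ a ∈ W, f a := by
    intro f
    rw [← Finset.sum_coe_sort W]
    exact e.sum_comp fun a : {a // a ∈ W} => f a.1
  have h1 := hL0 0 (fun p : Fin n × Fin (r + 1) =>
      if p.2.1 < j p.1.1 then V (p.1.1, p.2.1) else 0) (fun i => coeff (e i).1 P)
    (fun i => hP2 _) (by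
    rw [Fintype.linearIndependent_iff]
    intro c hc i
    simp only [hev, smul_eq] at hc
    obtain ⟨k, hk⟩ : ∃ k : (ℕ →₀ ℕ) → Qa, k = fun a => if h : a ∈ W then c (e.symm ⟨a, h⟩)
      else 0 := ⟨_, rfl⟩
    have hki : ∀ i, k (e i).1 = c i := by
      intro i
      rw [hk]
      dsimp only
      rw [dif_pos (e i).2]
      congr 1
      exact e.symm_apply_apply i
    have h2 := mon_indep hfree W (fun m hm => (hmemW m).1 hm) k (by
      rw [← hsum fun a => (k a : ℂ) * mon a (val lam j V), ← hc]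
      exact Finset.sum_congr rfl fun i _ => by rw [hki]) (e i).1 (e i).2
    rw [hki] at h2
    exact h2) (by
    simp only [hev]
    rw [hsum fun a => coeff a P * mon a (val lam j V), ← hP3, eval_eq]
    symm
    apply Finset.sum_subset
    · intro m hm
      exact (hmemW m).2 (hP1 m hm)
    · intro m _ hm
      rw [MvPolynomial.notMem_support_iff.1 hm, zero_mul])
  intro a
  by_cases ha : a ∈ W
  · have h2 := h1 (e.symm ⟨a, ha⟩)
    rw [Equiv.apply_symm_apply] at h2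
    exact h2
  · rw [MvPolynomial.notMem_support_iff.1 fun h3 => ha ((hmemW a).2 (hP1 a h3))]
    exact L0.zero_mem

/-! ## The step -/

theorem coreM {lam : ℕ → ℂ} (hlam : LinearIndependent Qa lam) (hlog : ∀ i, lam i ∈ Lsp)
    {M : Set (ℕ →₀ ℕ)} (hM : IsLowerSet M)
    (hfin : ∀ n, {a : ℕ →₀ ℕ | a ∈ M ∧ ∀ b ∈ a.support, b < n}.Finite) (j : ℕ → ℕ)
    (V0 : ℕ × ℕ → Qa) {be : ℕ} (h1 : GenFree (MX M) lam j V0 be (be + 1))
    (hprev : GoodM M be (val lam j V0))
    (hj : ((SW M (Finset.range (be + 1))).card + 1) * ((SW M (Finset.range (be + 1))).card + 1) +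
      (be + 2) * (SW M (Finset.range (be + 1))).card ≤ j be) :
    Gq j (fun n V => GoodM M n (val lam j V)) V0 be (be + 1) := by
  classical
  by_contra hcon
  obtain ⟨H0', hH0', hH1', hH2'⟩ := h1
  obtain ⟨U, hU1, hU2, hU3⟩ := HD.exists_U j V0 be (be + 1)
    (fun V => ¬ GoodM M (be + 1) (val lam j V)) (by
    intro H hH hvars
    by_contra hne
    refine hcon ⟨H, hH, hvars, fun V hV1 hV2 => ?_⟩
    by_contra hV3
    exact hne ⟨V, hV1, hV2, hV3⟩)
  have hfree : ∀ᶠ V in (U : Filter {V : ℕ × ℕ → Qa // ∀ p, p.1 < be → V p = V0 p}),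
      Free (MX M) (be + 1) (val lam j V.1) :=
    (hU3 H0' hH0' hH1').mono fun V hV => hH2' V.1 V.2 hV
  have hrow : ∀ V : {V : ℕ × ℕ → Qa // ∀ p, p.1 < be → V p = V0 p}, ∀ b < be,
      val lam j V0 b = val lam j V.1 b := by
    intro V b hb
    unfold HD.val
    exact Finset.sum_congr rfl fun l _ => by rw [V.2 (b, l) hb]
  have hvLt : ∀ (V : ℕ × ℕ → Qa) b, val lam j V b ∈ Lt := fun V b => by
    unfold HD.val
    exact Lt.sum_mem fun l _ => Lt.smul_mem _ (SL.Lsp_le_Lt (hlog _))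
  -- the spaces
  obtain ⟨L, hLf, hLt, hL⟩ := exists_LM lam hlog hfin j (be + 1)
  obtain ⟨J, hJ⟩ : ∃ J, ∀ b < be + 1, j b ≤ J :=
    ⟨(Finset.range (be + 1)).sup j, fun b hb => Finset.le_sup (Finset.mem_range.2 hb)⟩
  obtain ⟨r, hJr, mu, hmu, hmulog, hmul, hmuL⟩ := exists_mu (fun i : Fin J => lam i.1)
    (hlam.comp _ Fin.val_injective) (fun i => hlog _) L hLf hLt
  have hml : ∀ b < be + 1, ∀ l < j b, ∃ h : l < r, mu ⟨l, h⟩ = lam l := by
    intro b hb l hl
    have h2 : l < J := lt_of_lt_of_le hl (hJ b hb)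
    exact ⟨by omega, hmul ⟨l, h2⟩⟩
  obtain ⟨Wn, hWn⟩ : ∃ Wn, Wn = SW M (Finset.range (be + 1)) := ⟨_, rfl⟩
  rw [← hWn] at hj
  have hsubW : SW M (Finset.range be) ⊆ Wn := by
    intro m hm
    rw [hWn, mem_SW hfin]
    rw [mem_SW hfin] at hm
    exact ⟨hm.1, hm.2.trans (Finset.range_subset_range.2 (Nat.le_succ _))⟩
  -- the data
  have h2 : ∀ᶠ V in (U : Filter {V : ℕ × ℕ → Qa // ∀ p, p.1 < be → V p = V0 p}),
      ∃ S : {S // S ∈ Wn.powerset},
      ∃ ze : (ZM S.1 (Wn \ S.1) (be + 1) → Qa) × ({m // m ∈ S.1} × Fin r → Qa),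
        eval (pv ze.1 (Sum.elim (fun i : Fin (be + 1) => val lam j V.1 i.1) (pt mu ze.2)))
          (GM S.1 (Wn \ S.1) (be + 1)) = 0 ∧
        (LinearIndependent Qa fun o : {i : Fin (be + 1) // i.1 ∈ ({be} : Finset ℕ)} ⊕
            {m // m ∈ S.1} =>
          eval (pv ze.1 (Sum.elim (fun i : Fin (be + 1) => val lam j V.1 i.1) (pt mu ze.2)))
            (pderiv (Sum.inr (Sum.map Subtype.val id o)) (GM S.1 (Wn \ S.1) (be + 1)))) := by
    filter_upwards [hU1, hfree] with V hV1 hV3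
    obtain ⟨x, hx⟩ : ∃ x : ℕ → ℂ, x = fun i => if i < be + 1 then val lam j V.1 i else 0 :=
      ⟨_, rfl⟩
    have hxv : ∀ b < be + 1, val lam j V.1 b = x b := fun b hb => by rw [hx]; exact (if_pos hb).symm
    obtain ⟨S, hS, l, t, hl, hev, hind⟩ := structM hM hfin x
      (by rw [← hxv be (Nat.lt_succ_self _)]; exact hvLt _ _)
      (hprev.congr fun b hb => (hrow V b hb).trans (hxv b (by omega)))
      (free_congr hV3 hxv)
      (fun h => hV1 (h.congr fun b hb => (hxv b hb).symm)) L (by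
      intro P h1 h2 h3
      refine hL V.1 hV3 P h1 h2 ?_
      rw [eval_congr_supp (fun a ha => (h1 a ha).2) hxv]
      exact h3)
    have hSW : S ⊆ Wn := by
      rcases hS with h | h
      · rw [h, hWn]
      · rw [h]
        exact hsubW
    refine ⟨⟨S, Finset.mem_powerset.2 hSW⟩, ?_⟩
    dsimp only
    rw [← hWn] at hev hind
    -- coordinates
    have h5 : ∀ m : ℕ →₀ ℕ, ∃ (γ : Qa) (e : Fin r → Qa), l m = (γ : ℂ) + ∑ l, e l • mu l :=
      fun m => exists_coord (hmuL (hl m))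
    choose γ e he using h5
    obtain ⟨z, hz⟩ : ∃ z : ZM S (Wn \ S) (be + 1) → Qa, z = Sum.elim (fun m => γ m.1)
      (fun p => t p.1.1 p.2) := ⟨_, rfl⟩
    obtain ⟨w, hw⟩ : ∃ w : {m // m ∈ S} × Fin r → Qa, w = fun q => e q.1.1 q.2 := ⟨_, rfl⟩
    have h6 : ∀ m : {m // m ∈ S}, l m.1 = (z (Sum.inl m) : ℂ) +
        (Sum.elim (fun i : Fin (be + 1) => val lam j V.1 i.1) (pt mu w) (Sum.inr m)) := by
      intro m
      rw [he m.1, hz, Sum.elim_inl, Sum.elim_inr, hw]
      rfl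
    have h7 : ∀ p : {m // m ∈ Wn \ S} × Option (Fin (be + 1)), t p.1.1 p.2 = z (Sum.inr p) := by
      intro p
      rw [hz]
      rfl
    have h8 : x = fun i => if h : i < be + 1 then
        (Sum.elim (fun i : Fin (be + 1) => val lam j V.1 i.1) (pt mu w) (Sum.inl ⟨i, h⟩))
          else 0 := by
      rw [hx]
      funext i
      by_cases h : i < be + 1
      · rw [if_pos h, dif_pos h]
        rfl
      · rw [if_neg h, dif_neg h]
    refine ⟨(z, w), ?_, ?_⟩
    · rw [eval_GM z _ l t h6 h7 x h8]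
      exact hev
    · dsimp only
      rw [Fintype.linearIndependent_iff]
      intro c hc
      rw [Fintype.sum_sum_type] at hc
      simp only [Sum.map_inl, Sum.map_inr, id, eval_d_GM z _ l t h6 h7 x h8,
        eval_d_GM' z _ x h8, smul_eq] at hc
      obtain ⟨k, hk⟩ : ∃ k : (ℕ →₀ ℕ) → Qa, k = fun m => if h : m ∈ S then
        c (Sum.inr ⟨m, h⟩) else 0 := ⟨_, rfl⟩
      have hk1 : ∀ m : {m // m ∈ S}, k m.1 = c (Sum.inr m) := fun m => by
        rw [hk]
        exact dif_pos m.2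
      obtain ⟨i0, hi0⟩ : ∃ i0 : {i : Fin (be + 1) // i.1 ∈ ({be} : Finset ℕ)},
          i0 = ⟨⟨be, Nat.lt_succ_self _⟩, Finset.mem_singleton_self _⟩ := ⟨_, rfl⟩
      have hi : ∀ i : {i : Fin (be + 1) // i.1 ∈ ({be} : Finset ℕ)}, i = i0 := by
        intro i
        rw [hi0]
        exact Subtype.ext (Fin.ext (Finset.mem_singleton.1 i.2))
      have hi0' : i0.1.1 = be := by rw [hi0]
      have h10 : ∑ m ∈ S, (k m : ℂ) * mon m x =
          ∑ m : {m // m ∈ S}, (c (Sum.inr m) : ℂ) * mon m.1 x := by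
        rw [← Finset.sum_coe_sort S]
        exact Finset.sum_congr rfl fun m _ => by rw [hk1]
      rw [Finset.sum_eq_single i0 (fun i _ hne => absurd (hi i) hne)
        (fun h => absurd (Finset.mem_univ _) h), hi0', ← h10, add_comm] at hc
      have h9 := hind k (c (Sum.inl i0)) hc
      rintro (i | m)
      · rw [hi i]
        exact h9.2
      · rw [← hk1]
        exact h9.1 m.1 m.2
  obtain ⟨⟨S, hS⟩, hp⟩ := FS.pickE U _ h2
  dsimp only at hp
  obtain ⟨ze, hze⟩ := hp.choice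
  have hSW := Finset.mem_powerset.1 hS
  have h3 := countF (lam := lam) j V0 U (fun V s => V.1 (s.1.1, s.1.2)) hU2 (fun V => V.1)
    (fun V p => rfl) (fun V p hp => V.2 p hp) mu hmu hmulog hml (fun V => (ze V).2)
    (GM S (Wn \ S) (be + 1)) (fun V => (ze V).1)
    (hze.mono fun V hV => hV.1) {be} (by
      rw [Finset.singleton_subset_iff, Finset.mem_Ico]
      omega) (hze.mono fun V hV => hV.2) ∅ (fun p hp => absurd hp (Finset.notMem_empty _))
    (Filter.Eventually.of_forall fun V p hp => absurd hp (Finset.notMem_empty _))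
  rw [Finset.sum_singleton, Finset.card_empty, add_zero, Fintype.card_sum, Fintype.card_prod,
    Fintype.card_option, Fintype.card_fin, Fintype.card_coe, Fintype.card_coe,
    Finset.card_singleton, Nat.add_sub_cancel_left] at h3
  have h4 := Finset.card_sdiff_add_card_eq_card hSW
  obtain ⟨s', hs'⟩ : ∃ s', s' = (Wn \ S).card := ⟨_, rfl⟩
  obtain ⟨s, hs⟩ : ∃ s, s = S.card := ⟨_, rfl⟩
  rw [← hs', ← hs] at h3 h4
  rw [← h4] at hj
  nlinarith

end MP60829e.FM
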