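import Pool.Agent.Lib.MP_60829e_nt.FM.Nf

/-! # The data of a point with an exceptional relation -/

open Finset

namespace MP60829e.FM

open MP60829e.ST (Qa Lsp Lt)
open MP60829e.SL (smul_eq)

/-- The data of a point with a relation which is not formal. -/
structure Dat (al be : ℕ) (x : ℕ → ℂ) (L : Submodule Qa ℂ) (Q Q' : Finset ℕ)
    (A s τ : ℕ → ℕ → Qa) (m : ℕ → ℂ) (m' : ℂ) (y : ℕ → ℂ) : Prop where
  sub' : Q' ⊆ Ico al (be + 1)
  mem' : be ∈ Q'
  sub : Q ⊆ range al ∪ Q'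
  ne : Q.Nonempty
  A1 : ∀ c ∈ Q, A c c = 1
  A0 : ∀ c ∈ Q, ∀ b, b ≠ c → (b ∈ Q ∨ c < b) → A c b = 0
  symm : ∀ a b, s a b = s b a
  s0 : ∀ a ∈ Q, ∀ b, s a b = 0
  mL : ∀ c, m c ∈ L
  mL' : m' ∈ L
  hy : ∀ i, y i = x i - (if i ∈ Ico al (be + 1) \ Q' then x i else 0) +
    if i ∈ Q' then ∑ b ∈ Ico al i \ Q', (τ b i : ℂ) * x b else 0
  val : ∑ c ∈ Q, m c * ∑ b ∈ range al ∪ Q', (A c b : ℂ) * y b +
    ∑ a ∈ range al ∪ Q', ∑ b ∈ range al ∪ Q', (s a b : ℂ) * y a * y b + m' = 0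
  ind : ∀ (k0 : Qa) (k k' : ℕ → Qa), (k0 : ℂ) +
    ∑ c ∈ Q, (k c : ℂ) * ∑ b ∈ range al ∪ Q', (A c b : ℂ) * y b +
    ∑ b ∈ Q', (k' b : ℂ) * (∑ c ∈ Q, (A c b : ℂ) * m c +
      2 * ∑ a ∈ range al ∪ Q', (s a b : ℂ) * y a) = 0 →
    k0 = 0 ∧ (∀ c ∈ Q, k c = 0) ∧ ∀ b ∈ Q', k' b = 0

theorem struct {al be : ℕ} (hab : al ≤ be) (x : ℕ → ℂ)
    (hfree : ∀ (c0 : Qa) (c : ℕ → Qa), (c0 : ℂ) + ∑ b ∈ range (be + 1), (c b : ℂ) * x b = 0 →
      c0 = 0 ∧ ∀ b < be + 1, c b = 0)
    (L : Submodule Qa ℂ) (hLt : L ≤ Lt) (h1L : (1 : ℂ) ∈ L) (hxL : ∀ b < be + 1, x b ∈ L)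
    (l : ℕ → ℂ) (hl : ∀ b, l b ∈ L) (hsum : ∑ b ∈ range (be + 1), l b * x b ∈ L)
    (hbad : ∃ b < be + 1, l b ∉ Tn (be + 1) x) (hprev : GoodF be x) :
    ∃ (Q Q' : Finset ℕ) (A s τ : ℕ → ℕ → Qa) (m : ℕ → ℂ) (m' : ℂ) (y : ℕ → ℂ),
      Dat al be x L Q Q' A s τ m m' y := by
  classical
  have h2c : ((2 : Qa) : ℂ) = 2 := rfl
  obtain ⟨n, hn⟩ : ∃ n, n = be + 1 := ⟨_, rfl⟩
  rw [← hn] at hfree hxL hsum hbad
  obtain ⟨Q, hQ, hQne, A, s, m, m', hA1, hA0, hss, hs0, hmL, hmL', hval, hmi⟩ :=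
    normal x l L h1L hxL hl hsum hbad
  -- independence
  have hind : ∀ (k0 : Qa) (k t : ℕ → Qa), (k0 : ℂ) + ∑ c ∈ Q, (k c : ℂ) * m c +
      ∑ a ∈ range n, (t a : ℂ) * x a = 0 →
      k0 = 0 ∧ (∀ c ∈ Q, k c = 0) ∧ ∀ a < n, t a = 0 := by
    intro k0 k t h
    have h1 : ∀ c ∈ Q, k c = 0 := by
      apply hmi k
      have h2 : ∑ c ∈ Q, (k c : ℂ) * m c = ((-k0 : Qa) : ℂ) +
          ∑ a ∈ range n, ((-t a : Qa) : ℂ) * x a := by
        push_cast
        simp only [neg_mul, sum_neg_distrib]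
        linear_combination h
      rw [h2]
      exact mem_Tn.2 ⟨_, fun a => -t a, rfl⟩
    have h2 : ∑ c ∈ Q, (k c : ℂ) * m c = 0 := by
      refine sum_eq_zero fun c hc => ?_
      rw [h1 c hc]
      exact zero_mul _
    rw [h2, add_zero] at h
    obtain ⟨h3, h4⟩ := hfree k0 t h
    exact ⟨h3, h1, h4⟩
  obtain ⟨E, hE⟩ : ∃ E : ℕ → ℂ, E = fun c => ∑ b ∈ range n, (A c b : ℂ) * x b := ⟨_, rfl⟩
  obtain ⟨D, hD⟩ : ∃ D : ℕ → ℂ, D = fun b => ∑ c ∈ Q, (A c b : ℂ) * m c +
      2 * ∑ a ∈ range n, (s a b : ℂ) * x a := ⟨_, rfl⟩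
  obtain ⟨TE, hTE⟩ : ∃ TE : Submodule Qa ℂ, TE = Submodule.span Qa ({1} ∪ E '' (Q : Set ℕ)) :=
    ⟨_, rfl⟩
  have hmemTE : ∀ z : ℂ, z ∈ TE ↔ ∃ (t0 : Qa) (t : ℕ → Qa),
      z = (t0 : ℂ) + ∑ c ∈ Q, (t c : ℂ) * E c := by
    intro z
    rw [hTE, Submodule.span_union, Submodule.mem_sup]
    constructor
    · rintro ⟨a, ha, b, hb, rfl⟩
      obtain ⟨t0, rfl⟩ := Submodule.mem_span_singleton.1 ha
      obtain ⟨t, rfl⟩ := (Submodule.mem_span_image_finset_iff_exists_fun' Qa).1 hb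
      refine ⟨t0, t, ?_⟩
      rw [smul_eq, mul_one]
      congr 1
    · rintro ⟨t0, t, rfl⟩
      refine ⟨(t0 : ℂ), Submodule.mem_span_singleton.2 ⟨t0, by rw [smul_eq, mul_one]⟩, _,
        (Submodule.mem_span_image_finset_iff_exists_fun' Qa).2 ⟨t, rfl⟩, ?_⟩
      congr 1
  obtain ⟨Q', hQ1, hQ2, hQ3, hQ4⟩ := echelon (fun b => TE.mkQ (D b)) n (n - al) al (by omega)
  -- the relations between the derivatives
  have h3 : ∀ b, ∃ (τ : ℕ → Qa) (κ0 : Qa) (κ : ℕ → Qa), b ∈ Ico al n → b ∉ Q' →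
      D b = ∑ c ∈ Q', ((if b < c then τ c else 0 : Qa) : ℂ) * D c +
        ((κ0 : ℂ) + ∑ c ∈ Q, (κ c : ℂ) * E c) := by
    intro b
    by_cases h4 : b ∈ Ico al n ∧ b ∉ Q'
    · obtain ⟨ρ, hρ⟩ := hQ3 b h4.1 h4.2
      have h5 : D b - ∑ c ∈ Q', ((if b < c then ρ c else 0 : Qa) : ℂ) * D c ∈ TE := by
        rw [← Submodule.Quotient.mk_eq_zero, ← Submodule.mkQ_apply, map_sub, sub_eq_zero, ← hρ,
          map_sum, sum_filter]
        refine sum_congr rfl fun c _ => ?_
        rw [← smul_eq, map_smul]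
        by_cases h6 : b < c
        · rw [if_pos h6, if_pos h6]
        · rw [if_neg h6, if_neg h6, zero_smul]
      obtain ⟨t0, t, ht⟩ := (hmemTE _).1 h5
      exact ⟨ρ, t0, t, fun _ _ => by rw [← ht]; ring⟩
    · exact ⟨0, 0, 0, fun h5 h6 => absurd ⟨h5, h6⟩ h4⟩
  choose τ0 κ0 κ hτ using h3
  obtain ⟨τ, hτdef⟩ : ∃ τ : ℕ → ℕ → Qa, τ = fun b c => if b < c then τ0 b c else 0 := ⟨_, rfl⟩
  have hτ' : ∀ b ∈ Ico al n, b ∉ Q' → D b = ∑ c ∈ Q', (τ b c : ℂ) * D c +
      ((κ0 b : ℂ) + ∑ c ∈ Q, (κ b c : ℂ) * E c) := by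
    intro b hb hb'
    rw [hτdef]
    exact hτ b hb hb'
  have hcmp : ∀ b ∈ Ico al n, b ∉ Q' →
      (∀ c ∈ Q, A c b = ∑ b' ∈ Q', τ b b' * A c b') ∧
      ∀ a < n, 2 * s a b = ∑ b' ∈ Q', τ b b' * (2 * s a b') + ∑ c ∈ Q, κ b c * A c a := by
    intro b hb hb'
    have h4 := hτ' b hb hb'
    have h5 := hind (-κ0 b) (fun c => A c b - ∑ b' ∈ Q', τ b b' * A c b')
      (fun a => 2 * s a b - ∑ b' ∈ Q', τ b b' * (2 * s a b') - ∑ c ∈ Q, κ b c * A c a) (by
      push_cast
      simp only [h2c]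
      have e1 : ∑ c ∈ Q, ((A c b : ℂ) - ∑ b' ∈ Q', (τ b b' : ℂ) * (A c b' : ℂ)) * m c =
          ∑ c ∈ Q, (A c b : ℂ) * m c -
            ∑ b' ∈ Q', (τ b b' : ℂ) * ∑ c ∈ Q, (A c b' : ℂ) * m c := by
        simp only [sub_mul, sum_sub_distrib, sum_mul, mul_sum]
        congr 1
        rw [sum_comm]
        exact sum_congr rfl fun _ _ => sum_congr rfl fun _ _ => by ring
      have e2 : ∑ a ∈ range n, (2 * (s a b : ℂ) - ∑ b' ∈ Q', (τ b b' : ℂ) * (2 * (s a b' : ℂ)) -
          ∑ c ∈ Q, (κ b c : ℂ) * (A c a : ℂ)) * x a =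
          2 * ∑ a ∈ range n, (s a b : ℂ) * x a -
            ∑ b' ∈ Q', (τ b b' : ℂ) * (2 * ∑ a ∈ range n, (s a b' : ℂ) * x a) -
              ∑ c ∈ Q, (κ b c : ℂ) * E c := by
        rw [hE]
        simp only [sub_mul, sum_sub_distrib, sum_mul, mul_sum]
        congr 1
        · congr 1
          · exact sum_congr rfl fun _ _ => by ring
          · rw [sum_comm]
            exact sum_congr rfl fun _ _ => sum_congr rfl fun _ _ => by ring
        · rw [sum_comm]
          exact sum_congr rfl fun _ _ => sum_congr rfl fun _ _ => by ring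
      rw [e1, e2]
      rw [hD] at h4
      simp only [mul_add, sum_add_distrib] at h4
      linear_combination h4)
    refine ⟨fun c hc => sub_eq_zero.1 (h5.2.1 c hc), fun a ha => ?_⟩
    have h6 := h5.2.2 a ha
    linear_combination h6
  -- Q is contained in Q'
  have hQQ : ∀ c ∈ Q, al ≤ c → c ∈ Q' := by
    intro c hc hac
    by_contra hcon
    have h4 := (hcmp c (mem_Ico.2 ⟨hac, mem_range.1 (hQ hc)⟩) hcon).1 c hc
    rw [hA1 c hc, sum_eq_zero] at h4
    · exact one_ne_zero h4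
    · intro b' hb'
      by_cases h5 : c < b'
      · rw [hA0 c hc b' (by omega) (Or.inr h5), mul_zero]
      · rw [hτdef]
        dsimp only
        rw [if_neg h5, zero_mul]
  -- the last variable
  have hbeQ : be ∈ Q' := by
    by_contra hcon
    have hbe : be ∈ Ico al n := mem_Ico.2 ⟨hab, by omega⟩
    have hg0 : TE.mkQ (D be) = 0 := by
      by_contra hne
      exact hcon (hQ4 be hn.symm hab hne)
    obtain ⟨t0, t, ht⟩ := (hmemTE _).1 ((Submodule.Quotient.mk_eq_zero _).1 hg0)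
    have hbeNQ : be ∉ Q := fun h => hcon (hQQ be h hab)
    -- compare the coefficients
    have h5 := hind (-t0) (fun c => A c be)
      (fun a => 2 * s a be - ∑ c ∈ Q, t c * A c a) (by
      push_cast
      simp only [h2c]
      have e2 : ∑ a ∈ range n, (2 * (s a be : ℂ) - ∑ c ∈ Q, (t c : ℂ) * (A c a : ℂ)) * x a =
          2 * ∑ a ∈ range n, (s a be : ℂ) * x a - ∑ c ∈ Q, (t c : ℂ) * E c := by
        rw [hE]
        simp only [sub_mul, sum_sub_distrib, sum_mul, mul_sum]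
        congr 1
        · exact sum_congr rfl fun _ _ => by ring
        · rw [sum_comm]
          exact sum_congr rfl fun _ _ => sum_congr rfl fun _ _ => by ring
      rw [e2]
      rw [hD] at ht
      linear_combination ht)
    obtain ⟨-, h6, h7⟩ := h5
    obtain ⟨x', hx'⟩ : ∃ x' : ℕ → ℂ, x' = fun i => x i - (if i ∈ ({be} : Finset ℕ) then x i
      else 0) + if i ∈ (∅ : Finset ℕ) then ∑ b ∈ ({be} : Finset ℕ), (0 : ℂ) * x b else 0 :=
      ⟨_, rfl⟩
    obtain ⟨m1, hm1⟩ : ∃ m1 : ℕ → ℂ, m1 = fun c => m c + ∑ b ∈ ({be} : Finset ℕ),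
      (t c : ℂ) * x b := ⟨_, rfl⟩
    obtain ⟨-, -, h8⟩ := inv_form (k := ℂ) (n := n) (Q := Q) (R := {be}) (Q' := ∅)
      (by rw [singleton_subset_iff]; exact mem_range.2 (by omega)) (empty_subset _)
      (fun c b => (A c b : ℂ)) (fun a b => (s a b : ℂ)) (fun a b => by rw [hss])
      (fun _ _ => 0) (fun _ c => (t c : ℂ))
      (by
        intro b hb c hc
        rw [mem_singleton.1 hb, sum_empty, h6 c hc]
        rfl)
      (by
        intro b hb a ha
        rw [mem_singleton.1 hb, sum_empty, zero_add]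
        have h9 := sub_eq_zero.1 (h7 a ha)
        have h10 := congrArg (fun z : Qa => (z : ℂ)) h9
        push_cast at h10
        simp only [h2c] at h10
        exact h10)
      x x' m m1 (fun i => by rw [hx']) (fun c => by rw [hm1])
    have hx1 : ∀ i < be, x' i = x i := by
      intro i hi
      rw [hx']
      dsimp only
      rw [if_neg (by rw [mem_singleton]; omega), if_neg (notMem_empty _), sub_zero, add_zero]
    have hx2 : x' be = 0 := by
      rw [hx']
      dsimp only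
      rw [if_pos (mem_singleton_self _), if_neg (notMem_empty _), sub_self, add_zero]
    have hm1L : ∀ c, m1 c ∈ L := by
      intro c
      rw [hm1]
      refine L.add_mem (hmL c) (L.sum_mem fun b hb => cmul_mem _ (hxL b ?_))
      rw [mem_singleton.1 hb]
      omega
    have h10 := hprev (fun b => ∑ c ∈ Q, (A c b : ℂ) * m1 c +
        ∑ a ∈ range be, (s a b : ℂ) * x a) (by
      intro b
      refine hLt (L.add_mem (L.sum_mem fun c _ => cmul_mem _ (hm1L c)) (L.sum_mem fun a ha =>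
        cmul_mem _ (hxL a ?_)))
      have := mem_range.1 ha
      omega) (by
      have e3 : ∑ b ∈ range be, (∑ c ∈ Q, (A c b : ℂ) * m1 c +
          ∑ a ∈ range be, (s a b : ℂ) * x a) * x b = -m' := by
        have e4 : ∑ c ∈ Q, m1 c * ∑ b ∈ range n, (A c b : ℂ) * x' b =
            ∑ b ∈ range be, (∑ c ∈ Q, (A c b : ℂ) * m1 c) * x b := by
          have e5 : ∀ c, ∑ b ∈ range n, (A c b : ℂ) * x' b = ∑ b ∈ range be, (A c b : ℂ) * x b := by
            intro c
            rw [hn, sum_range_succ, hx2, mul_zero, add_zero]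
            exact sum_congr rfl fun b hb => by rw [hx1 b (mem_range.1 hb)]
          simp only [e5, mul_sum, sum_mul]
          rw [sum_comm]
          exact sum_congr rfl fun _ _ => sum_congr rfl fun _ _ => by ring
        have e6 : ∑ a ∈ range n, ∑ b ∈ range n, (s a b : ℂ) * x' a * x' b =
            ∑ b ∈ range be, (∑ a ∈ range be, (s a b : ℂ) * x a) * x b := by
          rw [hn, sum_range_succ]
          have e7 : ∑ b ∈ range (be + 1), (s be b : ℂ) * x' be * x' b = 0 := by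
            refine sum_eq_zero fun b _ => ?_
            rw [hx2, mul_zero, zero_mul]
          rw [e7, add_zero]
          have e8 : ∀ a ∈ range be, ∑ b ∈ range (be + 1), (s a b : ℂ) * x' a * x' b =
              ∑ b ∈ range be, (s a b : ℂ) * x a * x b := by
            intro a ha
            rw [sum_range_succ, hx2, mul_zero, add_zero]
            exact sum_congr rfl fun b hb => by
              rw [hx1 b (mem_range.1 hb), hx1 a (mem_range.1 ha)]
          rw [sum_congr rfl e8, sum_comm]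
          simp only [sum_mul]
        simp only [add_mul, sum_add_distrib]
        rw [← e4, ← e6, h8]
        linear_combination hval
      rw [e3]
      exact Lt.neg_mem (hLt hmL'))
    obtain ⟨c, hc⟩ := hQne
    have hcn : c < be := by
      have h11 := mem_range.1 (hQ hc)
      have h12 : c ≠ be := fun h => hbeNQ (h ▸ hc)
      omega
    have h11 := h10 c hcn
    have h12 : ∑ c' ∈ Q, (A c' c : ℂ) * m1 c' = m1 c := by
      rw [sum_eq_single c]
      · rw [hA1 c hc]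
        exact one_mul _
      · intro c' hc' hne
        rw [hA0 c' hc' c (Ne.symm hne) (Or.inl hc)]
        exact zero_mul _
      · intro h; exact absurd hc h
    have h13 : ∑ a ∈ range be, (s a c : ℂ) * x a = 0 := by
      refine sum_eq_zero fun a _ => ?_
      rw [hss, hs0 c hc a]
      exact zero_mul _
    rw [h12, h13, add_zero] at h11
    have h14 : m c ∈ Tn n x := by
      have h15 : m c = m1 c - (t c : ℂ) * x be := by
        rw [hm1]
        dsimp only
        rw [sum_singleton]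
        ring
      rw [h15]
      exact (Tn n x).sub_mem (Tn_mono (by omega) x h11) (cmul_mem _ (x_mem_Tn x (by omega)))
    have h15 := hmi (fun c' => if c' = c then 1 else 0) (by
      rw [sum_eq_single c]
      · rw [if_pos rfl]
        have h16 : ((1 : Qa) : ℂ) * m c = m c := one_mul _
        rw [h16]
        exact h14
      · intro c' _ hne
        rw [if_neg hne]
        exact zero_mul _
      · intro h; exact absurd hc h) c hc
    rw [if_pos rfl] at h15
    exact one_ne_zero h15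
  -- the new coordinates
  obtain ⟨R, hR⟩ : ∃ R : Finset ℕ, R = Ico al n \ Q' := ⟨_, rfl⟩
  have hmemR : ∀ b, b ∈ R ↔ b ∈ Ico al n ∧ b ∉ Q' := fun b => by rw [hR, mem_sdiff]
  have hRn : R ⊆ range n := fun b hb => by
    have := mem_Ico.1 ((hmemR b).1 hb).1
    exact mem_range.2 this.2
  have hQn : Q' ⊆ range n := fun b hb => by
    have := mem_Ico.1 (hQ1 hb)
    exact mem_range.2 this.2
  obtain ⟨y, hy⟩ : ∃ y : ℕ → ℂ, y = fun i => x i - (if i ∈ R then x i else 0) +
      if i ∈ Q' then ∑ b ∈ R, (τ b i : ℂ) * x b else 0 := ⟨_, rfl⟩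
  obtain ⟨m1, hm1⟩ : ∃ m1 : ℕ → ℂ, m1 = fun c => m c + ∑ b ∈ R, (κ b c : ℂ) * x b := ⟨_, rfl⟩
  obtain ⟨hE', hD', hv'⟩ := inv_form (k := ℂ) (n := n) (Q := Q) (R := R) (Q' := Q') hRn hQn
    (fun c b => (A c b : ℂ)) (fun a b => (s a b : ℂ)) (fun a b => by rw [hss])
    (fun b b' => (τ b b' : ℂ)) (fun b c => (κ b c : ℂ))
    (by
      intro b hb c hc
      have h4 := (hcmp b ((hmemR b).1 hb).1 ((hmemR b).1 hb).2).1 c hc
      rw [h4]
      push_cast
      rfl)
    (by
      intro b hb a ha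
      have h4 := (hcmp b ((hmemR b).1 hb).1 ((hmemR b).1 hb).2).2 a ha
      have h10 := congrArg (fun z : Qa => (z : ℂ)) h4
      push_cast at h10
      simp only [h2c] at h10
      exact h10)
    x y m m1 (fun i => by rw [hy]) (fun c => by rw [hm1])
  -- sums over W
  have hW : ∀ f : ℕ → ℂ, (∀ i ∈ R, f i = 0) → ∑ i ∈ range n, f i = ∑ i ∈ range al ∪ Q', f i := by
    intro f hf
    symm
    apply sum_subset
    · refine union_subset (range_subset_range.2 (by omega)) hQn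
    · intro i hi hi'
      apply hf
      rw [hmemR]
      rw [mem_union, not_or, mem_range] at hi'
      exact ⟨mem_Ico.2 ⟨by omega, mem_range.1 hi⟩, hi'.2⟩
  have hy0 : ∀ i ∈ R, y i = 0 := by
    intro i hi
    rw [hy]
    dsimp only
    rw [if_pos hi, if_neg ((hmemR i).1 hi).2, sub_self, add_zero]
  have hE1 : ∀ c ∈ Q, ∑ b ∈ range al ∪ Q', (A c b : ℂ) * y b = E c := by
    intro c hc
    rw [← hW _ (fun i hi => by rw [hy0 i hi, mul_zero]), hE]
    exact hE' c hc
  have hD1 : ∀ b < n, ∑ c ∈ Q, (A c b : ℂ) * m1 c +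
      2 * ∑ a ∈ range al ∪ Q', (s a b : ℂ) * y a = D b := by
    intro b hb
    rw [← hW _ (fun i hi => by rw [hy0 i hi, mul_zero]), hD]
    exact hD' b hb
  refine ⟨Q, Q', A, s, τ, m1, m', y, ?_⟩
  refine
    { sub' := by rw [← hn]; exact hQ1
      mem' := hbeQ
      sub := ?_
      ne := hQne
      A1 := hA1
      A0 := hA0
      symm := hss
      s0 := hs0
      mL := ?_
      mL' := hmL'
      hy := ?_
      val := ?_
      ind := ?_ }
  · intro c hc
    rw [mem_union, mem_range]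
    by_cases h4 : c < al
    · exact Or.inl h4
    · exact Or.inr (hQQ c hc (by omega))
  · intro c
    rw [hm1]
    exact L.add_mem (hmL c) (L.sum_mem fun b hb => cmul_mem _ (hxL b (mem_range.1 (hRn hb))))
  · intro i
    rw [hy, ← hn, ← hR]
    dsimp only
    congr 1
    by_cases h4 : i ∈ Q'
    · rw [if_pos h4, if_pos h4]
      symm
      apply sum_subset
      · intro b hb
        rw [mem_sdiff, mem_Ico] at hb
        have h5 := mem_Ico.1 (hQ1 h4)
        rw [hmemR, mem_Ico]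
        exact ⟨⟨hb.1.1, by omega⟩, hb.2⟩
      · intro b hb hb'
        rw [mem_sdiff, mem_Ico, not_and, not_not] at hb'
        have h5 := (hmemR b).1 hb
        have h6 : ¬ b < i := fun h7 => h5.2 (hb' ⟨(mem_Ico.1 h5.1).1, h7⟩)
        rw [hτdef]
        dsimp only
        rw [if_neg h6]
        exact zero_mul _
    · rw [if_neg h4, if_neg h4]
  · have e1 : ∑ a ∈ range al ∪ Q', ∑ b ∈ range al ∪ Q', (s a b : ℂ) * y a * y b =
        ∑ a ∈ range n, ∑ b ∈ range n, (s a b : ℂ) * y a * y b := by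
      rw [hW _ (fun i hi => sum_eq_zero fun b _ => by rw [hy0 i hi, mul_zero, zero_mul])]
      refine sum_congr rfl fun a _ => ?_
      rw [hW _ (fun i hi => by rw [hy0 i hi, mul_zero])]
    have e2 : ∑ c ∈ Q, m1 c * ∑ b ∈ range al ∪ Q', (A c b : ℂ) * y b =
        ∑ c ∈ Q, m1 c * ∑ b ∈ range n, (A c b : ℂ) * y b := by
      refine sum_congr rfl fun c _ => ?_
      rw [hW _ (fun i hi => by rw [hy0 i hi, mul_zero])]
    rw [e1, e2, hv']
    exact hval
  · intro k0 k k' h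
    have h4 : ∑ c ∈ Q, (k c : ℂ) * ∑ b ∈ range al ∪ Q', (A c b : ℂ) * y b =
        ∑ c ∈ Q, (k c : ℂ) * E c := sum_congr rfl fun c hc => by rw [hE1 c hc]
    have h5 : ∑ b ∈ Q', (k' b : ℂ) * (∑ c ∈ Q, (A c b : ℂ) * m1 c +
        2 * ∑ a ∈ range al ∪ Q', (s a b : ℂ) * y a) = ∑ b ∈ Q', (k' b : ℂ) * D b :=
      sum_congr rfl fun b hb => by rw [hD1 b (mem_range.1 (hQn hb))]
    rw [h4, h5] at h
    have h6 : ∀ b ∈ Q', k' b = 0 := by
      have h7 : ∑ b ∈ Q', (k' b : ℂ) * D b ∈ TE := by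
        rw [hmemTE]
        refine ⟨-k0, fun c => -k c, ?_⟩
        push_cast
        simp only [neg_mul, sum_neg_distrib]
        linear_combination h
      have h8 : ∑ b ∈ Q', k' b • TE.mkQ (D b) = 0 := by
        rw [← Submodule.Quotient.mk_eq_zero, ← Submodule.mkQ_apply, map_sum] at h7
        rw [← h7]
        refine sum_congr rfl fun c _ => ?_
        rw [← map_smul, smul_eq]
      exact fun b hb => (linearIndepOn_finset_iff.1 hQ2) k' h8 b hb
    have h7 : ∑ b ∈ Q', (k' b : ℂ) * D b = 0 := by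
      refine sum_eq_zero fun b hb => ?_
      rw [h6 b hb]
      exact zero_mul _
    rw [h7, add_zero] at h
    have h8 := hfree k0 (fun b => ∑ c ∈ Q, k c * A c b) (by
      rw [← h]
      congr 1
      push_cast
      rw [hE]
      simp only [sum_mul, mul_sum]
      rw [sum_comm]
      exact sum_congr rfl fun _ _ => sum_congr rfl fun _ _ => by ring)
    refine ⟨h8.1, fun c hc => ?_, h6⟩
    have h9 := h8.2 c (mem_range.1 (hQ hc))
    rw [sum_eq_single c] at h9
    · rw [hA1 c hc, mul_one] at h9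
      exact h9
    · intro c' hc' hne
      rw [hA0 c' hc' c (Ne.symm hne) (Or.inl hc), mul_zero]
    · intro h10; exact absurd hc h10

end MP60829e.FM
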