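import Pool.Agent.Lib.MP_60829e_nt.FM.Nf
import Pool.Agent.Lib.MP_60829e_nt.HD.Form

/-! # The structure of a relation with logarithms as coefficients, one new variable -/

open MvPolynomial

namespace MP60829e.FM

open MP60829e.ST (Qa Lsp Lt)
open MP60829e.HD (Free SW mem_SW mon)
open MP60829e.SL (smul_eq)

/-- The relations with monomials in `M` and coefficients in the linear forms in logarithms. -/
def GoodM (M : Set (ℕ →₀ ℕ)) (n : ℕ) (x : ℕ → ℂ) : Prop :=
  ∀ P : MvPolynomial ℕ ℂ, (∀ a ∈ P.support, a ∈ M ∧ ∀ b ∈ a.support, b < n) →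
    (∀ a, coeff a P ∈ Lt) → eval x P = 0 → ∀ a, coeff a P ∈ Tn n x

/-- The monomials in `M` and their products with one variable. -/
def MX (M : Set (ℕ →₀ ℕ)) : Set (ℕ →₀ ℕ) := {a | a ∈ M ∨ ∃ m ∈ M, ∃ b, a = m + Finsupp.single b 1}

theorem subset_MX (M : Set (ℕ →₀ ℕ)) : M ⊆ MX M := fun _ h => Or.inl h

theorem isLowerSet_MX {M : Set (ℕ →₀ ℕ)} (hM : IsLowerSet M) : IsLowerSet (MX M) := by
  rintro a c hca (ha | ⟨m, hm, b, rfl⟩)
  · exact Or.inl (hM hca ha)
  · by_cases h : c ≤ m
    · exact Or.inl (hM h hm)
    · refine Or.inr ⟨c - Finsupp.single b 1, hM ?_ hm, b, ?_⟩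
      · exact tsub_le_iff_right.2 hca
      · refine (tsub_add_cancel_of_le ?_).symm
        rw [Finsupp.single_le_iff]
        by_contra h1
        apply h
        intro i
        have h2 := hca i
        rw [Finsupp.add_apply, Finsupp.single_apply] at h2
        by_cases h3 : b = i
        · subst h3
          omega
        · rw [if_neg h3] at h2
          omega

theorem finite_MX {M : Set (ℕ →₀ ℕ)} (hM : IsLowerSet M)
    (hfin : ∀ n, {a : ℕ →₀ ℕ | a ∈ M ∧ ∀ b ∈ a.support, b < n}.Finite) (n : ℕ) :
    {a : ℕ →₀ ℕ | a ∈ MX M ∧ ∀ b ∈ a.support, b < n}.Finite := by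
  refine ((hfin n).union (((hfin n).prod (Finset.range n).finite_toSet).image
    fun p : (ℕ →₀ ℕ) × ℕ => p.1 + Finsupp.single p.2 1)).subset ?_
  rintro a ⟨ha | ⟨m, hm, b, rfl⟩, han⟩
  · exact Or.inl ⟨ha, han⟩
  · refine Or.inr ⟨(m, b), ⟨⟨hm, fun i hi => han i ?_⟩, ?_⟩, rfl⟩
    · dsimp only at hi
      rw [Finsupp.mem_support_iff] at hi ⊢
      rw [Finsupp.add_apply]
      omega
    · rw [Finset.mem_coe, Finset.mem_range]
      apply han
      rw [Finsupp.mem_support_iff, Finsupp.add_apply, Finsupp.single_eq_same]
      omega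

/-- The exponent of the new variable. -/
noncomputable def sh {n : ℕ} : Option (Fin n) → (ℕ →₀ ℕ)
  | none => 0
  | some a => Finsupp.single a.1 1

/-- The relation with the coefficients `l` on `S` and linear forms over `Qa` on `S'`. -/
noncomputable def Ph (n : ℕ) (S S' : Finset (ℕ →₀ ℕ)) (l : (ℕ →₀ ℕ) → ℂ)
    (t : (ℕ →₀ ℕ) → Option (Fin n) → Qa) : MvPolynomial ℕ ℂ :=
  ∑ m ∈ S, monomial m (l m) + ∑ m ∈ S', ∑ o : Option (Fin n), monomial (m + sh o) (t m o : ℂ)

theorem eval_monomial' (x : ℕ → ℂ) (m : ℕ →₀ ℕ) (c : ℂ) :
    eval x (monomial m c) = c * mon m x := by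
  rw [eval_monomial]
  rfl

theorem mon_sh {n : ℕ} (x : ℕ → ℂ) (m : ℕ →₀ ℕ) (o : Option (Fin n)) :
    mon (m + sh o) x = mon m x * o.elim 1 fun a => x a.1 := by
  have h : ∀ m : ℕ →₀ ℕ, mon m x = eval x (monomial m (1 : ℂ)) := fun m => by
    rw [eval_monomial', one_mul]
  rcases o with _ | a
  · show mon (m + 0) x = _
    rw [add_zero]
    exact (mul_one _).symm
  · show mon (m + Finsupp.single a.1 1) x = _
    rw [h, h, monomial_add_single, map_mul, pow_one, eval_X]
    rfl

/-- Independence of the monomials. -/
theorem mon_indep {M : Set (ℕ →₀ ℕ)} {n : ℕ} {x : ℕ → ℂ} (hfree : Free (MX M) n x)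
    (S : Finset (ℕ →₀ ℕ)) (hS : ∀ m ∈ S, m ∈ M ∧ ∀ b ∈ m.support, b < n) (k : (ℕ →₀ ℕ) → Qa)
    (h : ∑ m ∈ S, (k m : ℂ) * mon m x = 0) : ∀ m ∈ S, k m = 0 := by
  classical
  obtain ⟨P, hP⟩ : ∃ P : MvPolynomial ℕ Qa, P = ∑ m ∈ S, monomial m (k m) := ⟨_, rfl⟩
  have hco : ∀ a, coeff a P = if a ∈ S then k a else 0 := by
    intro a
    rw [hP, coeff_sum]
    simp only [coeff_monomial]
    rw [Finset.sum_ite_eq' S a k]
  have h0 : P = 0 := by
    refine hfree P (fun a ha => ?_) ?_
    · rw [MvPolynomial.mem_support_iff, hco] at ha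
      have h1 : a ∈ S := by
        by_contra h2
        exact ha (if_neg h2)
      exact ⟨Or.inl (hS a h1).1, (hS a h1).2⟩
    · rw [hP, map_sum, ← h]
      refine Finset.sum_congr rfl fun m _ => ?_
      rw [aeval_monomial]
      rfl
  intro m hm
  have h1 := hco m
  rw [h0, coeff_zero, if_pos hm] at h1
  exact h1.symm

theorem structM {M : Set (ℕ →₀ ℕ)} (hM : IsLowerSet M)
    (hfin : ∀ n, {a : ℕ →₀ ℕ | a ∈ M ∧ ∀ b ∈ a.support, b < n}.Finite) {be : ℕ} (x : ℕ → ℂ)
    (hx : x be ∈ Lt) (hprev : GoodM M be x) (hfree : Free (MX M) (be + 1) x)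
    (h : ¬ GoodM M (be + 1) x) (L : Submodule Qa ℂ)
    (hL : ∀ P : MvPolynomial ℕ ℂ, (∀ a ∈ P.support, a ∈ M ∧ ∀ b ∈ a.support, b < be + 1) →
      (∀ a, coeff a P ∈ Lt) → eval x P = 0 → ∀ a, coeff a P ∈ L) :
    ∃ S : Finset (ℕ →₀ ℕ), (S = SW M (Finset.range (be + 1)) ∨ S = SW M (Finset.range be)) ∧
      ∃ (l : (ℕ →₀ ℕ) → ℂ) (t : (ℕ →₀ ℕ) → Option (Fin (be + 1)) → Qa),
        (∀ m, l m ∈ L) ∧
        eval x (Ph (be + 1) S (SW M (Finset.range (be + 1)) \ S) l t) = 0 ∧
        ∀ (k : (ℕ →₀ ℕ) → Qa) (k' : Qa), ∑ m ∈ S, (k m : ℂ) * mon m x +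
          (k' : ℂ) * eval x (pderiv be (Ph (be + 1) S (SW M (Finset.range (be + 1)) \ S) l t)) =
            0 → (∀ m ∈ S, k m = 0) ∧ k' = 0 := by
  classical
  obtain ⟨n, hn⟩ : ∃ n, n = be + 1 := ⟨_, rfl⟩
  have hQaL : ∀ c : Qa, (c : ℂ) ∈ Lt := fun c => coe_mem SL.one_mem_Lt c
  have hmemn : ∀ a, a ∈ SW M (Finset.range (be + 1)) ↔
      a ∈ M ∧ ∀ b ∈ a.support, b < be + 1 := by
    intro a
    rw [mem_SW hfin]
    exact and_congr_right fun _ => ⟨fun h b hb => Finset.mem_range.1 (h hb),
      fun h b hb => Finset.mem_range.2 (h b hb)⟩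
  have hmemb : ∀ a, a ∈ SW M (Finset.range be) ↔ a ∈ M ∧ ∀ b ∈ a.support, b < be := by
    intro a
    rw [mem_SW hfin]
    exact and_congr_right fun _ => ⟨fun h b hb => Finset.mem_range.1 (h hb),
      fun h b hb => Finset.mem_range.2 (h b hb)⟩
  -- the minimal bad relation
  have hex : ∃ d : ℕ, ∃ P : MvPolynomial ℕ ℂ,
      (∀ a ∈ P.support, a ∈ M ∧ ∀ b ∈ a.support, b < be + 1) ∧ (∀ a, coeff a P ∈ Lt) ∧
        eval x P = 0 ∧ (∃ a, coeff a P ∉ Tn (be + 1) x) ∧
          ∀ a, coeff a P ∉ Tn (be + 1) x → a be ≤ d := by
    unfold GoodM at h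
    push Not at h
    obtain ⟨P, h1, h2, h3, h4⟩ := h
    refine ⟨P.support.sup fun a => a be, P, h1, h2, h3, h4, fun a ha => ?_⟩
    refine Finset.le_sup (f := fun a : ℕ →₀ ℕ => a be) (MvPolynomial.mem_support_iff.2 fun h5 => ?_)
    rw [h5] at ha
    exact ha (Submodule.zero_mem _)
  obtain ⟨d, hd⟩ : ∃ d, d = Nat.find hex := ⟨_, rfl⟩
  obtain ⟨P, hP1, hP2, hP3, hP4, hP5⟩ := Nat.find_spec hex
  have hmin : ∀ m < d, ¬ ∃ P : MvPolynomial ℕ ℂ,
      (∀ a ∈ P.support, a ∈ M ∧ ∀ b ∈ a.support, b < be + 1) ∧ (∀ a, coeff a P ∈ Lt) ∧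
        eval x P = 0 ∧ (∃ a, coeff a P ∉ Tn (be + 1) x) ∧
          ∀ a, coeff a P ∉ Tn (be + 1) x → a be ≤ m := by
    intro m hm
    rw [hd] at hm
    exact Nat.find_min hex hm
  rw [← hd] at hP5
  clear hd
  have hPsum : ∀ y : ℕ → ℂ, eval y P = ∑ m ∈ SW M (Finset.range (be + 1)),
      coeff m P * mon m y := by
    intro y
    rw [eval_eq]
    apply Finset.sum_subset
    · intro m hm
      exact (hmemn m).2 (hP1 m hm)
    · intro m _ hm
      rw [MvPolynomial.notMem_support_iff.1 hm, zero_mul]
  rcases Nat.eq_zero_or_pos d with hd0 | hd0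
  · -- the new variable does not occur
    subst hd0
    -- the linear forms
    have h3 : ∀ m : ℕ →₀ ℕ, ∃ t : Option (Fin (be + 1)) → Qa, m be ≠ 0 →
        coeff m P = ∑ o, (t o : ℂ) * o.elim 1 fun a => x a.1 := by
      intro m
      by_cases hm : m be ≠ 0
      · have h4 : coeff m P ∈ Tn (be + 1) x := by
          by_contra h5
          exact hm (Nat.le_zero.1 (hP5 m h5))
        obtain ⟨t0, t, ht⟩ := mem_Tn.1 h4
        refine ⟨fun o => o.elim t0 fun a => t a.1, fun _ => ?_⟩
        rw [ht, Fintype.sum_option]
        simp only [Option.elim_none, Option.elim_some, mul_one]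
        congr 1
        exact (Fin.sum_univ_eq_sum_range (fun a => (t a : ℂ) * x a) (be + 1)).symm
      · exact ⟨0, fun h => absurd h hm⟩
    choose t ht using h3
    obtain ⟨S, hS⟩ : ∃ S, S = SW M (Finset.range be) := ⟨_, rfl⟩
    obtain ⟨S', hS'⟩ : ∃ S', S' = SW M (Finset.range (be + 1)) \ S := ⟨_, rfl⟩
    have hSn : S ⊆ SW M (Finset.range (be + 1)) := by
      intro m hm
      rw [hS] at hm
      have h4 := (hmemb m).1 hm
      exact (hmemn m).2 ⟨h4.1, fun b hb => (h4.2 b hb).trans (Nat.lt_succ_self _)⟩
    have hS0 : ∀ m ∈ S, m be = 0 := by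
      intro m hm
      rw [hS] at hm
      by_contra h4
      exact absurd (((hmemb m).1 hm).2 be (Finsupp.mem_support_iff.2 h4)) (lt_irrefl _)
    have hS'1 : ∀ m ∈ S', m ∈ SW M (Finset.range (be + 1)) ∧ m be ≠ 0 := by
      intro m hm
      rw [hS', Finset.mem_sdiff] at hm
      refine ⟨hm.1, fun h4 => hm.2 ?_⟩
      rw [hS, hmemb]
      have h5 := (hmemn m).1 hm.1
      refine ⟨h5.1, fun b hb => ?_⟩
      have h6 := h5.2 b hb
      have h7 : b ≠ be := by
        rintro rfl
        exact (Finsupp.mem_support_iff.1 hb) h4
      omega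
    obtain ⟨R0, hR0⟩ : ∃ R0 : MvPolynomial ℕ Qa, R0 = ∑ m ∈ S', ∑ o : Option (Fin (be + 1)),
        monomial (m + sh o) (t m o) := ⟨_, rfl⟩
    have hPh : Ph (be + 1) S S' (fun m => coeff m P) t = ∑ m ∈ S, monomial m (coeff m P) +
        map (algebraMap Qa ℂ) R0 := by
      unfold Ph
      rw [hR0, map_sum]
      congr 1
      refine Finset.sum_congr rfl fun m _ => ?_
      rw [map_sum]
      refine Finset.sum_congr rfl fun o _ => ?_
      rw [map_monomial]
      rfl
    have hevS : ∀ y : ℕ → ℂ, eval y (∑ m ∈ S, monomial m (coeff m P)) =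
        ∑ m ∈ S, coeff m P * mon m y := by
      intro y
      rw [map_sum]
      exact Finset.sum_congr rfl fun m _ => eval_monomial' y m _
    have hevR : aeval x R0 = ∑ m ∈ S', coeff m P * mon m x := by
      rw [hR0, map_sum]
      refine Finset.sum_congr rfl fun m hm => ?_
      rw [map_sum, ht m (hS'1 m hm).2, Finset.sum_mul]
      refine Finset.sum_congr rfl fun o _ => ?_
      rw [aeval_monomial]
      have h4 : (m + sh o).prod (fun i k => x i ^ k) = mon (m + sh o) x := rfl
      rw [h4, mon_sh]
      have h5 : algebraMap Qa ℂ (t m o) = (t m o : ℂ) := rfl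
      rw [h5]
      ring
    have hR1 : ∀ a ∈ R0.support, (a ∈ MX M ∧ ∀ b ∈ a.support, b < be + 1) ∧ a be ≠ 0 := by
      intro a ha
      rw [MvPolynomial.mem_support_iff, hR0, coeff_sum] at ha
      obtain ⟨m, hm, hm'⟩ := Finset.exists_ne_zero_of_sum_ne_zero ha
      rw [coeff_sum] at hm'
      obtain ⟨o, -, ho⟩ := Finset.exists_ne_zero_of_sum_ne_zero hm'
      rw [coeff_monomial] at ho
      have h4 : m + sh o = a := by
        by_contra h5
        exact ho (if_neg h5)
      obtain ⟨h5, h6⟩ := hS'1 m hm
      have h7 := (hmemn m).1 h5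
      rw [← h4]
      refine ⟨⟨?_, ?_⟩, ?_⟩
      · rcases o with _ | c
        · left
          show m + 0 ∈ M
          rw [add_zero]
          exact h7.1
        · exact Or.inr ⟨m, h7.1, c.1, rfl⟩
      · intro b hb
        rcases o with _ | c
        · have h8 : b ∈ (m + 0).support := hb
          rw [add_zero] at h8
          exact h7.2 b h8
        · have h8 : b ∈ (m + Finsupp.single c.1 1).support := hb
          rw [Finsupp.mem_support_iff, Finsupp.add_apply] at h8
          by_cases h9 : m b = 0
          · have h10 : Finsupp.single c.1 1 b ≠ 0 := by omega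
            have h11 : c.1 = b := by
              by_contra h12
              exact h10 (Finsupp.single_eq_of_ne (Ne.symm h12))
            rw [← h11]
            exact c.2
          · exact h7.2 b (Finsupp.mem_support_iff.2 h9)
      · rw [Finsupp.add_apply]
        omega
    refine ⟨S, Or.inr hS, fun m => coeff m P, t, fun m => hL P hP1 hP2 hP3 m, ?_, ?_⟩
    · rw [← hS', hPh, map_add, hevS, eval_map, ← aeval_def, hevR, ← hP3, hPsum, hS', add_comm]
      exact Finset.sum_sdiff hSn
    · rw [← hS', hPh]
      intro k k' hk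
      have hpd : eval x (pderiv be (∑ m ∈ S, monomial m (coeff m P) +
          map (algebraMap Qa ℂ) R0)) = aeval x (pderiv be R0) := by
        rw [map_add, map_add, map_sum, map_sum, Finset.sum_eq_zero, zero_add, pderiv_map,
          eval_map]
        · rfl
        · intro m hm
          rw [pderiv_monomial, hS0 m hm, Nat.cast_zero, mul_zero, map_zero, map_zero]
      rw [hpd] at hk
      have hSn' : ∀ m ∈ S, m ∈ M ∧ ∀ b ∈ m.support, b < be + 1 := fun m hm =>
        (hmemn m).1 (hSn hm)
      by_cases hk' : k' = 0
      · refine ⟨mon_indep hfree S hSn' k ?_, hk'⟩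
        rw [hk'] at hk
        have h4 : ((0 : Qa) : ℂ) = 0 := rfl
        rw [h4, zero_mul, add_zero] at hk
        exact hk
      · exfalso
        -- the derivative of R0 is formal
        obtain ⟨R1, hR1'⟩ : ∃ R1 : MvPolynomial ℕ Qa, R1 = pderiv be R0 +
            ∑ m ∈ S, monomial m (k m / k') := ⟨_, rfl⟩
        have hcoS : ∀ a, coeff a (∑ m ∈ S, monomial m (k m / k')) =
            if a ∈ S then k a / k' else 0 := by
          intro a
          rw [coeff_sum]
          simp only [coeff_monomial]
          rw [Finset.sum_ite_eq' S a fun m => k m / k']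
        have hkc : (k' : ℂ) ≠ 0 := fun h => hk' (Subtype.ext h)
        have hR10 : R1 = 0 := by
          refine hfree R1 (fun a ha => ?_) ?_
          · rw [MvPolynomial.mem_support_iff, hR1', coeff_add, hcoS] at ha
            by_cases h4 : a ∈ S
            · exact ⟨Or.inl (hSn' a h4).1, (hSn' a h4).2⟩
            · rw [if_neg h4, add_zero, coeff_pderiv] at ha
              have h5 := (hR1 _ (MvPolynomial.mem_support_iff.2 (left_ne_zero_of_mul ha))).1
              refine ⟨isLowerSet_MX hM (self_le_add_right _ _) h5.1, fun b hb => h5.2 b ?_⟩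
              rw [Finsupp.mem_support_iff] at hb ⊢
              rw [Finsupp.add_apply]
              omega
          · rw [hR1', map_add, map_sum]
            have h4 : ∑ m ∈ S, aeval x (monomial m (k m / k') : MvPolynomial ℕ Qa) =
                (∑ m ∈ S, (k m : ℂ) * mon m x) / k' := by
              rw [Finset.sum_div]
              refine Finset.sum_congr rfl fun m _ => ?_
              rw [aeval_monomial]
              have h5 : algebraMap Qa ℂ (k m / k') = (k m : ℂ) / k' := by
                rw [map_div₀]
                rfl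
              have h6 : m.prod (fun i k => x i ^ k) = mon m x := rfl
              rw [h5, h6]
              ring
            rw [h4]
            field_simp
            linear_combination hk
        have hcoR : ∀ a, coeff a R0 = if a be = 0 then 0 else
            if a - Finsupp.single be 1 ∈ S then -(k (a - Finsupp.single be 1) / k') else 0 := by
          intro a
          by_cases h4 : a be = 0
          · rw [if_pos h4]
            by_contra h5
            exact (hR1 a (MvPolynomial.mem_support_iff.2 h5)).2 h4
          · rw [if_neg h4]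
            obtain ⟨a', ha'⟩ : ∃ a' : ℕ →₀ ℕ, a' = a - Finsupp.single be 1 := ⟨_, rfl⟩
            have h5 : a' + Finsupp.single be 1 = a := by
              rw [ha']
              exact tsub_add_cancel_of_le (by
                rw [Finsupp.single_le_iff]
                omega)
            rw [← ha', ← h5]
            have h6 : coeff a' R1 = 0 := by rw [hR10, coeff_zero]
            rw [hR1', coeff_add, hcoS, coeff_pderiv] at h6
            have h7 : ((a' be : Qa) + 1) ≠ 0 := by exact_mod_cast Nat.succ_ne_zero (a' be)
            by_cases h8 : a' ∈ S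
            · rw [if_pos h8, hS0 a' h8] at h6
              rw [if_pos h8]
              rw [Nat.cast_zero, zero_add, mul_one] at h6
              exact eq_neg_of_add_eq_zero_left h6
            · rw [if_neg h8, add_zero] at h6
              rw [if_neg h8]
              exact (mul_eq_zero.1 h6).resolve_right h7
        have hR0eq : R0 = ∑ m ∈ S, monomial (m + Finsupp.single be 1) (-(k m / k')) := by
          refine MvPolynomial.ext _ _ fun a => ?_
          rw [hcoR, coeff_sum]
          simp only [coeff_monomial]
          by_cases h4 : a be = 0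
          · rw [if_pos h4, Finset.sum_eq_zero]
            intro m _
            rw [if_neg]
            intro h5
            rw [← h5, Finsupp.add_apply, Finsupp.single_eq_same] at h4
            omega
          · rw [if_neg h4]
            have h5 : a - Finsupp.single be 1 + Finsupp.single be 1 = a :=
              tsub_add_cancel_of_le (by
                rw [Finsupp.single_le_iff]
                omega)
            by_cases h6 : a - Finsupp.single be 1 ∈ S
            · rw [if_pos h6, Finset.sum_eq_single_of_mem _ h6]
              · rw [if_pos h5]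
              · intro m _ hm
                rw [if_neg]
                intro h7
                apply hm
                rw [← h7, add_tsub_cancel_right]
            · rw [if_neg h6, Finset.sum_eq_zero]
              intro m hm
              rw [if_neg]
              intro h7
              apply h6
              rw [← h7, add_tsub_cancel_right]
              exact hm
        have hevR' : aeval x R0 = ∑ m ∈ S, (-((k m / k' : Qa) : ℂ) * x be) * mon m x := by
          rw [hR0eq, map_sum]
          refine Finset.sum_congr rfl fun m _ => ?_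
          rw [aeval_monomial]
          have h4 : (m + Finsupp.single be 1).prod (fun i k => x i ^ k) =
              mon (m + sh (some (⟨be, Nat.lt_succ_self be⟩ : Fin (be + 1)))) x := rfl
          rw [h4, mon_sh]
          have h5 : algebraMap Qa ℂ (-(k m / k')) = -((k m / k' : Qa) : ℂ) := by
            rw [map_neg]
            rfl
          rw [h5]
          simp only [Option.elim_some]
          ring
        -- the relation of the first numbers
        have h6 := hprev (∑ m ∈ S, monomial m (coeff m P - ((k m / k' : Qa) : ℂ) * x be))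
          (by
            intro a ha
            rw [MvPolynomial.mem_support_iff, coeff_sum] at ha
            obtain ⟨m, hm, hm'⟩ := Finset.exists_ne_zero_of_sum_ne_zero ha
            rw [coeff_monomial] at hm'
            have h5 : m = a := by
              by_contra h5
              exact hm' (if_neg h5)
            rw [← h5]
            rw [hS] at hm
            exact (hmemb m).1 hm)
          (by
            intro a
            rw [coeff_sum]
            refine Submodule.sum_mem _ fun m _ => ?_
            rw [coeff_monomial]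
            split_ifs
            · exact Lt.sub_mem (hP2 m) (cmul_mem _ hx)
            · exact Lt.zero_mem)
          (by
            rw [map_sum]
            have h7 : ∑ m ∈ S, eval x (monomial m (coeff m P -
                ((k m / k' : Qa) : ℂ) * x be)) = ∑ m ∈ S, coeff m P * mon m x +
                  aeval x R0 := by
              rw [hevR', ← Finset.sum_add_distrib]
              refine Finset.sum_congr rfl fun m _ => ?_
              rw [eval_monomial']
              ring
            rw [h7, hevR, ← hP3, hPsum, hS', add_comm]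
            exact Finset.sum_sdiff hSn)
        obtain ⟨a, ha⟩ := hP4
        have ha0 : a be = 0 := Nat.le_zero.1 (hP5 a ha)
        have haP : a ∈ P.support := by
          rw [MvPolynomial.mem_support_iff]
          intro h7
          rw [h7] at ha
          exact ha (Submodule.zero_mem _)
        have haS : a ∈ S := by
          rw [hS, hmemb]
          have h7 := hP1 a haP
          refine ⟨h7.1, fun b hb => ?_⟩
          have h8 := h7.2 b hb
          have h9 : b ≠ be := by
            rintro rfl
            exact (Finsupp.mem_support_iff.1 hb) ha0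
          omega
        have h7 := h6 a
        rw [coeff_sum] at h7
        simp only [coeff_monomial] at h7
        rw [Finset.sum_ite_eq' S a, if_pos haS] at h7
        apply ha
        have h8 : coeff a P = (coeff a P - ((k a / k' : Qa) : ℂ) * x be) +
            ((k a / k' : Qa) : ℂ) * x be := by ring
        rw [h8]
        exact (Tn (be + 1) x).add_mem (Tn_mono (by omega) x h7)
          (cmul_mem _ (x_mem_Tn x (Nat.lt_succ_self be)))
  · -- the new variable occurs
    have hPh : Ph (be + 1) (SW M (Finset.range (be + 1)))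
        (SW M (Finset.range (be + 1)) \ SW M (Finset.range (be + 1)))
        (fun m => coeff m P) 0 = P := by
      unfold Ph
      rw [Finset.sdiff_self, Finset.sum_empty, add_zero]
      refine MvPolynomial.ext _ _ fun a => ?_
      rw [coeff_sum]
      simp only [coeff_monomial]
      rw [Finset.sum_ite_eq' _ a fun m => coeff m P]
      by_cases h4 : a ∈ SW M (Finset.range (be + 1))
      · rw [if_pos h4]
      · rw [if_neg h4]
        symm
        by_contra h5
        exact h4 ((hmemn a).2 (hP1 a (MvPolynomial.mem_support_iff.2 h5)))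
    refine ⟨SW M (Finset.range (be + 1)), Or.inl rfl, fun m => coeff m P, 0,
      fun m => hL P hP1 hP2 hP3 m, ?_, ?_⟩
    · rw [hPh]
      exact hP3
    · rw [hPh]
      intro k k' hk
      by_cases hk' : k' = 0
      · refine ⟨mon_indep hfree _ (fun m hm => (hmemn m).1 hm) k ?_, hk'⟩
        rw [hk'] at hk
        have h4 : ((0 : Qa) : ℂ) = 0 := rfl
        rw [h4, zero_mul, add_zero] at hk
        exact hk
      · exfalso
        have hkc : (k' : ℂ) ≠ 0 := fun h => hk' (Subtype.ext h)
        obtain ⟨S, hS⟩ : ∃ S, S = SW M (Finset.range (be + 1)) := ⟨_, rfl⟩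
        rw [← hS] at hk
        obtain ⟨P', hP'⟩ : ∃ P' : MvPolynomial ℕ ℂ, P' = pderiv be P +
            ∑ m ∈ S, monomial m ((k m / k' : Qa) : ℂ) := ⟨_, rfl⟩
        have hco : ∀ a, coeff a P' = coeff (a + Finsupp.single be 1) P * (a be + 1) +
            if a ∈ S then ((k a / k' : Qa) : ℂ) else 0 := by
          intro a
          rw [hP', coeff_add, coeff_pderiv, coeff_sum]
          simp only [coeff_monomial]
          rw [Finset.sum_ite_eq' S a fun m => ((k m / k' : Qa) : ℂ)]
        have hnat : ∀ c : ℕ, ((c : ℂ) + 1) = (((c : Qa) + 1 : Qa) : ℂ) := by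
          intro c
          push_cast
          rfl
        have h1 : ∀ a ∈ P'.support, a ∈ M ∧ ∀ b ∈ a.support, b < be + 1 := by
          intro a ha
          rw [MvPolynomial.mem_support_iff, hco] at ha
          by_cases h4 : a ∈ S
          · rw [hS] at h4
            exact (hmemn a).1 h4
          · rw [if_neg h4, add_zero] at ha
            have h5 := hP1 _ (MvPolynomial.mem_support_iff.2 (left_ne_zero_of_mul ha))
            refine ⟨hM (self_le_add_right _ _) h5.1, fun b hb => h5.2 b ?_⟩
            rw [Finsupp.mem_support_iff] at hb ⊢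
            rw [Finsupp.add_apply]
            omega
        have h2 : ∀ a, coeff a P' ∈ Lt := by
          intro a
          rw [hco]
          refine Lt.add_mem ?_ ?_
          · rw [hnat, mul_comm]
            exact cmul_mem _ (hP2 _)
          · split_ifs
            · exact hQaL _
            · exact Lt.zero_mem
        have h3 : eval x P' = 0 := by
          rw [hP', map_add, map_sum]
          have h4 : ∑ m ∈ S, eval x (monomial m ((k m / k' : Qa) : ℂ)) =
              (∑ m ∈ S, (k m : ℂ) * mon m x) / k' := by
            rw [Finset.sum_div]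
            refine Finset.sum_congr rfl fun m _ => ?_
            rw [eval_monomial']
            have h5 : ((k m / k' : Qa) : ℂ) = (k m : ℂ) / k' := by
              push_cast
              rfl
            rw [h5]
            ring
          rw [h4]
          field_simp
          linear_combination hk
        have h1T : ∀ c : Qa, (c : ℂ) ∈ Tn (be + 1) x := fun c => coe_mem (one_mem_Tn _ _) c
        have hitT : ∀ a, (if a ∈ S then ((k a / k' : Qa) : ℂ) else 0) ∈ Tn (be + 1) x := by
          intro a
          split_ifs
          · exact h1T _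
          · exact Submodule.zero_mem _
        have hcoT : ∀ a, coeff a P' ∈ Tn (be + 1) x →
            coeff (a + Finsupp.single be 1) P ∈ Tn (be + 1) x := by
          intro a ha
          rw [hco] at ha
          have h4 := (Submodule.add_mem_iff_left _ (hitT a)).1 ha
          rw [hnat, mul_comm] at h4
          have h5 : ((a be : Qa) + 1) ≠ 0 := by exact_mod_cast Nat.succ_ne_zero (a be)
          have h6 := cmul_mem (((a be : Qa) + 1)⁻¹) h4
          rw [← mul_assoc] at h6
          have h7 : (((((a be : Qa) + 1)⁻¹ : Qa) : ℂ)) * (((a be : Qa) + 1 : Qa) : ℂ) = 1 := by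
            have h8 := congrArg (fun z : Qa => (z : ℂ)) (inv_mul_cancel₀ h5)
            push_cast at h8 ⊢
            exact h8
          rw [h7, one_mul] at h6
          exact h6
        have hcoT' : ∀ a, coeff (a + Finsupp.single be 1) P ∈ Tn (be + 1) x →
            coeff a P' ∈ Tn (be + 1) x := by
          intro a ha
          rw [hco]
          refine Submodule.add_mem _ ?_ (hitT a)
          rw [hnat, mul_comm]
          exact cmul_mem _ ha
        -- the coefficient of maximal exponent
        have hex2 : ∃ a0, coeff a0 P ∉ Tn (be + 1) x ∧ a0 be = d := by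
          by_contra hcon
          push Not at hcon
          refine hmin (d - 1) (by omega) ⟨P, hP1, hP2, hP3, hP4, fun a ha => ?_⟩
          have h4 := hP5 a ha
          have h5 := hcon a ha
          omega
        obtain ⟨a0, ha0, ha0'⟩ := hex2
        refine hmin (d - 1) (by omega) ⟨P', h1, h2, h3, ⟨a0 - Finsupp.single be 1, ?_⟩, ?_⟩
        · intro h4
          have h5 := hcoT _ h4
          rw [tsub_add_cancel_of_le (by
            rw [Finsupp.single_le_iff]
            omega)] at h5
          exact ha0 h5
        · intro a ha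
          have h4 : coeff (a + Finsupp.single be 1) P ∉ Tn (be + 1) x := fun h5 => ha (hcoT' a h5)
          have h5 := hP5 _ h4
          rw [Finsupp.add_apply, Finsupp.single_eq_same] at h5
          omega

end MP60829e.FM
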